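import Pool.Agent.S9.Dict

/-!
# S9: chains and cycles of a level as chains and cycles of the finite quotient
-/

set_option autoImplicit false
set_option linter.unusedSectionVars false

open Finset

namespace Pool.Agent.S9

open Pool.Agent.H77.SW Pool.Agent.H19.SR Pool.Agent.H73.GC

variable {V : Type} [DecidableEq V] [Fintype V]

/-- chains of degree `d` with coefficients in a space with operators -/
def Cz (K : Type) [Field K] (G : SimpleGraph V) (d : ℕ) {Y : Type} [AddCommGroup Y] [Module K Y]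
    (r : V → Y →ₗ[K] Y) : Submodule K (Finset V → Y) where
  carrier := {z | (∀ σ, z σ ≠ 0 → G.IsClique (σ : Set V) ∧ σ.card = d) ∧ ∀ σ, ∀ v ∈ σ, r v (z σ) = z σ}
  zero_mem' := by
    refine ⟨fun σ h => absurd rfl h, fun σ v _ => ?_⟩
    simp
  add_mem' := by
    rintro z w ⟨h1, h2⟩ ⟨h4, h5⟩
    refine ⟨fun σ h => ?_, fun σ v hv => ?_⟩
    · by_cases hz : z σ = 0
      · by_cases hw : w σ = 0
        · exact absurd (by simp [hz, hw]) h
        · exact h4 σ hw
      · exact h1 σ hz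
    · rw [Pi.add_apply, map_add, h2 σ v hv, h5 σ v hv]
  smul_mem' := by
    rintro c z ⟨h1, h2⟩
    refine ⟨fun σ h => h1 σ fun h0 => h ?_, fun σ v hv => ?_⟩
    · rw [Pi.smul_apply, h0, smul_zero]
    · rw [Pi.smul_apply, map_smul, h2 σ v hv]

theorem mem_Cz {K : Type} [Field K] {G : SimpleGraph V} {d : ℕ} {Y : Type} [AddCommGroup Y]
    [Module K Y] {r : V → Y →ₗ[K] Y} {z : Finset V → Y} : z ∈ Cz K G d r ↔
      (∀ σ, z σ ≠ 0 → G.IsClique (σ : Set V) ∧ σ.card = d) ∧ ∀ σ, ∀ v ∈ σ, r v (z σ) = z σ := Iff.rfl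

variable {G : SimpleGraph V} {W : Type} [Group W]

section Dict

variable (R : Rac G W) {Γ : Subgroup W} [Γ.Normal] (hΓ : Lev R Γ)

/-- the element of `Γ` from the representative to `w` -/
noncomputable def wg (Γ : Subgroup W) [Γ.Normal] (w : W) : Γ :=
  ⟨w * (QuotientGroup.mk w : W ⧸ Γ).out⁻¹, by
    rw [← QuotientGroup.eq_one_iff, QuotientGroup.mk_mul, QuotientGroup.mk_inv, QuotientGroup.out_eq', mul_inv_cancel]⟩

theorem wg_out_eq (w : W) : (wg Γ w : W) * (QuotientGroup.mk w : W ⧸ Γ).out = w := by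
  change w * (QuotientGroup.mk w : W ⧸ Γ).out⁻¹ * (QuotientGroup.mk w : W ⧸ Γ).out = w
  rw [inv_mul_cancel_right]

theorem mk_coe_mul (g : Γ) (w : W) : (QuotientGroup.mk ((g : W) * w) : W ⧸ Γ) = QuotientGroup.mk w := by
  rw [QuotientGroup.mk_mul, (QuotientGroup.eq_one_iff (g : W)).2 g.2, one_mul]

theorem wg_mul (g : Γ) (w : W) : wg Γ ((g : W) * w) = g * wg Γ w := by
  apply Subtype.ext
  change (g : W) * w * (QuotientGroup.mk ((g : W) * w) : W ⧸ Γ).out⁻¹ = g * (w * (QuotientGroup.mk w : W ⧸ Γ).out⁻¹)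
  rw [mk_coe_mul, mul_assoc]

theorem wg_out (p : W ⧸ Γ) : wg Γ p.out = 1 := by
  apply Subtype.ext
  change p.out * (QuotientGroup.mk p.out : W ⧸ Γ).out⁻¹ = 1
  rw [QuotientGroup.out_eq', mul_inv_cancel]

theorem wg_s (w : W) (v : V) : wg Γ (w * R.s v) = wg Γ w * gam R v (QuotientGroup.mk w) := by
  apply Subtype.ext
  change w * R.s v * (QuotientGroup.mk (w * R.s v) : W ⧸ Γ).out⁻¹ = w * (QuotientGroup.mk w : W ⧸ Γ).out⁻¹ *
    ((QuotientGroup.mk w : W ⧸ Γ).out * R.s v * ((QuotientGroup.mk w : W ⧸ Γ) * QuotientGroup.mk (R.s v)).out⁻¹)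
  rw [QuotientGroup.mk_mul]
  simp only [mul_assoc, inv_mul_cancel_left]

variable {K : Type} [Field K] {N : Type} [AddCommGroup N] [Module K N]

/-- the restriction to the representatives -/
noncomputable def toP (K : Type) [Field K] (Γ : Subgroup W) [Γ.Normal] {N : Type} [AddCommGroup N] [Module K N] :
    (Finset V → W → N) →ₗ[K] (Finset V → W ⧸ Γ → N) where
  toFun c A p := c A p.out
  map_add' _ _ := rfl
  map_smul' _ _ := rfl

/-- the equivariant extension -/
noncomputable def ofP (ρ : Γ →* Module.End K N) : (Finset V → W ⧸ Γ → N) →ₗ[K] (Finset V → W → N) where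
  toFun f A w := ρ (wg Γ w) (f A (QuotientGroup.mk w))
  map_add' f f' := by
    funext A w
    exact map_add (ρ (wg Γ w)) _ _
  map_smul' a f := by
    funext A w
    exact map_smul (ρ (wg Γ w)) a _

theorem toP_apply (c : Finset V → W → N) (A : Finset V) (p : W ⧸ Γ) : toP K Γ c A p = c A p.out := rfl

theorem ofP_apply (ρ : Γ →* Module.End K N) (f : Finset V → W ⧸ Γ → N) (A : Finset V) (w : W) :
    ofP ρ f A w = ρ (wg Γ w) (f A (QuotientGroup.mk w)) := rfl

theorem toP_ofP (ρ : Γ →* Module.End K N) (f : Finset V → W ⧸ Γ → N) : toP K Γ (ofP ρ f) = f := by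
  funext A p
  rw [toP_apply, ofP_apply, wg_out, map_one, QuotientGroup.out_eq']
  rfl

theorem ofP_toP (ρ : Γ →* Module.End K N) {c : Finset V → W → N}
    (hc : ∀ A, ∀ g : Γ, ∀ w, c A (g * w) = ρ g (c A w)) : ofP ρ (toP K Γ c) = c := by
  funext A w
  rw [ofP_apply, toP_apply, ← hc, wg_out_eq]

theorem toP_mem {ρ : Γ →* Module.End K N} {d : ℕ} {c : Finset V → W → N} (hc : c ∈ Cc R Γ ρ d) :
    toP K Γ c ∈ Cz K G d (rL (qD R hΓ) fun v p => ρ (gam R v p)) := by
  obtain ⟨h1, h2, h3⟩ := hc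
  refine ⟨fun σ h => h1 σ fun h0 => h ?_, fun σ v hv => ?_⟩
  · funext p
    rw [toP_apply, h0]
    rfl
  · funext p
    rw [rL_apply, toP_apply, toP_apply, ← h3, qD_g, gam_out, h2 σ v hv]

theorem ofP_mem {ρ : Γ →* Module.End K N} {d : ℕ} {f : Finset V → W ⧸ Γ → N}
    (hf : f ∈ Cz K G d (rL (qD R hΓ) fun v p => ρ (gam R v p))) : ofP ρ f ∈ Cc R Γ ρ d := by
  obtain ⟨h1, h2⟩ := hf
  refine ⟨fun σ h => h1 σ fun h0 => h ?_, fun σ v hv w => ?_, fun σ g w => ?_⟩
  · funext w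
    rw [ofP_apply, h0]
    exact map_zero _
  · have h3 := congrFun (h2 σ v hv) (QuotientGroup.mk w)
    rw [rL_apply, qD_g] at h3
    rw [ofP_apply, ofP_apply, wg_s, map_mul, Module.End.mul_apply, QuotientGroup.mk_mul, h3]
  · rw [ofP_apply, ofP_apply, wg_mul, mk_coe_mul, map_mul, Module.End.mul_apply]

theorem mem_Zs_iff {Y : Type} [AddCommGroup Y] [Module K Y] {d : ℕ} {r : V → Y →ₗ[K] Y} {z : Finset V → Y} :
    z ∈ Zs K G d r ↔ z ∈ Cz K G d r ∧ ∀ κ, ∑ v ∈ κᶜ, z (insert v κ) = 0 := by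
  rw [mem_Zs, mem_Cz, and_assoc]

theorem toP_memZ {ρ : Γ →* Module.End K N} {d : ℕ} {c : Finset V → W → N} (hc : c ∈ Zc R Γ ρ d) :
    toP K Γ c ∈ Zs K G d (rL (qD R hΓ) fun v p => ρ (gam R v p)) := by
  refine mem_Zs_iff.2 ⟨toP_mem R hΓ hc.1, fun κ => ?_⟩
  funext p
  rw [Finset.sum_apply]
  exact congrFun (congrFun (LinearMap.mem_ker.1 hc.2) κ) p.out

theorem ofP_memZ {ρ : Γ →* Module.End K N} {d : ℕ} {f : Finset V → W ⧸ Γ → N}
    (hf : f ∈ Zs K G d (rL (qD R hΓ) fun v p => ρ (gam R v p))) : ofP ρ f ∈ Zc R Γ ρ d := by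
  obtain ⟨h1, h2⟩ := mem_Zs_iff.1 hf
  refine ⟨ofP_mem R hΓ h1, LinearMap.mem_ker.2 ?_⟩
  funext κ w
  rw [bd_apply]
  have h3 := congrFun (h2 κ) (QuotientGroup.mk w)
  rw [Finset.sum_apply] at h3
  simp only [ofP_apply]
  rw [← map_sum, h3]
  exact map_zero _

/-- the chains of a level are the chains of the finite quotient -/
noncomputable def dictC (ρ : Γ →* Module.End K N) (d : ℕ) :
    Cc R Γ ρ d ≃ₗ[K] Cz K G d (rL (qD R hΓ) fun v p => ρ (gam R v p)) where
  toFun c := ⟨toP K Γ c.1, toP_mem R hΓ c.2⟩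
  invFun f := ⟨ofP ρ f.1, ofP_mem R hΓ f.2⟩
  map_add' _ _ := rfl
  map_smul' _ _ := rfl
  left_inv c := Subtype.ext (ofP_toP ρ c.2.2.2)
  right_inv f := Subtype.ext (toP_ofP ρ f.1)

/-- the cycles of a level are the cycles of the finite quotient -/
noncomputable def dictZ (ρ : Γ →* Module.End K N) (d : ℕ) :
    Zc R Γ ρ d ≃ₗ[K] Zs K G d (rL (qD R hΓ) fun v p => ρ (gam R v p)) where
  toFun c := ⟨toP K Γ c.1, toP_memZ R hΓ c.2⟩
  invFun f := ⟨ofP ρ f.1, ofP_memZ R hΓ f.2⟩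
  map_add' _ _ := rfl
  map_smul' _ _ := rfl
  left_inv c := Subtype.ext (ofP_toP ρ c.2.1.2.2)
  right_inv f := Subtype.ext (toP_ofP ρ f.1)

theorem dictZ_apply (ρ : Γ →* Module.End K N) (d : ℕ) (c : Zc R Γ ρ d) (A : Finset V) (p : W ⧸ Γ) :
    (dictZ R hΓ ρ d c : Finset V → W ⧸ Γ → N) A p = (c : Finset V → W → N) A p.out := rfl

theorem dictZ_symm_apply (ρ : Γ →* Module.End K N) (d : ℕ)
    (f : Zs K G d (rL (qD R hΓ) fun v p => ρ (gam R v p))) (A : Finset V) (w : W) :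
    ((dictZ R hΓ ρ d).symm f : Finset V → W → N) A w = ρ (wg Γ w) ((f : Finset V → W ⧸ Γ → N) A (QuotientGroup.mk w)) := rfl

end Dict

section Chi

/-- an isomorphism of the coefficients -/
noncomputable def Zs_congr {K : Type} [Field K] {d : ℕ} {Y Y' : Type} [AddCommGroup Y] [Module K Y] [AddCommGroup Y']
    [Module K Y'] {r : V → Y →ₗ[K] Y} {r' : V → Y' →ₗ[K] Y'} (φ : Y ≃ₗ[K] Y') (h : ∀ v y, φ (r v y) = r' v (φ y)) :
    Zs K G d r ≃ₗ[K] Zs K G d r' where
  toFun z := ⟨fun A => φ (z.1 A), fun A hA => z.2.1 A fun h0 => hA ((congrArg φ h0).trans (map_zero φ)), fun A v hv => by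
    rw [← h, z.2.2.1 A v hv], fun κ => by
    rw [← map_sum, z.2.2.2 κ, map_zero]⟩
  invFun z := ⟨fun A => φ.symm (z.1 A), fun A hA => z.2.1 A fun h0 => hA ((congrArg φ.symm h0).trans (map_zero φ.symm)), fun A v hv => by
    apply φ.injective
    rw [h, φ.apply_symm_apply, z.2.2.1 A v hv], fun κ => by
    rw [← map_sum, z.2.2.2 κ, map_zero]⟩
  map_add' z w := Subtype.ext (funext fun A => map_add φ _ _)
  map_smul' c z := Subtype.ext (funext fun A => map_smul φ c _)
  left_inv z := Subtype.ext (funext fun A => φ.symm_apply_apply _)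
  right_inv z := Subtype.ext (funext fun A => φ.apply_symm_apply _)

variable (R : Rac G W) {Γ : Subgroup W} [Γ.Normal] (hΓ : Lev R Γ) {I : Type}

/-- the edge cocycle of a homomorphism -/
noncomputable def eab (ab : Γ →* Multiplicative (I → ℤ)) (v : V) (p : W ⧸ Γ) : I → ℤ := (ab (gam R v p)).toAdd

theorem isEv_eab (ab : Γ →* Multiplicative (I → ℤ)) : IsEv (qD R hΓ) (eab R ab) where
  inv v p := by
    unfold eab
    rw [← toAdd_mul, ← map_mul, gam_inv, map_one]
    rfl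
  comm u v h p := by
    unfold eab
    rw [← toAdd_mul, ← map_mul, gam_comm R hΓ h, map_mul, toAdd_mul]

theorem ch_apply {K : Type} [Field K] (χ : Γ →* Kˣ) (g : Γ) (x : K) : ch χ g x = (χ g : K) * x := rfl

theorem tt_zero : tt (0 : I → ℤ) = 1 := by
  unfold tt ttR
  rw [← AddMonoidAlgebra.one_def, map_one]

theorem tt_add (a b : I → ℤ) : tt (a + b) = tt a * tt b := by
  unfold tt ttR
  rw [← map_mul, AddMonoidAlgebra.single_mul_single, mul_one]

/-- the tautological character of a homomorphism to `ℤ^I` -/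
noncomputable def chiab (ab : Γ →* Multiplicative (I → ℤ)) : Γ →* (KI I)ˣ where
  toFun g := ⟨tt (ab g).toAdd, tt (-(ab g).toAdd), by rw [← tt_add, add_neg_cancel, tt_zero], by
    rw [← tt_add, neg_add_cancel, tt_zero]⟩
  map_one' := by
    apply Units.ext
    change tt (ab 1).toAdd = 1
    rw [map_one, toAdd_one, tt_zero]
  map_mul' g h := by
    apply Units.ext
    change tt (ab (g * h)).toAdd = tt (ab g).toAdd * tt (ab h).toAdd
    rw [map_mul, toAdd_mul, tt_add]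

theorem chiab_coe (ab : Γ →* Multiplicative (I → ℤ)) (g : Γ) : (chiab ab g : KI I) = tt (ab g).toAdd := rfl

/-- the cycles with coefficients in a character -/
noncomputable def dictChi (ab : Γ →* Multiplicative (I → ℤ)) (χ : Γ →* (KI I)ˣ)
    (hχ : ∀ g, (χ g : KI I) = tt (ab g).toAdd) (d : ℕ) :
    Zc R Γ (ch χ) d ≃ₗ[KI I] Zs (KI I) G d (rM (qD R hΓ) (chiK (eab R ab))) :=
  (dictZ R hΓ (ch χ) d).trans <| Zs_congr
    (φ := { toFun := fun F p _ => F p
            invFun := fun F p => F p 0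
            map_add' := fun _ _ => rfl
            map_smul' := fun _ _ => rfl
            left_inv := fun F => rfl
            right_inv := fun F => by
              funext p i
              rw [Subsingleton.elim i 0] }) fun v F => by
    funext p i
    change ch χ (gam R v p) (F (p * (qD R hΓ).g v)) = ((chiK (eab R ab) v p).mulVec fun _ => F (p * (qD R hΓ).g v)) i
    rw [ch_apply, hχ, Matrix.mulVec, dotProduct, Fin.sum_univ_one]
    rfl

theorem finrank_Zc_chi (ab : Γ →* Multiplicative (I → ℤ)) (χ : Γ →* (KI I)ˣ)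
    (hχ : ∀ g, (χ g : KI I) = tt (ab g).toAdd) (d : ℕ) :
    Module.finrank (KI I) (Zc R Γ (ch χ) d) = zM (KI I) (qD R hΓ) (chiK (eab R ab)) d :=
  (dictChi R hΓ ab χ hχ d).finrank_eq

end Chi

end Pool.Agent.S9
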