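import Pool.Agent.S9.GInd

/-!
# Project S10, block G: the formal induction of effaceability on the active cells

`act v w`: the letter `v` is active at `w` (a set of hyperplanes). If the cocycles of positive degree in the class `O` on
the whole complex are exact in `O`, so are the cocycles on the subcomplex of the active cells (note 4276 (3)).
-/

set_option autoImplicit false
set_option linter.unusedSectionVars false

open Finset

namespace Pool.Agent.S9

variable {V : Type} [DecidableEq V]

section Act

variable {W : Type} [Group W] {M : Type} [AddCommGroup M]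

/-- an activity: a set of hyperplanes, the characteristic function of which preserves the class `O` -/
structure Activ (G : SimpleGraph V) (g : V → W) (O : AddSubgroup (W → M)) (act : V → W → Prop) : Prop where
  self : ∀ v w, act v (w * g v) ↔ act v w
  adj : ∀ u v, G.Adj u v → ∀ w, act v (w * g u) ↔ act v w
  ind : ∀ v, ∀ f ∈ O, ∀ f' : W → M, (∀ w, act v w → f' w = f w) → (∀ w, ¬ act v w → f' w = 0) → f' ∈ O

variable (G : SimpleGraph V) (g : V → W) (hsq : ∀ v, g v * g v = 1)
  (hcomm : ∀ u v, G.Adj u v → g u * g v = g v * g u) (hM : ∀ x : M, x + x = 0)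
  (O : AddSubgroup (W → M)) (hO : ∀ f ∈ O, ∀ v, (fun w => f (w * g v)) ∈ O)

/-- exactness of the cocycles of positive degree, in the class `O`, on the active cells with the types in `T`,
invariant under `C` -/
def GEx (act : V → W → Prop) (T C : Finset V) : Prop :=
  ∀ k : ℕ, 1 ≤ k → ∀ γ : Finset V → W → M,
    (∀ A ⊆ T, G.IsClique (A : Set V) → A.card = k → γ A ∈ O ∧ GInv g (A ∪ C) (γ A)) →
    (∀ A ⊆ T, G.IsClique (A : Set V) → A.card = k + 1 → ∀ w, (∀ a ∈ A, act a w) → gd g γ A w = 0) →
    ∃ η : Finset V → W → M,
      (∀ B ⊆ T, G.IsClique (B : Set V) → B.card + 1 = k → η B ∈ O ∧ GInv g (B ∪ C) (η B)) ∧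
      ∀ A ⊆ T, G.IsClique (A : Set V) → A.card = k → ∀ w, (∀ a ∈ A, act a w) →
        gd g η A w = γ A w

/-- making the letter `v` fully active -/
theorem Activ.set {act : V → W → Prop} (h : Activ G g O act) (v : V) :
    Activ G g O fun u w => u = v ∨ act u w where
  self u w := by rw [h.self]
  adj u x hux w := by rw [h.adj u x hux]
  ind u f hf f' h1 h2 := by
    by_cases huv : u = v
    · have h3 : f' = f := funext fun w => h1 w (Or.inl huv)
      rw [h3]
      exact hf
    · exact h.ind u f hf f' (fun w hw => h1 w (Or.inr hw)) fun w hw => h2 w fun h5 => h5.elim huv hw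

include hsq hcomm hM hO in
/-- **One label**: if exactness holds for the link of `v` (with invariance under `v`) and for the activity, where `v` is
made fully active, it holds. -/
theorem gex_step {act : V → W → Prop} (ha : Activ G g O act) {T C : Finset V} {v : V} (hv : v ∈ T)
    (hTC : ∀ u ∈ T, ∀ a ∈ C, G.Adj u a)
    {lk : Finset V} (hlk : ∀ u, u ∈ lk ↔ u ∈ T ∧ G.Adj v u)
    (h1 : GEx G g O act lk (insert v C)) (h2 : GEx G g O (fun u w => u = v ∨ act u w) T C) :
    GEx G g O act T C := by
  classical
  intro k hk γ hinv hco
  have hlkT : lk ⊆ T := fun u hu => ((hlk u).1 hu).1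
  have hvlk : ∀ B ⊆ lk, v ∉ B := fun B hB h => ((hlk v).1 (hB h)).2.ne rfl
  have hcl : ∀ A : Finset V, G.IsClique (A : Set V) → ∀ B ⊆ A, G.IsClique (B : Set V) :=
    fun A hA B hB => hA.subset (by exact_mod_cast hB)
  have hactv : ∀ A : Finset V, A ⊆ lk → ∀ u ∈ A, ∀ w, (act v (w * g u) ↔ act v w) :=
    fun A hA u hu w => ha.adj u v ((hlk u).1 (hA hu)).2.symm w
  -- the jump over `v`
  obtain ⟨e, he⟩ : ∃ e : Finset V → W → M, ∀ A w, e A w = if act v w then 0 else
      γ A w + γ A (w * g v) := ⟨_, fun _ _ => rfl⟩
  have hact0 : ∀ f ∈ O, (fun w => if act v w then f w else 0) ∈ O := fun f hf =>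
    ha.ind v f hf _ (fun w hw => if_pos hw) fun w hw => if_neg hw
  have hcompl : ∀ f ∈ O, (fun w => if act v w then 0 else f w) ∈ O := by
    intro f hf
    have h3 : (fun w => if act v w then 0 else f w) = f - fun w => if act v w then f w else 0 := by
      funext w
      rw [Pi.sub_apply]
      by_cases h : act v w
      · rw [if_pos h, if_pos h, sub_self]
      · rw [if_neg h, if_neg h, sub_zero]
    rw [h3]
    exact O.sub_mem hf (hact0 f hf)
  obtain ⟨f, hf1, hf2⟩ := h1 k hk e (fun A hA hAc hAk => by
    obtain ⟨h3, h4⟩ := hinv A (hA.trans hlkT) hAc hAk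
    constructor
    · have h5 : e A = fun w => if act v w then 0 else (γ A + fun w => γ A (w * g v)) w := by
        funext w
        rw [he]
        rfl
      rw [h5]
      exact hcompl _ (O.add_mem h3 (hO _ h3 v))
    · intro a haA w
      rw [he, he]
      have hcase : a = v ∨ (a ∈ A ∪ C ∧ G.Adj a v) := by
        rcases mem_union.1 haA with h | h
        · exact Or.inr ⟨mem_union_left _ h, ((hlk a).1 (hA h)).2.symm⟩
        · rcases mem_insert.1 h with h | h
          · exact Or.inl h
          · exact Or.inr ⟨mem_union_right _ h, (hTC v hv a h).symm⟩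
      rcases hcase with rfl | ⟨h5, h6⟩
      · have h7 := ha.self a w
        by_cases hw : act a w
        · rw [if_pos hw, if_pos (h7.2 hw)]
        · rw [if_neg hw, if_neg fun h => hw (h7.1 h), mul_assoc, hsq, mul_one, add_comm]
      · have h7 := ha.adj a v h6 w
        by_cases hw : act v w
        · rw [if_pos hw, if_pos (h7.2 hw)]
        · rw [if_neg hw, if_neg fun h => hw (h7.1 h), h4 a h5, mul_assoc, hcomm a v h6,
            ← mul_assoc, h4 a h5])
    (fun A hA hAc hAk w hw => by
      unfold gd
      by_cases h3 : act v w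
      · refine sum_eq_zero fun u hu => ?_
        rw [he, he, if_pos h3, if_pos ((hactv A hA u hu w).2 h3), add_zero]
      · have h4 := hco A (hA.trans hlkT) hAc hAk w hw
        have h5 := hco A (hA.trans hlkT) hAc hAk (w * g v) fun a haA =>
          (ha.adj v a ((hlk a).1 (hA haA)).2 w).2 (hw a haA)
        unfold gd at h4 h5
        have h6 : ∀ u ∈ A, e (A.erase u) w + e (A.erase u) (w * g u) =
            (γ (A.erase u) w + γ (A.erase u) (w * g u)) +
              (γ (A.erase u) (w * g v) + γ (A.erase u) (w * g v * g u)) := by
          intro u hu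
          rw [he, he, if_neg h3, if_neg fun h => h3 ((hactv A hA u hu w).1 h), mul_assoc w (g u),
            hcomm u v ((hlk u).1 (hA hu)).2.symm, ← mul_assoc]
          abel
        rw [sum_congr rfl h6, sum_add_distrib, h4, h5, add_zero])
  obtain ⟨γ', hγ'⟩ : ∃ γ' : Finset V → W → M, ∀ A, γ' A = if v ∈ A then
      (fun w => if act v w then γ A w else 0) + fun w => if act v w then 0 else f (A.erase v) w
      else γ A := ⟨_, fun _ => rfl⟩
  have her : ∀ B ⊆ T, v ∈ B → G.IsClique (B : Set V) → B.erase v ⊆ lk := by
    intro B hB hvB hBc u hu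
    obtain ⟨h3, h4⟩ := mem_erase.1 hu
    exact (hlk u).2 ⟨hB h4, hBc hvB h4 h3.symm⟩
  have hpos : ∀ A, v ∈ A → ∀ w, act v w → γ' A w = γ A w := by
    intro A hA w hw
    rw [hγ', if_pos hA, Pi.add_apply, if_pos hw, if_pos hw, add_zero]
  have hneg : ∀ A, v ∈ A → ∀ w, ¬ act v w → γ' A w = f (A.erase v) w := by
    intro A hA w hw
    rw [hγ', if_pos hA, Pi.add_apply, if_neg hw, if_neg hw, zero_add]
  obtain ⟨η, hη1, hη2⟩ := h2 k hk γ' (fun A hA hAc hAk => by
    by_cases hvA : v ∈ A
    · obtain ⟨h3, h4⟩ := hinv A hA hAc hAk
      obtain ⟨h5, h6⟩ := hf1 (A.erase v) (her A hA hvA hAc) (hcl A hAc _ (erase_subset _ _))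
        (by rw [card_erase_of_mem hvA]; have := card_pos.2 ⟨v, hvA⟩; omega)
      constructor
      · rw [hγ', if_pos hvA]
        exact O.add_mem (hact0 _ h3) (hcompl _ h5)
      · intro a haA w
        have h7 : act v (w * g a) ↔ act v w := by
          by_cases hav : a = v
          · rw [hav]; exact ha.self v w
          · refine ha.adj a v ?_ w
            rcases mem_union.1 haA with h | h
            · exact hAc h hvA hav
            · exact (hTC v hv a h).symm
        by_cases hw : act v w
        · rw [hpos A hvA _ (h7.2 hw), hpos A hvA _ hw, h4 a haA]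
        · rw [hneg A hvA _ fun h => hw (h7.1 h), hneg A hvA _ hw]
          refine h6 a ?_ w
          by_cases hav : a = v
          · exact mem_union_right _ (hav ▸ mem_insert_self _ _)
          · rcases mem_union.1 haA with h | h
            · exact mem_union_left _ (mem_erase.2 ⟨hav, h⟩)
            · exact mem_union_right _ (mem_insert_of_mem h)
    · rw [hγ', if_neg hvA]
      exact hinv A hA hAc hAk)
    (fun A hA hAc hAk w hw => by
      by_cases hvA : v ∈ A
      · by_cases h3 : act v w
        · have h4 : gd g γ' A w = gd g γ A w := by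
            unfold gd
            refine sum_congr rfl fun u hu => ?_
            by_cases huv : u = v
            · subst huv
              rw [hγ', if_neg (notMem_erase u A)]
            · have h5 : v ∈ A.erase u := mem_erase.2 ⟨fun h => huv h.symm, hvA⟩
              rw [hpos _ h5 _ h3, hpos _ h5 _ ((ha.adj u v (hAc hu hvA huv) w).2 h3)]
          rw [h4]
          refine hco A hA hAc hAk w fun a haA => ?_
          rcases hw a haA with h | h
          · rw [h]; exact h3
          · exact h
        · have h4 : gd g γ' A w = (γ (A.erase v) w + γ (A.erase v) (w * g v)) +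
              gd g f (A.erase v) w := by
            unfold gd
            rw [← add_sum_erase A _ hvA, hγ', if_neg (notMem_erase v A)]
            congr 1
            refine sum_congr rfl fun u hu => ?_
            obtain ⟨huv, huA⟩ := mem_erase.1 hu
            have h5 : v ∈ A.erase u := mem_erase.2 ⟨fun h => huv h.symm, hvA⟩
            rw [hneg _ h5 _ h3, hneg _ h5 _ fun h => h3 ((ha.adj u v (hAc huA hvA huv) w).1 h),
              erase_right_comm]
          rw [h4, hf2 (A.erase v) (her A hA hvA hAc) (hcl A hAc _ (erase_subset _ _))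
            (by rw [card_erase_of_mem hvA, hAk]; rfl) w fun a haA => ?_, he, if_neg h3, hM]
          obtain ⟨hav, h5⟩ := mem_erase.1 haA
          exact (hw a h5).resolve_left hav
      · have h4 : gd g γ' A w = gd g γ A w := by
          unfold gd
          refine sum_congr rfl fun u hu => ?_
          rw [hγ', if_neg fun h => hvA (mem_of_mem_erase h)]
        rw [h4]
        exact hco A hA hAc hAk w fun a haA => (hw a haA).resolve_left fun h => hvA (h ▸ haA))
  refine ⟨η, hη1, fun A hA hAc hAk w hw => ?_⟩
  rw [hη2 A hA hAc hAk w fun a haA => Or.inr (hw a haA)]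
  by_cases hvA : v ∈ A
  · exact hpos A hvA w (hw v hvA)
  · rw [hγ', if_neg hvA]

/-- exactness depends only on the activity of the labels in `T` -/
theorem GEx.congr {act act' : V → W → Prop} {T C : Finset V} (h : GEx G g O act T C)
    (hc : ∀ v ∈ T, ∀ w, act' v w ↔ act v w) : GEx G g O act' T C := by
  intro k hk γ h1 h2
  obtain ⟨η, h3, h4⟩ := h k hk γ h1 fun A hA hAc hAk w hw =>
    h2 A hA hAc hAk w fun a ha => (hc a (hA ha) w).2 (hw a ha)
  exact ⟨η, h3, fun A hA hAc hAk w hw => h4 A hA hAc hAk w fun a ha => (hc a (hA ha) w).1 (hw a ha)⟩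

include hsq hcomm hM hO in
/-- **Effaceability on the active cells**: exactness for the full complexes implies exactness for every activity. -/
theorem gex_act (H : ∀ T C : Finset V, G.IsClique (C : Set V) → (∀ u ∈ T, ∀ a ∈ C, G.Adj u a) →
      GEx G g O (fun _ _ => True) T C) :
    ∀ (N : ℕ) (T C : Finset V), T.card ≤ N → G.IsClique (C : Set V) →
    (∀ u ∈ T, ∀ a ∈ C, G.Adj u a) → ∀ act : V → W → Prop, Activ G g O act →
      GEx G g O act T C := by
  classical
  intro N
  induction N with
  | zero =>
    intro T C hT hC hTC act _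
    refine (H T C hC hTC).congr G g O fun v hv => ?_
    rw [card_eq_zero.1 (Nat.le_zero.1 hT)] at hv
    exact absurd hv (notMem_empty v)
  | succ N ih =>
    intro T C hT hC hTC
    -- induction on the number of the labels which are not fully active
    have key : ∀ (n : ℕ) (act : V → W → Prop), Activ G g O act →
        (T.filter fun v => ¬ ∀ w, act v w).card ≤ n → GEx G g O act T C := by
      intro n
      induction n with
      | zero =>
        intro act _ hn
        refine (H T C hC hTC).congr G g O fun v hv w => ⟨fun _ => trivial, fun _ => ?_⟩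
        have h1 := card_eq_zero.1 (Nat.le_zero.1 hn)
        by_contra h2
        have h3 : v ∈ T.filter fun v => ¬ ∀ w, act v w := mem_filter.2 ⟨hv, fun h => h2 (h w)⟩
        rw [h1] at h3
        exact absurd h3 (notMem_empty v)
      | succ n ihn =>
        intro act hact hn
        rcases (T.filter fun v => ¬ ∀ w, act v w).eq_empty_or_nonempty with h0 | ⟨v, hv⟩
        · exact ihn act hact (by rw [h0, card_empty]; exact Nat.zero_le n)
        · obtain ⟨hvT, hva⟩ := mem_filter.1 hv
          obtain ⟨lk, hlk⟩ : ∃ lk : Finset V, ∀ u, u ∈ lk ↔ u ∈ T ∧ G.Adj v u :=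
            ⟨T.filter fun u => G.Adj v u, fun u => mem_filter⟩
          have hlkT : lk ⊆ T.erase v := fun u hu =>
            mem_erase.2 ⟨((hlk u).1 hu).2.ne', ((hlk u).1 hu).1⟩
          have hlkc : lk.card ≤ N := by
            have h1 := card_le_card hlkT
            rw [card_erase_of_mem hvT] at h1
            omega
          refine gex_step G g hsq hcomm hM O hO hact hvT hTC hlk ?_ ?_
          · refine ih lk (insert v C) hlkc ?_ (fun u hu a ha => ?_) act hact
            · rw [coe_insert]
              exact hC.insert fun a ha _ => hTC v hvT a ha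
            · rcases mem_insert.1 ha with h | h
              · rw [h]; exact ((hlk u).1 hu).2.symm
              · exact hTC u ((hlk u).1 hu).1 a h
          · refine ihn _ (hact.set G g O v) ?_
            have h1 : (T.filter fun u => ¬ ∀ w, (u = v ∨ act u w)) ⊆
                (T.filter fun u => ¬ ∀ w, act u w).erase v := by
              intro u hu
              obtain ⟨h2, h3⟩ := mem_filter.1 hu
              refine mem_erase.2 ⟨fun h => h3 fun w => Or.inl h, mem_filter.2 ⟨h2, fun h => h3 fun w =>
                Or.inr (h w)⟩⟩
            have h2 := card_le_card h1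
            rw [card_erase_of_mem hv] at h2
            omega
    intro act hact
    exact key _ act hact le_rfl

end Act

end Pool.Agent.S9
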