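import Pool.Agent.S9.Defs
import Pool.Agent.H37.MA.Ext

/-!
# Project S9, block M: the right-angled Coxeter group and its finite quotients; effaceability for tuples

`racR G` is the group `RGrp G` as a right-angled Coxeter group; a level `Γ` is the kernel of the homomorphism
`piP D` to a finite group `D : PG G P`. `EffT` is effaceability for the equivariant cochains on the tuples of a
set `C` with an action of `Γ` (`C` = vertices of the Davis complex).
-/

set_option autoImplicit false
set_option linter.unusedSectionVars false

open Finset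

namespace Pool.Agent.S9

open Pool.Agent.H19.Cub Pool.Agent.H77.SX Pool.Agent.H77.SW Pool.Agent.H37.TM Pool.Agent.H37.MA
open Pool.Agent.H4.Singer (RGrp gen exists_lift gen_mul_gen gen_inv gen_comm racg)

variable {V : Type} [DecidableEq V] [Fintype V]

/-- the right-angled Coxeter group of `G` -/
noncomputable def racR (G : SimpleGraph V) : Rac G (RGrp G) where
  s := gen G
  sq := gen_mul_gen G
  comm := gen_comm G
  gen := (racg G).toCoxeterSystem.subgroup_closure_range_simple
  lift := fun _ _ g h1 h2 => exists_lift G g h1 h2

theorem racR_s (G : SimpleGraph V) (v : V) : (racR G).s v = gen G v := rfl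

/-- a level is the kernel of a homomorphism to a finite group -/
theorem exists_PG {G : SimpleGraph V} {Γ : Subgroup (RGrp G)} (hL : Lev (racR G) Γ) :
    ∃ (P : Type) (_ : Group P) (_ : Fintype P) (_ : DecidableEq P) (D : PG G P),
      (piP D).ker = Γ ∧ Subgroup.closure (Set.range D.g) = ⊤ ∧
      ∀ w v, D.b (piP D w) v = (racR G).b w v := by
  classical
  have := hL.normal
  have := hL.fin
  let q : RGrp G →* RGrp G ⧸ Γ := QuotientGroup.mk' Γ
  have hker : q.ker = Γ := QuotientGroup.ker_mk' Γ
  have hsur : Function.Surjective q := QuotientGroup.mk'_surjective Γ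
  have hb : ∀ w w' : RGrp G, q w = q w' → ∀ v, (racR G).b w v = (racR G).b w' v := by
    intro w w' h v
    have h1 : w⁻¹ * w' ∈ Γ := by
      rw [← hker, MonoidHom.mem_ker, map_mul, map_inv, h, inv_mul_cancel]
    have h2 := hL.bits _ h1 v
    have h3 : w' = w * (w⁻¹ * w') := by rw [mul_inv_cancel_left]
    rw [h3, (racR G).b_mul, h2, add_zero]
  let D : PG G (RGrp G ⧸ Γ) :=
    { g := fun v => q (gen G v)
      sq := fun v => by rw [← map_mul, gen_mul_gen, map_one]
      comm := fun u v h => by rw [← map_mul, ← map_mul, gen_comm G u v h]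
      b := fun p v => (racR G).b (hsur p).choose v
      b_mul := fun p p' v => by
        rw [← (racR G).b_mul]
        apply hb
        rw [(hsur (p * p')).choose_spec, map_mul, (hsur p).choose_spec, (hsur p').choose_spec]
      b_g := fun u v => by
        rw [← (racR G).b_s u v]
        apply hb
        exact (hsur (q (gen G u))).choose_spec
      two := by
        intro p
        obtain ⟨w, rfl⟩ := hsur p
        obtain ⟨k, hk⟩ := hL.two w
        refine ⟨k, ?_⟩
        rw [← map_pow]
        rw [← hker] at hk
        exact hk }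
  have hpi : piP D = q := by
    refine MonoidHom.eq_of_eqOn_dense (racR G).gen ?_
    rintro _ ⟨v, rfl⟩
    exact piP_gen D v
  refine ⟨RGrp G ⧸ Γ, inferInstance, Fintype.ofFinite _, Classical.decEq _, D, ?_, ?_, ?_⟩
  · rw [hpi, hker]
  · rw [eq_top_iff]
    rintro p -
    obtain ⟨w, rfl⟩ := hsur p
    have h1 : w ∈ Subgroup.closure (Set.range (racR G).s) := by
      rw [(racR G).gen]
      exact Subgroup.mem_top w
    have h2 : q w ∈ (Subgroup.closure (Set.range (racR G).s)).map q := Subgroup.mem_map_of_mem q h1
    rw [MonoidHom.map_closure, ← Set.range_comp] at h2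
    exact h2
  · intro w v
    rw [hpi]
    apply hb
    exact (hsur (q w)).choose_spec

/-- the coboundary of a function on the tuples (no signs: characteristic two) -/
def dT {C E : Type} [AddCommGroup E] : (List C → E) → List C → E
  | _, [] => 0
  | x, v :: l => x l + dT (fun m => x (v :: m)) l

theorem dT_eq {C E : Type} [AddCommGroup E] [Module (ZMod 2) E] : ∀ (x : List C → E) (L : List C),
    dT x L = lin x (bdl L)
  | x, [] => (map_zero _).symm
  | x, v :: l => by
    show x l + dT (fun m => x (v :: m)) l = lin x (Finsupp.single l 1 + (bdl l).mapDomain (v :: ·))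
    rw [map_add, lin_single, dT_eq, lin_map]

/-- **Effaceability for tuples**: every equivariant cocycle of degree `k + 1` (on the lists with `k + 2` elements of
the set `C`) with coefficients in a triangular module becomes a coboundary in a larger triangular module -/
def EffT (K : Type) [Field K] (Γ : Type) [Group Γ] (C : Type) [MulAction Γ C] (Λ : Subgroup Kˣ) : Prop :=
  ∀ (k : ℕ) (E : Type) [AddCommGroup E] [Module K E] [FiniteDimensional K E]
    (ρ : Γ →* Module.End K E), Tri Λ ρ → ∀ x : List C → E, (∀ L, x L ≠ 0 → L.length = k + 2) →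
    (∀ (g : Γ) L, x (L.map (g • ·)) = ρ g (x L)) → (∀ L, dT x L = 0) →
    ∃ (E' : Type) (_ : AddCommGroup E') (_ : Module K E') (_ : FiniteDimensional K E')
      (ρ' : Γ →* Module.End K E') (ι : E →ₗ[K] E') (y : List C → E'),
      Tri Λ ρ' ∧ Function.Injective ι ∧ (∀ g e, ι (ρ g e) = ρ' g (ι e)) ∧
      (∀ L, y L ≠ 0 → L.length = k + 1) ∧ (∀ (g : Γ) L, y (L.map (g • ·)) = ρ' g (y L)) ∧
      ∀ L, L.length = k + 2 → dT y L = ι (x L)

end Pool.Agent.S9
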