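import Pool.Agent.S9.Tow
import Pool.Agent.H4.Singer.TopDefs

/-!
# S9 T1: the levels of the tower, and the Coxeter group
-/

set_option autoImplicit false
set_option linter.unusedSectionVars false

open Finset

namespace Pool.Agent.S9

open Pool.Agent.H4.Singer

variable {V : Type} [DecidableEq V] [Fintype V] {G : SimpleGraph V} {W : Type} [Group W]

/-- homomorphisms which agree on the generators are equal -/
theorem Rac.hom_ext (R : Rac G W) {P : Type} [Group P] {f g : W →* P} (h : ∀ v, f (R.s v) = g (R.s v)) : f = g :=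
  MonoidHom.eq_of_eqOn_dense R.gen (by
    rintro _ ⟨v, rfl⟩
    exact h v)

theorem Rac.fg (R : Rac G W) : Group.FG W := by
  classical
  refine ⟨⟨univ.image R.s, ?_⟩⟩
  rw [coe_image, coe_univ, Set.image_univ, R.gen]

theorem Rac.b_r (R : Rac G W) (U : Finset V) (w : W) (v : V) : R.b (R.r U w) v = if v ∈ U then R.b w v else 0 := by
  let p : Multiplicative (V → ZMod 2) →* Multiplicative (V → ZMod 2) :=
    { toFun := fun x => Multiplicative.ofAdd fun v => if v ∈ U then x.toAdd v else 0
      map_one' := by
        rw [← ofAdd_zero]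
        congr 1
        funext v
        simp
      map_mul' := fun x y => by
        rw [← ofAdd_add]
        congr 1
        funext v
        rw [Pi.add_apply]
        split_ifs
        · rfl
        · rw [add_zero] }
  have h : R.bh.comp (R.r U) = p.comp R.bh := R.hom_ext fun u => by
    apply Multiplicative.toAdd.injective
    funext v
    have h1 : R.b (R.r U (R.s u)) v = if v ∈ U then R.b (R.s u) v else 0 := by
      rw [R.r_s, R.b_s]
      by_cases hu : u ∈ U
      · rw [if_pos hu, R.b_s]
        by_cases h2 : u = v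
        · subst h2
          rw [if_pos hu]
        · rw [if_neg h2, ite_self]
      · rw [if_neg hu, R.b_one]
        by_cases h2 : u = v
        · subst h2
          rw [if_neg hu]
        · rw [if_neg h2, ite_self]
    exact h1
  exact congrFun (congrArg Multiplicative.toAdd (DFunLike.congr_fun h w)) v

/-- the start of the tower may be any normal subgroup of finite index in the kernel of the bits which is preserved by the
retractions -/
structure Lev0 (R : Rac G W) (Γ : Subgroup W) : Prop where
  normal : Γ.Normal
  fin : Γ.FiniteIndex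
  bits : ∀ g ∈ Γ, ∀ v, R.b g v = 0
  ret : ∀ U : Finset V, ∀ g ∈ Γ, R.r U g ∈ Γ

theorem Lev.lev0 {R : Rac G W} {Γ : Subgroup W} (h : Lev R Γ) : Lev0 R Γ := ⟨h.normal, h.fin, h.bits, h.ret⟩

theorem Lev0.nxt {R : Rac G W} {Γ : Subgroup W} (h : Lev0 R Γ) : Lev0 R (nxt Γ) := by
  have := h.normal
  have := h.fin
  have := R.fg
  exact ⟨inferInstance, nxt_finiteIndex Γ, fun g hg => h.bits g (nxt_le Γ hg), fun U g hg =>
    nxt_comap (R.r U) (fun x hx => h.ret U x hx) hg⟩

theorem Lev0.twr {R : Rac G W} {Γ : Subgroup W} (h : Lev0 R Γ) (m : ℕ) : Lev0 R (twr Γ m) := by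
  induction m with
  | zero => exact h
  | succ m ih => exact ih.nxt

theorem Lev.nxt {R : Rac G W} {Γ : Subgroup W} (h : Lev R Γ) : Lev R (nxt Γ) := by
  have h1 := h.lev0.nxt
  refine ⟨h1.normal, h1.fin, fun w => ?_, h1.bits, h1.ret⟩
  obtain ⟨k, hk⟩ := h.two w
  refine ⟨k + 1, ?_⟩
  rw [pow_succ, pow_mul]
  exact sq_mem_nxt hk

theorem Lev.twr {R : Rac G W} {Γ : Subgroup W} (h : Lev R Γ) (m : ℕ) : Lev R (twr Γ m) := by
  induction m with
  | zero => exact h
  | succ m ih => exact ih.nxt

theorem lev_ker (R : Rac G W) : Lev R R.bh.ker := by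
  refine ⟨inferInstance, inferInstance, fun w => ⟨1, ?_⟩, fun g hg v => ?_, fun U g hg => ?_⟩
  · rw [pow_one, MonoidHom.mem_ker, map_pow, sq]
    apply Multiplicative.toAdd.injective
    funext v
    exact CharTwo.add_self_eq_zero _
  · exact congrFun (congrArg Multiplicative.toAdd (MonoidHom.mem_ker.1 hg)) v
  · rw [MonoidHom.mem_ker]
    apply Multiplicative.toAdd.injective
    funext v
    have h1 := R.b_r U g v
    have h2 : R.b g v = 0 := congrFun (congrArg Multiplicative.toAdd (MonoidHom.mem_ker.1 hg)) v
    rw [h2, ite_self] at h1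
    exact h1

theorem T_eq_twr (R : Rac G W) (m : ℕ) : T R m = twr R.bh.ker m := by
  induction m with
  | zero => rfl
  | succ m ih =>
    change nxt (T R m) = nxt _
    rw [ih]

/-- BLOCK T1: the tower -/
theorem T_lev (R : Rac G W) (m : ℕ) : Lev R (T R m) := by
  rw [T_eq_twr]
  exact (lev_ker R).twr m

theorem T_anti (R : Rac G W) : Antitone (T R) := by
  have h : T R = twr R.bh.ker := funext (T_eq_twr R)
  rw [h]
  exact twr_anti _

/-- the right-angled Coxeter group of a graph (as a Coxeter group) -/
noncomputable def racT (G : SimpleGraph V) : Rac G (RGrp G) where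
  s := gen G
  sq v := (racg G).toCoxeterSystem.simple_mul_simple_self v
  comm u v h := by
    have h1 := (racg G).toCoxeterSystem.simple_mul_simple_pow u v
    have h2 : (racg G).M u v = 2 := by simp [racg, h, h.ne]
    rw [h2, sq] at h1
    have h3 := (racg G).toCoxeterSystem.simple_mul_simple_self u
    have h4 := (racg G).toCoxeterSystem.simple_mul_simple_self v
    change gen G u * gen G v * (gen G u * gen G v) = 1 at h1
    change gen G u * gen G u = 1 at h3
    change gen G v * gen G v = 1 at h4
    calc gen G u * gen G v = gen G u * gen G v * (gen G u * gen G v) * (gen G u * gen G v)⁻¹ := by group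
      _ = (gen G u * gen G v)⁻¹ := by rw [h1, one_mul]
      _ = (gen G v)⁻¹ * (gen G u)⁻¹ := by rw [mul_inv_rev]
      _ = gen G v * gen G u := by rw [inv_eq_of_mul_eq_one_left h3, inv_eq_of_mul_eq_one_left h4]
  gen := (racg G).toCoxeterSystem.subgroup_closure_range_simple
  lift P _ g h1 h2 := by
    classical
    have h3 : (racg G).IsLiftable g := by
      intro u v
      by_cases huv : u = v
      · subst huv
        simp [racg, h1]
      · by_cases h4 : G.Adj u v
        · have h5 : (racg G).M u v = 2 := by simp [racg, h4, huv]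
          rw [h5, sq]
          rw [mul_assoc, ← mul_assoc (g v), h2 v u h4.symm, mul_assoc, h1, mul_one, h1]
        · have h5 : (racg G).M u v = 0 := by simp [racg, h4, huv]
          rw [h5, pow_zero]
    exact ⟨(racg G).toCoxeterSystem.lift ⟨g, h3⟩, fun v => (racg G).toCoxeterSystem.lift_apply_simple h3 v⟩

/-- there is a right-angled Coxeter group -/
theorem rac_ex (G : SimpleGraph V) : ∃ (W : Type) (_ : Group W), Nonempty (Rac G W) :=
  ⟨RGrp G, inferInstance, ⟨racT G⟩⟩

end Pool.Agent.S9
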