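import Pool.Agent.S9.E.Main
import Pool.Agent.S9.G.Fin
import Pool.Agent.S9.F.MainD
import Pool.Agent.S9.F.DLk
import Pool.Agent.S9.TLev
import Pool.Agent.H19.SR.Lks
import Pool.Agent.H19.SR.HsD
import Pool.Agent.H73.GC.Rem
import Pool.Agent.H73.GC.Good
import Pool.Agent.H85.OK.Iso

/-!
# Project S9: spheres and balls: the theorem, full subcomplexes and `ℓ²`-homology
-/

set_option autoImplicit false
set_option linter.unusedSectionVars false

open Finset

namespace Pool.Agent.S9

open Pool.Agent.H73.GC Pool.Agent.H19.SR

/-- **S9 for discs**: the mod 2 homology growth of the right-angled Coxeter group of a flag homology sphere or ball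
vanishes above the middle -/
theorem S9_disc {V : Type} [DecidableEq V] [Fintype V] {G : SimpleGraph V} {n i : ℕ}
    {B : Finset V → Prop} (hS : IsDisc G n B) (hi : n < 2 * i) : GZ G univ i := by
  obtain ⟨W, _, ⟨R⟩⟩ := rac_ex G
  obtain ⟨Γ, K, _, _, χ, hΓ, h1, h2⟩ := E_main R i
  exact h2 fun z₀ hz => F_mainD R hS hi hΓ χ (G_main R hΓ K _) z₀ hz (h1 z₀ hz)

/-- **all full subcomplexes of flag homology spheres and balls** -/
theorem gz_disc (n : ℕ) : ∀ {V : Type} [DecidableEq V] [Fintype V] {G : SimpleGraph V}
    {B : Finset V → Prop}, IsDisc G n B → ∀ i, n < 2 * i → ∀ U : Finset V, GZ G U i := by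
  induction n using Nat.strong_induction_on with
  | _ n ih =>
  intro V _ _ G B hS i hi
  rcases Nat.lt_or_ge n i with hni | hni
  · intro U
    refine gz_high fun s hs hc' => ?_
    have := hS.card_le s hs.1
    omega
  -- the full subcomplexes
  have hsub : ∀ C : Finset V, GZ G (univ \ C) i := by
    intro C
    induction C using Finset.induction_on with
    | empty =>
      rw [sdiff_empty]
      exact S9_disc hS hi
    | insert v C hv ihC =>
      have h1 : univ \ insert v C = (univ \ C).erase v := by
        ext w
        simp only [mem_sdiff, mem_univ, true_and, mem_insert, mem_erase, not_or]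
      rw [h1]
      refine gz_rem (mem_sdiff.2 ⟨mem_univ _, hv⟩) ihC ?_
      have hcl : G.IsClique (({v} : Finset V) : Set V) := by
        rw [coe_singleton]
        exact SimpleGraph.isClique_singleton v
      have hlk : ∀ w, w ∈ lk G (univ \ C) v → w ∈ lkF G {v} := by
        classical
        intro w hw
        unfold lk at hw
        unfold lkF
        rw [mem_filter] at hw ⊢
        refine ⟨mem_univ _, fun u hu => ?_⟩
        rw [mem_singleton] at hu
        rw [hu]
        exact hw.2
      have hlt : n - ({v} : Finset V).card < n := by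
        rw [card_singleton]
        omega
      have h5 := ih (n - ({v} : Finset V).card) hlt (hS.link hcl) i (by omega)
        (univ.filter fun w : {w // w ∈ lkF G {v}} => w.1 ∈ lk G (univ \ C) v)
      have h6 := gz_map (Function.Embedding.subtype fun w => w ∈ lkF G {v}) G _ h5
      have h7 : (univ.filter fun w : {w // w ∈ lkF G {v}} => w.1 ∈ lk G (univ \ C) v).map
          (Function.Embedding.subtype fun w => w ∈ lkF G {v}) = lk G (univ \ C) v := by
        ext w
        rw [mem_map]
        constructor
        · rintro ⟨a, ha, rfl⟩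
          exact (mem_filter.1 ha).2
        · intro hw
          exact ⟨⟨w, hlk w hw⟩, mem_filter.2 ⟨mem_univ _, hw⟩, rfl⟩
      rw [h7] at h6
      exact h6
  intro U
  have h := hsub (univ \ U)
  rw [sdiff_sdiff_right_self, inf_eq_inter, univ_inter] at h
  exact h

/-- **Singer's conjecture for right-angled Coxeter groups**, and more: `L` is a full subcomplex of a flag homology sphere
or ball of dimension `n - 1` over the field of two elements, `n < 2 i` -/
theorem l2_disc {V W : Type} [DecidableEq V] [Fintype V] [DecidableEq W] [Fintype W]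
    {L : SimpleGraph V} {K : SimpleGraph W} {n : ℕ} {B : Finset W → Prop} (hK : IsDisc K n B)
    (e : L ↪g K) {i : ℕ} (hi : n < 2 * i) : Pool.Agent.H4.Singer.L2HomologyZero L i := by
  have h1 : GZ K (univ.map e.toEmbedding) i := gz_disc n hK i hi _
  have h2 := gz_racg h1
  let φ : L ≃g K.comap (Subtype.val : {w // w ∈ univ.map e.toEmbedding} → W) :=
    { toFun := fun v => ⟨e v, mem_map_of_mem _ (mem_univ v)⟩
      invFun := fun w => (mem_map.1 w.2).choose
      left_inv := by
        intro v
        have h := (mem_map.1 (mem_map_of_mem e.toEmbedding (mem_univ v))).choose_spec.2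
        exact e.injective h
      right_inv := by
        rintro ⟨w, hw⟩
        exact Subtype.ext (mem_map.1 hw).choose_spec.2
      map_rel_iff' := by
        intro a b
        exact e.map_adj_iff }
  exact Pool.Agent.H85.OK.l2_iso φ h2

/-- **Singer's conjecture for right-angled Coxeter groups**: flag homology spheres -/
theorem l2_sphere {V W : Type} [DecidableEq V] [Fintype V] [DecidableEq W] [Fintype W]
    {L : SimpleGraph V} {K : SimpleGraph W} {n : ℕ}
    (hK : Pool.Agent.H85.VK.IsF2Sphere {σ : Finset W | K.IsClique (σ : Set W)} n) (e : L ↪g K)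
    {i : ℕ} (hi : n < 2 * i) : Pool.Agent.H4.Singer.L2HomologyZero L i :=
  l2_disc (IsSph.disc (hs2_of_f2 hK).isSph) e hi

end Pool.Agent.S9
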