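/-
S9 (MP_ea75ba_gt, note 4239 (1)(a) in the form of note 4250): INTEGRALITY without Ore
localisation and without division rings.  helper27.

`R` a commutative domain, `S` a ring without zero divisors containing `R` (NOT central; only the
left multiplications matter), `S` of finite rank `d` as a left `R`-module.  Then `d` divides the
`R`-rank of EVERY left `S`-module.
-/
import Mathlib

namespace Pool.Agent.S9

open Module

universe u v w

section

variable (R : Type u) (S : Type v) [CommRing R] [IsDomain R] [Ring S]
  [NoZeroDivisors S] [Module R S] [IsScalarTower R S S]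

/-- Every nonzero left ideal of `S` contains a nonzero element of `R`. -/
theorem exists_smul_one_mem (hfin : Module.rank R S < Cardinal.aleph0) {x : S} (hx : x ≠ 0) :
    ∃ a : R, a ≠ 0 ∧ ∃ s : S, a • (1 : S) = s * x := by
  classical
  let f : S →ₗ[R] S :=
    { toFun := fun s => s * x
      map_add' := fun a b => add_mul a b x
      map_smul' := fun r s => by
        change (r • s) * x = r • (s * x)
        rw [smul_mul_assoc] }
  have hinj : Function.Injective f := by
    intro a b hab
    have h1 : (a - b) * x = 0 := by
      have : a * x = b * x := hab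
      rw [sub_mul, this, sub_self]
    rcases mul_eq_zero.mp h1 with h | h
    · exact sub_eq_zero.mp h
    · exact absurd h hx
  have hr : Module.rank R (LinearMap.range f) = Module.rank R S :=
    (LinearEquiv.ofInjective f hinj).rank_eq.symm
  have hq := Submodule.rank_quotient_add_rank (LinearMap.range f)
  rw [hr] at hq
  have hq0 : Module.rank R (S ⧸ LinearMap.range f) = 0 := by
    have h2 : Module.rank R (S ⧸ LinearMap.range f) + Module.rank R S = 0 + Module.rank R S := by
      rw [hq, zero_add]
    exact (Cardinal.add_right_inj_of_lt_aleph0 hfin).mp h2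
  rw [rank_eq_zero_iff] at hq0
  obtain ⟨a, ha, h⟩ := hq0 (Submodule.Quotient.mk (1 : S))
  rw [← Submodule.Quotient.mk_smul, Submodule.Quotient.mk_eq_zero] at h
  obtain ⟨s, hs⟩ := h
  exact ⟨a, ha, s, hs.symm⟩

variable {R S}

/-- A non-torsion element generates a free `S`-module. -/
theorem injective_of_nontorsion (hfin : Module.rank R S < Cardinal.aleph0)
    {M : Type w} [AddCommGroup M] [Module S M] [Module R M] [IsScalarTower R S M]
    {h : M} (hh : ∀ a : R, a ≠ 0 → a • h ≠ 0) : Function.Injective (fun x : S => x • h) := by
  intro x y hxy
  by_contra hne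
  have h0 : x - y ≠ 0 := sub_ne_zero.mpr hne
  obtain ⟨a, ha, s, hs⟩ := exists_smul_one_mem R S hfin h0
  apply hh a ha
  have h1 : (x - y) • h = 0 := by
    have : x • h = y • h := hxy
    rw [sub_smul, this, sub_self]
  calc a • h = (a • (1 : S)) • h := by rw [smul_assoc, one_smul]
    _ = s • ((x - y) • h) := by rw [hs, mul_smul]
    _ = 0 := by rw [h1, smul_zero]

theorem rank_dvd_aux (hfin : Module.rank R S < Cardinal.aleph0) :
    ∀ (n : ℕ) (M : Type w) [AddCommGroup M] [Module S M] [Module R M] [IsScalarTower R S M],
      Module.rank R M = n → finrank R S ∣ n := by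
  intro n
  induction n using Nat.strong_induction_on with
  | _ n ih =>
  intro M _ _ _ _ hM
  by_cases hall : ∀ h : M, ∃ a : R, a ≠ 0 ∧ a • h = 0
  · have h0 : Module.rank R M = 0 := rank_eq_zero_iff.mpr hall
    rw [h0] at hM
    have : n = 0 := by exact_mod_cast hM.symm
    rw [this]
    exact dvd_zero _
  · push Not at hall
    obtain ⟨h, hh⟩ := hall
    have hinj := injective_of_nontorsion (S := S) hfin hh
    -- the submodule generated by `h`
    let g : S →ₗ[S] M := LinearMap.toSpanSingleton S M h
    have hginj : Function.Injective g := hinj
    let N : Submodule S M := LinearMap.range g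
    -- the `R`-linear version
    let gR : S →ₗ[R] M := g.restrictScalars R
    have hgR : Function.Injective gR := hginj
    have hrN := (LinearEquiv.ofInjective gR hgR).lift_rank_eq
    have hNR : LinearMap.range gR = N.restrictScalars R := by
      ext m; rfl
    have hq := Submodule.rank_quotient_add_rank (N.restrictScalars R)
    -- transfer the quotient
    have hq1 : Module.rank R (M ⧸ N) = Module.rank R (M ⧸ N.restrictScalars R) := rfl
    have hd : (Module.rank R (N.restrictScalars R)) = (finrank R S : Cardinal) := by
      rw [← hNR]
      have h3 : Cardinal.lift.{v} (Module.rank R (LinearMap.range gR)) =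
          Cardinal.lift.{v} ((finrank R S : Cardinal.{w})) := by
        rw [← hrN, Cardinal.lift_natCast, ← Cardinal.cast_toNat_of_lt_aleph0 hfin,
          Cardinal.lift_natCast]
        rfl
      exact Cardinal.lift_injective h3
    have hpos : 0 < finrank R S := by
      have h1 : (0 : Cardinal) < Module.rank R S := by
        rw [pos_iff_ne_zero]
        intro h0
        rw [rank_eq_zero_iff] at h0
        obtain ⟨a, ha, h1⟩ := h0 1
        apply hh a ha
        calc a • h = (a • (1 : S)) • h := by rw [smul_assoc, one_smul]
          _ = 0 := by rw [h1, zero_smul]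
      exact Nat.pos_of_ne_zero (by
        intro h0
        have := Cardinal.cast_toNat_of_lt_aleph0 hfin
        rw [show Cardinal.toNat (Module.rank R S) = 0 from h0] at this
        rw [← this] at h1
        exact absurd h1 (by simp))
    rw [hM, hd] at hq
    have hlt : Module.rank R (M ⧸ N.restrictScalars R) < Cardinal.aleph0 := by
      refine lt_of_le_of_lt ?_ (Cardinal.natCast_lt_aleph0 (n := n))
      rw [← hq]
      exact self_le_add_right _ _
    obtain ⟨m, hm⟩ := Cardinal.lt_aleph0.mp hlt
    rw [hm] at hq
    have hmn : m + finrank R S = n := by exact_mod_cast hq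
    have := ih m (by omega) (M ⧸ N) (by rw [hq1, hm])
    rw [← hmn]
    exact (Nat.dvd_add_right this).mpr dvd_rfl

/-- **Integrality.** The rank of `S` over the commutative domain `R` divides the `R`-rank of every
left `S`-module. -/
theorem finrank_dvd (M : Type w) [AddCommGroup M] [Module S M] [Module R M]
    [IsScalarTower R S M] (hfin : Module.rank R S < Cardinal.aleph0) :
    finrank R S ∣ finrank R M := by
  by_cases h : Module.rank R M < Cardinal.aleph0
  · have := rank_dvd_aux (S := S) hfin (finrank R M) M
      (Cardinal.cast_toNat_of_lt_aleph0 h).symm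
    exact this
  · have : finrank R M = 0 := Cardinal.toNat_apply_of_aleph0_le (not_lt.mp h)
    rw [this]
    exact dvd_zero _

end

end Pool.Agent.S9
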