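/-
S9 (MP_ea75ba_gt, note 4239 (1)(a) / note 4250): integrality for group rings.  helper27.

`j : A →* G`, `t : ι → G` with `(a, i) ↦ j a * t i` bijective `A × ι → G` (`ι` finite).  Then
`k[G]` is a free left `k[A]`-module of rank `card ι`; if `k[A]` is a commutative domain and `k[G]`
has no zero divisors, `card ι` divides the `k[A]`-rank of every left `k[G]`-module.
-/
import Pool.Agent.S9.IntRank

namespace Pool.Agent.S9

open Module

universe u v w x y

section free

variable {k : Type u} [Ring k] {A : Type v} [Monoid A] {G : Type w} [Monoid G]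
  (j : A →* G) {ι : Type x} (t : ι → G)

/-- The additive isomorphism of the coset decomposition. -/
noncomputable def cosetEquiv (hbij : Function.Bijective (fun p : ι × A => j p.2 * t p.1)) :
    (ι →₀ MonoidAlgebra k A) ≃+ MonoidAlgebra k G :=
  ((Finsupp.mapRange.addEquiv (ι := ι) (MonoidAlgebra.coeffAddEquiv (R := k) (M := A))).trans
    (Finsupp.curryAddEquiv (α := ι) (β := A) (M := k)).symm).trans
    ((Finsupp.domCongr (Equiv.ofBijective _ hbij)).trans
      (MonoidAlgebra.coeffAddEquiv (R := k) (M := G)).symm)

theorem cosetEquiv_single (hbij : Function.Bijective (fun p : ι × A => j p.2 * t p.1))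
    (i : ι) (a : A) (c : k) :
    cosetEquiv j t hbij (Finsupp.single i (MonoidAlgebra.single a c)) =
      MonoidAlgebra.single (j a * t i) c := by
  classical
  apply MonoidAlgebra.coeff_injective
  rw [MonoidAlgebra.coeff_single]
  simp only [cosetEquiv, AddEquiv.trans_apply]
  rw [Finsupp.mapRange.addEquiv_apply, Finsupp.mapRange_single]
  simp [MonoidAlgebra.coeffAddEquiv]

theorem bijective_linearCombination
    [Module (MonoidAlgebra k A) (MonoidAlgebra k G)]
    (hS : ∀ (r : MonoidAlgebra k A) (s : MonoidAlgebra k G),
      r • s = MonoidAlgebra.mapDomainRingHom k j r * s)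
    (hbij : Function.Bijective (fun p : ι × A => j p.2 * t p.1)) :
    Function.Bijective (Finsupp.linearCombination (MonoidAlgebra k A)
      (fun i : ι => (MonoidAlgebra.single (t i) (1 : k) : MonoidAlgebra k G))) := by
  have key : (Finsupp.linearCombination (MonoidAlgebra k A)
      (fun i : ι => (MonoidAlgebra.single (t i) (1 : k) : MonoidAlgebra k G))).toAddMonoidHom =
      (cosetEquiv (k := k) j t hbij).toAddMonoidHom := by
    refine Finsupp.addHom_ext fun i r => ?_
    induction r using MonoidAlgebra.induction_linear with
    | zero => simp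
    | add a b ha hb => rw [Finsupp.single_add, map_add, map_add, ha, hb]
    | single a c =>
      change Finsupp.linearCombination (MonoidAlgebra k A) _ _ = cosetEquiv (k := k) j t hbij _
      rw [Finsupp.linearCombination_single, cosetEquiv_single, hS]
      simp
  have h2 : (fun z => Finsupp.linearCombination (MonoidAlgebra k A)
      (fun i : ι => (MonoidAlgebra.single (t i) (1 : k) : MonoidAlgebra k G)) z) =
      fun z => cosetEquiv (k := k) j t hbij z := by
    funext z
    exact DFunLike.congr_fun key z
  have h3 := (cosetEquiv (k := k) j t hbij).bijective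
  rw [show (⇑(cosetEquiv (k := k) j t hbij)) = fun z => cosetEquiv (k := k) j t hbij z from rfl,
    ← h2] at h3
  exact h3

/-- The basis `single (t i) 1` of `k[G]` over `k[A]`. -/
noncomputable def cosetBasis
    [Module (MonoidAlgebra k A) (MonoidAlgebra k G)]
    (hS : ∀ (r : MonoidAlgebra k A) (s : MonoidAlgebra k G),
      r • s = MonoidAlgebra.mapDomainRingHom k j r * s)
    (hbij : Function.Bijective (fun p : ι × A => j p.2 * t p.1)) :
    Basis ι (MonoidAlgebra k A) (MonoidAlgebra k G) :=
  Basis.ofRepr (LinearEquiv.ofBijective _ (bijective_linearCombination j t hS hbij)).symm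

end free

section dvd

variable {k : Type u} [CommRing k] [IsDomain k] {A : Type v} [CommMonoid A] [UniqueProds A]
  {G : Type w} [Monoid G] [UniqueProds G] (j : A →* G) {ι : Type x} [Finite ι] (t : ι → G)

/-- **Integrality for group rings.**  `card ι` (the index of `A` in `G`) divides the rank over the
commutative domain `k[A]` of every left `k[G]`-module. -/
theorem card_dvd_finrank (hbij : Function.Bijective (fun p : ι × A => j p.2 * t p.1))
    (M : Type y) [AddCommGroup M] [Module (MonoidAlgebra k G) M] [Module (MonoidAlgebra k A) M]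
    (hM : ∀ (r : MonoidAlgebra k A) (m : M),
      r • m = MonoidAlgebra.mapDomainRingHom k j r • m) :
    Nat.card ι ∣ finrank (MonoidAlgebra k A) M := by
  letI : Module (MonoidAlgebra k A) (MonoidAlgebra k G) :=
    Module.compHom _ (MonoidAlgebra.mapDomainRingHom k j)
  have hS : ∀ (r : MonoidAlgebra k A) (s : MonoidAlgebra k G),
      r • s = MonoidAlgebra.mapDomainRingHom k j r * s := fun r s => rfl
  haveI : IsScalarTower (MonoidAlgebra k A) (MonoidAlgebra k G) (MonoidAlgebra k G) :=
    ⟨fun r s m => by rw [hS, hS, smul_eq_mul, smul_eq_mul, mul_assoc]⟩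
  haveI : IsScalarTower (MonoidAlgebra k A) (MonoidAlgebra k G) M :=
    ⟨fun r s m => by rw [hS, hM, mul_smul]⟩
  let b := cosetBasis j t hS hbij
  have hfin : Module.Finite (MonoidAlgebra k A) (MonoidAlgebra k G) := Module.Finite.of_basis b
  have h := finrank_dvd (R := MonoidAlgebra k A) (S := MonoidAlgebra k G) M
    (Module.rank_lt_aleph0 _ _)
  rwa [Module.finrank_eq_nat_card_basis b] at h

end dvd

end Pool.Agent.S9
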