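/-
S9 (MP_ea75ba_gt), T2: `k[G]` over `k[A]` for a subgroup of finite index, given as an injective
hom `j : A →* G` (module `IntRk` of helper85's plan).  helper27.
-/
import Pool.Agent.S9.IntGrp

namespace Pool.Agent.S9

open Module

universe u v w y

section

variable {A : Type v} [Group A] {G : Type w} [Group G] (j : A →* G)

/-- The right transversal `(out q)⁻¹`, `q` a left coset. -/
noncomputable def rtr (q : G ⧸ j.range) : G := (Quotient.out q)⁻¹

theorem rtr_bijective (hj : Function.Injective j) :
    Function.Bijective (fun p : (G ⧸ j.range) × A => j p.2 * rtr j p.1) := by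
  constructor
  · rintro ⟨q, a⟩ ⟨q', a'⟩ h
    have h1 : j a * (Quotient.out q)⁻¹ = j a' * (Quotient.out q')⁻¹ := h
    have h2 : Quotient.out q * (j a)⁻¹ = Quotient.out q' * (j a')⁻¹ := by
      have := congrArg (fun x => x⁻¹) h1
      simpa [mul_inv_rev] using this
    have hq : q = q' := by
      have e1 : (QuotientGroup.mk (Quotient.out q * (j a)⁻¹) : G ⧸ j.range) = q := by
        conv_rhs => rw [← QuotientGroup.out_eq' q]
        rw [QuotientGroup.eq]
        refine ⟨a, ?_⟩
        simp [Quotient.out]
      have e2 : (QuotientGroup.mk (Quotient.out q' * (j a')⁻¹) : G ⧸ j.range) = q' := by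
        conv_rhs => rw [← QuotientGroup.out_eq' q']
        rw [QuotientGroup.eq]
        refine ⟨a', ?_⟩
        simp [Quotient.out]
      rw [← e1, h2, e2]
    subst hq
    have h3 : j a = j a' := mul_right_cancel h1
    rw [hj h3]
  · intro g
    let q : G ⧸ j.range := QuotientGroup.mk g⁻¹
    have h : (Quotient.out q)⁻¹ * g⁻¹ ∈ j.range := by
      rw [← QuotientGroup.eq]
      exact QuotientGroup.out_eq' q
    obtain ⟨a, ha⟩ := h
    refine ⟨(q, a⁻¹), ?_⟩
    change j a⁻¹ * (Quotient.out q)⁻¹ = g
    rw [map_inv, ha]
    group

end

section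

variable {k : Type u} [Ring k] {A : Type v} [Group A] {G : Type w} [Group G] (j : A →* G)

/-- The left `k[A]`-module structure on `k[G]` along `j`. -/
@[reducible] noncomputable def modAG (k : Type u) [Ring k] (j : A →* G) :
    Module (MonoidAlgebra k A) (MonoidAlgebra k G) :=
  Module.compHom _ (MonoidAlgebra.mapDomainRingHom k j)

theorem modAG_smul (r : MonoidAlgebra k A) (s : MonoidAlgebra k G) :
    (modAG k j).toSMul.smul r s = MonoidAlgebra.mapDomainRingHom k j r * s := rfl

theorem modAG_tower :
    letI := modAG k j
    IsScalarTower (MonoidAlgebra k A) (MonoidAlgebra k G) (MonoidAlgebra k G) := by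
  letI := modAG k j
  exact ⟨fun r s m => by
    change (MonoidAlgebra.mapDomainRingHom k j r * s) * m =
      MonoidAlgebra.mapDomainRingHom k j r * (s * m)
    rw [mul_assoc]⟩

/-- `k[G]` is free over `k[A]` with basis a right transversal. -/
noncomputable def basisAG (hj : Function.Injective j) :
    letI := modAG k j
    Basis (G ⧸ j.range) (MonoidAlgebra k A) (MonoidAlgebra k G) :=
  letI := modAG k j
  cosetBasis j (rtr j) (fun _ _ => rfl) (rtr_bijective j hj)

theorem modAG_finite (hj : Function.Injective j) [j.range.FiniteIndex] :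
    letI := modAG k j
    Module.Finite (MonoidAlgebra k A) (MonoidAlgebra k G) := by
  letI := modAG k j
  haveI : Finite (G ⧸ j.range) := inferInstance
  exact Module.Finite.of_basis (basisAG (k := k) j hj)

theorem modAG_finrank [StrongRankCondition (MonoidAlgebra k A)] (hj : Function.Injective j) :
    letI := modAG k j
    finrank (MonoidAlgebra k A) (MonoidAlgebra k G) = j.range.index := by
  letI := modAG k j
  rw [Module.finrank_eq_nat_card_basis (basisAG (k := k) j hj)]
  rfl

theorem modAG_rank [StrongRankCondition (MonoidAlgebra k A)] (hj : Function.Injective j)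
    [j.range.FiniteIndex] :
    letI := modAG k j
    Module.rank (MonoidAlgebra k A) (MonoidAlgebra k G) = (j.range.index : Cardinal) := by
  letI := modAG k j
  haveI := modAG_finite (k := k) j hj
  rw [← modAG_finrank (k := k) j hj, Module.finrank_eq_rank]

end

section

variable {k : Type u} [CommRing k] [IsDomain k] {A : Type v} [CommGroup A] [UniqueProds A]
  {G : Type w} [Group G] [UniqueProds G] (j : A →* G)

/-- **Integrality for group rings, index form.** -/
theorem index_dvd_finrank (hj : Function.Injective j) (hfi : j.range.index ≠ 0)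
    (M : Type y) [AddCommGroup M] [Module (MonoidAlgebra k G) M] [Module (MonoidAlgebra k A) M]
    (hM : ∀ (r : MonoidAlgebra k A) (m : M),
      r • m = MonoidAlgebra.mapDomainRingHom k j r • m) :
    j.range.index ∣ finrank (MonoidAlgebra k A) M := by
  haveI : j.range.FiniteIndex := ⟨hfi⟩
  exact card_dvd_finrank j (rtr j) (rtr_bijective j hj) M hM

end

end Pool.Agent.S9
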