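/-
S9 (MP_ea75ba_gt), T2: integrality, abstract form.  helper27.

`Q` with unique products, `A` an abelian subgroup of finite index, `K` = fraction field of
`F_2[A]`, `Z` a `K`-space with an ADDITIVE action of `Q` on which `A` acts through `K`:
then `[Q : A]` divides `dim_K Z`.
-/
import Pool.Agent.S9.IntRk

set_option autoImplicit false

namespace Pool.Agent.S9

open Module

universe u v w y z

section

variable {A : Type v} [CommGroup A] {Q : Type w} [Group Q] (j : A →* Q)
  {K : Type y} [Field K] [Algebra (MonoidAlgebra (ZMod 2) A) K]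
  {Z : Type z} [AddCommGroup Z] [Module K Z]

/-- the scalars `ZMod 2` in the endomorphisms of `Z` -/
noncomputable def scal (A : Type v) [CommGroup A] (K : Type y) [Field K]
    [Algebra (MonoidAlgebra (ZMod 2) A) K] (Z : Type z) [AddCommGroup Z] [Module K Z] :
    ZMod 2 →+* AddMonoid.End Z :=
  (Module.toAddMonoidEnd K Z).comp
    ((algebraMap (MonoidAlgebra (ZMod 2) A) K).comp MonoidAlgebra.singleOneRingHom)

theorem scal_comm (x : ZMod 2) (f : AddMonoid.End Z) : Commute (scal A K Z x) f := by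
  have h : x = 0 ∨ x = 1 := by
    fin_cases x
    · exact Or.inl rfl
    · exact Or.inr rfl
  rcases h with h | h
  · rw [h, map_zero]
    exact Commute.zero_left f
  · rw [h, map_one]
    exact Commute.one_left f

/-- the action of the group ring of `Q` on `Z` -/
noncomputable def actQ (A : Type v) [CommGroup A] (K : Type y) [Field K]
    [Algebra (MonoidAlgebra (ZMod 2) A) K] (L : Q →* AddMonoid.End Z) [Module K Z] :
    MonoidAlgebra (ZMod 2) Q →+* AddMonoid.End Z :=
  MonoidAlgebra.liftNCRingHom (scal A K Z) L (fun x g => scal_comm (A := A) (K := K) x (L g))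

theorem actQ_comp (L : Q →* AddMonoid.End Z)
    (hL : ∀ (a : A) (z : Z), L (j a) z =
      algebraMap (MonoidAlgebra (ZMod 2) A) K (MonoidAlgebra.single a 1) • z) :
    (actQ A K L).comp (MonoidAlgebra.mapDomainRingHom (ZMod 2) j) =
      (Module.toAddMonoidEnd K Z).comp (algebraMap (MonoidAlgebra (ZMod 2) A) K) := by
  refine MonoidAlgebra.ringHom_ext (fun r => ?_) (fun a => ?_)
  · rw [RingHom.comp_apply, RingHom.comp_apply]
    have h1 : MonoidAlgebra.mapDomainRingHom (ZMod 2) j (MonoidAlgebra.single 1 r) =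
        MonoidAlgebra.single 1 r := by
      simp
    rw [h1]
    simp [actQ, scal]
  · rw [RingHom.comp_apply, RingHom.comp_apply]
    have h1 : MonoidAlgebra.mapDomainRingHom (ZMod 2) j (MonoidAlgebra.single a 1) =
        MonoidAlgebra.single (j a) 1 := by
      simp
    rw [h1]
    ext z
    have h2 : actQ A K L (MonoidAlgebra.single (j a) 1) = L (j a) := by
      simp [actQ]
    rw [h2, hL]
    rfl

/-- **Integrality, abstract form.** -/
theorem int_core' [UniqueProds A] [UniqueProds Q] (hj : Function.Injective j)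
    (hfi : j.range.index ≠ 0) [IsFractionRing (MonoidAlgebra (ZMod 2) A) K]
    (L : Q →* AddMonoid.End Z)
    (hL : ∀ (a : A) (z : Z), L (j a) z =
      algebraMap (MonoidAlgebra (ZMod 2) A) K (MonoidAlgebra.single a 1) • z) :
    j.range.index ∣ finrank K Z := by
  letI : Module (MonoidAlgebra (ZMod 2) Q) Z := Module.compHom Z (actQ A K L)
  letI : Module (MonoidAlgebra (ZMod 2) A) Z :=
    Module.compHom Z (algebraMap (MonoidAlgebra (ZMod 2) A) K)
  haveI : IsScalarTower (MonoidAlgebra (ZMod 2) A) K Z := ⟨fun r s m => by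
    rw [Algebra.smul_def, mul_smul]
    rfl⟩
  have h := index_dvd_finrank (k := ZMod 2) j hj hfi Z (fun r m => by
    have h1 := DFunLike.congr_fun (actQ_comp j L hL) r
    exact (DFunLike.congr_fun h1 m).symm)
  rwa [← IsFractionRing.finrank_right_eq (S := K)] at h

end

section

variable {G : Type w} [Group G] {Γ : Subgroup G} {A : Type v} [CommGroup A] [UniqueProds A]
  {K : Type y} [Field K] [Algebra (MonoidAlgebra (ZMod 2) A) K]
  [IsFractionRing (MonoidAlgebra (ZMod 2) A) K] {Z : Type z} [AddCommGroup Z] [Module K Z]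

/-- **Integrality on the level of the group**: `Γ ≤ G` of finite index, `ab : Γ → A` onto, the
kernel `N` of `ab` is normal in `G`, `G / N` has unique products, `G` acts additively on the
`K`-space `Z` and `γ ∈ Γ` acts as the scalar `ab γ`. -/
theorem int_core (hfi : Γ.index ≠ 0) (ab : Γ →* A) (hab : Function.Surjective ab)
    (N : Subgroup G) [N.Normal] (hN : ∀ g : G, g ∈ N ↔ ∃ h : g ∈ Γ, ab ⟨g, h⟩ = 1)
    [UniqueProds (G ⧸ N)] (L : G →* AddMonoid.End Z)
    (hL : ∀ (γ : Γ) (z : Z), L γ z =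
      algebraMap (MonoidAlgebra (ZMod 2) A) K (MonoidAlgebra.single (ab γ) 1) • z) :
    Γ.index ∣ finrank K Z := by
  classical
  -- the quotient map
  let q : G →* G ⧸ N := QuotientGroup.mk' N
  have hker : ab.ker ≤ (q.comp Γ.subtype).ker := by
    intro γ hγ
    rw [MonoidHom.mem_ker] at hγ ⊢
    change (QuotientGroup.mk (γ : G) : G ⧸ N) = 1
    rw [QuotientGroup.eq_one_iff, hN]
    exact ⟨γ.2, hγ⟩
  let j : A →* G ⧸ N := (QuotientGroup.lift ab.ker (q.comp Γ.subtype) hker).comp
    (QuotientGroup.quotientKerEquivOfSurjective ab hab).symm.toMonoidHom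
  have hjab : ∀ γ : Γ, j (ab γ) = q γ := by
    intro γ
    have h1 : (QuotientGroup.quotientKerEquivOfSurjective ab hab).symm (ab γ) =
        QuotientGroup.mk γ := by
      rw [MulEquiv.symm_apply_eq]
      rfl
    change (QuotientGroup.lift ab.ker (q.comp Γ.subtype) hker)
      ((QuotientGroup.quotientKerEquivOfSurjective ab hab).symm (ab γ)) = q γ
    rw [h1]
    rfl
  have hj : Function.Injective j := by
    rw [injective_iff_map_eq_one]
    intro a ha
    obtain ⟨γ, rfl⟩ := hab a
    rw [hjab] at ha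
    have h2 : (γ : G) ∈ N := (QuotientGroup.eq_one_iff (γ : G)).mp ha
    obtain ⟨h3, h4⟩ := (hN γ).mp h2
    exact h4
  have hrange : j.range = Γ.map q := by
    ext x
    constructor
    · rintro ⟨a, rfl⟩
      obtain ⟨γ, rfl⟩ := hab a
      rw [hjab]
      exact ⟨γ, γ.2, rfl⟩
    · rintro ⟨g, hg, rfl⟩
      exact ⟨ab ⟨g, hg⟩, hjab ⟨g, hg⟩⟩
  have hqker : q.ker = N := QuotientGroup.ker_mk' N
  have hNΓ : N ≤ Γ := fun g hg => ((hN g).mp hg).1
  have hindex : j.range.index = Γ.index := by
    rw [hrange]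
    exact Subgroup.index_map_eq Γ (QuotientGroup.mk'_surjective N) (by rw [hqker]; exact hNΓ)
  -- the action of the quotient
  have hLN : N ≤ L.ker := by
    intro g hg
    obtain ⟨h1, h2⟩ := (hN g).mp hg
    rw [MonoidHom.mem_ker]
    ext z
    have h3 := hL ⟨g, h1⟩ z
    rw [h2] at h3
    have h4 : algebraMap (MonoidAlgebra (ZMod 2) A) K (MonoidAlgebra.single 1 1) = 1 := by
      rw [← MonoidAlgebra.one_def, map_one]
    rw [h4, one_smul] at h3
    exact h3
  let L' : G ⧸ N →* AddMonoid.End Z := QuotientGroup.lift N L hLN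
  have hL' : ∀ (a : A) (z : Z), L' (j a) z =
      algebraMap (MonoidAlgebra (ZMod 2) A) K (MonoidAlgebra.single a 1) • z := by
    intro a z
    obtain ⟨γ, rfl⟩ := hab a
    rw [hjab, ← hL γ z]
    rfl
  have h := int_core' j hj (by rw [hindex]; exact hfi) L' hL'
  rwa [hindex] at h

/-- the same, with `γ ∈ Γ` acting as the scalar `(ab γ)⁻¹` -/
theorem int_core_inv (hfi : Γ.index ≠ 0) (ab : Γ →* A) (hab : Function.Surjective ab)
    (N : Subgroup G) [N.Normal] (hN : ∀ g : G, g ∈ N ↔ ∃ h : g ∈ Γ, ab ⟨g, h⟩ = 1)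
    [UniqueProds (G ⧸ N)] (L : G →* AddMonoid.End Z)
    (hL : ∀ (γ : Γ) (z : Z), L γ z =
      algebraMap (MonoidAlgebra (ZMod 2) A) K (MonoidAlgebra.single (ab γ)⁻¹ 1) • z) :
    Γ.index ∣ finrank K Z := by
  refine int_core (K := K) hfi ab⁻¹ (fun a => ?_) N (fun g => ?_) L (fun γ z => ?_)
  · obtain ⟨γ, hγ⟩ := hab a⁻¹
    exact ⟨γ, by rw [MonoidHom.inv_apply, hγ, inv_inv]⟩
  · rw [hN g]
    constructor
    · rintro ⟨h, h1⟩
      exact ⟨h, by rw [MonoidHom.inv_apply, h1, inv_one]⟩
    · rintro ⟨h, h1⟩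
      exact ⟨h, by rw [MonoidHom.inv_apply] at h1; exact inv_eq_one.mp h1⟩
  · rw [MonoidHom.inv_apply]
    exact hL γ z

end

end Pool.Agent.S9
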