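/-
S9 (MP_ea75ba_gt), T2: the left action of `W` on the functions `c : T → W → K` and integrality of
the dimension of every stable subspace of `Γ`-equivariant functions.  helper27.

`Γ` normal in `W`, `ab : Γ → A` onto a commutative group, the kernel of `ab` stable under the
conjugations by `W`, `K` the fraction field of `F_2[A]`;
`(L_g c) t w = σ_g (c t (g⁻¹ w))`, `σ_g (ab γ) = ab (g γ g⁻¹)`.
-/
import Pool.Agent.S9.IntM

set_option autoImplicit false

namespace Pool.Agent.S9

open Module

universe u v w y z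

section Act

variable {W : Type w} [Group W] {Γ : Subgroup W} [Γ.Normal] {A : Type v} [CommGroup A]
  (ab : Γ →* A) (hab : Function.Surjective ab)
  (hconj : ∀ (w : W) (γ : Γ), ab γ = 1 → ab (MulAut.conjNormal w γ) = 1)

/-- the automorphism of `A` induced by the conjugation by `w` -/
noncomputable def alpha (w : W) : A →* A :=
  (QuotientGroup.lift ab.ker (ab.comp (MulAut.conjNormal w : MulAut Γ).toMonoidHom)
    (fun γ hγ => hconj w γ hγ)).comp
    (QuotientGroup.quotientKerEquivOfSurjective ab hab).symm.toMonoidHom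

theorem alpha_ab (w : W) (γ : Γ) :
    alpha ab hab hconj w (ab γ) = ab (MulAut.conjNormal w γ) := by
  have h1 : (QuotientGroup.quotientKerEquivOfSurjective ab hab).symm (ab γ) =
      QuotientGroup.mk γ := by
    rw [MulEquiv.symm_apply_eq]
    rfl
  change (QuotientGroup.lift ab.ker (ab.comp (MulAut.conjNormal w : MulAut Γ).toMonoidHom)
    (fun γ hγ => hconj w γ hγ))
    ((QuotientGroup.quotientKerEquivOfSurjective ab hab).symm (ab γ)) = _
  rw [h1]
  rfl

theorem alpha_mul (w w' : W) (a : A) :
    alpha ab hab hconj (w * w') a = alpha ab hab hconj w (alpha ab hab hconj w' a) := by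
  obtain ⟨γ, rfl⟩ := hab a
  rw [alpha_ab, alpha_ab, alpha_ab, map_mul]
  rfl

theorem alpha_one (a : A) : alpha ab hab hconj 1 a = a := by
  obtain ⟨γ, rfl⟩ := hab a
  rw [alpha_ab, map_one]
  rfl

theorem alpha_mem (g : Γ) (a : A) : alpha ab hab hconj g a = a := by
  obtain ⟨γ, rfl⟩ := hab a
  rw [alpha_ab]
  have h : MulAut.conjNormal (g : W) γ = g * γ * g⁻¹ := by
    apply Subtype.ext
    rw [MulAut.conjNormal_apply]
    rfl
  rw [h, map_mul, map_mul, map_inv, mul_comm (ab g), mul_inv_cancel_right]

theorem alpha_injective (w : W) : Function.Injective (alpha ab hab hconj w) := by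
  intro a b h
  have h1 := congrArg (alpha ab hab hconj w⁻¹) h
  rw [← alpha_mul, ← alpha_mul, inv_mul_cancel, alpha_one, alpha_one] at h1
  exact h1

variable {K : Type y} [Field K] [Algebra (MonoidAlgebra (ZMod 2) A) K]
  [IsFractionRing (MonoidAlgebra (ZMod 2) A) K]

theorem sigma_aux (w : W) : Function.Injective
    ((algebraMap (MonoidAlgebra (ZMod 2) A) K).comp
      (MonoidAlgebra.mapDomainRingHom (ZMod 2) (alpha ab hab hconj w))) := by
  rw [RingHom.coe_comp]
  refine (IsFractionRing.injective (MonoidAlgebra (ZMod 2) A) K).comp ?_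
  exact MonoidAlgebra.mapDomain_injective (alpha_injective ab hab hconj w)

/-- the endomorphism of `K` induced by `alpha w` -/
noncomputable def sigma (K : Type y) [Field K] [Algebra (MonoidAlgebra (ZMod 2) A) K]
    [IsFractionRing (MonoidAlgebra (ZMod 2) A) K] (w : W) : K →+* K :=
  IsFractionRing.lift (sigma_aux (K := K) ab hab hconj w)

theorem sigma_algebraMap (w : W) (x : MonoidAlgebra (ZMod 2) A) :
    sigma ab hab hconj K w (algebraMap _ K x) =
      algebraMap _ K (MonoidAlgebra.mapDomainRingHom (ZMod 2) (alpha ab hab hconj w) x) := by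
  unfold sigma
  rw [IsFractionRing.lift_algebraMap]
  rfl

theorem sigma_single (w : W) (a : A) :
    sigma ab hab hconj K w (algebraMap (MonoidAlgebra (ZMod 2) A) K
      (MonoidAlgebra.single a 1)) =
      algebraMap (MonoidAlgebra (ZMod 2) A) K
        (MonoidAlgebra.single (alpha ab hab hconj w a) 1) := by
  rw [sigma_algebraMap]
  simp

/-- two ring homs from `K` which agree on the monomials are equal -/
theorem K_ext {f g : K →+* K}
    (h : ∀ a : A, f (algebraMap (MonoidAlgebra (ZMod 2) A) K (MonoidAlgebra.single a 1)) =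
      g (algebraMap (MonoidAlgebra (ZMod 2) A) K (MonoidAlgebra.single a 1))) : f = g := by
  refine IsLocalization.ringHom_ext (nonZeroDivisors (MonoidAlgebra (ZMod 2) A)) ?_
  refine MonoidAlgebra.ringHom_ext (fun r => ?_) (fun a => h a)
  have hr : r = 0 ∨ r = 1 := by
    fin_cases r
    · exact Or.inl rfl
    · exact Or.inr rfl
  rcases hr with hr | hr
  · rw [hr, MonoidAlgebra.single_zero, map_zero, map_zero]
  · rw [hr]
    exact h 1

theorem sigma_mul (w w' : W) :
    sigma ab hab hconj K (w * w') = (sigma ab hab hconj K w).comp (sigma ab hab hconj K w') := by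
  refine K_ext (A := A) fun a => ?_
  rw [RingHom.comp_apply, sigma_single, sigma_single, sigma_single, alpha_mul]

theorem sigma_one : sigma ab hab hconj K 1 = RingHom.id K := by
  refine K_ext (A := A) fun a => ?_
  rw [sigma_single, alpha_one]
  rfl

theorem sigma_mem (g : Γ) : sigma ab hab hconj K (g : W) = RingHom.id K := by
  refine K_ext (A := A) fun a => ?_
  rw [sigma_single, alpha_mem]
  rfl

/-- the left action of `W` on the functions with values in `K` -/
noncomputable def Lact (K : Type y) [Field K] [Algebra (MonoidAlgebra (ZMod 2) A) K]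
    [IsFractionRing (MonoidAlgebra (ZMod 2) A) K] (T : Type z) :
    W →* AddMonoid.End (T → W → K) where
  toFun g :=
    { toFun := fun c t w => sigma ab hab hconj K g (c t (g⁻¹ * w))
      map_zero' := by
        funext t w
        exact map_zero _
      map_add' := fun c d => by
        funext t w
        exact map_add _ _ _ }
  map_one' := by
    refine AddMonoidHom.ext fun c => ?_
    funext t w
    change sigma ab hab hconj K 1 (c t (1⁻¹ * w)) = c t w
    rw [sigma_one, inv_one, one_mul]
    rfl
  map_mul' g h := by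
    refine AddMonoidHom.ext fun c => ?_
    funext t w
    change sigma ab hab hconj K (g * h) (c t ((g * h)⁻¹ * w)) =
      sigma ab hab hconj K g (sigma ab hab hconj K h (c t (h⁻¹ * (g⁻¹ * w))))
    rw [sigma_mul, mul_inv_rev, mul_assoc]
    rfl

theorem Lact_apply {T : Type z} (g : W) (c : T → W → K) (t : T) (w : W) :
    Lact ab hab hconj K T g c t w = sigma ab hab hconj K g (c t (g⁻¹ * w)) := rfl

/-- the left action preserves the equivariance -/
theorem Lact_equiv {T : Type z} (g : W) (c : T → W → K)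
    (hc : ∀ (t : T) (γ : Γ) (w : W), c t (γ * w) =
      algebraMap (MonoidAlgebra (ZMod 2) A) K (MonoidAlgebra.single (ab γ) 1) * c t w)
    (t : T) (γ : Γ) (w : W) : Lact ab hab hconj K T g c t (γ * w) =
      algebraMap (MonoidAlgebra (ZMod 2) A) K (MonoidAlgebra.single (ab γ) 1) *
        Lact ab hab hconj K T g c t w := by
  rw [Lact_apply, Lact_apply]
  have h1 : g⁻¹ * (γ * w) = ((MulAut.conjNormal g⁻¹ γ : Γ) : W) * (g⁻¹ * w) := by
    rw [MulAut.conjNormal_apply]
    group
  rw [h1, hc, map_mul, sigma_single, alpha_ab]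
  congr 4
  rw [map_inv]
  exact (MulAut.conjNormal g : MulAut Γ).apply_symm_apply γ

/-- an element of `Γ` acts on the equivariant functions as a scalar -/
theorem Lact_mem {T : Type z} (γ : Γ) (c : T → W → K)
    (hc : ∀ (t : T) (γ : Γ) (w : W), c t (γ * w) =
      algebraMap (MonoidAlgebra (ZMod 2) A) K (MonoidAlgebra.single (ab γ) 1) * c t w) :
    Lact ab hab hconj K T γ c =
      algebraMap (MonoidAlgebra (ZMod 2) A) K (MonoidAlgebra.single (ab γ)⁻¹ 1) • c := by
  funext t w
  rw [Lact_apply, sigma_mem]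
  change c t ((γ : W)⁻¹ * w) = _
  have h := hc t γ⁻¹ w
  rw [map_inv] at h
  exact h

/-- **Integrality for stable subspaces.** -/
theorem index_dvd_stable [UniqueProds A] {T : Type z} (Γ₀ : Subgroup W) (hle : Γ ≤ Γ₀)
    (hfi : Γ.relIndex Γ₀ ≠ 0)
    (N : Subgroup Γ₀) [N.Normal] (hN : ∀ g : Γ₀, g ∈ N ↔ ∃ h : (g : W) ∈ Γ, ab ⟨g, h⟩ = 1)
    [UniqueProds (Γ₀ ⧸ N)] (S : Submodule K (T → W → K))
    (hS : ∀ c ∈ S, ∀ (t : T) (γ : Γ) (w : W), c t (γ * w) =
      algebraMap (MonoidAlgebra (ZMod 2) A) K (MonoidAlgebra.single (ab γ) 1) * c t w)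
    (hst : ∀ g ∈ Γ₀, ∀ c ∈ S, Lact ab hab hconj K T g c ∈ S) :
    Γ.relIndex Γ₀ ∣ finrank K S := by
  -- the action of `Γ₀` on `S`
  let L : Γ₀ →* AddMonoid.End S :=
    { toFun := fun g =>
        { toFun := fun c => ⟨Lact ab hab hconj K T g c.1, hst g g.2 c.1 c.2⟩
          map_zero' := Subtype.ext (map_zero _)
          map_add' := fun c d => Subtype.ext (map_add _ _ _) }
      map_one' := by
        refine AddMonoidHom.ext fun c => Subtype.ext ?_
        change Lact ab hab hconj K T ((1 : Γ₀) : W) c.1 = c.1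
        rw [Subgroup.coe_one, map_one]
        rfl
      map_mul' := fun g h => by
        refine AddMonoidHom.ext fun c => Subtype.ext ?_
        change Lact ab hab hconj K T ((g * h : Γ₀) : W) c.1 = _
        rw [Subgroup.coe_mul, map_mul]
        rfl }
  -- the subgroup `Γ` of `Γ₀`
  let e : Γ.subgroupOf Γ₀ ≃* Γ := Subgroup.subgroupOfEquivOfLe hle
  have he : ∀ γ : Γ.subgroupOf Γ₀, ((e γ : Γ) : W) = ((γ : Γ₀) : W) := fun γ => rfl
  have hab' : Function.Surjective (ab.comp e.toMonoidHom) := hab.comp e.surjective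
  refine int_core_inv (K := K) (Γ := Γ.subgroupOf Γ₀) hfi (ab.comp e.toMonoidHom) hab' N
    (fun g => ?_) L (fun γ c => ?_)
  · rw [hN g]
    constructor
    · rintro ⟨h, h1⟩
      exact ⟨h, h1⟩
    · rintro ⟨h, h1⟩
      exact ⟨h, h1⟩
  · apply Subtype.ext
    exact Lact_mem ab hab hconj (e γ) c.1 (hS c.1 c.2)

end Act

end Pool.Agent.S9
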