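import Mathlib

/-!
# Project S9, integrality: extensions of groups with unique products
-/

set_option autoImplicit false

namespace Pool.Agent.S9

/-! ### Unique products -/

/-- groups with unique products are closed under extensions -/
theorem up_ext {G H : Type*} [Group G] [Group H] (f : G →* H) [UniqueProds H]
    [UniqueProds f.ker] : UniqueProds G where
  uniqueMul_of_nonempty := by
    classical
    intro A B hA hB
    obtain ⟨α, hα, β, hβ, hu⟩ := UniqueProds.uniqueMul_of_nonempty
      (hA.image f) (hB.image f)
    obtain ⟨a, ha, rfl⟩ := Finset.mem_image.1 hα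
    obtain ⟨b, hb, rfl⟩ := Finset.mem_image.1 hβ
    have iA : Function.Injective fun n : f.ker => a * (n : G) := fun x y h =>
      Subtype.ext (mul_left_cancel h)
    have iB : Function.Injective fun n : f.ker => (n : G) * b := fun x y h =>
      Subtype.ext (mul_right_cancel h)
    have nA : (A.preimage _ iA.injOn).Nonempty := ⟨1, by simpa using ha⟩
    have nB : (B.preimage _ iB.injOn).Nonempty := ⟨1, by simpa using hb⟩
    obtain ⟨m, hm, n, hn, hmn⟩ := UniqueProds.uniqueMul_of_nonempty nA nB
    rw [Finset.mem_preimage] at hm hn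
    refine ⟨a * m, hm, n * b, hn, ?_⟩
    intro x y hx hy hxy
    have h1 : f x * f y = f a * f b := by
      rw [← map_mul, hxy, map_mul, map_mul, map_mul, f.mem_ker.1 m.2, f.mem_ker.1 n.2, mul_one,
        one_mul]
    obtain ⟨h2, h3⟩ := hu (Finset.mem_image_of_mem f hx) (Finset.mem_image_of_mem f hy) h1
    have h4 : a⁻¹ * x ∈ f.ker := by
      rw [f.mem_ker, map_mul, map_inv, h2, inv_mul_cancel]
    have h5 : y * b⁻¹ ∈ f.ker := by
      rw [f.mem_ker, map_mul, map_inv, h3, mul_inv_cancel]
    obtain ⟨h6, h7⟩ := hmn (a := ⟨a⁻¹ * x, h4⟩) (b := ⟨y * b⁻¹, h5⟩)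
      (by rw [Finset.mem_preimage]; simpa using hx) (by rw [Finset.mem_preimage]; simpa using hy)
      (by
        apply Subtype.ext
        show a⁻¹ * x * (y * b⁻¹) = m * n
        calc a⁻¹ * x * (y * b⁻¹) = a⁻¹ * (x * y) * b⁻¹ := by group
          _ = a⁻¹ * (a * m * (n * b)) * b⁻¹ := by rw [hxy]
          _ = m * n := by group)
    have h8 := congrArg Subtype.val h6
    have h9 := congrArg Subtype.val h7
    simp only at h8 h9
    exact ⟨by rw [← h8]; group, by rw [← h9]; group⟩

/-- subgroups -/
theorem up_sub {G : Type*} [Group G] (H : Subgroup G) [UniqueProds G] : UniqueProds H :=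
  UniqueProds.of_injective_mulHom (H.subtype : H →ₙ* G) H.subtype_injective inferInstance

/-- the group ring has no zero divisors -/
theorem nzd {G : Type*} [Group G] [UniqueProds G] (k : Type*) [Field k] :
    NoZeroDivisors (MonoidAlgebra k G) := inferInstance

/-- one step of a tower -/
theorem up_step {Q H : Type*} [Group Q] [Group H] (A B : Subgroup Q) (f : A →* H) [UniqueProds H]
    [UniqueProds B] (h : ∀ x : A, f x = 1 → (x : Q) ∈ B) : UniqueProds A := by
  have : UniqueProds f.ker :=
    UniqueProds.of_injective_mulHom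
      ({ toFun := fun x => ⟨((x : A) : Q), h x (f.mem_ker.1 x.2)⟩
         map_mul' := fun _ _ => rfl } : f.ker →ₙ* B)
      (fun x y hxy => Subtype.ext (Subtype.ext (congrArg (Subtype.val : B → Q) hxy)))
      inferInstance
  exact up_ext f

/-- the integral vectors -/
theorem up_int (I : Type*) : UniqueProds (Multiplicative (I → ℤ)) := inferInstance

end Pool.Agent.S9
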