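import Pool.Agent.S9.Defs
import Pool.Agent.S9.Int

/-!
# Project S9, integrality: the quotient of the tower has unique products
-/

set_option autoImplicit false
set_option linter.unusedSectionVars false

open Finset

namespace Pool.Agent.S9

section Grp

variable {W : Type} [Group W]

private theorem nxt_le' (H : Subgroup W) : nxt H ≤ H := fun _ h => h.1

/-- the elements of `H` on which all homomorphisms to the integers vanish -/
def kr (H : Subgroup W) : Subgroup W where
  carrier := {g | ∃ h : g ∈ H, ∀ f : H →* Multiplicative ℤ, f ⟨g, h⟩ = 1}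
  mul_mem' := by
    rintro a b ⟨ha, ha'⟩ ⟨hb, hb'⟩
    refine ⟨H.mul_mem ha hb, fun f => ?_⟩
    have h : (⟨a * b, H.mul_mem ha hb⟩ : H) = ⟨a, ha⟩ * ⟨b, hb⟩ := rfl
    rw [h, map_mul, ha' f, hb' f, one_mul]
  one_mem' := ⟨H.one_mem, fun f => map_one f⟩
  inv_mem' := by
    rintro a ⟨ha, ha'⟩
    refine ⟨H.inv_mem ha, fun f => ?_⟩
    have h : (⟨a⁻¹, H.inv_mem ha⟩ : H) = (⟨a, ha⟩ : H)⁻¹ := rfl
    rw [h, map_inv, ha' f, inv_one]

theorem mem_kr {H : Subgroup W} {g : W} :
    g ∈ kr H ↔ ∃ h : g ∈ H, ∀ f : H →* Multiplicative ℤ, f ⟨g, h⟩ = 1 := Iff.rfl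

theorem kr_le_nxt (H : Subgroup W) : kr H ≤ nxt H := by
  rintro g ⟨h, hf⟩
  exact ⟨h, fun f => by rw [hf f, toAdd_one]; exact Even.zero⟩

theorem kr_mono {H K : Subgroup W} (h : H ≤ K) : kr H ≤ kr K := by
  rintro g ⟨hg, hf⟩
  exact ⟨h hg, fun f => hf (f.comp (Subgroup.inclusion h))⟩

/-- one step: the image of `H` in the quotient by `N ≤ kr H` -/
theorem up_map {H N : Subgroup W} [N.Normal] (hN : N ≤ kr H)
    (h : UniqueProds ((nxt H).map (QuotientGroup.mk' N))) :
    UniqueProds (H.map (QuotientGroup.mk' N)) := by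
  let p : H →* H.map (QuotientGroup.mk' N) := (QuotientGroup.mk' N).subgroupMap H
  have hp : Function.Surjective p := (QuotientGroup.mk' N).subgroupMap_surjective H
  let φ : H →* ((H →* Multiplicative ℤ) → Multiplicative ℤ) :=
    { toFun := fun g f => f g
      map_one' := by funext f; exact map_one f
      map_mul' := fun a b => by funext f; exact map_mul f a b }
  have hφ : p.ker ≤ φ.ker := by
    rintro ⟨g, hg⟩ h1
    have h2 : (QuotientGroup.mk' N) g = 1 := congrArg Subtype.val (p.mem_ker.1 h1)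
    have h3 : g ∈ N := (QuotientGroup.eq_one_iff g).1 h2
    obtain ⟨_, h4⟩ := hN h3
    rw [φ.mem_ker]
    funext f
    exact h4 f
  let F : H.map (QuotientGroup.mk' N) →* ((H →* Multiplicative ℤ) → Multiplicative ℤ) :=
    MonoidHom.liftOfSurjective p hp ⟨φ, hφ⟩
  have hF : ∀ g, F (p g) = φ g := fun g => MonoidHom.liftOfRightInverse_comp_apply p _ _ ⟨φ, hφ⟩ g
  refine up_step _ ((nxt H).map (QuotientGroup.mk' N)) F ?_
  intro x hx
  obtain ⟨⟨g, hg⟩, rfl⟩ := hp x
  rw [hF] at hx
  have h1 : g ∈ kr H := ⟨hg, fun f => congrFun hx f⟩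
  exact ⟨g, kr_le_nxt H h1, rfl⟩

end Grp

section Tow

variable {V : Type} [DecidableEq V] [Fintype V] {G : SimpleGraph V} {W : Type} [Group W]
  (R : Rac G W)

private theorem T_succ_le' (m : ℕ) : T R (m + 1) ≤ T R m := nxt_le' _

private theorem T_anti' : Antitone (T R) := antitone_nat_of_succ_le (T_succ_le' R)

/-- **the quotients of the tower have unique products** -/
theorem up_T {N : Subgroup W} [N.Normal] {m : ℕ} (hN : N ≤ kr (T R m))
    (h : UniqueProds ((T R m).map (QuotientGroup.mk' N))) {l : ℕ} (hl : l ≤ m) :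
    UniqueProds ((T R l).map (QuotientGroup.mk' N)) := by
  induction hl using Nat.decreasingInduction with
  | self => exact h
  | of_succ k hk ih => exact up_map (hN.trans (kr_mono (T_anti' R hk.le))) ih

/-- the quotient of the last term embeds in the integral vectors -/
theorem up_last {H N : Subgroup W} [N.Normal] {A : Type} [Group A] [UniqueProds A] (ab : H →* A)
    (hN : ∀ g : H, (g : W) ∈ N ↔ ab g = 1) : UniqueProds (H.map (QuotientGroup.mk' N)) := by
  let p : H →* H.map (QuotientGroup.mk' N) := (QuotientGroup.mk' N).subgroupMap H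
  have hp : Function.Surjective p := (QuotientGroup.mk' N).subgroupMap_surjective H
  have hφ : p.ker ≤ ab.ker := by
    rintro ⟨g, hg⟩ h1
    have h2 : (QuotientGroup.mk' N) g = 1 := congrArg Subtype.val (p.mem_ker.1 h1)
    exact ab.mem_ker.2 ((hN ⟨g, hg⟩).1 ((QuotientGroup.eq_one_iff g).1 h2))
  let F : H.map (QuotientGroup.mk' N) →* A := MonoidHom.liftOfSurjective p hp ⟨ab, hφ⟩
  have hF : ∀ g, F (p g) = ab g := fun g => MonoidHom.liftOfRightInverse_comp_apply p _ _ ⟨ab, hφ⟩ g
  refine UniqueProds.of_injective_mulHom (F : _ →ₙ* A) ?_ inferInstance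
  intro x y hxy
  rw [← inv_mul_eq_one]
  have h1 : F (x⁻¹ * y) = 1 := by
    rw [map_mul, map_inv]
    have : F x = F y := hxy
    rw [this, inv_mul_cancel]
  obtain ⟨g, hg⟩ := hp (x⁻¹ * y)
  rw [← hg, hF] at h1
  have h2 : (g : W) ∈ N := (hN g).2 h1
  rw [← hg]
  exact Subtype.ext ((QuotientGroup.eq_one_iff (g : W)).2 h2)

/-- **the quotient of the first term by the kernel of the last one has unique products** -/
theorem up_quot {N : Subgroup W} [N.Normal] {m : ℕ} {A : Type} [Group A] [UniqueProds A]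
    (ab : T R m →* A) (hN : ∀ g : T R m, (g : W) ∈ N ↔ ab g = 1) (hN' : N ≤ kr (T R m)) :
    UniqueProds (T R 0 ⧸ N.subgroupOf (T R 0)) := by
  have h1 := up_T R hN' (up_last ab hN) (Nat.zero_le m)
  let p : T R 0 →* (T R 0).map (QuotientGroup.mk' N) := (QuotientGroup.mk' N).subgroupMap (T R 0)
  have hk : N.subgroupOf (T R 0) ≤ p.ker := by
    intro g hg
    exact Subtype.ext ((QuotientGroup.eq_one_iff (g : W)).2 (Subgroup.mem_subgroupOf.1 hg))
  let q : T R 0 ⧸ N.subgroupOf (T R 0) →* (T R 0).map (QuotientGroup.mk' N) :=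
    QuotientGroup.lift (N.subgroupOf (T R 0)) p fun g hg => p.mem_ker.1 (hk hg)
  refine UniqueProds.of_injective_mulHom (q : _ →ₙ* _) ?_ h1
  intro x y hxy
  rw [← inv_mul_eq_one]
  have h2 : q (x⁻¹ * y) = 1 := by
    rw [map_mul, map_inv]
    have : q x = q y := hxy
    rw [this, inv_mul_cancel]
  obtain ⟨g, hg⟩ := QuotientGroup.mk_surjective (x⁻¹ * y)
  rw [← hg] at h2 ⊢
  have h3 : (QuotientGroup.mk' N) (g : W) = 1 := congrArg Subtype.val h2
  exact (QuotientGroup.eq_one_iff g).2 (Subgroup.mem_subgroupOf.2 ((QuotientGroup.eq_one_iff (g : W)).1 h3))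

end Tow

end Pool.Agent.S9
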