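import Pool.Agent.S9.Defs

/-!
# S9 T1: the tower of a group

For a subgroup `Γ` of a group `G`: `nxt Γ` (in `S9.Defs`) = the elements of `Γ` on which all homomorphisms `Γ → ℤ` are even,
`kz Γ` = those on which all of them vanish; `twr Γ m` is the tower `Γ, nxt Γ, nxt (nxt Γ), ...`.
-/

set_option autoImplicit false

namespace Pool.Agent.S9

variable {G : Type} [Group G] {H : Type} [Group H]

/-- the elements of `Γ` on which all homomorphisms `Γ → ℤ` vanish -/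
def kz (Γ : Subgroup G) : Subgroup G where
  carrier := {g | ∃ h : g ∈ Γ, ∀ f : Γ →* Multiplicative ℤ, f ⟨g, h⟩ = 1}
  one_mem' := ⟨Γ.one_mem, fun f => map_one f⟩
  mul_mem' := by
    rintro a b ⟨ha, h1⟩ ⟨hb, h2⟩
    refine ⟨Γ.mul_mem ha hb, fun f => ?_⟩
    have h : f ⟨a * b, Γ.mul_mem ha hb⟩ = f ⟨a, ha⟩ * f ⟨b, hb⟩ := map_mul f ⟨a, ha⟩ ⟨b, hb⟩
    rw [h, h1 f, h2 f, mul_one]
  inv_mem' := by
    rintro a ⟨ha, h1⟩
    refine ⟨Γ.inv_mem ha, fun f => ?_⟩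
    have h : f ⟨a⁻¹, Γ.inv_mem ha⟩ = (f ⟨a, ha⟩)⁻¹ := map_inv f ⟨a, ha⟩
    rw [h, h1 f, inv_one]

/-- the tower `Γ, nxt Γ, nxt (nxt Γ), ...` -/
def twr (Γ : Subgroup G) : ℕ → Subgroup G
  | 0 => Γ
  | m + 1 => nxt (twr Γ m)

@[simp] theorem twr_zero (Γ : Subgroup G) : twr Γ 0 = Γ := rfl

@[simp] theorem twr_succ (Γ : Subgroup G) (m : ℕ) : twr Γ (m + 1) = nxt (twr Γ m) := rfl

theorem mem_nxt {Γ : Subgroup G} {g : G} :
    g ∈ nxt Γ ↔ ∃ h : g ∈ Γ, ∀ f : Γ →* Multiplicative ℤ, Even (f ⟨g, h⟩).toAdd := Iff.rfl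

theorem mem_kz {Γ : Subgroup G} {g : G} :
    g ∈ kz Γ ↔ ∃ h : g ∈ Γ, ∀ f : Γ →* Multiplicative ℤ, f ⟨g, h⟩ = 1 := Iff.rfl

theorem nxt_le (Γ : Subgroup G) : nxt Γ ≤ Γ := fun _ h => h.1

theorem kz_le (Γ : Subgroup G) : kz Γ ≤ Γ := fun _ h => h.1

theorem kz_le_nxt (Γ : Subgroup G) : kz Γ ≤ nxt Γ := by
  rintro g ⟨h, h1⟩
  refine ⟨h, fun f => ?_⟩
  rw [h1 f]
  exact Even.zero

theorem twr_add (Γ : Subgroup G) (m n : ℕ) : twr Γ (m + n) = twr (twr Γ m) n := by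
  induction n with
  | zero => rfl
  | succ n ih => rw [← Nat.add_assoc, twr_succ, twr_succ, ih]

theorem twr_anti (Γ : Subgroup G) : Antitone (twr Γ) :=
  antitone_nat_of_succ_le fun _ => nxt_le _

theorem twr_le (Γ : Subgroup G) (m : ℕ) : twr Γ m ≤ Γ := twr_anti Γ (Nat.zero_le m)

/-- functoriality -/
theorem nxt_comap (φ : G →* H) {Γ : Subgroup G} {Δ : Subgroup H} (h : Γ ≤ Δ.comap φ) :
    nxt Γ ≤ (nxt Δ).comap φ := by
  rintro g ⟨hg, h1⟩
  refine ⟨h hg, fun f => ?_⟩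
  let ψ : Γ →* Δ := (φ.comp Γ.subtype).codRestrict Δ fun x => h x.2
  exact h1 (f.comp ψ)

theorem kz_comap (φ : G →* H) {Γ : Subgroup G} {Δ : Subgroup H} (h : Γ ≤ Δ.comap φ) :
    kz Γ ≤ (kz Δ).comap φ := by
  rintro g ⟨hg, h1⟩
  refine ⟨h hg, fun f => ?_⟩
  let ψ : Γ →* Δ := (φ.comp Γ.subtype).codRestrict Δ fun x => h x.2
  exact h1 (f.comp ψ)

theorem twr_comap (φ : G →* H) {Γ : Subgroup G} {Δ : Subgroup H} (h : Γ ≤ Δ.comap φ) (m : ℕ) :
    twr Γ m ≤ (twr Δ m).comap φ := by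
  induction m with
  | zero => exact h
  | succ m ih => exact nxt_comap φ ih

theorem kz_mono {Γ Δ : Subgroup G} (h : Γ ≤ Δ) : kz Γ ≤ kz Δ :=
  kz_comap (MonoidHom.id G) (by rwa [Subgroup.comap_id])

theorem nxt_mono {Γ Δ : Subgroup G} (h : Γ ≤ Δ) : nxt Γ ≤ nxt Δ :=
  nxt_comap (MonoidHom.id G) (by rwa [Subgroup.comap_id])

theorem twr_mono {Γ Δ : Subgroup G} (h : Γ ≤ Δ) (m : ℕ) : twr Γ m ≤ twr Δ m :=
  twr_comap (MonoidHom.id G) (by rwa [Subgroup.comap_id]) m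

/-- `kz (twr Γ m) ≤ kz (twr Γ l)` for `l ≤ m` -/
theorem kz_twr_le (Γ : Subgroup G) {l m : ℕ} (h : l ≤ m) : kz (twr Γ m) ≤ kz (twr Γ l) :=
  kz_mono (twr_anti Γ h)

theorem kz_twr_le_twr (Γ : Subgroup G) {l m : ℕ} (h : l ≤ m) : kz (twr Γ m) ≤ twr Γ (l + 1) :=
  (kz_twr_le Γ h).trans (kz_le_nxt _)

theorem normal_of_comap {Γ : Subgroup G} (h : ∀ g : G, Γ ≤ Γ.comap (MulAut.conj g).toMonoidHom) : Γ.Normal :=
  ⟨fun n hn g => by simpa using h g hn⟩

theorem comap_of_normal {Γ : Subgroup G} (h : Γ.Normal) (g : G) :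
    Γ ≤ Γ.comap (MulAut.conj g).toMonoidHom := fun n hn => by
  simpa using h.conj_mem n hn g

instance nxt_normal (Γ : Subgroup G) [h : Γ.Normal] : (nxt Γ).Normal :=
  normal_of_comap fun g => nxt_comap _ (comap_of_normal h g)

instance kz_normal (Γ : Subgroup G) [h : Γ.Normal] : (kz Γ).Normal :=
  normal_of_comap fun g => kz_comap _ (comap_of_normal h g)

instance twr_normal (Γ : Subgroup G) [h : Γ.Normal] (m : ℕ) : (twr Γ m).Normal :=
  normal_of_comap fun g => twr_comap _ (comap_of_normal h g) m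

instance kz_subgroupOf_normal (Γ : Subgroup G) : ((kz Γ).subgroupOf Γ).Normal :=
  ⟨fun n hn g => by
    obtain ⟨h1, h2⟩ := Subgroup.mem_subgroupOf.1 hn
    refine Subgroup.mem_subgroupOf.2 ⟨(g * n * g⁻¹).2, fun f => ?_⟩
    have h3 : f n = 1 := h2 f
    change f (g * n * g⁻¹) = 1
    rw [map_mul, map_mul, h3, map_inv, mul_one, mul_inv_cancel]⟩

/-- a retraction compatible with the tower: for a subgroup `U` of `G` and a retraction `r : G → U` which maps `Γ` into itself,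
`twr Γ m ∩ U = twr (Γ ∩ U) m` -/
theorem twr_inf {Γ U : Subgroup G} (r : G →* G) (hr : ∀ g, r g ∈ U) (hr' : ∀ g ∈ U, r g = g)
    (hΓ : Γ ≤ Γ.comap r) (m : ℕ) : twr (Γ ⊓ U) m = twr Γ m ⊓ U := by
  apply le_antisymm
  · refine le_inf (twr_mono inf_le_left m) ((twr_le _ m).trans inf_le_right)
  · rintro g ⟨h1, h2⟩
    have h3 : Γ ≤ (Γ ⊓ U).comap r := fun x hx => ⟨hΓ hx, hr x⟩
    have h4 := twr_comap r h3 m h1
    rw [Subgroup.mem_comap, hr' g h2] at h4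
    exact h4

/-- coordinates: `c` is the quotient of `E` by the intersection of the kernels of all homomorphisms to `ℤ` -/
theorem exists_coord (E : Type) [Group E] [hE : Group.FG E] : ∃ (r : ℕ) (c : E →* Multiplicative (Fin r → ℤ)),
    Function.Surjective c ∧ ∀ f : E →* Multiplicative ℤ, ∃ y : Fin r → ℤ, ∀ g, (f g).toAdd = ∑ i, y i * (c g).toAdd i := by
  have h1 : Group.FG (Abelianization E) :=
    Group.fg_of_surjective (f := Abelianization.of) (by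
      intro x
      induction x using QuotientGroup.induction_on with
      | _ z => exact ⟨z, rfl⟩)
  have h2 : Module.Finite ℤ (Additive (Abelianization E)) :=
    Module.Finite.iff_addGroup_fg.2 (AddGroup.fg_iff_mul_fg.2 h1)
  let T := Submodule.torsion ℤ (Additive (Abelianization E))
  have h3 : Module.Free ℤ (Additive (Abelianization E) ⧸ T) := by
    have : Module.IsTorsionFree ℤ (Additive (Abelianization E) ⧸ T) := inferInstance
    exact Module.free_of_finite_type_torsion_free'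
  let b := Module.finBasis ℤ (Additive (Abelianization E) ⧸ T)
  let q : Additive (Abelianization E) →ₗ[ℤ] (Additive (Abelianization E) ⧸ T) := T.mkQ
  let c : E →* Multiplicative (Fin (Module.finrank ℤ (Additive (Abelianization E) ⧸ T)) → ℤ) :=
    (AddMonoidHom.toMultiplicative ((b.equivFun : _ →ₗ[ℤ] _).toAddMonoidHom.comp q.toAddMonoidHom)).comp Abelianization.of
  refine ⟨_, c, ?_, ?_⟩
  · intro x
    obtain ⟨y, hy⟩ := b.equivFun.surjective x.toAdd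
    obtain ⟨z, hz⟩ := T.mkQ_surjective y
    obtain ⟨w, hw⟩ : ∃ w : E, Abelianization.of w = z.toMul := by
      induction z.toMul using QuotientGroup.induction_on with
      | _ z => exact ⟨z, rfl⟩
    refine ⟨w, ?_⟩
    change Multiplicative.ofAdd (b.equivFun (T.mkQ (Additive.ofMul (Abelianization.of w)))) = x
    rw [hw]
    change Multiplicative.ofAdd (b.equivFun (T.mkQ z)) = x
    rw [hz, hy]
    rfl
  · intro f
    let F : Additive (Abelianization E) →ₗ[ℤ] ℤ :=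
      ((MonoidHom.toAdditive (Abelianization.lift f)) : Additive (Abelianization E) →+ ℤ).toIntLinearMap
    have hF : T ≤ LinearMap.ker F := by
      intro x hx
      obtain ⟨a, ha⟩ := (Submodule.mem_torsion_iff x).1 hx
      have h4 : (a : ℤ) • F x = 0 := by
        rw [← map_smul]
        have : (a : ℤ) • x = 0 := ha
        rw [this, map_zero]
      rw [smul_eq_mul, mul_eq_zero] at h4
      rcases h4 with h4 | h4
      · exact absurd h4 (nonZeroDivisors.coe_ne_zero a)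
      · exact h4
    let F' : (Additive (Abelianization E) ⧸ T) →ₗ[ℤ] ℤ := T.liftQ F hF
    refine ⟨fun i => F' (b i), fun g => ?_⟩
    have h5 : (f g).toAdd = F' (T.mkQ (Additive.ofMul (Abelianization.of g))) := by
      have h7 : F' (T.mkQ (Additive.ofMul (Abelianization.of g))) = F (Additive.ofMul (Abelianization.of g)) :=
        Submodule.liftQ_apply T F _
      rw [h7]
      change _ = (Abelianization.lift f (Abelianization.of g)).toAdd
      rw [Abelianization.lift_apply_of]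
    have h6 : ∀ i, (c g).toAdd i = b.equivFun (T.mkQ (Additive.ofMul (Abelianization.of g))) i := fun i => rfl
    rw [h5]
    conv_lhs => rw [← b.sum_equivFun (T.mkQ (Additive.ofMul (Abelianization.of g)))]
    rw [map_sum]
    refine Finset.sum_congr rfl fun i _ => ?_
    rw [map_smul, h6, smul_eq_mul, mul_comm]

theorem sq_mem_nxt {Γ : Subgroup G} {x : G} (h : x ∈ Γ) : x ^ 2 ∈ nxt Γ := by
  refine ⟨Γ.pow_mem h 2, fun f => ?_⟩
  have h1 : f ⟨x ^ 2, Γ.pow_mem h 2⟩ = f ⟨x, h⟩ ^ 2 := map_pow f ⟨x, h⟩ 2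
  rw [h1, toAdd_pow]
  exact ⟨(f ⟨x, h⟩).toAdd, by simp [two_mul]⟩

theorem isPGroup_nxt {Γ : Subgroup G} [Γ.Normal] (h : IsPGroup 2 (G ⧸ Γ)) : IsPGroup 2 (G ⧸ nxt Γ) := by
  intro x
  induction x using QuotientGroup.induction_on with
  | _ x =>
    obtain ⟨k, hk⟩ := h (x : G ⧸ Γ)
    refine ⟨k + 1, ?_⟩
    rw [← QuotientGroup.mk_pow, QuotientGroup.eq_one_iff] at hk ⊢
    rw [pow_succ, pow_mul]
    exact sq_mem_nxt hk

theorem isPGroup_twr {Γ : Subgroup G} [Γ.Normal] (h : IsPGroup 2 (G ⧸ Γ)) (m : ℕ) : IsPGroup 2 (G ⧸ twr Γ m) := by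
  induction m with
  | zero => exact h
  | succ m ih => exact isPGroup_nxt ih

theorem nxt_finiteIndex [Group.FG G] (Γ : Subgroup G) [Γ.FiniteIndex] : (nxt Γ).FiniteIndex := by
  have h1 : Group.FG Γ := Subgroup.fg_of_index_ne_zero Γ
  obtain ⟨r, c, hc, hf⟩ := exists_coord Γ
  let q : (Fin r → ℤ) →+ (Fin r → ZMod 2) :=
    { toFun := fun x i => (x i : ZMod 2), map_zero' := by funext i; simp, map_add' := fun x y => by funext i; simp }
  let φ : Γ →* Multiplicative (Fin r → ZMod 2) := (AddMonoidHom.toMultiplicative q).comp c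
  have h2 : φ.ker.FiniteIndex := inferInstance
  have h3 : φ.ker ≤ (nxt Γ).subgroupOf Γ := by
    intro g hg
    rw [Subgroup.mem_subgroupOf]
    refine ⟨g.2, fun f => ?_⟩
    obtain ⟨y, hy⟩ := hf f
    have h4 : f ⟨(g : G), g.2⟩ = f g := rfl
    rw [h4, hy]
    refine Finset.even_sum _ fun i _ => Even.mul_left ?_ _
    have h5 : q (c g).toAdd i = 0 := congrFun (congrArg Multiplicative.toAdd (MonoidHom.mem_ker.1 hg)) i
    have h6 : (((c g).toAdd i : ℤ) : ZMod 2) = 0 := h5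
    exact even_iff_two_dvd.2 ((ZMod.intCast_zmod_eq_zero_iff_dvd _ 2).1 h6)
  have h7 : ((nxt Γ).subgroupOf Γ).FiniteIndex := Subgroup.finiteIndex_of_le h3
  have h8 := Subgroup.relIndex_mul_index (nxt_le Γ)
  refine ⟨?_⟩
  rw [← h8]
  exact mul_ne_zero h7.index_ne_zero Subgroup.FiniteIndex.index_ne_zero

theorem twr_finiteIndex [Group.FG G] (Γ : Subgroup G) [h : Γ.FiniteIndex] (m : ℕ) : (twr Γ m).FiniteIndex := by
  induction m with
  | zero => exact h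
  | succ m ih =>
    have := ih
    exact nxt_finiteIndex _

theorem index_of_isPGroup {Γ : Subgroup G} [Γ.Normal] [Γ.FiniteIndex] (h : IsPGroup 2 (G ⧸ Γ)) :
    ∃ b, Γ.index = 2 ^ b := by
  have : Finite (G ⧸ Γ) := inferInstance
  rw [Subgroup.index_eq_card]
  exact (IsPGroup.iff_card (p := 2)).1 h

theorem exists_core {Γ : Subgroup G} [Γ.Normal] [Γ.FiniteIndex] (hΓ : IsPGroup 2 (G ⧸ Γ)) {Q : Type} [Group Q]
    [Finite Q] (hQ : IsPGroup 2 Q) (f : Γ →* Q) : ∃ N : Subgroup G, N.Normal ∧ N.FiniteIndex ∧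
      (∀ x : G, ∃ k : ℕ, x ^ 2 ^ k ∈ N) ∧ N ≤ Γ ∧ ∀ (x : G) (_ : x ∈ N) (h : x ∈ Γ), f ⟨x, h⟩ = 1 := by
  let K : Subgroup G := f.ker.map Γ.subtype
  have hKΓ : K ≤ Γ := by
    rintro _ ⟨x, _, rfl⟩
    exact x.2
  have hK1 : ∀ (x : G) (_ : x ∈ K) (h : x ∈ Γ), f ⟨x, h⟩ = 1 := by
    rintro _ ⟨x, hx, rfl⟩ h
    exact hx
  have hK2 : ∀ x (h : x ∈ Γ), f ⟨x, h⟩ = 1 → x ∈ K := fun x h h1 => ⟨⟨x, h⟩, h1, rfl⟩
  have hfi : K.FiniteIndex := by
    have h1 : f.ker.FiniteIndex := inferInstance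
    have h2 : K.subgroupOf Γ = f.ker := by
      ext x
      rw [Subgroup.mem_subgroupOf]
      exact ⟨fun h => hK1 _ h x.2, fun h => hK2 _ x.2 h⟩
    have h8 := Subgroup.relIndex_mul_index hKΓ
    refine ⟨?_⟩
    rw [← h8, Subgroup.relIndex, h2]
    exact mul_ne_zero h1.index_ne_zero Subgroup.FiniteIndex.index_ne_zero
  obtain ⟨b, hb⟩ : ∃ b : ℕ, Nat.card Q = 2 ^ b := (IsPGroup.iff_card (p := 2)).1 hQ
  refine ⟨K.normalCore, inferInstance, inferInstance, fun x => ?_, (Subgroup.normalCore_le K).trans hKΓ,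
    fun x hx h => hK1 x (Subgroup.normalCore_le K hx) h⟩
  obtain ⟨k, hk⟩ := hΓ (x : G ⧸ Γ)
  rw [← QuotientGroup.mk_pow, QuotientGroup.eq_one_iff] at hk
  refine ⟨k + b, fun w => ?_⟩
  have h3 : w * x ^ 2 ^ k * w⁻¹ ∈ Γ := Subgroup.Normal.conj_mem inferInstance _ hk w
  have h4 : w * x ^ 2 ^ (k + b) * w⁻¹ = (w * x ^ 2 ^ k * w⁻¹) ^ 2 ^ b := by
    rw [conj_pow, ← pow_mul, ← pow_add]
  rw [h4]
  refine hK2 _ (Γ.pow_mem h3 _) ?_
  have h5 : f ⟨(w * x ^ 2 ^ k * w⁻¹) ^ 2 ^ b, Γ.pow_mem h3 _⟩ = f ⟨w * x ^ 2 ^ k * w⁻¹, h3⟩ ^ 2 ^ b :=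
    map_pow f ⟨w * x ^ 2 ^ k * w⁻¹, h3⟩ _
  rw [h5, ← hb, pow_card_eq_one']

end Pool.Agent.S9
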