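import Pool.Agent.S9.MG2

/-!
# Project S9, block M: effaceability for tuples, extension of cubical cocycles to the tuples
-/

set_option autoImplicit false
set_option linter.unusedSectionVars false

open Finset

namespace Pool.Agent.S9

open Pool.Agent.H19.Cub Pool.Agent.H77.SX Pool.Agent.H77.SW Pool.Agent.H37.TM Pool.Agent.H37.MA
open Pool.Agent.H4.Singer (RGrp gen exists_lift gen_mul_gen gen_inv gen_comm racg)

variable {V : Type} [DecidableEq V] [Fintype V] {G : SimpleGraph V} {P : Type} [Group P]
  (D : PG G P)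

/-! ### the homotopy on the tuples -/

/-- all faces of a tuple have one element less -/
private theorem bdl_len {α : Type} : ∀ (L : List α) (b : List α), bdl L b ≠ 0 →
    b.length + 1 = L.length
  | [], b, h => absurd rfl h
  | x :: l, b, h => by
    classical
    by_cases h1 : b = l
    · rw [h1]
      rfl
    · have h2 : (bdl l).mapDomain (x :: ·) b ≠ 0 := by
        intro h3
        apply h
        have e : bdl (x :: l) = Finsupp.single l 1 + (bdl l).mapDomain (x :: ·) := rfl
        rw [e, Finsupp.add_apply, h3, Finsupp.single_eq_of_ne h1, add_zero]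
      obtain ⟨c, hc, rfl⟩ := Finset.mem_image.1
        (Finsupp.mapDomain_support (Finsupp.mem_support_iff.2 h2))
      have h3 := bdl_len l c (Finsupp.mem_support_iff.1 hc)
      rw [List.length_cons, List.length_cons, h3]

/-- the tuples of a cell of the augmented complex -/
noncomputable def TTo : Option ((QP D).Cover 1 × Finset V) → (List ((QP D).Cover 1) →₀ ZMod 2)
  | none => Finsupp.single [] 1
  | some e => TT (QP D) 1 e

theorem TTo_len {i : ℕ} {y : NA D} (hy : y ∈ MA D (i + 1)) (L : List ((QP D).Cover 1))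
    (h : lin (TTo D) y L ≠ 0) : L.length = i + 1 := by
  classical
  have h1 : lin (TTo D) y ∈ Finsupp.supported (ZMod 2) (ZMod 2)
      {L : List ((QP D).Cover 1) | L.length = i + 1} := by
    refine lin_mem fun a ha => ?_
    obtain ⟨e, he, rfl⟩ := (Finsupp.mem_supported _ _).1 hy (Finsupp.mem_support_iff.2 ha)
    refine (Finsupp.mem_supported _ _).2 fun L hL => ?_
    show L.length = i + 1
    rw [TT_len D e L (Finsupp.mem_support_iff.1 hL), he.2.2.1]
  exact (Finsupp.mem_supported _ _).1 h1 (Finsupp.mem_support_iff.2 h)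

/-- `TTo` is a chain map -/
theorem BL_TTo {i : ℕ} {y : NA D} (hy : y ∈ MA D (i + 1)) :
    BL (lin (TTo D) y) = lin (TTo D) (dA D y) := by
  classical
  have h1 : BL (lin (TTo D) y) = lin (fun a => BL (TTo D a)) y := map_lin BL
  have h2 : lin (TTo D) (dA D y) = lin (fun a => lin (TTo D) (dA1 D a)) y := lin_lin.symm
  rw [h1, h2]
  refine lin_congr fun a ha => ?_
  obtain ⟨e, he, rfl⟩ := (Finsupp.mem_supported _ _).1 hy (Finsupp.mem_support_iff.2 ha)
  show BL (TT (QP D) 1 e) = _
  rw [BL_TT he]
  by_cases h0 : i = 0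
  · have h3 : e.2 = ∅ := card_eq_zero.1 (by rw [he.2.2.1, h0])
    rw [if_pos h0, dA1_empty D h3, lin_single]
    rfl
  · have h3 : e.2 ≠ ∅ := by
      intro h
      have h4 := he.2.2.1
      rw [h, card_empty] at h4
      exact h0 h4.symm
    have h4 : dA1 D (some e) = (bdD (QP D) 1 e).mapDomain some := if_neg h3
    rw [if_neg h0, h4, lin_map]
    rfl

/-- `TTo` is equivariant -/
theorem TTo_rho {i : ℕ} {y : NA D} (hy : y ∈ MA D (i + 1)) (g : (piP D).ker) :
    lin (TTo D) (rhoA D g y) = (lin (TTo D) y).mapDomain (List.map (g • ·)) := by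
  classical
  have h1 : rhoA D g y = y.mapDomain (Option.map fun e => (g • e.1, e.2)) := rfl
  have h2 : (lin (TTo D) y).mapDomain (List.map (g • ·)) =
      lin (fun a => (TTo D a).mapDomain (List.map (g • ·))) y :=
    map_lin (Finsupp.lmapDomain (ZMod 2) (ZMod 2) (List.map (g • ·)))
  rw [h1, lin_map, h2]
  refine lin_congr fun a ha => ?_
  obtain ⟨e, he, rfl⟩ := (Finsupp.mem_supported _ _).1 hy (Finsupp.mem_support_iff.2 ha)
  exact TT_smul (qp_deck D) he g

/-- **The homotopy on the tuples.** -/
theorem exists_Kt {S : List ((QP D).Cover 1) → NA D}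
    (hS1 : ∀ i L, L.length = i + 1 → S L ∈ MA D (i + 1))
    (hS2 : ∀ (g : (piP D).ker) L, L ≠ [] → S (L.map (g • ·)) = rhoA D g (S L))
    (hS3 : ∀ c, dA D (S [c]) = Finsupp.single none 1)
    (hS4 : ∀ L, 2 ≤ L.length → dA D (S L) = lin S (bdl L)) :
    ∃ Kt : List ((QP D).Cover 1) → (List ((QP D).Cover 1) →₀ ZMod 2),
      (∀ L L', L ≠ [] → Kt L L' ≠ 0 → L'.length = L.length + 1) ∧
      (∀ (g : (piP D).ker) L, L ≠ [] → Kt (L.map (g • ·)) = (Kt L).mapDomain (List.map (g • ·))) ∧
      ∀ L, 2 ≤ L.length → BL (Kt L) =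
        Finsupp.single L 1 + lin (TTo D) (S L) + lin Kt (bdl L) := by
  classical
  let act : MulAction (piP D).ker (List ((QP D).Cover 1)) :=
    { smul := fun g L => L.map (g • ·)
      one_smul := fun L => by
        show L.map ((1 : (piP D).ker) • ·) = L
        simp
      mul_smul := fun g h L => by
        show L.map ((g * h) • ·) = (L.map (h • ·)).map (g • ·)
        rw [List.map_map]
        congr 1
        funext c
        exact mul_smul g h c }
  have hact : ∀ (g : (piP D).ker) (L : List ((QP D).Cover 1)), g • L = L.map (g • ·) :=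
    fun _ _ => rfl
  obtain ⟨bd, hbdef⟩ : ∃ bd : List ((QP D).Cover 1) → (List ((QP D).Cover 1) →₀ ZMod 2),
    ∀ L, bd L = if L.length ≤ 1 then 0 else bdl L := ⟨_, fun _ => rfl⟩
  have hfaces : ∀ L b, bd L b ≠ 0 → b.length + 1 = L.length ∧ 2 ≤ L.length := by
    intro L b h
    rw [hbdef] at h
    by_cases h1 : L.length ≤ 1
    · rw [if_pos h1] at h
      exact absurd rfl h
    · rw [if_neg h1] at h
      exact ⟨bdl_len L b h, by omega⟩
  let ρ : (piP D).ker →* ((List ((QP D).Cover 1) →₀ ZMod 2) →ₗ[ZMod 2]
      (List ((QP D).Cover 1) →₀ ZMod 2)) :=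
    { toFun := fun g => Finsupp.lmapDomain (ZMod 2) (ZMod 2) (List.map (g • ·))
      map_one' := by
        refine LinearMap.ext fun x => ?_
        have h1 : (List.map ((1 : (piP D).ker) • ·) : List ((QP D).Cover 1) → _) = id := by
          funext L
          simp
        show x.mapDomain (List.map ((1 : (piP D).ker) • ·)) = x
        rw [h1, Finsupp.mapDomain_id]
      map_mul' := fun g h => by
        refine LinearMap.ext fun x => ?_
        have h1 : (List.map ((g * h) • ·) : List ((QP D).Cover 1) → _) =
            List.map (g • ·) ∘ List.map (h • ·) := by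
          funext L
          show L.map ((g * h) • ·) = (L.map (h • ·)).map (g • ·)
          rw [List.map_map]
          congr 1
          funext c
          exact mul_smul g h c
        show x.mapDomain (List.map ((g * h) • ·)) =
          (x.mapDomain (List.map (h • ·))).mapDomain (List.map (g • ·))
        rw [h1, Finsupp.mapDomain_comp] }
  have hne : ∀ L : List ((QP D).Cover 1), ∀ i, L.length = i + 1 → L ≠ [] := by
    rintro _ i h rfl
    simp at h
  obtain ⟨H, hH1, hH2, hH3⟩ := lift_free (Γ := (piP D).ker) (A := List ((QP D).Cover 1))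
    (N := List ((QP D).Cover 1) →₀ ZMod 2)
    (fun i => {L | L.length = i + 1})
    (fun i g L (hL : L.length = i + 1) => by
      show (L.map (g • ·)).length = i + 1
      rw [List.length_map]
      exact hL)
    (fun i j L (hi : L.length = i + 1) (hj : L.length = j + 1) => by omega)
    (fun i L (hi : L.length = i + 1) g hg => by
      match L, hi with
      | c :: l, _ =>
        have h1 : g • c :: l.map (g • ·) = c :: l := hg
        exact (qp_deck D).free g c (List.cons.inj h1).1)
    bd
    (fun i L (hL : L.length = i + 1 + 1) b hb => by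
      have := (hfaces L b hb).1
      show b.length = i + 1
      omega)
    (fun L (hL : L.length = 0 + 1) => by rw [hbdef, if_pos (by omega)])
    (fun i g L _ => by
      rw [hact, hbdef, hbdef, List.length_map]
      by_cases h : L.length ≤ 1
      · rw [if_pos h, if_pos h, Finsupp.mapDomain_zero]
      · rw [if_neg h, if_neg h, bdl_map]
        rfl)
    (fun i L (hL : L.length = i + 1) => by
      by_cases h : L.length ≤ 1
      · rw [hbdef L, if_pos h, map_zero]
      · by_cases h2 : L.length = 2
        · rw [lin_congr (f' := bd) (f := fun _ => 0) (fun c hc => by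
            have h3 := hfaces L c hc
            rw [hbdef, if_pos (by omega)])]
          exact lin_fun_zero _
        · rw [lin_congr (f' := bd) (f := bdl) (fun c hc => by
            have h3 := hfaces L c hc
            rw [hbdef, if_neg (by omega)]), hbdef L, if_neg h]
          exact BL_bdl L)
    ρ BL (fun g x => BL_map (g • ·) x)
    (fun i => Finsupp.supported (ZMod 2) (ZMod 2) {L | L.length = i + 1})
    (fun i g x hx => by
      refine (Finsupp.mem_supported _ _).2 fun b hb => ?_
      obtain ⟨a, ha, rfl⟩ := Finset.mem_image.1 (Finsupp.mapDomain_support hb)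
      show (a.map (g • ·)).length = i + 1
      rw [List.length_map]
      exact (Finsupp.mem_supported _ _).1 hx ha)
    (fun i _ x hx hd => by
      refine ⟨x.mapDomain (base (QP D) 1 :: ·), ?_, ?_⟩
      · refine (Finsupp.mem_supported _ _).2 fun b hb => ?_
        obtain ⟨a, ha, rfl⟩ := Finset.mem_image.1 (Finsupp.mapDomain_support hb)
        have h1 : a.length = i + 1 := (Finsupp.mem_supported _ _).1 hx ha
        show (base (QP D) 1 :: a).length = i + 1 + 1
        rw [List.length_cons, h1]
      · rw [BL_cons, hd, Finsupp.mapDomain_zero, add_zero])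
    (fun L => Finsupp.single L 1 + lin (TTo D) (S L))
    (fun i L (hL : L.length = i + 1) => by
      refine Submodule.add_mem _ (Finsupp.single_mem_supported _ _ hL) ?_
      refine (Finsupp.mem_supported _ _).2 fun b hb => ?_
      exact TTo_len D (hS1 i L hL) b (Finsupp.mem_support_iff.1 hb))
    (fun i g L (hL : L.length = i + 1) => by
      show Finsupp.single (L.map (g • ·)) 1 + lin (TTo D) (S (L.map (g • ·))) =
        (Finsupp.single L 1 + lin (TTo D) (S L)).mapDomain (List.map (g • ·))
      rw [hS2 g L (hne L i hL), TTo_rho D (hS1 i L hL), Finsupp.mapDomain_add,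
        Finsupp.mapDomain_single])
    (fun i L (hL : L.length = i + 1) => by
      show BL (Finsupp.single L 1 + lin (TTo D) (S L)) =
        lin (fun L => Finsupp.single L 1 + lin (TTo D) (S L)) (bd L)
      rw [map_add, BL_single, BL_TTo D (hS1 i L hL)]
      by_cases h : L.length ≤ 1
      · match L, hL, h with
        | [c], _, _ =>
          rw [hbdef, if_pos (by simp), map_zero, hS3, lin_single]
          show Finsupp.single [] 1 + (Finsupp.mapDomain _ 0) + Finsupp.single [] 1 = 0
          rw [Finsupp.mapDomain_zero, add_zero]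
          exact chain_add_self _
      · rw [hbdef, if_neg h, hS4 L (by omega), lin_add, lin_lin]
        congr 1
        unfold lin
        rw [Finsupp.linearCombination_apply]
        conv_lhs => rw [← Finsupp.sum_single (bdl L)]
        refine Finsupp.sum_congr fun c _ => ?_
        rw [Finsupp.smul_single, smul_eq_mul, mul_one])
  refine ⟨H, fun L L' hL h => ?_, fun g L hL => ?_, fun L hL => ?_⟩
  · have h1 : 0 < L.length := List.length_pos_iff.2 hL
    have h2 := hH1 (L.length - 1) L (show L.length = L.length - 1 + 1 by omega)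
    have h3 : L'.length = L.length - 1 + 1 + 1 :=
      (Finsupp.mem_supported _ _).1 h2 (Finsupp.mem_support_iff.2 h)
    omega
  · have h1 : 0 < L.length := List.length_pos_iff.2 hL
    exact hH2 (L.length - 1) g L (show L.length = L.length - 1 + 1 by omega)
  · have h1 := hH3 (L.length - 1) L (show L.length = L.length - 1 + 1 by omega)
    rw [hbdef, if_neg (by omega)] at h1
    exact h1

/-! ### effaceability -/

theorem two_mod {K : Type} [Field K] [CharP K 2] {E : Type} [AddCommGroup E] [Module K E] (y : E) :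
    2 • y = 0 := by
  have h1 : ((2 : ℕ) : K) = 0 := CharP.cast_eq_zero K 2
  rw [← Nat.cast_smul_eq_nsmul K, h1, zero_smul]

/-- **Effaceability for tuples** -/
theorem effT_of_eff {K : Type} [Field K] [CharP K 2] {Λ : Subgroup Kˣ}
    (hE : Eff (racR G) K (piP D).ker Λ) : EffT K (piP D).ker ((QP D).Cover 1) Λ := by
  classical
  intro k E _ _ _ ρ hρ x hx1 hx2 hx3
  let _ : Module (ZMod 2) E := AddCommGroup.zmodModule (two_mod (K := K))
  obtain ⟨S, hS1, hS2, hS3, hS4⟩ := exists_S D
  obtain ⟨Kt, hK0, hK1, hK2⟩ := exists_Kt D hS1 hS2 hS3 hS4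
  have hcb : cb (racR G) (Tst D (k + 1) x) = 0 := by
    rw [cb_Tst]
    funext A w
    show Tst D (k + 2) (dT x) A w = 0
    by_cases h : G.IsClique (A : Set V) ∧ A.card = k + 2
    · rw [Tst_pos D _ h.1 h.2]
      have h1 : dT x = fun _ => 0 := funext hx3
      rw [h1]
      exact lin_fun_zero _
    · exact if_neg h
  obtain ⟨E', iE1, iE2, iE3, ρ', ι, yc, h1, h2, h3, h4, h5⟩ :=
    hE k E ρ hρ (Tst D (k + 1) x) (Tst_mem D hx2) hcb
  let _ : Module (ZMod 2) E' := AddCommGroup.zmodModule (two_mod (K := K))
  obtain ⟨y, hy⟩ : ∃ y : List ((QP D).Cover 1) → E', ∀ L, y L =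
      if L.length = k + 1 then prE D k yc (S L) + ι (lin x (Kt L)) else 0 := ⟨_, fun _ => rfl⟩
  refine ⟨E', iE1, iE2, iE3, ρ', ι, y, h1, h2, h3, fun L h => ?_, fun g L => ?_, fun L hL => ?_⟩
  · by_contra h6
    exact h (by rw [hy, if_neg h6])
  · rw [hy, hy, List.length_map]
    by_cases h : L.length = k + 1
    · have hne : L ≠ [] := by
        rintro rfl
        simp at h
      rw [if_pos h, if_pos h, map_add, hS2 g L hne, hK1 g L hne,
        prE_rho D (fun A g w => (mem_Cc _).1 h4 |>.2.2 A g w) g, lin_map, ← h3]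
      congr 2
      have h6 : (fun L => x (List.map (g • ·) L)) = fun L => zl (ρ g) (x L) := funext fun L => hx2 g L
      rw [h6, ← map_lin]
      rfl
    · rw [if_neg h, if_neg h, map_zero]
  · have h6 : dT y L = prE D k yc (lin S (bdl L)) + ι (lin x (lin Kt (bdl L))) := by
      rw [dT_eq, lin_congr (f' := y) (f := fun L => prE D k yc (S L) + ι (lin x (Kt L)))
        (fun b hb => by
          have := bdl_len L b hb
          rw [hy, if_pos (by omega)]), lin_add, ← map_lin (prE D k yc)]
      congr 1
      have h7 : ι (lin x (lin Kt (bdl L))) = zl ι (lin x (lin Kt (bdl L))) := rfl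
      rw [h7, ← lin_lin, map_lin]
      rfl
    have h7 : prE D k yc (lin S (bdl L)) = ι (lin x (lin (TTo D) (S L))) := by
      rw [← hS4 L (by omega), prE_dA D k yc (hS1 (k + 1) L hL)]
      have h8 : ι (lin x (lin (TTo D) (S L))) = zl ι (lin x (lin (TTo D) (S L))) := rfl
      rw [h8, ← lin_lin, map_lin]
      refine lin_congr fun a ha => ?_
      obtain ⟨e, he, rfl⟩ := (Finsupp.mem_supported _ _).1 (hS1 (k + 1) L hL)
        (Finsupp.mem_support_iff.2 ha)
      have h9 := prE_single D (cb (racR G) yc) he
      unfold prE at h9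
      rw [lin_single] at h9
      rw [h9, h5, Tst_cell D x he]
      rfl
    have h8 : x L = lin x (lin (TTo D) (S L)) + lin x (lin Kt (bdl L)) := by
      have h9 := congrArg (lin x) (hK2 L (by omega))
      rw [map_add, map_add, lin_single] at h9
      have h10 : lin x (BL (Kt L)) = 0 := by
        have h11 : lin x (BL (Kt L)) = lin (fun l => lin x (bdl l)) (Kt L) := lin_lin.symm
        rw [h11]
        have h12 : (fun l => lin x (bdl l)) = fun _ => 0 := funext fun l => by
          rw [← dT_eq]
          exact hx3 l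
        rw [h12]
        exact lin_fun_zero _
      rw [h10, add_assoc] at h9
      have h11 := add_self_mod (lin x (lin (TTo D) (S L)) + lin x (lin Kt (bdl L)))
      rw [← h11] at h9
      exact (add_right_cancel h9).symm
    rw [h6, h7, ← map_add, ← h8]

/-! ### the extension of the cubical cocycles to the tuples -/

theorem prE_zero {E : Type} [AddCommGroup E] [Module (ZMod 2) E] (m : ℕ) (y : NA D) :
    prE D m (0 : Finset V → RGrp G → E) y = 0 := by
  classical
  unfold prE
  refine (lin_congr (f := fun _ => 0) fun a _ => ?_).trans (lin_fun_zero _)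
  cases a with
  | none => rfl
  | some e =>
    show (if e ∈ Cell (QP D) 1 D.b m then (0 : Finset V → RGrp G → E) e.2 (cw D e.1) else 0) = 0
    split_ifs <;> rfl

/-- **The extension of a cubical cocycle to the tuples.** -/
theorem exists_extE {K : Type} [Field K] {E : Type} [AddCommGroup E] [Module K E]
    [Module (ZMod 2) E] {ρ : (piP D).ker →* Module.End K E} {m : ℕ} {c : Finset V → RGrp G → E}
    (hc : c ∈ Cc (racR G) (piP D).ker ρ m) (hd : cb (racR G) c = 0) :
    ∃ (x : List ((QP D).Cover 1) → E) (β : Finset V → RGrp G → E),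
      (∀ L, x L ≠ 0 → L.length = m + 1) ∧
      (∀ (g : (piP D).ker) L, x (L.map (g • ·)) = ρ g (x L)) ∧ (∀ L, dT x L = 0) ∧
      (∀ A, β A ≠ 0 → G.IsClique (A : Set V) ∧ A.card + 1 = m) ∧
      (∀ A, ∀ v ∈ A, ∀ w, β A (w * gen G v) = β A w) ∧
      (∀ A, ∀ g : (piP D).ker, ∀ w, β A (g * w) = ρ g (β A w)) ∧
      ∀ e ∈ Cell (QP D) 1 D.b m, lin x (TT (QP D) 1 e) =
        c e.2 (cw D e.1) + cb (racR G) β e.2 (cw D e.1) := by
  classical
  obtain ⟨S, hS1, hS2, hS3, hS4⟩ := exists_S D
  obtain ⟨H, hH1, hH2, hH3⟩ := exists_Hm D hS1 hS2 hS3 hS4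
  have hρ := fun (A : Finset V) (g : (piP D).ker) (w : RGrp G) => (mem_Cc _).1 hc |>.2.2 A g w
  obtain ⟨x, hx⟩ : ∃ x : List ((QP D).Cover 1) → E, ∀ L, x L =
    if L.length = m + 1 then prE D m c (S L) else 0 := ⟨_, fun _ => rfl⟩
  obtain ⟨β, hβ⟩ : ∃ β : Finset V → RGrp G → E, ∀ A w, β A w =
    if G.IsClique (A : Set V) ∧ A.card + 1 = m then
      prE D m c (H ((cw D).symm (zb A w), A)) else 0 := ⟨_, fun _ _ => rfl⟩
  have hβ' : ∀ k, k + 1 = m → ∀ e ∈ Cell (QP D) 1 D.b k, β e.2 (cw D e.1) = prE D m c (H e) := by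
    intro k hk e he
    obtain ⟨h1, h2, h3⟩ := (cell_iff D).1 he
    rw [hβ, if_pos ⟨h1, by rw [h2, hk]⟩, zb_of h3, Equiv.symm_apply_apply]
  refine ⟨x, β, fun L h => ?_, fun g L => ?_, fun L => ?_, fun A h => ?_, fun A v hv w => ?_,
    fun A g w => ?_, fun e he => ?_⟩
  · by_contra h6
    exact h (by rw [hx, if_neg h6])
  · rw [hx, hx, List.length_map]
    by_cases h : L.length = m + 1
    · rw [if_pos h, if_pos h, hS2 g L (by rintro rfl; simp at h), prE_rho D hρ g]
    · rw [if_neg h, if_neg h, map_zero]
  · rw [dT_eq]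
    by_cases h : L.length = m + 2
    · rw [lin_congr (f' := x) (f := fun L => prE D m c (S L)) (fun b hb => by
        have := bdl_len L b hb
        rw [hx, if_pos (by omega)]), ← map_lin (prE D m c), ← hS4 L (by omega),
        prE_dA D m c (hS1 (m + 1) L h), hd]
      exact prE_zero D _ _
    · rw [lin_congr (f' := x) (f := fun _ => 0) (fun b hb => by
        have := bdl_len L b hb
        rw [hx, if_neg (by omega)])]
      exact lin_fun_zero _
  · by_contra h6
    apply h
    funext w
    rw [hβ, if_neg h6]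
    rfl
  · rw [hβ, hβ]
    by_cases h : G.IsClique (A : Set V) ∧ A.card + 1 = m
    · rw [if_pos h, if_pos h, zb_s h.1 hv]
    · rw [if_neg h, if_neg h]
  · rw [hβ, hβ]
    by_cases h : G.IsClique (A : Set V) ∧ A.card + 1 = m
    · rw [if_pos h, if_pos h, zb_mul (b_ker D g), symm_mul, ← prE_rho D hρ g]
      congr 1
      exact hH2 _ g _ (cel_mem D h.1 w)
    · rw [if_neg h, if_neg h, map_zero]
  · have h1 : lin x (TT (QP D) 1 e) = prE D m c (lin S (TT (QP D) 1 e)) := by
      rw [map_lin]
      refine lin_congr fun L hL => ?_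
      rw [hx, if_pos (by rw [TT_len D e L hL, he.2.2.1])]
    have h2 := congrArg (prE D m c) (hH3 m e he)
    have h3 : prE D m c (dA D (H e)) = 0 := by
      rw [prE_dA D m c (hH1 m e he), hd]
      exact prE_zero D _ _
    rw [h3, map_add, map_add, prE_single D c he] at h2
    have h4 : prE D m c (lin H (bdD (QP D) 1 e)) = cb (racR G) β e.2 (cw D e.1) := by
      rw [map_lin, lin_bdD']
      unfold cb
      rw [if_pos ((cell_iff D).1 he).1]
      refine sum_congr rfl fun v hv => ?_
      obtain ⟨k, hk⟩ : ∃ k, m = k + 1 := by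
        have h5 := he.2.2.1
        have h6 := card_pos.2 ⟨v, hv⟩
        exact ⟨m - 1, by omega⟩
      have he' : e ∈ Cell (QP D) 1 D.b (k + 1) := by rw [← hk]; exact he
      rw [← hβ' k hk.symm _ (face1 D he' hv), ← hβ' k hk.symm _ (face2 D he' hv), cw_nbc]
      rfl
    rw [h1, ← h4]
    have h5 := add_self_mod (prE D m c (lin S (TT (QP D) 1 e)))
    have h6 : c e.2 (cw D e.1) + prE D m c (lin H (bdD (QP D) 1 e)) +
        prE D m c (lin S (TT (QP D) 1 e)) = 0 := by
      rw [h2]
      abel
    rw [← h5] at h6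
    exact (add_right_cancel h6).symm

end Pool.Agent.S9
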