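import Pool.Agent.S9.DictH

/-!
# Project S9: boundaries are cycles, the dimension of the homology is not negative
-/

set_option autoImplicit false
set_option linter.unusedSectionVars false

open Finset

namespace Pool.Agent.S9

variable {V : Type} [DecidableEq V] [Fintype V] {G : SimpleGraph V} {W : Type} [Group W]
  (R : Rac G W) {Γ : Subgroup W} {K : Type} [Field K] {N : Type}
  [AddCommGroup N] [Module K N]

theorem bd_mem_Cc {ρ : Γ →* Module.End K N} {k : ℕ} {c : Finset V → W → N}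
    (hc : c ∈ Cc R Γ ρ (k + 1)) : bd K c ∈ Cc R Γ ρ k := by
  obtain ⟨h1, h2, h3⟩ := hc
  refine ⟨fun A hA => ?_, fun A v hv w => ?_, fun A g w => ?_⟩
  · by_contra hn
    apply hA
    funext w
    rw [bd_apply]
    refine sum_eq_zero fun v hv => ?_
    rw [mem_compl] at hv
    by_contra h0
    have h4 := h1 (insert v A) fun h => h0 (congrFun h w)
    refine hn ⟨?_, ?_⟩
    · refine h4.1.subset ?_
      rw [coe_insert]
      exact Set.subset_insert _ _
    · have h5 := h4.2
      rw [card_insert_of_notMem hv] at h5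
      omega
  · rw [bd_apply, bd_apply]
    exact sum_congr rfl fun u _ => h2 (insert u A) v (mem_insert_of_mem hv) w
  · rw [bd_apply, bd_apply, map_sum]
    exact sum_congr rfl fun u _ => h3 (insert u A) g w

theorem bd_bd [CharP K 2] (c : Finset V → W → N) : bd K (bd K c) = 0 := by
  funext A w
  rw [bd_apply]
  simp only [bd_apply]
  have hN : ∀ y : N, y + y = 0 := by
    intro y
    have h := CharTwo.add_self_eq_zero (1 : K)
    rw [← one_smul K y, ← add_smul, h, zero_smul]
  rw [Finset.sum_sigma']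
  refine Finset.sum_involution (fun p _ => ⟨p.2, p.1⟩) ?_ ?_ ?_ ?_
  · rintro ⟨x, y⟩ hxy
    show c (insert y (insert x A)) w + c (insert x (insert y A)) w = 0
    rw [insert_comm]
    exact hN _
  · rintro ⟨x, y⟩ hxy _ heq
    simp only [mem_sigma, mem_compl, mem_insert, not_or] at hxy
    simp only [Sigma.mk.injEq, heq_eq_eq] at heq
    exact hxy.2.1 heq.1
  · rintro ⟨x, y⟩ hxy
    simp only [mem_sigma, mem_compl, mem_insert, not_or] at hxy ⊢
    exact ⟨hxy.2.2, fun h => hxy.2.1 h.symm, hxy.1⟩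
  · rintro ⟨x, y⟩ _
    rfl

theorem Bc_le_Zc [CharP K 2] (ρ : Γ →* Module.End K N) (k : ℕ) : Bc R Γ ρ k ≤ Zc R Γ ρ k := by
  rintro _ ⟨c, hc, rfl⟩
  exact ⟨bd_mem_Cc R hc, LinearMap.mem_ker.2 (bd_bd c)⟩

theorem hh_nonneg [CharP K 2] [Γ.Normal] (hΓ : Lev R Γ) [FiniteDimensional K N] (ρ : Γ →* Module.End K N)
    (k : ℕ) : 0 ≤ hh R Γ ρ k := by
  haveI := finite_Cc R hΓ ρ k
  haveI : FiniteDimensional K (Zc R Γ ρ k) := Submodule.finiteDimensional_of_le (S₂ := Cc R Γ ρ k) inf_le_left
  have h := Submodule.finrank_mono (Bc_le_Zc R ρ k)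
  unfold hh
  omega

end Pool.Agent.S9
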