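import Pool.Agent.S9.DictZ

/-!
# S9: the number of the chains with coefficients in edge operators

`finrank_Cz`: the dimension of the space `Cz K G n r` of the chains of degree `n` for the functions `P → N` with edge
operators is `cP D n * finrank K N`.
-/

set_option autoImplicit false
set_option linter.unusedSectionVars false

open Finset

namespace Pool.Agent.S9

open Pool.Agent.H77.SW Pool.Agent.H19.SR Pool.Agent.H73.GC

variable {V : Type} [DecidableEq V] [Fintype V]

/-- the edge operators form a system of coefficients -/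
structure IsEdL {G : SimpleGraph V} {P : Type} [Group P] (D : PG G P) {K : Type} [Field K] {N : Type}
    [AddCommGroup N] [Module K N] (L : V → P → N →ₗ[K] N) : Prop where
  inv : ∀ v p x, L v p (L v (p * D.g v) x) = x
  comm : ∀ u v, G.Adj u v → ∀ p x, L u p (L v (p * D.g u) x) = L v p (L u (p * D.g v) x)

section

variable {G : SimpleGraph V} {P : Type} [Group P] (D : PG G P) {K : Type} [Field K] {N : Type}
  [AddCommGroup N] [Module K N] (L : V → P → N →ₗ[K] N)

/-- the functions which are invariant under the letters in `A` and vanish where a bit in `B` is not `0` -/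
def SAB (A B : Finset V) : Submodule K (P → N) where
  carrier := {F | (∀ v ∈ A, rL D L v F = F) ∧ ∀ p, ∀ w ∈ B, D.b p w ≠ 0 → F p = 0}
  zero_mem' := ⟨fun v _ => map_zero _, fun _ _ _ _ => rfl⟩
  add_mem' := by
    rintro F F' ⟨h1, h2⟩ ⟨h3, h4⟩
    refine ⟨fun v hv => by rw [map_add, h1 v hv, h3 v hv], fun p w hw hb => ?_⟩
    rw [Pi.add_apply, h2 p w hw hb, h4 p w hw hb, add_zero]
  smul_mem' := by
    rintro c F ⟨h1, h2⟩
    refine ⟨fun v hv => by rw [map_smul, h1 v hv], fun p w hw hb => ?_⟩
    rw [Pi.smul_apply, h2 p w hw hb, smul_zero]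

variable {D L}

theorem mem_SAB {A B : Finset V} {F : P → N} : F ∈ SAB D L A B ↔
    (∀ v ∈ A, rL D L v F = F) ∧ ∀ p, ∀ w ∈ B, D.b p w ≠ 0 → F p = 0 := Iff.rfl

private theorem b_mul_g (p : P) (u v : V) : D.b (p * D.g u) v = D.b p v + if u = v then 1 else 0 := by
  rw [D.b_mul, D.b_g]

theorem rL_rL (hL : IsEdL D L) (v : V) (F : P → N) : rL D L v (rL D L v F) = F := by
  funext p
  rw [rL_apply, rL_apply, mul_assoc, D.sq, mul_one, hL.inv]

theorem rL_comm (hL : IsEdL D L) {u v : V} (h : G.Adj u v) (F : P → N) :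
    rL D L u (rL D L v F) = rL D L v (rL D L u F) := by
  funext p
  rw [rL_apply, rL_apply, rL_apply, rL_apply, hL.comm u v h, mul_assoc, mul_assoc, D.comm u v h]

/-- the restriction to the functions which vanish where the bit `v` is not `0` -/
def Ev0 (D : PG G P) (K : Type) [Field K] {N : Type} [AddCommGroup N] [Module K N] (v : V) :
    (P → N) →ₗ[K] (P → N) where
  toFun F p := if D.b p v = 0 then F p else 0
  map_add' F F' := by
    funext p
    simp only [Pi.add_apply]
    split_ifs <;> simp
  map_smul' c F := by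
    funext p
    simp only [Pi.smul_apply, RingHom.id_apply]
    split_ifs <;> simp

theorem Ev0_apply (v : V) (F : P → N) (p : P) :
    Ev0 D K v F p = if D.b p v = 0 then F p else 0 := rfl

theorem Ev0_rL {u v : V} (h : u ≠ v) (F : P → N) : rL D L u (Ev0 D K v F) = Ev0 D K v (rL D L u F) := by
  funext p
  rw [rL_apply, Ev0_apply, Ev0_apply, b_mul_g, if_neg h, add_zero, rL_apply]
  split_ifs
  · rfl
  · exact map_zero _

theorem Ev0_add (hL : IsEdL D L) (v : V) {F : P → N} (hF : rL D L v F = F) :
    Ev0 D K v F + rL D L v (Ev0 D K v F) = F := by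
  funext p
  rw [Pi.add_apply, rL_apply, Ev0_apply, Ev0_apply, b_mul_g, if_pos rfl]
  have h2 : ∀ a : ZMod 2, a = 0 ∨ a = 1 := by decide
  rcases h2 (D.b p v) with h | h
  · rw [h, if_pos rfl, if_neg (by decide), map_zero, add_zero]
  · rw [h, if_neg (by decide), if_pos (by decide), zero_add]
    exact congrFun hF p

theorem Ev0_of (v : V) {H : P → N} (hH : ∀ p, D.b p v ≠ 0 → H p = 0) :
    Ev0 D K v (H + rL D L v H) = H := by
  funext p
  rw [Ev0_apply, Pi.add_apply, rL_apply]
  have h2 : ∀ a : ZMod 2, a = 0 ∨ a = 1 := by decide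
  rcases h2 (D.b p v) with h | h
  · rw [if_pos h, hH (p * D.g v), map_zero, add_zero]
    rw [b_mul_g, if_pos rfl, h]
    decide
  · rw [if_neg (by rw [h]; decide), hH p (by rw [h]; decide)]

/-- one letter becomes a frozen bit -/
noncomputable def SABstep (hL : IsEdL D L) {A B : Finset V} {v : V} (hvA : v ∉ A) (hvB : v ∉ B)
    (hA : ∀ u ∈ A, G.Adj u v) : SAB D L (insert v A) B ≃ₗ[K] SAB D L A (insert v B) where
  toFun F := ⟨Ev0 D K v F.1, by
    refine ⟨fun u hu => ?_, fun p w hw hb => ?_⟩
    · have huv : u ≠ v := fun h => hvA (h ▸ hu)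
      rw [Ev0_rL huv, F.2.1 u (mem_insert_of_mem hu)]
    · rw [Ev0_apply]
      rcases mem_insert.1 hw with rfl | hw
      · rw [if_neg hb]
      · rw [F.2.2 p w hw hb, ite_self]⟩
  map_add' F F' := Subtype.ext (map_add _ _ _)
  map_smul' c F := Subtype.ext (map_smul _ _ _)
  invFun H := ⟨H.1 + rL D L v H.1, by
    refine ⟨fun u hu => ?_, fun p w hw hb => ?_⟩
    · rcases mem_insert.1 hu with rfl | hu
      · rw [map_add, rL_rL hL, add_comm]
      · rw [map_add, rL_comm hL (hA u hu), H.2.1 u hu]
    · have hvw : v ≠ w := fun h => hvB (h ▸ hw)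
      rw [Pi.add_apply, rL_apply, H.2.2 p w (mem_insert_of_mem hw) hb,
        H.2.2 (p * D.g v) w (mem_insert_of_mem hw), map_zero, add_zero]
      rwa [b_mul_g, if_neg hvw, add_zero]⟩
  left_inv F := Subtype.ext (Ev0_add hL v (F.2.1 v (mem_insert_self v A)))
  right_inv H := Subtype.ext (Ev0_of v fun p hp => H.2.2 p v (mem_insert_self v B) hp)

theorem finrank_SAB (hL : IsEdL D L) (A : Finset V) : ∀ B : Finset V, Disjoint A B →
    G.IsClique ((A ∪ B : Finset V) : Set V) →
    Module.finrank K (SAB D L A B) = Module.finrank K (SAB D L ∅ (A ∪ B)) := by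
  induction A using Finset.induction_on with
  | empty =>
    intro B _ _
    rw [empty_union]
  | insert v A hv ih =>
    intro B hd hc
    have hvB : v ∉ B := fun h => (Finset.disjoint_left.1 hd) (mem_insert_self v A) h
    have hA : ∀ u ∈ A, G.Adj u v := fun u hu =>
      hc (by simp [hu]) (by simp) (fun h => hv (h ▸ hu))
    rw [(SABstep hL hv hvB hA).finrank_eq, ih (insert v B) ?_ ?_]
    · congr 2
      all_goals rw [union_insert, insert_union]
    · rw [Finset.disjoint_insert_right]
      exact ⟨hv, Finset.disjoint_of_subset_left (subset_insert v A) hd⟩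
    · rwa [union_insert, ← insert_union]

/-- the functions on the representatives of the cells -/
noncomputable def SAB0 (A : Finset V) :
    SAB D L ∅ A ≃ₗ[K] ({p : P // ∀ v ∈ A, D.b p v = 0} → N) where
  toFun F p := F.1 p.1
  map_add' F F' := rfl
  map_smul' c F := rfl
  invFun H := by
    classical
    exact ⟨fun p => if h : ∀ v ∈ A, D.b p v = 0 then H ⟨p, h⟩ else 0, by
      refine ⟨fun u hu => absurd hu (notMem_empty u), fun p w hw hb => ?_⟩
      exact dif_neg fun h => hb (h w hw)⟩
  left_inv F := by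
    classical
    apply Subtype.ext
    funext p
    show (if h : ∀ v ∈ A, D.b p v = 0 then F.1 p else 0) = F.1 p
    split_ifs with h
    · rfl
    · rw [not_forall] at h
      obtain ⟨w, h⟩ := h
      rw [Classical.not_imp] at h
      exact (F.2.2 p w h.1 h.2).symm
  right_inv H := by
    classical
    funext p
    show (if h : ∀ v ∈ A, D.b p.1 v = 0 then H ⟨p.1, h⟩ else 0) = H p
    rw [dif_pos p.2]

end

/-- the number of the cells of degree `n` of the cube complex of `P` -/
noncomputable def ncel {G : SimpleGraph V} {P : Type} [Group P] (D : PG G P) (n : ℕ) : ℕ := by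
  classical
  exact ∑ A : Finset V, if G.IsClique (A : Set V) ∧ A.card = n then
    Nat.card {p : P // ∀ v ∈ A, D.b p v = 0} else 0

theorem finrank_CzL_ncel {G : SimpleGraph V} {P : Type} [Group P] [Finite P] {D : PG G P} {K : Type}
    [Field K] {N : Type} [AddCommGroup N] [Module K N] [FiniteDimensional K N]
    {L : V → P → N →ₗ[K] N} (hL : IsEdL D L) (n : ℕ) :
    Module.finrank K (Cz K G n (rL D L)) = ncel D n * Module.finrank K N := by
  classical
  haveI := Fintype.ofFinite P
  let S : Finset V → Submodule K (P → N) := fun A =>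
    if G.IsClique (A : Set V) ∧ A.card = n then SAB D L A ∅ else ⊥
  have hS : ∀ {z : Finset V → P → N}, z ∈ Cz K G n (rL D L) ↔ ∀ A, z A ∈ S A := by
    intro z
    rw [mem_Cz]
    constructor
    · rintro ⟨h1, h2⟩ A
      by_cases hA : G.IsClique (A : Set V) ∧ A.card = n
      · show z A ∈ (if _ then _ else _ : Submodule K (P → N))
        rw [if_pos hA]
        exact ⟨h2 A, fun p w hw => absurd hw (notMem_empty w)⟩
      · show z A ∈ (if _ then _ else _ : Submodule K (P → N))
        rw [if_neg hA, Submodule.mem_bot]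
        by_contra h
        exact hA (h1 A h)
    · intro h
      have h' : ∀ A : Finset V, (G.IsClique (A : Set V) ∧ A.card = n → z A ∈ SAB D L A ∅) ∧
          (¬ (G.IsClique (A : Set V) ∧ A.card = n) → z A = 0) := by
        intro A
        have h3 : z A ∈ (if G.IsClique (A : Set V) ∧ A.card = n then SAB D L A ∅ else ⊥ :
          Submodule K (P → N)) := h A
        constructor
        · intro hA
          rwa [if_pos hA] at h3
        · intro hA
          rwa [if_neg hA, Submodule.mem_bot] at h3
      refine ⟨fun A hA => ?_, fun A v hv => ?_⟩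
      · by_contra h4
        exact hA ((h' A).2 h4)
      · by_cases hA : G.IsClique (A : Set V) ∧ A.card = n
        · exact ((h' A).1 hA).1 v hv
        · rw [(h' A).2 hA, map_zero]
  let e : Cz K G n (rL D L) ≃ₗ[K] (∀ A, S A) :=
    { toFun := fun z A => ⟨z.1 A, hS.1 z.2 A⟩
      map_add' := fun _ _ => rfl
      map_smul' := fun _ _ => rfl
      invFun := fun z => ⟨fun A => (z A).1, hS.2 fun A => (z A).2⟩
      left_inv := fun _ => rfl
      right_inv := fun _ => rfl }
  rw [e.finrank_eq, Module.finrank_pi_fintype, ncel, sum_mul]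
  refine sum_congr rfl fun A _ => ?_
  by_cases hA : G.IsClique (A : Set V) ∧ A.card = n
  · have h1 : S A = SAB D L A ∅ := if_pos hA
    rw [if_pos hA, h1, finrank_SAB hL A ∅ (disjoint_empty_right A) (by rw [union_empty]; exact hA.1),
      union_empty, (SAB0 A).finrank_eq, Module.finrank_pi_fintype, sum_const, smul_eq_mul, card_univ,
      Nat.card_eq_fintype_card]
  · have h1 : S A = ⊥ := if_neg hA
    rw [if_neg hA, h1, finrank_bot, zero_mul]

theorem cP_eq_ncel {G : SimpleGraph V} {P : Type} [Group P] [Fintype P] (D : PG G P) (n : ℕ) :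
    cP D n = ncel D n := by
  classical
  have hL : IsEdL D (K := F2) (N := F2) (fun _ _ => LinearMap.id) := ⟨fun _ _ _ => rfl, fun _ _ _ _ _ => rfl⟩
  have h := finrank_CzL_ncel hL n
  rw [Module.finrank_self, mul_one] at h
  have h1 : Ch (Sy (Cq G univ) (regP D.g)) n = Cz F2 G n (rL D (K := F2) (N := F2) fun _ _ => LinearMap.id) := by
    ext z
    rw [mem_Ch, mem_Cz]
    constructor
    · intro h2
      refine ⟨fun A hA => ⟨?_, ?_⟩, fun A v hv => (h2 A).1.2 v hv⟩
      · by_contra h0
        exact hA ((h2 A).1.1 fun h => h0 h.1)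
      · by_contra h0
        exact hA ((h2 A).2 h0)
    · rintro ⟨h2, h3⟩ A
      refine ⟨⟨fun hn => ?_, fun v hv => h3 A v hv⟩, fun hn => ?_⟩
      · by_contra h0
        exact hn ⟨(h2 A h0).1, subset_univ A⟩
      · by_contra h0
        exact hn (h2 A h0).2
  rw [cP, h1]
  exact h

/-- **the number of the chains** -/
theorem finrank_CzL {G : SimpleGraph V} {P : Type} [Group P] [Fintype P] {D : PG G P} {K : Type}
    [Field K] {N : Type} [AddCommGroup N] [Module K N] [FiniteDimensional K N]
    {L : V → P → N →ₗ[K] N} (hL : IsEdL D L) (n : ℕ) :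
    Module.finrank K (Cz K G n (rL D L)) = cP D n * Module.finrank K N := by
  rw [finrank_CzL_ncel hL n, cP_eq_ncel]

theorem finrank_Cz {G : SimpleGraph V} {P : Type} [Group P] [Fintype P] {D : PG G P} {K : Type}
    [Field K] {N : Type} [AddCommGroup N] [Module K N] [FiniteDimensional K N]
    {L : V → P → N →ₗ[K] N} (hinv : ∀ v p, L v p ∘ₗ L v (p * D.g v) = LinearMap.id)
    (hcomm : ∀ u v, G.Adj u v → ∀ p, L u p ∘ₗ L v (p * D.g u) = L v p ∘ₗ L u (p * D.g v)) (d : ℕ) :
    Module.finrank K (Cz K G d (rL D L)) = cP D d * Module.finrank K N :=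
  finrank_CzL ⟨fun v p x => LinearMap.congr_fun (hinv v p) x,
    fun u v h p x => LinearMap.congr_fun (hcomm u v h p) x⟩ d

/-- the same for edge matrices -/
theorem finrank_Cz_rM {G : SimpleGraph V} {P : Type} [Group P] [Fintype P] {D : PG G P} {K : Type}
    [Field K] {n : Type} [Fintype n] [DecidableEq n] {M : V → P → Matrix n n K} (hM : IsEdg D M) (d : ℕ) :
    Module.finrank K (Cz K G d (rM D M)) = cP D d * Fintype.card n := by
  have hL : IsEdL D (K := K) (N := n → K) (fun v p => (M v p).mulVecLin) := by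
    refine ⟨fun v p x => ?_, fun u v h p x => ?_⟩
    · rw [Matrix.mulVecLin_apply, Matrix.mulVecLin_apply, Matrix.mulVec_mulVec, hM.inv, Matrix.one_mulVec]
    · rw [Matrix.mulVecLin_apply, Matrix.mulVecLin_apply, Matrix.mulVecLin_apply, Matrix.mulVecLin_apply,
        Matrix.mulVec_mulVec, Matrix.mulVec_mulVec, hM.comm u v h]
  have h := finrank_CzL hL d
  rw [Module.finrank_fintype_fun_eq_card] at h
  exact h

end Pool.Agent.S9
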