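import Mathlib

/-!
# Project S9, block T3: cofinality of the wall tower

`cofinal`: a decreasing sequence `Γ` of normal subgroups of a group `W` with generators `s v`, which is compatible
with the retractions onto the subgroups generated by subsets of the generators (`ret`) and such that the elements
of `Γ (m + 1)` do not cross the walls of level `m` (modulo two, `wall`: potentials `ψ` which only change along the
edges of the type `v`, by a `Γ m`-invariant function), is cofinal among the kernels of homomorphisms to finite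
two-groups.
-/

set_option autoImplicit false

open Subgroup

namespace Pool.Agent.S9

/-- a fixed point free involution has a potential -/
theorem exists_flip {X : Type*} (z : X → X) (h1 : ∀ x, z (z x) = x) (h2 : ∀ x, z x ≠ x) :
    ∃ p : X → ZMod 2, ∀ x, p (z x) = p x + 1 := by
  classical
  letI : LinearOrder X := linearOrderOfSTO WellOrderingRel
  refine ⟨fun x => if x < z x then 0 else 1, fun x => ?_⟩
  simp only [h1]
  rcases lt_trichotomy x (z x) with h | h | h
  · rw [if_neg (not_lt.2 h.le), if_pos h, zero_add]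
  · exact absurd h.symm (h2 x)
  · rw [if_pos h, if_neg (not_lt.2 h.le)]
    decide

section

variable {W V : Type*} [Group W] [DecidableEq V] (s : V → W)
  (Γ : ℕ → Subgroup W)

/-- The elements of `Γ (m + 1)` do not cross the walls of level `m`: every function `ψ` on `W` which only changes
along the edges of the type `v`, by a `Γ m`-invariant function, has the same value at `1` and at `x ∈ Γ (m + 1)`. -/
def Wall : Prop :=
  ∀ (m : ℕ) (v : V) (ψ : W → ZMod 2), (∀ u, u ≠ v → ∀ w, ψ (w * s u) = ψ w) →
    (∀ x ∈ Γ m, ∀ w, ψ (x * w * s v) + ψ (x * w) = ψ (w * s v) + ψ w) →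
    ∀ x ∈ Γ (m + 1), ψ x = ψ 1

/-- The sequence `Γ` is compatible with the retractions. -/
def Retr : Prop :=
  ∀ S : Finset V, ∃ r : W →* W, (∀ u, r (s u) = if u ∈ S then s u else 1) ∧
    ∀ m, ∀ x ∈ Γ m, r x ∈ Γ m

variable {s Γ}

/-- the last step: one central involution -/
theorem step (hn : ∀ m, (Γ m).Normal) (wall : Wall s Γ) {Q : Type*} [Group Q] (f : W →* Q) {m : ℕ}
    {z : Q} (hz : z ≠ 1) (hzz : z * z = 1) (hc : ∀ q : Q, q * z = z * q)
    (hf : ∀ x ∈ Γ m, f x = 1 ∨ f x = z) (v : V)
    (hv : ∀ x ∈ Γ m, x ∈ closure (s '' {u | u ≠ v}) → f x = 1) (hn1 : ∀ x ∈ Γ (m + 1), x ∈ Γ m) :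
    ∀ x ∈ Γ (m + 1), f x = 1 := by
  classical
  by_cases hne : ∃ y ∈ Γ m, f y = z
  swap
  · intro x hx
    rcases hf x (hn1 x hx) with h | h
    · exact h
    · exact absurd ⟨x, hn1 x hx, h⟩ hne
  obtain ⟨y, hy, hfy⟩ := hne
  have hΓ := hn m
  set K : Subgroup W := Γ m ⊓ f.ker with hK
  haveI hKn : K.Normal := inferInstance
  set L : Subgroup W := K ⊔ closure (s '' {u | u ≠ v}) with hL
  have hKL : K ≤ L := le_sup_left
  -- `y` is not in `L`
  have hyL : y ∉ L := by
    intro h
    rw [hL, Subgroup.mem_sup_of_normal_left] at h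
    obtain ⟨k, hk, u, hu, hku⟩ := h
    have h1 : f u = z := by
      rw [← hfy, ← hku, map_mul, (MonoidHom.mem_ker).1 hk.2, one_mul]
    have h2 : u ∈ Γ m := by
      have : u = k⁻¹ * y := by rw [← hku]; group
      rw [this]
      exact (Γ m).mul_mem ((Γ m).inv_mem hk.1) hy
    exact hz (h1 ▸ hv u h2 hu)
  -- elements of `Γ m` with the value `1`
  have key1 : ∀ x ∈ Γ m, f x = 1 → ∀ w : W, ((x * w : W) : W ⧸ L) = (w : W ⧸ L) := by
    intro x hx hfx w
    rw [QuotientGroup.eq]
    apply hKL
    have : (x * w)⁻¹ * w = w⁻¹ * x⁻¹ * (w⁻¹)⁻¹ := by group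
    rw [this]
    exact hKn.conj_mem _ (K.inv_mem ⟨hx, hfx⟩) _
  have key2 : ∀ x ∈ Γ m, f x = z → ∀ w : W, ((x * w : W) : W ⧸ L) = ((y * w : W) : W ⧸ L) := by
    intro x hx hfx w
    have h1 := key1 (x * y⁻¹) ((Γ m).mul_mem hx ((Γ m).inv_mem hy))
      (by rw [map_mul, map_inv, hfx, hfy, mul_inv_cancel]) (y * w)
    rw [← h1]
    congr 1
    group
  obtain ⟨p, hp⟩ := exists_flip (X := W ⧸ L) (fun x => y • x) (by
    intro x
    induction x using QuotientGroup.induction_on with
    | H w =>
      show ((y * (y * w) : W) : W ⧸ L) = _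
      rw [← mul_assoc]
      exact key1 _ ((Γ m).mul_mem hy hy) (by rw [map_mul, hfy, hzz]) w) (by
    intro x
    induction x using QuotientGroup.induction_on with
    | H w =>
      intro h
      have h1 : ((y * w : W) : W ⧸ L) = (w : W ⧸ L) := h
      rw [QuotientGroup.eq] at h1
      have h2 : w⁻¹ * y * w ∈ L := by
        have := L.inv_mem h1
        have e : ((y * w)⁻¹ * w)⁻¹ = w⁻¹ * y * w := by group
        rwa [e] at this
      apply hyL
      -- `w⁻¹ y w = y k`
      have h3 : y⁻¹ * (w⁻¹ * y * w) ∈ K := by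
        refine ⟨?_, ?_⟩
        · refine (Γ m).mul_mem ((Γ m).inv_mem hy) ?_
          have := hΓ.conj_mem y hy w⁻¹
          rwa [inv_inv] at this
        · refine (MonoidHom.mem_ker).2 ?_
          simp only [map_mul, map_inv, hfy]
          have := hc (f w)⁻¹
          rw [this]
          group
      have h4 : y = (w⁻¹ * y * w) * (y⁻¹ * (w⁻¹ * y * w))⁻¹ := by group
      rw [h4]
      exact L.mul_mem h2 (L.inv_mem (hKL h3)))
  have hp1 : ∀ x ∈ Γ m, f x = z → ∀ w : W, p ((x * w : W) : W ⧸ L) = p (w : W ⧸ L) + 1 := by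
    intro x hx hfx w
    rw [key2 x hx hfx w]
    exact hp (w : W ⧸ L)
  have hw := wall m v (fun w => p (w : W ⧸ L)) (by
    intro u hu w
    show p _ = p _
    congr 1
    rw [QuotientGroup.eq]
    apply (le_sup_right : closure (s '' {u | u ≠ v}) ≤ L)
    have : (w * s u)⁻¹ * w = (s u)⁻¹ := by group
    rw [this]
    exact Subgroup.inv_mem _ (subset_closure ⟨u, hu, rfl⟩)) (by
    intro x hx w
    show p _ + p _ = p _ + p _
    rcases hf x hx with h | h
    · rw [mul_assoc, key1 x hx h, key1 x hx h]
    · rw [mul_assoc, hp1 x hx h, hp1 x hx h]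
      have : (1 : ZMod 2) + 1 = 0 := by decide
      linear_combination this)
  intro x hx
  rcases hf x (hn1 x hx) with h | h
  · exact h
  · exfalso
    have h1 : p (x : W ⧸ L) = p ((1 : W) : W ⧸ L) := hw x hx
    have h2 := hp1 x (hn1 x hx) h 1
    rw [mul_one, h1] at h2
    exact one_ne_zero (left_eq_add.1 h2)

/-- **Cofinality**: every homomorphism to a finite two-group is trivial on some `Γ m`. -/
theorem cofinal [Finite V] (gen : closure (Set.range s) = ⊤) (hn : ∀ m, (Γ m).Normal)
    (anti : Antitone Γ) (ret : Retr s Γ) (wall : Wall s Γ) {Q : Type*} [Group Q] [Finite Q]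
    (hQ : IsPGroup 2 Q) (f : W →* Q) : ∃ m, ∀ x ∈ Γ m, f x = 1 := by
  classical
  haveI := Fintype.ofFinite V
  -- the induction on the set of the generators which are not killed
  suffices H : ∀ (S : Finset V) (k : ℕ) (Q : Type _) [Group Q] [Finite Q], IsPGroup 2 Q → Nat.card Q ≤ k →
      ∀ f : W →* Q, (∀ u ∉ S, f (s u) = 1) → ∃ m, ∀ x ∈ Γ m, f x = 1 from
    H Finset.univ (Nat.card Q) Q hQ le_rfl f (fun u hu => absurd (Finset.mem_univ u) hu)
  intro S
  induction S using Finset.induction_on with
  | empty =>
    intro k Q _ _ _ _ f hf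
    refine ⟨0, fun x _ => ?_⟩
    have h1 : f = 1 := by
      refine MonoidHom.eq_of_eqOn_dense gen ?_
      rintro _ ⟨u, rfl⟩
      exact hf u (by simp)
    rw [h1]
    rfl
  | insert v S hvS ih =>
    intro k
    induction k with
    | zero =>
      intro Q _ _ _ hk
      exact absurd (Nat.card_pos (α := Q)) (by omega)
    | succ k ihk =>
      intro Q _ _ hQ hk f hf
      by_cases hQ1 : Subsingleton Q
      · exact ⟨0, fun x _ => Subsingleton.elim _ _⟩
      haveI : Nontrivial Q := not_subsingleton_iff_nontrivial.1 hQ1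
      haveI : Fact (Nat.Prime 2) := ⟨Nat.prime_two⟩
      -- a central involution
      haveI := hQ.center_nontrivial
      obtain ⟨z, hz⟩ : ∃ z : center Q, orderOf z = 2 := by
        have h1 : IsPGroup 2 (center Q) := hQ.to_subgroup _
        obtain ⟨n, hn⟩ := IsPGroup.iff_card.1 h1
        refine exists_prime_orderOf_dvd_card' 2 ?_
        rcases n with _ | n
        · exfalso
          rw [pow_zero] at hn
          exact absurd hn (Finite.one_lt_card (α := center Q)).ne'
        · rw [hn, pow_succ]
          exact dvd_mul_left _ _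
      have hz1 : (z : Q) ≠ 1 := by
        intro h
        have : z = 1 := Subtype.ext h
        rw [this, orderOf_one] at hz
        omega
      have hzz : (z : Q) * z = 1 := by
        have h1 : z ^ 2 = 1 := hz ▸ pow_orderOf_eq_one z
        rw [pow_two] at h1
        exact congrArg Subtype.val h1
      have hzc : ∀ q : Q, q * z = z * q := fun q => mem_center_iff.1 z.2 q
      set Z : Subgroup Q := zpowers (z : Q) with hZ
      have hZmem : ∀ q ∈ Z, q = 1 ∨ q = (z : Q) := by
        rintro q ⟨n, rfl⟩
        rcases Int.even_or_odd n with h | h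
        · left
          obtain ⟨a, rfl⟩ := h
          show (z : Q) ^ (a + a) = 1
          rw [zpow_add, ← (Commute.refl (z : Q)).mul_zpow, hzz, one_zpow]
        · right
          obtain ⟨a, rfl⟩ := h
          show (z : Q) ^ (2 * a + 1) = z
          rw [zpow_add, two_mul, zpow_add, ← (Commute.refl (z : Q)).mul_zpow, hzz, one_zpow, one_mul,
            zpow_one]
      haveI hZn : Z.Normal := by
        refine ⟨fun q hq g => ?_⟩
        rcases hZmem q hq with h | h
        · rw [h]
          simp
        · rw [h, hzc g, mul_assoc, mul_inv_cancel, mul_one]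
          exact mem_zpowers _
      have hcard : Nat.card (Q ⧸ Z) ≤ k := by
        have h1 := Subgroup.card_eq_card_quotient_mul_card_subgroup Z
        have h2 : 1 < Nat.card Z := by
          haveI : Nontrivial Z := ⟨⟨⟨z, mem_zpowers _⟩, 1, fun h => hz1 (congrArg Subtype.val h)⟩⟩
          exact Finite.one_lt_card
        have h3 : 0 < Nat.card (Q ⧸ Z) := Nat.card_pos
        nlinarith
      obtain ⟨m1, hm1⟩ := ihk (Q ⧸ Z) (hQ.to_quotient Z) hcard
        ((QuotientGroup.mk' Z).comp f) (fun u hu => by
          show ((f (s u) : Q) : Q ⧸ Z) = 1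
          rw [hf u hu]
          rfl)
      obtain ⟨r, hr, hrΓ⟩ := ret S
      obtain ⟨m2, hm2⟩ := ih (Nat.card Q) Q hQ le_rfl (f.comp r) (fun u hu => by
          show f (r (s u)) = 1
          rw [hr, if_neg hu, map_one])
      refine ⟨max m1 m2 + 1, step hn wall f (m := max m1 m2) hz1 hzz hzc ?_ v ?_ ?_⟩
      · intro x hx
        have h1 := hm1 x (anti (le_max_left m1 m2) hx)
        have h2 : ((f x : Q) : Q ⧸ Z) = 1 := h1
        exact hZmem _ ((QuotientGroup.eq_one_iff _).1 h2)
      · intro x hx hxu
        have h1 := hm2 x (anti (le_max_right m1 m2) hx)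
        have h2 : ∀ y ∈ closure (s '' {u | u ≠ v}), f (r y) = f y := by
          intro y hy
          induction hy using closure_induction with
          | mem y hy =>
            obtain ⟨u, hu, rfl⟩ := hy
            rw [hr]
            split_ifs with h
            · rfl
            · rw [map_one, hf u]
              rw [Finset.mem_insert, not_or]
              exact ⟨hu, h⟩
          | one => simp
          | mul a b _ _ ha hb => simp only [map_mul, ha, hb]
          | inv a _ ha => simp only [map_inv, ha]
        rw [← h2 x hxu]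
        exact h1
      · intro x hx
        exact anti (Nat.le_succ _) hx

end

end Pool.Agent.S9
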