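import Pool.Agent.S9.Defs
import Pool.Agent.S9.Cof

/-!
# S9, block T3: the hypothesis `Wall` of the cofinality theorem for the tower of homomorphisms to `ℤ`

`W` is a group with involutions `s v` which commute for adjacent `v`, with the universal property of
the right-angled Coxeter group; `Γ` is a normal subgroup killed by every homomorphism `W → ℤˣ`.
If `psi : W → ZMod 2` is constant on the cosets `w⟨s u⟩`, `u ≠ v`, and its increment in the direction
`s v` is left `Γ`-invariant, then `psi x = psi 1` for every `x ∈ Γ` at which all the homomorphisms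
`Γ → ℤ` are even (`wall_even`); `wall_T`: the tower `T R` satisfies `Wall`.
-/

set_option autoImplicit false

namespace Pool.Agent.S9

open Multiplicative

/-- right induction along generators which are involutions -/
theorem gen_ind {W V : Type*} [Group W] (s : V → W) (sq : ∀ v, s v * s v = 1)
    (gen : Subgroup.closure (Set.range s) = ⊤) {P : W → Prop} (h1 : P 1)
    (hs : ∀ w u, P w → P (w * s u)) (w : W) : P w := by
  have hw : w ∈ Subgroup.closure (Set.range s) := by rw [gen]; exact Subgroup.mem_top w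
  induction hw using Subgroup.closure_induction_right with
  | one => exact h1
  | mul_right x hx y hy ih =>
    obtain ⟨u, rfl⟩ := hy
    exact hs _ _ ih
  | mul_inv_cancel x hx y hy ih =>
    obtain ⟨u, rfl⟩ := hy
    rw [inv_eq_of_mul_eq_one_right (sq u)]
    exact hs _ _ ih

/-- a wall cocycle with values in `ZMod 2` is the reduction of a homomorphism to `ℤ` -/
theorem wall_hom {W V : Type} [Group W] (G : SimpleGraph V) (s : V → W)
    (sq : ∀ v, s v * s v = 1) (com : ∀ u v, G.Adj u v → s u * s v = s v * s u)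
    (gen : Subgroup.closure (Set.range s) = ⊤)
    (lift : ∀ (H : Type) [Group H] (p : V → H), (∀ v, p v * p v = 1) →
      (∀ u v, G.Adj u v → p u * p v = p v * p u) → ∃ F : W →* H, ∀ v, F (s v) = p v)
    (Γ : Subgroup W) (hΓ : ∀ e : W →* ℤˣ, ∀ x ∈ Γ, e x = 1)
    (v : V) (psi : W → ZMod 2) (h1 : ∀ u ≠ v, ∀ w, psi (w * s u) = psi w)
    (h2 : ∀ x ∈ Γ, ∀ w, psi (x * w * s v) + psi (x * w) = psi (w * s v) + psi w) :
    ∃ f : Γ →* Multiplicative ℤ, ∀ x : Γ, ((toAdd (f x) : ℤ) : ZMod 2) = psi x + psi 1 := by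
  classical
  obtain ⟨e, he⟩ := lift ℤˣ (fun u => if u = v then -1 else 1)
    (fun u => by by_cases h : u = v <;> simp [h])
    (fun u u' _ => mul_comm _ _)
  set phi : W → ZMod 2 := fun w => psi (w * s v) + psi w with hphi
  have phiΓ : ∀ x ∈ Γ, ∀ w, phi (x * w) = phi w := fun x hx w => h2 x hx w
  have phiv : ∀ w, phi (w * s v) = phi w := by
    intro w
    simp only [hphi, mul_assoc, sq, mul_one]
    ring
  have phiu : ∀ u, G.Adj u v → ∀ w, phi (w * s u) = phi w := by
    intro u hu w
    simp only [hphi]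
    rw [mul_assoc, com u v hu, ← mul_assoc, h1 u hu.ne, h1 u hu.ne]
  set E : W → ℤ := fun w => (e w : ℤ) * (if phi w = 0 then 0 else 1) with hE
  have EΓ : ∀ x ∈ Γ, ∀ w, E (x * w) = E w := by
    intro x hx w
    simp only [hE, map_mul, hΓ e x hx, one_mul, phiΓ x hx w]
  have Ev : ∀ w, E (w * s v) = - E w := by
    intro w
    simp only [hE, map_mul, he v, if_true, phiv w]
    push_cast
    ring
  have Eu : ∀ u, G.Adj u v → ∀ w, E (w * s u) = E w := by
    intro u hu w
    simp only [hE, map_mul, he u, if_neg hu.ne, phiu u hu w, mul_one]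
  have Ec : ∀ w, ((E w : ℤ) : ZMod 2) = phi w := by
    intro w
    have h01 : ∀ t : ZMod 2, (if t = 0 then (0 : ZMod 2) else 1) = t := by decide
    rcases Int.units_eq_one_or (e w) with h | h
    · simp only [hE, h]
      push_cast
      rw [one_mul]
      exact h01 _
    · have h' : (-1 : ZMod 2) = 1 := by decide
      simp only [hE, h]
      push_cast
      rw [h', one_mul]
      exact h01 _
  -- the permutations
  set q : V → W × ℤ → W × ℤ := fun u y => (y.1 * s u, if u = v then y.2 + E y.1 else y.2) with hq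
  have qq : ∀ u y, q u (q u y) = y := by
    intro u y
    by_cases h : u = v
    · subst h
      ext
      · simp [hq, mul_assoc, sq]
      · simp [hq, Ev]
    · ext
      · simp [hq, mul_assoc, sq]
      · simp [hq, h]
  have qc : ∀ u u', G.Adj u u' → ∀ y, q u (q u' y) = q u' (q u y) := by
    intro u u' hu y
    have hc : y.1 * s u' * s u = y.1 * s u * s u' := by
      rw [mul_assoc, mul_assoc, com u u' hu]
    by_cases h : u = v
    · subst h
      have h' : u' ≠ u := hu.ne'
      ext
      · simpa [hq] using hc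
      · simp [hq, h', Eu u' hu.symm]
    · by_cases h' : u' = v
      · subst h'
        ext
        · simpa [hq] using hc
        · simp [hq, h, Eu u hu]
      · ext
        · simpa [hq] using hc
        · simp [hq, h, h']
  obtain ⟨F, hF⟩ := lift (Equiv.Perm (W × ℤ))
    (fun u => ⟨q u, q u, qq u, qq u⟩)
    (fun u => by ext1 y; exact qq u y)
    (fun u u' hu => by ext1 y; exact qc u u' hu y)
  have hF' : ∀ u y, F (s u) y = q u y := by
    intro u y
    rw [hF u]
    rfl
  have sinv : ∀ u, (s u)⁻¹ = s u := fun u => inv_eq_of_mul_eq_one_right (sq u)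
  have step : ∀ w u y, F (w * s u)⁻¹ y = q u (F w⁻¹ y) := by
    intro w u y
    rw [mul_inv_rev, sinv, map_mul, Equiv.Perm.mul_apply, hF']
  -- the first coordinate
  have fst : ∀ w y, (F w⁻¹ y).1 = y.1 * w := by
    intro w y
    refine gen_ind s sq gen (P := fun w => (F w⁻¹ y).1 = y.1 * w)
      (by rw [inv_one, map_one, Equiv.Perm.one_apply, mul_one]) ?_ w
    intro w u ih
    rw [step]
    simp only [hq]
    rw [ih, mul_assoc]
  -- the equivariance
  have equi : ∀ x ∈ Γ, ∀ (k : ℤ) w (y : W × ℤ),
      F w⁻¹ (x * y.1, y.2 + k) = (x * (F w⁻¹ y).1, (F w⁻¹ y).2 + k) := by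
    intro x hx k w y
    refine gen_ind s sq gen
      (P := fun w => F w⁻¹ (x * y.1, y.2 + k) = (x * (F w⁻¹ y).1, (F w⁻¹ y).2 + k))
      (by rw [inv_one, map_one, Equiv.Perm.one_apply, Equiv.Perm.one_apply]) ?_ w
    intro w u ih
    rw [step, step, ih]
    simp only [hq, mul_assoc, EΓ x hx]
    ext
    · rfl
    · by_cases h : u = v
      · simp only [h, if_true]; ring
      · simp only [h, if_false]
  set Psi : W → ℤ := fun w => (F w⁻¹ (1, 0)).2 with hPsi
  have val : ∀ w, F w⁻¹ (1, 0) = (w, Psi w) := by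
    intro w
    ext
    · rw [fst, one_mul]
    · rfl
  have PsiΓ : ∀ x ∈ Γ, ∀ w, Psi (x * w) = Psi x + Psi w := by
    intro x hx w
    have h := equi x hx (Psi x) w (1, 0)
    simp only [mul_one, zero_add] at h
    have h' : F (x * w)⁻¹ (1, 0) = F w⁻¹ (x, Psi x) := by
      rw [mul_inv_rev, map_mul, Equiv.Perm.mul_apply, val x]
    rw [h, val] at h'
    have h'' := congrArg Prod.snd h'
    simp only at h''
    exact h''.trans (add_comm _ _)
  have Psi1 : Psi 1 = 0 := by
    rw [show Psi 1 = (F (1 : W)⁻¹ (1, 0)).2 from rfl, inv_one, map_one, Equiv.Perm.one_apply]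
  have PsiC : ∀ w, ((Psi w : ℤ) : ZMod 2) = psi w + psi 1 := by
    intro w
    refine gen_ind s sq gen (P := fun w => ((Psi w : ℤ) : ZMod 2) = psi w + psi 1) ?_ ?_ w
    · rw [Psi1]
      simp [CharTwo.add_self_eq_zero]
    · intro w u ih
      have h : Psi (w * s u) = if u = v then Psi w + E w else Psi w := by
        simp only [hPsi]
        rw [step, val]
      rw [h]
      by_cases hu : u = v
      · subst hu
        rw [if_pos rfl]
        push_cast
        rw [ih, Ec]
        have h3 : psi w + psi w = 0 := CharTwo.add_self_eq_zero _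
        simp only [hphi]
        linear_combination h3
      · rw [if_neg hu, ih, h1 u hu]
  refine ⟨⟨⟨fun x => ofAdd (Psi x), ?_⟩, ?_⟩, ?_⟩
  · change ofAdd (Psi 1) = 1
    rw [Psi1]
    rfl
  · intro x y
    change ofAdd (Psi (x * y)) = ofAdd (Psi x) * ofAdd (Psi y)
    rw [PsiΓ x x.2, ofAdd_add]
  · intro x
    exact PsiC x

/-- the hypothesis `wall` of the cofinality theorem for the subgroup `nxt Γ` of the elements at which
all the homomorphisms `Γ → ℤ` are even -/
theorem wall_even {W V : Type} [Group W] (G : SimpleGraph V) (s : V → W)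
    (sq : ∀ v, s v * s v = 1) (com : ∀ u v, G.Adj u v → s u * s v = s v * s u)
    (gen : Subgroup.closure (Set.range s) = ⊤)
    (lift : ∀ (H : Type) [Group H] (p : V → H), (∀ v, p v * p v = 1) →
      (∀ u v, G.Adj u v → p u * p v = p v * p u) → ∃ F : W →* H, ∀ v, F (s v) = p v)
    (Γ : Subgroup W) (hΓ : ∀ e : W →* ℤˣ, ∀ x ∈ Γ, e x = 1)
    (v : V) (psi : W → ZMod 2) (h1 : ∀ u ≠ v, ∀ w, psi (w * s u) = psi w)
    (h2 : ∀ x ∈ Γ, ∀ w, psi (x * w * s v) + psi (x * w) = psi (w * s v) + psi w)
    (x : W) (hx : x ∈ Γ) (he : ∀ f : Γ →* Multiplicative ℤ, Even (toAdd (f ⟨x, hx⟩))) :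
    psi x = psi 1 := by
  obtain ⟨f, hf⟩ := wall_hom G s sq com gen lift Γ hΓ v psi h1 h2
  have h := hf ⟨x, hx⟩
  rw [(ZMod.intCast_zmod_eq_zero_iff_dvd _ 2).2 (by exact_mod_cast (he f).two_dvd)] at h
  have h3 : psi 1 + psi 1 = 0 := CharTwo.add_self_eq_zero _
  have h' : (0 : ZMod 2) = psi x + psi 1 := h
  linear_combination -h' - h3

/-- every homomorphism `W → ℤˣ` kills the kernel of the bits -/
theorem unit_one {V : Type} [DecidableEq V] [Fintype V] {G : SimpleGraph V} {W : Type} [Group W]
    (R : Rac G W) (e : W →* ℤˣ) (x : W) (hx : ∀ v, R.b x v = 0) : e x = 1 := by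
  classical
  -- the sign attached to a bit
  have hsg : ∀ t t' : ZMod 2, ∀ y : ℤˣ, (if t + t' = 0 then (1 : ℤˣ) else y) =
      (if t = 0 then 1 else y) * (if t' = 0 then 1 else y) := by
    intro t t' y
    rcases Int.units_eq_one_or y with rfl | rfl <;> revert t t' <;> decide
  have key : ∀ w : W, e w = ∏ v, (if R.b w v = 0 then (1 : ℤˣ) else e (R.s v)) := by
    intro w
    refine gen_ind R.s R.sq R.gen (P := fun w => e w = ∏ v, (if R.b w v = 0 then (1 : ℤˣ) else e (R.s v)))
      ?_ ?_ w
    · simp [R.b_one]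
    · intro w u ih
      rw [map_mul, ih]
      have h : ∀ v, (if R.b (w * R.s u) v = 0 then (1 : ℤˣ) else e (R.s v)) =
          (if R.b w v = 0 then (1 : ℤˣ) else e (R.s v)) * (if v = u then e (R.s u) else 1) := by
        intro v
        rw [R.b_mul, hsg, R.b_s]
        congr 1
        by_cases h : u = v
        · subst h
          simp
        · have h' : ¬ v = u := fun h' => h h'.symm
          simp only [if_neg h, if_neg h', if_true]
      rw [Finset.prod_congr rfl fun v _ => h v, Finset.prod_mul_distrib,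
        Finset.prod_ite_eq' Finset.univ u, if_pos (Finset.mem_univ u)]
  rw [key x]
  exact Finset.prod_eq_one fun v _ => by rw [if_pos (hx v)]

/-- **the hypothesis `Wall` for the tower of homomorphisms to `ℤ`** -/
theorem wall_T {V : Type} [DecidableEq V] [Fintype V] {G : SimpleGraph V} {W : Type} [Group W]
    (R : Rac G W) : Wall R.s (T R) := by
  have h0 : ∀ m, T R m ≤ R.bh.ker := by
    intro m
    induction m with
    | zero => exact le_rfl
    | succ m ih => exact fun x hx => ih hx.1
  intro m v psi h1 h2 x hx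
  obtain ⟨hx1, hx2⟩ := hx
  refine wall_even G R.s R.sq R.comm R.gen R.lift (T R m) ?_ v psi h1 h2 x hx1 hx2
  intro e y hy
  refine unit_one R e y fun u => ?_
  have h3 : R.bh y = 1 := h0 m hy
  show toAdd (R.bh y) u = 0
  rw [h3]
  rfl

end Pool.Agent.S9
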