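import Pool.Agent.S9.CofB
import Pool.Agent.S9.TLev

/-!
# S9, S10, block T3: cofinality of the tower with an arbitrary start

`cofinalP`: a homomorphism `f` of `W` to a finite group, for which the image of `Γ 0` is a two-group, is trivial on
some `Γ m`. `T_cofP`: the same for the tower of homomorphisms to `ℤ` with the start `Φ`.
-/

set_option autoImplicit false

open Subgroup

namespace Pool.Agent.S9

/-- characters of elementary abelian two-groups -/
theorem exists_char {Z : Type*} [Group Z] (hc : ∀ a b : Z, a * b = b * a) (h : ∀ z : Z, z * z = 1) {z : Z}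
    (hz : z ≠ 1) : ∃ ζ : Z → ZMod 2, (∀ a b, ζ (a * b) = ζ a + ζ b) ∧ ζ z ≠ 0 := by
  letI : CommGroup Z := { (inferInstance : Group Z) with mul_comm := hc }
  letI : Module (ZMod 2) (Additive Z) := AddCommGroup.zmodModule fun x => by
    rw [two_nsmul]
    exact congrArg Additive.ofMul (h x.toMul)
  by_contra hne
  push Not at hne
  refine hz (congrArg Additive.toMul ((Module.forall_dual_apply_eq_zero_iff (ZMod 2) (Additive.ofMul z)).1
    fun φ => hne (fun a => φ (Additive.ofMul a)) fun a b => ?_))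
  rw [ofMul_mul, map_add]

section

variable {W V : Type*} [Group W] [DecidableEq V] {s : V → W} {Γ : ℕ → Subgroup W}

/-- a character of `Γ m` which vanishes on the conjugates of the subgroup without `v` vanishes on `Γ (m + 1)` -/
theorem char_step {m : ℕ} (hn : (Γ m).Normal) (wall : Wall s Γ) (h1 : Γ (m + 1) ≤ Γ m) {Q : Type*} [Group Q]
    (f : W →* Q) (v : V) (hv : ∀ x ∈ Γ m, x ∈ closure (s '' {u | u ≠ v}) → f x = 1)
    (ζ : Q → ZMod 2) (hζ : ∀ x ∈ Γ m, ∀ y ∈ Γ m, ζ (f x * f y) = ζ (f x) + ζ (f y)) :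
    ∀ x ∈ Γ (m + 1), ζ (f x) = 0 := by
  classical
  set U : Subgroup W := closure (s '' {u | u ≠ v}) with hU
  set L : Subgroup W := Γ m ⊔ U with hL
  have hex : ∀ w : W, ∃ x ∈ Γ m, ∃ u ∈ U, w = x * (w : W ⧸ L).out * u := by
    intro w
    have h2 : (w : W ⧸ L).out⁻¹ * w ∈ L := by
      rw [← QuotientGroup.eq, QuotientGroup.out_eq']
    rw [hL, Subgroup.mem_sup_of_normal_left] at h2
    obtain ⟨y, hy, u, hu, h3⟩ := h2
    refine ⟨(w : W ⧸ L).out * y * (w : W ⧸ L).out⁻¹, hn.conj_mem y hy _, u, hu, ?_⟩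
    rw [mul_assoc, mul_assoc, mul_assoc, inv_mul_cancel_left, h3, mul_inv_cancel_left]
  have huniq : ∀ (x x' r u u' : W), x ∈ Γ m → x' ∈ Γ m → u ∈ U → u' ∈ U → x * r * u = x' * r * u' →
      f x = f x' := by
    intro x x' r u u' hx hx' hu hu' h
    have h2 : r⁻¹ * (x'⁻¹ * x) * r = u' * u⁻¹ := by
      have : x = x' * r * u' * u⁻¹ * r⁻¹ := by
        rw [← h]
        group
      rw [this]
      group
    have h3 : r⁻¹ * (x'⁻¹ * x) * r ∈ Γ m := by
      have := hn.conj_mem _ ((Γ m).mul_mem ((Γ m).inv_mem hx') hx) r⁻¹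
      rwa [inv_inv] at this
    have h4 : f (r⁻¹ * (x'⁻¹ * x) * r) = 1 := by
      refine hv _ h3 ?_
      rw [h2]
      exact U.mul_mem hu' (U.inv_mem hu)
    rw [map_mul, map_mul, map_mul, map_inv, map_inv] at h4
    have h5 : (f x')⁻¹ * f x = 1 := by
      have : (f x')⁻¹ * f x = f r * ((f r)⁻¹ * ((f x')⁻¹ * f x) * f r) * (f r)⁻¹ := by group
      rw [this, h4]
      group
    exact (inv_mul_eq_one.1 h5).symm
  choose X hX Y hY hXY using hex
  have hψ : ∀ x ∈ Γ m, ∀ w, ζ (f (X (x * w))) = ζ (f x) + ζ (f (X w)) := by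
    intro x hx w
    have h2 : ((x * w : W) : W ⧸ L) = (w : W ⧸ L) := by
      rw [QuotientGroup.eq]
      have : (x * w)⁻¹ * w = w⁻¹ * x⁻¹ * (w⁻¹)⁻¹ := by group
      rw [this]
      exact (le_sup_left : Γ m ≤ L) (hn.conj_mem _ ((Γ m).inv_mem hx) _)
    have h3 : f (X (x * w)) = f (x * X w) := by
      refine huniq _ _ (w : W ⧸ L).out (Y (x * w)) (Y w) (hX _) ((Γ m).mul_mem hx (hX w)) (hY _) (hY w) ?_
      have h4 := hXY (x * w)
      rw [h2] at h4
      rw [← h4, mul_assoc x, mul_assoc x, ← hXY w]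
    rw [h3, map_mul, hζ x hx _ (hX w)]
  have hψu : ∀ u ≠ v, ∀ w, ζ (f (X (w * s u))) = ζ (f (X w)) := by
    intro u hu w
    have hsu : s u ∈ U := subset_closure ⟨u, hu, rfl⟩
    have h2 : ((w * s u : W) : W ⧸ L) = (w : W ⧸ L) := by
      rw [QuotientGroup.eq]
      have : (w * s u)⁻¹ * w = (s u)⁻¹ := by group
      rw [this]
      exact (le_sup_right : U ≤ L) (U.inv_mem hsu)
    have h3 : f (X (w * s u)) = f (X w) := by
      refine huniq _ _ (w : W ⧸ L).out (Y (w * s u)) (Y w * s u) (hX _) (hX w) (hY _)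
        (U.mul_mem (hY w) hsu) ?_
      have h4 := hXY (w * s u)
      rw [h2] at h4
      rw [← h4, ← mul_assoc, ← hXY w]
    rw [h3]
  intro x hx
  have h2 := wall m v (fun w => ζ (f (X w))) hψu (fun x hx w => by
    show ζ (f (X (x * w * s v))) + ζ (f (X (x * w))) = ζ (f (X (w * s v))) + ζ (f (X w))
    rw [mul_assoc, hψ x hx, hψ x hx]
    have : (1 : ZMod 2) + 1 = 0 := by decide
    linear_combination (ζ (f x)) * this) x hx
  have h3 := hψ x (h1 hx) 1
  rw [mul_one] at h3
  have h4 : ζ (f (X x)) = ζ (f (X 1)) := h2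
  rw [h4] at h3
  exact left_eq_add.1 (h3.trans (add_comm _ _))

/-- **Cofinality**: a homomorphism to a finite group, for which the image of `Γ 0` is a two-group, is trivial on some
`Γ m`. -/
theorem cofinalP [Finite V] (gen : closure (Set.range s) = ⊤) (hn : ∀ m, (Γ m).Normal)
    (anti : Antitone Γ) (ret : Retr s Γ) (wall : Wall s Γ) {Q : Type*} [Group Q] [Finite Q]
    (f : W →* Q) (h2 : ∀ x ∈ Γ 0, ∃ k : ℕ, f x ^ 2 ^ k = 1) : ∃ m, ∀ x ∈ Γ m, f x = 1 := by
  classical
  haveI := Fintype.ofFinite V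
  suffices H : ∀ (S : Finset V) (k : ℕ) (Q : Type _) [Group Q] [Finite Q], Nat.card Q ≤ k →
      ∀ f : W →* Q, Function.Surjective f → (∀ x ∈ Γ 0, ∃ k : ℕ, f x ^ 2 ^ k = 1) →
        (∀ u ∉ S, f (s u) = 1) → ∃ m, ∀ x ∈ Γ m, f x = 1 by
    obtain ⟨m, hm⟩ := H Finset.univ (Nat.card f.range) f.range le_rfl f.rangeRestrict
      f.rangeRestrict_surjective (fun x hx => by
        obtain ⟨k, hk⟩ := h2 x hx
        exact ⟨k, Subtype.ext hk⟩) (fun u hu => absurd (Finset.mem_univ u) hu)
    exact ⟨m, fun x hx => congrArg Subtype.val (hm x hx)⟩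
  clear h2 f
  intro S
  induction S using Finset.induction_on with
  | empty =>
    intro k Q _ _ _ f _ _ hf
    refine ⟨0, fun x _ => ?_⟩
    have h1 : f = 1 := by
      refine MonoidHom.eq_of_eqOn_dense gen ?_
      rintro _ ⟨u, rfl⟩
      exact hf u (by simp)
    rw [h1]
    rfl
  | insert v S hvS ih =>
    intro k
    induction k with
    | zero =>
      intro Q _ _ hk
      exact absurd (Nat.card_pos (α := Q)) (by omega)
    | succ k ihk =>
      intro Q _ _ hk f hsurj h2 hf
      by_cases hB : ∀ x ∈ Γ 0, f x = 1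
      · exact ⟨0, hB⟩
      haveI : Fact (Nat.Prime 2) := ⟨Nat.prime_two⟩
      set B : Subgroup Q := (Γ 0).map f with hBdef
      have hΓ0 := hn 0
      haveI hBn : B.Normal := Subgroup.Normal.map hΓ0 f hsurj
      have hBp : IsPGroup 2 B := by
        rintro ⟨_, x, hx, rfl⟩
        obtain ⟨k, hk⟩ := h2 x hx
        exact ⟨k, Subtype.ext hk⟩
      haveI hBnt : Nontrivial B := by
        push Not at hB
        obtain ⟨x, hx, hfx⟩ := hB
        exact ⟨⟨⟨f x, x, hx, rfl⟩, 1, fun h => hfx (congrArg Subtype.val h)⟩⟩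
      haveI := hBp.center_nontrivial
      obtain ⟨z, hz⟩ : ∃ z : center B, orderOf z = 2 := by
        have h1 : IsPGroup 2 (center B) := hBp.to_subgroup _
        obtain ⟨n, hn⟩ := IsPGroup.iff_card.1 h1
        refine exists_prime_orderOf_dvd_card' 2 ?_
        rcases n with _ | n
        · exfalso
          rw [pow_zero] at hn
          exact absurd hn (Finite.one_lt_card (α := center B)).ne'
        · rw [hn, pow_succ]
          exact dvd_mul_left _ _
      have hz1 : ((z : B) : Q) ≠ 1 := by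
        intro h
        have : z = 1 := Subtype.ext (Subtype.ext h)
        rw [this, orderOf_one] at hz
        omega
      have hzz : ((z : B) : Q) * ((z : B) : Q) = 1 := by
        have h1 : z ^ 2 = 1 := hz ▸ pow_orderOf_eq_one z
        rw [pow_two] at h1
        exact congrArg Subtype.val (congrArg Subtype.val h1)
      have hzc : ∀ b ∈ B, b * ((z : B) : Q) = ((z : B) : Q) * b := fun b hb =>
        congrArg Subtype.val (mem_center_iff.1 z.2 ⟨b, hb⟩)
      -- the elements of order two of the centre of `B`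
      let Z : Subgroup Q :=
        { carrier := {y | y ∈ B ∧ y * y = 1 ∧ ∀ b ∈ B, b * y = y * b}
          mul_mem' := by
            rintro a b ⟨ha1, ha2, ha3⟩ ⟨hb1, hb2, hb3⟩
            refine ⟨B.mul_mem ha1 hb1, ?_, fun c hc => ?_⟩
            · have : a * b * (a * b) = a * (b * a) * b := by group
              rw [this, ha3 b hb1, ← mul_assoc, ha2, one_mul, hb2]
            · rw [← mul_assoc, ha3 c hc, mul_assoc, hb3 c hc, mul_assoc]
          one_mem' := ⟨B.one_mem, one_mul 1, fun b _ => by rw [mul_one, one_mul]⟩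
          inv_mem' := by
            rintro a ⟨ha1, ha2, ha3⟩
            have : a⁻¹ = a := inv_eq_of_mul_eq_one_right ha2
            rw [this]
            exact ⟨ha1, ha2, ha3⟩ }
      have hZ : ∀ y, y ∈ Z ↔ y ∈ B ∧ y * y = 1 ∧ ∀ b ∈ B, b * y = y * b := fun y => Iff.rfl
      haveI hZn : Z.Normal := by
        refine ⟨fun y hy g => ?_⟩
        obtain ⟨h3, h4, h5⟩ := hy
        refine ⟨hBn.conj_mem y h3 g, ?_, fun b hb => ?_⟩
        · have : g * y * g⁻¹ * (g * y * g⁻¹) = g * (y * y) * g⁻¹ := by group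
          rw [this, h4]
          group
        · have h6 := h5 (g⁻¹ * b * g) (by
            have := hBn.conj_mem b hb g⁻¹
            rwa [inv_inv] at this)
          have h7 : b * (g * y * g⁻¹) = g * (g⁻¹ * b * g * y) * g⁻¹ := by group
          have h8 : g * y * g⁻¹ * b = g * (y * (g⁻¹ * b * g)) * g⁻¹ := by group
          rw [h7, h8, h6]
      have hcard : Nat.card (Q ⧸ Z) ≤ k := by
        have h1 := Subgroup.card_eq_card_quotient_mul_card_subgroup Z
        have h3 : 1 < Nat.card Z := by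
          haveI : Nontrivial Z := ⟨⟨⟨((z : B) : Q), (z : B).2, hzz, hzc⟩, 1,
            fun h => hz1 (congrArg Subtype.val h)⟩⟩
          exact Finite.one_lt_card
        have h4 : 0 < Nat.card (Q ⧸ Z) := Nat.card_pos
        nlinarith
      obtain ⟨m1, hm1⟩ := ihk (Q ⧸ Z) hcard ((QuotientGroup.mk' Z).comp f)
        ((QuotientGroup.mk'_surjective Z).comp hsurj) (fun x hx => by
          obtain ⟨k, hk⟩ := h2 x hx
          refine ⟨k, ?_⟩
          rw [← map_pow, MonoidHom.comp_apply, map_pow, hk, map_one]) (fun u hu => by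
          show ((f (s u) : Q) : Q ⧸ Z) = 1
          rw [hf u hu]
          rfl)
      obtain ⟨r, hr, hrΓ⟩ := ret S
      obtain ⟨m2, hm2⟩ := ih (Nat.card (f.comp r).range) (f.comp r).range le_rfl (f.comp r).rangeRestrict
        (f.comp r).rangeRestrict_surjective (fun x hx => by
          obtain ⟨k, hk⟩ := h2 (r x) (hrΓ 0 x hx)
          exact ⟨k, Subtype.ext hk⟩) (fun u hu => by
          apply Subtype.ext
          show f (r (s u)) = 1
          rw [hr, if_neg hu, map_one])
      set m := max m1 m2 with hm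
      refine ⟨m + 1, fun x hx => ?_⟩
      have hZm : ∀ x ∈ Γ m, f x ∈ Z := by
        intro x hx
        have h1 := hm1 x (anti (le_max_left m1 m2) hx)
        exact (QuotientGroup.eq_one_iff _).1 h1
      have hvm : ∀ x ∈ Γ m, x ∈ closure (s '' {u | u ≠ v}) → f x = 1 := by
        intro x hx hxu
        have h1 : f (r x) = 1 := congrArg Subtype.val (hm2 x (anti (le_max_right m1 m2) hx))
        have h3 : ∀ y ∈ closure (s '' {u | u ≠ v}), f (r y) = f y := by
          intro y hy
          induction hy using closure_induction with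
          | mem y hy =>
            obtain ⟨u, hu, rfl⟩ := hy
            rw [hr]
            split_ifs with h
            · rfl
            · rw [map_one, hf u]
              rw [Finset.mem_insert, not_or]
              exact ⟨hu, h⟩
          | one => simp
          | mul a b _ _ ha hb => simp only [map_mul, ha, hb]
          | inv a _ ha => simp only [map_inv, ha]
        rw [← h3 x hxu]
        exact h1
      by_contra hne
      have hxm := hZm x (anti (Nat.le_succ m) hx)
      obtain ⟨ζ, hζ1, hζ2⟩ := exists_char (Z := Z) (fun a b => Subtype.ext (b.2.2.2 a.1 a.2.1))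
        (fun a => Subtype.ext a.2.2.1) (z := ⟨f x, hxm⟩) (fun h => hne (congrArg Subtype.val h))
      refine hζ2 ?_
      have h5 := char_step (hn m) wall (anti (Nat.le_succ m)) f v hvm
        (fun q => if h : q ∈ Z then ζ ⟨q, h⟩ else 0) (fun x hx y hy => by
          rw [dif_pos (Z.mul_mem (hZm x hx) (hZm y hy)), dif_pos (hZm x hx), dif_pos (hZm y hy)]
          exact hζ1 ⟨f x, hZm x hx⟩ ⟨f y, hZm y hy⟩) x hx
      rwa [dif_pos hxm] at h5

end

section Tower

variable {V : Type} [DecidableEq V] [Fintype V] {G : SimpleGraph V} {W : Type} [Group W]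

/-- **the hypothesis `Wall` for the tower with an arbitrary start** -/
theorem wall_twr (R : Rac G W) {Φ : Subgroup W} (hΦ : ∀ g ∈ Φ, ∀ v, R.b g v = 0) : Wall R.s (twr Φ) := by
  intro m v psi h1 h2 x hx
  obtain ⟨hx1, hx2⟩ := hx
  refine wall_even G R.s R.sq R.comm R.gen R.lift (twr Φ m) ?_ v psi h1 h2 x hx1 hx2
  exact fun e y hy => unit_one R e y (hΦ y (twr_anti Φ (Nat.zero_le m) hy))

theorem retr_twr (R : Rac G W) {Φ : Subgroup W} (hΦ : Lev0 R Φ) : Retr R.s (twr Φ) :=
  fun S => ⟨R.r S, R.r_s S, fun m x hx => (hΦ.twr m).ret S x hx⟩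

/-- a homomorphism to a finite group, for which the image of `Φ` is a two-group, is trivial on a level of the tower -/
theorem T_homP (R : Rac G W) {Φ : Subgroup W} (hΦ : Lev0 R Φ) {Q : Type} [Group Q] [Finite Q] (f : W →* Q)
    (h2 : ∀ x ∈ Φ, ∃ k : ℕ, f x ^ 2 ^ k = 1) : ∃ m, ∀ x ∈ twr Φ m, f x = 1 :=
  cofinalP R.gen (fun m => (hΦ.twr m).normal) (twr_anti Φ) (retr_twr R hΦ) (wall_twr R hΦ.bits) f h2

/-- **cofinality of the tower with the start `Φ`** -/
theorem T_cofP (R : Rac G W) {Φ : Subgroup W} (hΦ : Lev0 R Φ) (N : Subgroup W) (hN : N.Normal)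
    (hf : N.FiniteIndex) (h2 : ∀ x ∈ Φ, ∃ k : ℕ, x ^ 2 ^ k ∈ N) : ∃ m, twr Φ m ≤ N := by
  obtain ⟨m, hm⟩ := T_homP R hΦ (QuotientGroup.mk' N) (fun x hx => by
    obtain ⟨k, hk⟩ := h2 x hx
    exact ⟨k, by rw [← map_pow]; exact (QuotientGroup.eq_one_iff _).2 hk⟩)
  exact ⟨m, fun x hx => (QuotientGroup.eq_one_iff _).1 (hm x hx)⟩

end Tower

end Pool.Agent.S9
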