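import Pool.Agent.S9.CofP

/-!
# S9, S10, block T3: homomorphisms of a level of the tower to finite two-groups
-/

set_option autoImplicit false

namespace Pool.Agent.S9

section

variable {G : Type} [Group G]

/-- the powers of an element of `Φ` reach all levels -/
theorem two_twr {Φ : Subgroup G} (m : ℕ) {x : G} (hx : x ∈ Φ) : ∃ k : ℕ, x ^ 2 ^ k ∈ twr Φ m := by
  induction m with
  | zero => exact ⟨0, by simpa using hx⟩
  | succ m ih =>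
    obtain ⟨k, hk⟩ := ih
    refine ⟨k + 1, ?_⟩
    rw [pow_succ, pow_mul]
    exact sq_mem_nxt hk

/-- `exists_core` relative to `Φ` -/
theorem exists_coreP {Φ Γ : Subgroup G} [Γ.Normal] [Γ.FiniteIndex] (hΦ : ∀ x ∈ Φ, ∃ k : ℕ, x ^ 2 ^ k ∈ Γ)
    {Q : Type} [Group Q] [Finite Q] (hQ : IsPGroup 2 Q) (f : Γ →* Q) : ∃ N : Subgroup G, N.Normal ∧
      N.FiniteIndex ∧ (∀ x ∈ Φ, ∃ k : ℕ, x ^ 2 ^ k ∈ N) ∧ N ≤ Γ ∧
        ∀ (x : G) (_ : x ∈ N) (h : x ∈ Γ), f ⟨x, h⟩ = 1 := by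
  let K : Subgroup G := f.ker.map Γ.subtype
  have hKΓ : K ≤ Γ := by
    rintro _ ⟨x, _, rfl⟩
    exact x.2
  have hK1 : ∀ (x : G) (_ : x ∈ K) (h : x ∈ Γ), f ⟨x, h⟩ = 1 := by
    rintro _ ⟨x, hx, rfl⟩ h
    exact hx
  have hK2 : ∀ x (h : x ∈ Γ), f ⟨x, h⟩ = 1 → x ∈ K := fun x h h1 => ⟨⟨x, h⟩, h1, rfl⟩
  have hfi : K.FiniteIndex := by
    have h1 : f.ker.FiniteIndex := inferInstance
    have h2 : K.subgroupOf Γ = f.ker := by
      ext x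
      rw [Subgroup.mem_subgroupOf]
      exact ⟨fun h => hK1 _ h x.2, fun h => hK2 _ x.2 h⟩
    have h8 := Subgroup.relIndex_mul_index hKΓ
    refine ⟨?_⟩
    rw [← h8, Subgroup.relIndex, h2]
    exact mul_ne_zero h1.index_ne_zero Subgroup.FiniteIndex.index_ne_zero
  obtain ⟨b, hb⟩ : ∃ b : ℕ, Nat.card Q = 2 ^ b := (IsPGroup.iff_card (p := 2)).1 hQ
  refine ⟨K.normalCore, inferInstance, inferInstance, fun x hx => ?_,
    (Subgroup.normalCore_le K).trans hKΓ, fun x hx h => hK1 x (Subgroup.normalCore_le K hx) h⟩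
  obtain ⟨k, hk⟩ := hΦ x hx
  refine ⟨k + b, fun w => ?_⟩
  have h3 : w * x ^ 2 ^ k * w⁻¹ ∈ Γ := Subgroup.Normal.conj_mem inferInstance _ hk w
  have h4 : w * x ^ 2 ^ (k + b) * w⁻¹ = (w * x ^ 2 ^ k * w⁻¹) ^ 2 ^ b := by
    rw [conj_pow, ← pow_mul, ← pow_add]
  rw [h4]
  refine hK2 _ (Γ.pow_mem h3 _) ?_
  have h5 : f ⟨(w * x ^ 2 ^ k * w⁻¹) ^ 2 ^ b, Γ.pow_mem h3 _⟩ = f ⟨w * x ^ 2 ^ k * w⁻¹, h3⟩ ^ 2 ^ b :=
    map_pow f ⟨w * x ^ 2 ^ k * w⁻¹, h3⟩ _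
  rw [h5, ← hb, pow_card_eq_one']

end

section Tower

variable {V : Type} [DecidableEq V] [Fintype V] {G : SimpleGraph V} {W : Type} [Group W]

/-- **a homomorphism of a level of the tower to a finite two-group is trivial on a later level** -/
theorem T_levP (R : Rac G W) {Φ : Subgroup W} (hΦ : Lev0 R Φ) (m : ℕ) {Q : Type} [Group Q] [Finite Q]
    (hQ : IsPGroup 2 Q) (f : twr Φ m →* Q) :
    ∃ m' ≥ m, ∀ (x : W) (_ : x ∈ twr Φ m') (h : x ∈ twr Φ m), f ⟨x, h⟩ = 1 := by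
  haveI := (hΦ.twr m).normal
  haveI := (hΦ.twr m).fin
  obtain ⟨N, hN, hf, h2, -, h1⟩ := exists_coreP (Φ := Φ) (Γ := twr Φ m) (fun x hx => two_twr m hx) hQ f
  obtain ⟨m', hm'⟩ := T_cofP R hΦ N hN hf h2
  exact ⟨max m m', le_max_left m m', fun x hx h => h1 x (hm' (twr_anti Φ (le_max_right m m') hx)) h⟩

end Tower

end Pool.Agent.S9
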