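import Pool.Agent.S9.CofB
import Pool.Agent.S9.TLev

/-!
# S9, block T3: cofinality of the tower of homomorphisms to `ℤ`
-/

set_option autoImplicit false

namespace Pool.Agent.S9

variable {V : Type} [DecidableEq V] [Fintype V] {G : SimpleGraph V} {W : Type} [Group W]

theorem retr_T (R : Rac G W) : Retr R.s (T R) :=
  fun S => ⟨R.r S, R.r_s S, fun m x hx => (T_lev R m).ret S x hx⟩

/-- every homomorphism to a finite two-group is trivial on a level of the tower -/
theorem T_hom (R : Rac G W) {Q : Type} [Group Q] [Finite Q] (hQ : IsPGroup 2 Q) (f : W →* Q) :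
    ∃ m, ∀ x ∈ T R m, f x = 1 :=
  cofinal R.gen (fun m => (T_lev R m).normal) (T_anti R) (retr_T R) (wall_T R) hQ f

/-- BLOCK T3: cofinality -/
theorem T_cof (R : Rac G W) (N : Subgroup W) (hN : N.Normal) (hf : N.FiniteIndex)
    (h2 : ∀ w : W, ∃ k : ℕ, w ^ 2 ^ k ∈ N) : ∃ m, T R m ≤ N := by
  have hQ : IsPGroup 2 (W ⧸ N) := by
    intro q
    induction q using QuotientGroup.induction_on with
    | H w =>
      obtain ⟨k, hk⟩ := h2 w
      exact ⟨k, by rw [← QuotientGroup.mk_pow]; exact (QuotientGroup.eq_one_iff _).2 hk⟩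
  obtain ⟨m, hm⟩ := T_hom R hQ (QuotientGroup.mk' N)
  exact ⟨m, fun x hx => (QuotientGroup.eq_one_iff _).1 (hm x hx)⟩

end Pool.Agent.S9
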