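import Pool.Agent.H19.SR.Defs

/-!
# Project S9 (note 4239): definitions

Mod 2 homology growth of right-angled Coxeter groups in all degrees above the middle. `Rac G W`: `W` is the
right-angled Coxeter group of the finite graph `G`. All coefficients are modules over subgroups `Γ` of `W`; chains and
cochains of the Davis complex are the functions `c : Finset V → W → N`, `c A w` = the value on the cube of the type `A`
with the vertex `w`.
-/

set_option autoImplicit false
set_option linter.unusedSectionVars false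

open Finset

namespace Pool.Agent.S9

open Pool.Agent.H73.GC

variable {V : Type} [DecidableEq V] [Fintype V]

/-- `W` with the generators `s v` is the right-angled Coxeter group of the graph `G` -/
structure Rac (G : SimpleGraph V) (W : Type) [Group W] where
  /-- the generators -/
  s : V → W
  sq : ∀ v, s v * s v = 1
  comm : ∀ u v, G.Adj u v → s u * s v = s v * s u
  gen : Subgroup.closure (Set.range s) = ⊤
  lift : ∀ (P : Type) [Group P] (g : V → P), (∀ v, g v * g v = 1) →
    (∀ u v, G.Adj u v → g u * g v = g v * g u) → ∃ f : W →* P, ∀ v, f (s v) = g v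

section Grp

variable {G : SimpleGraph V} {W : Type} [Group W] (R : Rac G W)

private theorem bh_ex : ∃ f : W →* Multiplicative (V → ZMod 2), ∀ v,
    f (R.s v) = Multiplicative.ofAdd (Pi.single v 1) := by
  refine R.lift _ _ (fun v => ?_) fun u v _ => mul_comm _ _
  rw [← ofAdd_add]
  have h : (Pi.single v 1 + Pi.single v 1 : V → ZMod 2) = 0 := by
    funext u
    rw [Pi.add_apply, Pi.zero_apply]
    exact CharTwo.add_self_eq_zero _
  rw [h]
  rfl

/-- the bits: the homomorphism to the cube -/
noncomputable def Rac.bh : W →* Multiplicative (V → ZMod 2) := (bh_ex R).choose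

/-- the parity of the letter `v` -/
noncomputable def Rac.b (w : W) (v : V) : ZMod 2 := Multiplicative.toAdd (R.bh w) v

theorem Rac.b_mul (w w' : W) (v : V) : R.b (w * w') v = R.b w v + R.b w' v := by
  unfold Rac.b
  rw [map_mul]
  rfl

theorem Rac.b_s (u v : V) : R.b (R.s u) v = if u = v then 1 else 0 := by
  unfold Rac.b Rac.bh
  rw [(bh_ex R).choose_spec u]
  show (Pi.single u 1 : V → ZMod 2) v = _
  rw [Pi.single_apply]
  by_cases h : u = v
  · rw [if_pos h, if_pos h.symm]
  · rw [if_neg h, if_neg fun h' => h h'.symm]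

theorem Rac.b_one (v : V) : R.b 1 v = 0 := by
  unfold Rac.b
  rw [map_one]
  rfl

private theorem r_ex (U : Finset V) : ∃ f : W →* W, ∀ v, f (R.s v) = if v ∈ U then R.s v else 1 := by
  refine R.lift W (fun v => if v ∈ U then R.s v else 1) (fun v => ?_) fun u v h => ?_
  · by_cases hv : v ∈ U
    · simp only [if_pos hv, R.sq]
    · simp only [if_neg hv, mul_one]
  · by_cases hu : u ∈ U <;> by_cases hv : v ∈ U <;> simp [hu, hv, R.comm u v h]

/-- the retraction onto the special subgroup of `U` -/
noncomputable def Rac.r (U : Finset V) : W →* W := (r_ex R U).choose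

theorem Rac.r_s (U : Finset V) (v : V) : R.r U (R.s v) = if v ∈ U then R.s v else 1 :=
  (r_ex R U).choose_spec v

/-- the special subgroup of `U` -/
def Rac.sub (U : Finset V) : Subgroup W := Subgroup.closure (R.s '' (U : Set V))

/-- a normal subgroup of finite index (a power of two), contained in the kernel of the bits and preserved by the
retractions -/
structure Lev (Γ : Subgroup W) : Prop where
  normal : Γ.Normal
  fin : Γ.FiniteIndex
  two : ∀ w : W, ∃ k : ℕ, w ^ 2 ^ k ∈ Γ
  bits : ∀ g ∈ Γ, ∀ v, R.b g v = 0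
  ret : ∀ U : Finset V, ∀ g ∈ Γ, R.r U g ∈ Γ

/-- the elements of `H` on which all homomorphisms to the integers have even values -/
def nxt (H : Subgroup W) : Subgroup W where
  carrier := {g | ∃ h : g ∈ H, ∀ f : H →* Multiplicative ℤ, Even (Multiplicative.toAdd (f ⟨g, h⟩))}
  mul_mem' := by
    rintro a b ⟨ha, ha'⟩ ⟨hb, hb'⟩
    refine ⟨H.mul_mem ha hb, fun f => ?_⟩
    have h : (⟨a * b, H.mul_mem ha hb⟩ : H) = ⟨a, ha⟩ * ⟨b, hb⟩ := rfl
    rw [h, map_mul, toAdd_mul]
    exact (ha' f).add (hb' f)
  one_mem' := ⟨H.one_mem, fun f => by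
    have h : (⟨1, H.one_mem⟩ : H) = 1 := rfl
    rw [h, map_one, toAdd_one]
    exact Even.zero⟩
  inv_mem' := by
    rintro a ⟨ha, ha'⟩
    refine ⟨H.inv_mem ha, fun f => ?_⟩
    have h : (⟨a⁻¹, H.inv_mem ha⟩ : H) = (⟨a, ha⟩ : H)⁻¹ := rfl
    rw [h, map_inv, toAdd_inv]
    exact (ha' f).neg

/-- **the tower**: `T 0` is the kernel of the bits, `T (m + 1)` is the subgroup of the elements of `T m` on which all
homomorphisms `T m → ℤ` have even values -/
noncomputable def T : ℕ → Subgroup W
  | 0 => R.bh.ker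
  | m + 1 => nxt (T m)

end Grp

section Mod

variable {K : Type} [Field K]

/-- **triangular modules with weights in `Λ`**: a filtration by submodules, on whose quotients `g` is the multiplication
with `lam g ∈ Λ` -/
def Tri (Λ : Subgroup Kˣ) {H : Type} [Group H] {N : Type} [AddCommGroup N] [Module K N]
    (ρ : H →* Module.End K N) : Prop :=
  ∃ (n : ℕ) (F : ℕ → Submodule K N), Monotone F ∧ F 0 = ⊥ ∧ F n = ⊤ ∧
    ∀ j, ∃ lam : H →* Kˣ, (∀ g, lam g ∈ Λ) ∧ ∀ g, ∀ y ∈ F (j + 1), ρ g y - (lam g : K) • y ∈ F j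

/-- the twist of `ρ` by the character `χ` -/
def tw {H : Type} [Group H] (χ : H →* Kˣ) {N : Type} [AddCommGroup N] [Module K N]
    (ρ : H →* Module.End K N) : H →* Module.End K N where
  toFun g := (χ g : K) • ρ g
  map_one' := by rw [map_one, map_one, Units.val_one, one_smul]
  map_mul' g h := by
    rw [map_mul, map_mul, Units.val_mul]
    refine LinearMap.ext fun y => ?_
    simp only [LinearMap.smul_apply, Module.End.mul_apply, map_smul, smul_smul]
    rw [mul_comm]

/-- the one-dimensional module with the character `χ` -/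
def ch {H : Type} [Group H] (χ : H →* Kˣ) : H →* Module.End K K := tw χ 1

/-- the weights of the coefficients: the squares of the values of `χ` -/
def sqr {H : Type} [Group H] (χ : H →* Kˣ) : Subgroup Kˣ :=
  Subgroup.closure (Set.range fun g => χ g ^ 2)

end Mod

section Cpx

variable {G : SimpleGraph V} {W : Type} [Group W] (R : Rac G W) {K : Type} [Field K]
  {N : Type} [AddCommGroup N] [Module K N] {N' : Type} [AddCommGroup N'] [Module K N']

/-- **chains and cochains of degree `k`** of the Davis complex, equivariant under `Γ` -/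
def Cc (Γ : Subgroup W) (ρ : Γ →* Module.End K N) (k : ℕ) : Submodule K (Finset V → W → N) where
  carrier := {c | (∀ A, c A ≠ 0 → G.IsClique (A : Set V) ∧ A.card = k) ∧
    (∀ A, ∀ v ∈ A, ∀ w, c A (w * R.s v) = c A w) ∧ ∀ A, ∀ g : Γ, ∀ w, c A (g * w) = ρ g (c A w)}
  zero_mem' := by
    refine ⟨fun A h => absurd rfl h, fun A v _ w => rfl, fun A g w => ?_⟩
    simp
  add_mem' := by
    rintro c d ⟨h1, h2, h3⟩ ⟨h4, h5, h6⟩
    refine ⟨fun A h => ?_, fun A v hv w => ?_, fun A g w => ?_⟩
    · by_cases hz : c A = 0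
      · by_cases hw : d A = 0
        · exact absurd (by rw [Pi.add_apply, hz, hw, add_zero]) h
        · exact h4 A hw
      · exact h1 A hz
    · simp only [Pi.add_apply]
      rw [h2 A v hv, h5 A v hv]
    · simp only [Pi.add_apply]
      rw [h3 A g, h6 A g, map_add]
  smul_mem' := by
    rintro a c ⟨h1, h2, h3⟩
    refine ⟨fun A h => h1 A fun h0 => h ?_, fun A v hv w => ?_, fun A g w => ?_⟩
    · rw [Pi.smul_apply, h0, smul_zero]
    · simp only [Pi.smul_apply]
      rw [h2 A v hv]
    · simp only [Pi.smul_apply]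
      rw [h3 A g, map_smul]

theorem mem_Cc {Γ : Subgroup W} {ρ : Γ →* Module.End K N} {k : ℕ} {c : Finset V → W → N} :
    c ∈ Cc R Γ ρ k ↔ (∀ A, c A ≠ 0 → G.IsClique (A : Set V) ∧ A.card = k) ∧
    (∀ A, ∀ v ∈ A, ∀ w, c A (w * R.s v) = c A w) ∧
      ∀ A, ∀ g : Γ, ∀ w, c A (g * w) = ρ g (c A w) := Iff.rfl

/-- the boundary of chains -/
def bd (K : Type) [Field K] {W : Type} {N : Type} [AddCommGroup N] [Module K N] :
    (Finset V → W → N) →ₗ[K] (Finset V → W → N) where
  toFun c := fun A w => ∑ v ∈ Aᶜ, c (insert v A) w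
  map_add' c d := by
    funext A w
    simp only [Pi.add_apply, sum_add_distrib]
  map_smul' a c := by
    funext A w
    simp only [Pi.smul_apply, RingHom.id_apply, smul_sum]

theorem bd_apply (c : Finset V → W → N) (A : Finset V) (w : W) :
    bd K c A w = ∑ v ∈ Aᶜ, c (insert v A) w := rfl

open Classical in
/-- the coboundary of cochains -/
noncomputable def cb (c : Finset V → W → N) : Finset V → W → N := fun A w =>
  if G.IsClique (A : Set V) then ∑ v ∈ A, (c (A.erase v) w + c (A.erase v) (w * R.s v)) else 0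

/-- cycles of degree `k` -/
def Zc (Γ : Subgroup W) (ρ : Γ →* Module.End K N) (k : ℕ) : Submodule K (Finset V → W → N) :=
  Cc R Γ ρ k ⊓ LinearMap.ker (bd K)

/-- boundaries in degree `k` -/
def Bc (Γ : Subgroup W) (ρ : Γ →* Module.End K N) (k : ℕ) : Submodule K (Finset V → W → N) :=
  (Cc R Γ ρ (k + 1)).map (bd K)

/-- the dimension of the homology -/
noncomputable def hh (Γ : Subgroup W) (ρ : Γ →* Module.End K N) (k : ℕ) : ℤ :=
  (Module.finrank K (Zc R Γ ρ k) : ℤ) - Module.finrank K (Bc R Γ ρ k)

/-- **Lifting**: the cycle `z₀` with coefficients in `χ` lifts to `χ ⊗ ρ` for every triangular module `ρ` with weights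
in the squares of `χ` and every invariant linear form `π ≠ 0` -/
def Lifts (Γ : Subgroup W) (χ : Γ →* Kˣ) (k : ℕ) (z₀ : Finset V → W → K) : Prop :=
  ∀ (N : Type) [AddCommGroup N] [Module K N] [FiniteDimensional K N] (ρ : Γ →* Module.End K N)
    (π : N →ₗ[K] K), Tri (sqr χ) ρ → Function.Surjective π → (∀ g y, π (ρ g y) = π y) →
    ∃ z ∈ Zc R Γ (tw χ ρ) k, ∀ A w, π (z A w) = z₀ A w

/-- **Effaceability**: every cocycle of degree `k + 1` with coefficients in a triangular module becomes a coboundary in a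
larger triangular module -/
def Eff (K : Type) [Field K] (Γ : Subgroup W) (Λ : Subgroup Kˣ) : Prop :=
  ∀ (k : ℕ) (E : Type) [AddCommGroup E] [Module K E] [FiniteDimensional K E]
    (ρ : Γ →* Module.End K E), Tri Λ ρ → ∀ x ∈ Cc R Γ ρ (k + 1), cb R x = 0 →
    ∃ (E' : Type) (_ : AddCommGroup E') (_ : Module K E') (_ : FiniteDimensional K E')
      (ρ' : Γ →* Module.End K E') (ι : E →ₗ[K] E') (y : Finset V → W → E'),
      Tri Λ ρ' ∧ Function.Injective ι ∧ (∀ g e, ι (ρ g e) = ρ' g (ι e)) ∧ y ∈ Cc R Γ ρ' k ∧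
        ∀ A w, cb R y A w = ι (x A w)

end Cpx

end Pool.Agent.S9
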