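import Pool.Agent.S9.TLev
import Pool.Agent.S9.E.Defs

/-!
# S9: the finite quotients of the levels

`qD` = the finite quotient `W ⧸ Γ` of a level `Γ` as a group with marked involutions; `gam R v p ∈ Γ` = the element of the
edge from `p` to `p * g v` for the transversal `Quotient.out`.
-/

set_option autoImplicit false
set_option linter.unusedSectionVars false

open Finset

namespace Pool.Agent.S9

open Pool.Agent.H77.SW Pool.Agent.H19.SR Pool.Agent.H73.GC

variable {V : Type} [DecidableEq V] [Fintype V] {G : SimpleGraph V} {W : Type} [Group W]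

section Quot

variable (R : Rac G W) {Γ : Subgroup W} [Γ.Normal] (hΓ : Lev R Γ)

/-- the bits on the quotient -/
noncomputable def qbh : W ⧸ Γ →* Multiplicative (V → ZMod 2) :=
  QuotientGroup.lift Γ R.bh fun g hg => by
    apply Multiplicative.toAdd.injective
    funext v
    exact hΓ.bits g hg v

/-- the finite quotient of a level -/
noncomputable def qD : PG G (W ⧸ Γ) where
  g v := QuotientGroup.mk (R.s v)
  sq v := by
    rw [← QuotientGroup.mk_mul, R.sq]
    rfl
  comm u v h := by
    rw [← QuotientGroup.mk_mul, ← QuotientGroup.mk_mul, R.comm u v h]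
  b p v := (qbh R hΓ p).toAdd v
  b_mul p q v := by
    rw [map_mul]
    rfl
  b_g u v := R.b_s u v
  two := by
    intro x
    induction x using QuotientGroup.induction_on with
    | _ x =>
      obtain ⟨k, hk⟩ := hΓ.two x
      refine ⟨k, ?_⟩
      rw [← QuotientGroup.mk_pow, QuotientGroup.eq_one_iff]
      exact hk

theorem qD_g (v : V) : (qD R hΓ).g v = QuotientGroup.mk (R.s v) := rfl

theorem qD_b (w : W) (v : V) : (qD R hΓ).b (QuotientGroup.mk w) v = R.b w v := rfl

theorem qD_gen : Subgroup.closure (Set.range (qD R hΓ).g) = ⊤ := by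
  have h1 : Set.range (qD R hΓ).g = QuotientGroup.mk' Γ '' Set.range R.s := by
    rw [← Set.range_comp]
    rfl
  rw [h1, ← MonoidHom.map_closure, R.gen, ← MonoidHom.range_eq_map]
  exact MonoidHom.range_eq_top.2 (QuotientGroup.mk'_surjective Γ)

/-- the element of `Γ` of the edge from `p` to `p * g v` -/
noncomputable def gam (v : V) (p : W ⧸ Γ) : Γ :=
  ⟨p.out * R.s v * (p * QuotientGroup.mk (R.s v)).out⁻¹, by
    rw [← QuotientGroup.eq_one_iff]
    rw [QuotientGroup.mk_mul, QuotientGroup.mk_mul, QuotientGroup.mk_inv, QuotientGroup.out_eq', QuotientGroup.out_eq',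
      mul_inv_cancel]⟩

theorem gam_coe (v : V) (p : W ⧸ Γ) :
    (gam R v p : W) = p.out * R.s v * (p * QuotientGroup.mk (R.s v)).out⁻¹ := rfl

theorem gam_out (v : V) (p : W ⧸ Γ) : (gam R v p : W) * (p * QuotientGroup.mk (R.s v)).out = p.out * R.s v := by
  rw [gam_coe, inv_mul_cancel_right]

theorem gam_inv (v : V) (p : W ⧸ Γ) : gam R v p * gam R v (p * (qD R hΓ).g v) = 1 := by
  apply Subtype.ext
  have h1 : p * QuotientGroup.mk (R.s v) * QuotientGroup.mk (R.s v) = p := by
    rw [mul_assoc, ← QuotientGroup.mk_mul, R.sq]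
    exact mul_one p
  rw [Subgroup.coe_mul, gam_coe, gam_coe, qD_g, h1]
  have h2 := R.sq v
  simp only [mul_assoc, inv_mul_cancel_left]
  rw [← mul_assoc (R.s v), h2, one_mul, mul_inv_cancel]
  rfl

theorem gam_comm {u v : V} (h : G.Adj u v) (p : W ⧸ Γ) :
    gam R u p * gam R v (p * (qD R hΓ).g u) = gam R v p * gam R u (p * (qD R hΓ).g v) := by
  apply Subtype.ext
  have h1 : p * QuotientGroup.mk (R.s u) * QuotientGroup.mk (R.s v) = p * QuotientGroup.mk (R.s v) * QuotientGroup.mk (R.s u) := by
    rw [mul_assoc, mul_assoc, ← QuotientGroup.mk_mul, ← QuotientGroup.mk_mul, R.comm u v h]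
  rw [Subgroup.coe_mul, Subgroup.coe_mul, gam_coe, gam_coe, gam_coe, gam_coe, qD_g, qD_g, h1]
  simp only [mul_assoc, inv_mul_cancel_left]
  rw [← mul_assoc (R.s u), ← mul_assoc (R.s v), R.comm u v h]

end Quot

/-- the operators on the functions `P → N` with the edge operators `L` -/
def rL {K : Type} [Field K] {P : Type} [Group P] (D : PG G P) {N : Type} [AddCommGroup N] [Module K N]
    (L : V → P → N →ₗ[K] N) (v : V) : (P → N) →ₗ[K] (P → N) where
  toFun F p := L v p (F (p * D.g v))
  map_add' F F' := by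
    funext p
    exact map_add (L v p) _ _
  map_smul' c F := by
    funext p
    exact map_smul (L v p) c _

theorem rL_apply {K : Type} [Field K] {P : Type} [Group P] (D : PG G P) {N : Type} [AddCommGroup N] [Module K N]
    (L : V → P → N →ₗ[K] N) (v : V) (F : P → N) (p : P) : rL D L v F p = L v p (F (p * D.g v)) := rfl

end Pool.Agent.S9
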