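import Pool.Agent.S9.DictZ

/-!
# S9: the cycles of a level in a basis of the coefficients
-/

set_option autoImplicit false
set_option linter.unusedSectionVars false

open Finset

namespace Pool.Agent.S9

open Pool.Agent.H77.SW Pool.Agent.H19.SR Pool.Agent.H73.GC

variable {V : Type} [DecidableEq V] [Fintype V] {G : SimpleGraph V} {W : Type} [Group W]
  (R : Rac G W) {Γ : Subgroup W} [Γ.Normal] (hΓ : Lev R Γ) {K : Type} [Field K] {N : Type}
  [AddCommGroup N] [Module K N] {n : Type} [Fintype n] [DecidableEq n]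

/-- the edge matrices of a module in a basis -/
noncomputable def MB (b : Module.Basis n K N) (ρ : Γ →* Module.End K N) (v : V) (p : W ⧸ Γ) : Matrix n n K :=
  LinearMap.toMatrix b b (ρ (gam R v p))

theorem isEdg_MB (b : Module.Basis n K N) (ρ : Γ →* Module.End K N) : IsEdg (qD R hΓ) (MB R b ρ) where
  inv v p := by
    unfold MB
    rw [← LinearMap.toMatrix_mul, ← map_mul, gam_inv, map_one, LinearMap.toMatrix_one]
  comm u v h p := by
    unfold MB
    rw [← LinearMap.toMatrix_mul, ← map_mul, gam_comm R hΓ h, map_mul, LinearMap.toMatrix_mul]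

theorem MB_tw (b : Module.Basis n K N) (χ : Γ →* Kˣ) (ρ : Γ →* Module.End K N) (v : V) (p : W ⧸ Γ) :
    MB R b (tw χ ρ) v p = (χ (gam R v p) : K) • MB R b ρ v p := by
  unfold MB
  rw [← LinearEquiv.map_smul]
  rfl

/-- the cycles of a level in a basis of the coefficients -/
noncomputable def dictB (b : Module.Basis n K N) (ρ : Γ →* Module.End K N) (d : ℕ) :
    Zc R Γ ρ d ≃ₗ[K] Zs K G d (rM (qD R hΓ) (MB R b ρ)) :=
  (dictZ R hΓ ρ d).trans <| Zs_congr
    (φ := LinearEquiv.piCongrRight fun _ => b.equivFun) fun v F => by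
    funext p i
    change b.repr (ρ (gam R v p) (F (p * (qD R hΓ).g v))) i =
      ((LinearMap.toMatrix b b (ρ (gam R v p))).mulVec fun j => b.repr (F (p * (qD R hΓ).g v)) j) i
    rw [← LinearMap.toMatrix_mulVec_repr b b]

theorem dictB_apply (b : Module.Basis n K N) (ρ : Γ →* Module.End K N) (d : ℕ) (c : Zc R Γ ρ d) (A : Finset V)
    (p : W ⧸ Γ) (i : n) :
    (dictB R hΓ b ρ d c : Finset V → W ⧸ Γ → n → K) A p i = b.repr ((c : Finset V → W → N) A p.out) i := rfl

end Pool.Agent.S9
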