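import Pool.Agent.S9.DictZ
import Pool.Agent.S9.Cnt

/-!
# S9: the dimension of the homology of a level
-/

set_option autoImplicit false
set_option linter.unusedSectionVars false

open Finset

namespace Pool.Agent.S9

open Pool.Agent.H77.SW Pool.Agent.H19.SR Pool.Agent.H73.GC

variable {V : Type} [DecidableEq V] [Fintype V] {G : SimpleGraph V} {W : Type} [Group W]
  (R : Rac G W) {Γ : Subgroup W} [Γ.Normal] (hΓ : Lev R Γ) {K : Type} [Field K] {N : Type}
  [AddCommGroup N] [Module K N]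

include hΓ

theorem finite_Cc [FiniteDimensional K N] (ρ : Γ →* Module.End K N) (d : ℕ) :
    FiniteDimensional K (Cc R Γ ρ d) := by
  have := hΓ.fin
  have : FiniteDimensional K (Finset V → W ⧸ Γ → N) := inferInstance
  exact Module.Finite.equiv (dictC R hΓ ρ d).symm

theorem hh_eq_sub [FiniteDimensional K N] (ρ : Γ →* Module.End K N) (d : ℕ) :
    hh R Γ ρ d = (Module.finrank K (Zc R Γ ρ d) : ℤ) + Module.finrank K (Zc R Γ ρ (d + 1)) -
      Module.finrank K (Cc R Γ ρ (d + 1)) := by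
  have h0 := finite_Cc R hΓ ρ (d + 1)
  let f : Cc R Γ ρ (d + 1) →ₗ[K] (Finset V → W → N) := (bd K).domRestrict (Cc R Γ ρ (d + 1))
  have h1 : LinearMap.range f = Bc R Γ ρ d := LinearMap.range_domRestrict _ _
  have h2 : Module.finrank K (LinearMap.ker f) = Module.finrank K (Zc R Γ ρ (d + 1)) := by
    have h3 : (LinearMap.ker f).map (Cc R Γ ρ (d + 1)).subtype = Zc R Γ ρ (d + 1) := by
      ext x
      simp only [Submodule.mem_map, LinearMap.mem_ker]
      constructor
      · rintro ⟨y, hy, rfl⟩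
        exact ⟨y.2, LinearMap.mem_ker.2 hy⟩
      · rintro ⟨hx, hx'⟩
        exact ⟨⟨x, hx⟩, LinearMap.mem_ker.1 hx', rfl⟩
    rw [← h3]
    exact (LinearEquiv.finrank_eq (Submodule.equivMapOfInjective _ (Submodule.injective_subtype _) _))
  have h4 := LinearMap.finrank_range_add_finrank_ker f
  rw [h1, h2] at h4
  unfold hh
  omega

/-- the number of the cells -/
theorem finrank_Cc [Fintype (W ⧸ Γ)] [FiniteDimensional K N] (ρ : Γ →* Module.End K N) (d : ℕ) :
    Module.finrank K (Cc R Γ ρ d) = cP (qD R hΓ) d * Module.finrank K N := by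
  rw [(dictC R hΓ ρ d).finrank_eq]
  refine finrank_Cz (fun v p => ?_) (fun u v h p => ?_) d
  · have h1 : ρ (gam R v p) * ρ (gam R v (p * (qD R hΓ).g v)) = 1 := by
      rw [← map_mul, gam_inv, map_one]
    exact h1
  · have h1 : ρ (gam R u p) * ρ (gam R v (p * (qD R hΓ).g u)) =
        ρ (gam R v p) * ρ (gam R u (p * (qD R hΓ).g v)) := by
      rw [← map_mul, gam_comm R hΓ h, map_mul]
    exact h1

theorem hh_eq [Fintype (W ⧸ Γ)] [FiniteDimensional K N] (ρ : Γ →* Module.End K N) (d : ℕ) :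
    hh R Γ ρ d = (Module.finrank K (Zc R Γ ρ d) : ℤ) + Module.finrank K (Zc R Γ ρ (d + 1)) -
      cP (qD R hΓ) (d + 1) * Module.finrank K N := by
  rw [hh_eq_sub R hΓ, finrank_Cc R hΓ]
  push_cast
  rfl

/-- the homology with coefficients in the tautological character -/
theorem hh_chi [Fintype (W ⧸ Γ)] {I : Type} (ab : Γ →* Multiplicative (I → ℤ)) (χ : Γ →* (KI I)ˣ)
    (hχ : ∀ g, (χ g : KI I) = tt (ab g).toAdd) (d : ℕ) :
    hh R Γ (ch χ) d = hchi (qD R hΓ) (eab R ab) d := by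
  rw [hh_eq R hΓ, finrank_Zc_chi R hΓ ab χ hχ, finrank_Zc_chi R hΓ ab χ hχ, Module.finrank_self, Nat.cast_one, mul_one]
  rfl

end Pool.Agent.S9
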