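import Pool.Agent.S9.Defs

/-!
# Project S9, block G: representative functions
-/

set_option autoImplicit false
set_option linter.unusedSectionVars false

open Finset

namespace Pool.Agent.S9

section

variable {K : Type} [Field K] {H : Type} [Group H]

/-- `f 0, …, f (n - 1)` is a triangular sequence of functions on `H` with weights in `Λ`, under right translations -/
def TS (Λ : Subgroup Kˣ) (n : ℕ) (f : ℕ → H → K) : Prop :=
  ∀ i < n, ∃ (lam : H →* Kˣ) (a : H → ℕ → K), (∀ g, lam g ∈ Λ) ∧
    ∀ x g, f i (x * g) = lam g * f i x + ∑ j ∈ range i, a g j * f j x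

/-- representative functions on `H`: the members of the triangular sequences -/
def Rp (Λ : Subgroup Kˣ) (f : H → K) : Prop :=
  ∃ (n : ℕ) (F : ℕ → H → K), TS Λ n F ∧ ∃ i < n, f = F i

end

/-- representative functions on `W` (with respect to `Γ`) -/
def RpW {K : Type} [Field K] {W : Type} [Group W] (Γ : Subgroup W) (Λ : Subgroup Kˣ) (f : W → K) : Prop :=
  ∀ w : W, Rp Λ fun x : Γ => f (x * w)

end Pool.Agent.S9
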