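import Mathlib

/-!
# Project S9, block G: the formal induction of effaceability

`W` is a group with marked involutions `g v`, which commute for the edges of the graph `G`; cochains on the cube complex
of `W` are families `γ A : W → M`, `A` a clique, `γ A` invariant under the right translations by `g v`, `v ∈ A`. `O` is
a class of functions `W → M`. If the cocycles of degree one in `O` are exact in `O` (for all sets of letters `T` and
all cliques `C` which commute with `T`, with invariance under `C`), so are the cocycles of all positive degrees.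
-/

set_option autoImplicit false
set_option linter.unusedSectionVars false

open Finset

namespace Pool.Agent.S9

variable {V : Type} [DecidableEq V]

section Ind

variable {W : Type} [Group W] {M : Type} [AddCommGroup M]

/-- the function `γ` is invariant under the right translations by the letters of `S` -/
def GInv (g : V → W) (S : Finset V) (γ : W → M) : Prop := ∀ a ∈ S, ∀ w, γ (w * g a) = γ w

/-- the coboundary -/
def gd (g : V → W) (η : Finset V → W → M) (A : Finset V) (w : W) : M :=
  ∑ v ∈ A, (η (A.erase v) w + η (A.erase v) (w * g v))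

/-- a sum of a symmetric function over the pairs of different elements vanishes -/
theorem gsum_pairs (hM : ∀ x : M, x + x = 0) (A : Finset V) (F : V → V → M)
    (hF : ∀ u ∈ A, ∀ w ∈ A, F u w = F w u) : ∑ u ∈ A, ∑ w ∈ A.erase u, F u w = 0 := by
  induction A using Finset.induction_on with
  | empty => rfl
  | insert a A ha ih =>
    rw [sum_insert ha, erase_insert ha]
    have h1 : ∀ u ∈ A, ∑ w ∈ (insert a A).erase u, F u w = F u a + ∑ w ∈ A.erase u, F u w := by
      intro u hu
      have hua : u ≠ a := fun h => ha (h ▸ hu)
      rw [erase_insert_of_ne hua.symm, sum_insert (fun h => ha (mem_of_mem_erase h))]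
    rw [sum_congr rfl h1, sum_add_distrib, ← add_assoc, ih fun u hu w hw =>
      hF u (mem_insert_of_mem hu) w (mem_insert_of_mem hw), add_zero, ← sum_add_distrib]
    refine sum_eq_zero fun u hu => ?_
    rw [hF a (mem_insert_self _ _) u (mem_insert_of_mem hu), hM]

variable (G : SimpleGraph V) (g : V → W) (hsq : ∀ v, g v * g v = 1)
  (hcomm : ∀ u v, G.Adj u v → g u * g v = g v * g u) (hM : ∀ x : M, x + x = 0)

include hcomm hM in
/-- the coboundary of a coboundary vanishes -/
theorem gd_gd (η : Finset V → W → M) {A : Finset V} (hA : G.IsClique (A : Set V)) (w : W) :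
    gd g (gd g η) A w = 0 := by
  unfold gd
  have h1 : ∀ u ∈ A, (∑ v ∈ A.erase u, (η ((A.erase u).erase v) w +
      η ((A.erase u).erase v) (w * g v)) + ∑ v ∈ A.erase u, (η ((A.erase u).erase v)
      (w * g u) + η ((A.erase u).erase v) (w * g u * g v))) =
      ∑ v ∈ A.erase u, (η ((A.erase u).erase v) w + η ((A.erase u).erase v) (w * g v) +
        (η ((A.erase u).erase v) (w * g u) + η ((A.erase u).erase v) (w * g u * g v))) :=
    fun u _ => by rw [← sum_add_distrib]
  rw [sum_congr rfl h1]
  refine gsum_pairs hM A _ fun u hu v hv => ?_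
  rw [erase_right_comm]
  by_cases huv : u = v
  · rw [huv]
  · have h2 : w * g u * g v = w * g v * g u := by
      rw [mul_assoc, mul_assoc, hcomm u v (hA hu hv huv)]
    rw [h2]
    abel

include hsq hcomm in
/-- the coboundary of an invariant cochain is invariant -/
theorem gd_inv (η : Finset V → W → M) {A : Finset V} {a : V} (ha : ∀ u ∈ A, u ≠ a → G.Adj u a)
    (hη : ∀ u ∈ A, u ≠ a → ∀ w, η (A.erase u) (w * g a) = η (A.erase u) w) (w : W) :
    gd g η A (w * g a) = gd g η A w := by
  unfold gd
  refine sum_congr rfl fun u hu => ?_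
  by_cases hua : u = a
  · subst hua
    rw [mul_assoc, hsq, mul_one, add_comm]
  · rw [mul_assoc, ← hcomm u a (ha u hu hua), ← mul_assoc, hη u hu hua, hη u hu hua]

variable (O : AddSubgroup (W → M)) (hO : ∀ f ∈ O, ∀ v, (fun w => f (w * g v)) ∈ O)

include hO in
theorem gd_mem (η : Finset V → W → M) (A : Finset V) (hη : ∀ u ∈ A, η (A.erase u) ∈ O) :
    gd g η A ∈ O := by
  have h1 : gd g η A = ∑ u ∈ A, (η (A.erase u) + fun w => η (A.erase u) (w * g u)) := by
    funext w
    rw [Finset.sum_apply]
    rfl
  rw [h1]
  exact AddSubgroup.sum_mem _ fun u hu => AddSubgroup.add_mem _ (hη u hu) (hO _ (hη u hu) u)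

include hsq hcomm hM hO in
/-- **The formal induction**: if the cocycles of degree one are exact, so are all cocycles of positive degree. -/
theorem g_ind (H1 : ∀ T C : Finset V, G.IsClique (C : Set V) → (∀ u ∈ T, ∀ a ∈ C, G.Adj u a) →
      ∀ c : V → W → M, (∀ u ∈ T, c u ∈ O) →
      (∀ u ∈ T, ∀ a, a = u ∨ a ∈ C → ∀ w, c u (w * g a) = c u w) →
      (∀ u ∈ T, ∀ v ∈ T, G.Adj u v → ∀ w, c u w + c v (w * g u) = c v w + c u (w * g v)) →
      ∃ f ∈ O, (∀ a ∈ C, ∀ w, f (w * g a) = f w) ∧ ∀ u ∈ T, ∀ w, f (w * g u) = f w + c u w) :
    ∀ (N : ℕ) (T C : Finset V), T.card ≤ N → G.IsClique (C : Set V) →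
    (∀ u ∈ T, ∀ a ∈ C, G.Adj u a) → ∀ k : ℕ, 1 ≤ k → ∀ γ : Finset V → W → M,
    (∀ A ⊆ T, G.IsClique (A : Set V) → A.card = k → γ A ∈ O ∧ GInv g (A ∪ C) (γ A)) →
    (∀ A ⊆ T, G.IsClique (A : Set V) → A.card = k + 1 → ∀ w, gd g γ A w = 0) →
    ∃ η : Finset V → W → M,
      (∀ B ⊆ T, G.IsClique (B : Set V) → B.card + 1 = k → η B ∈ O ∧ GInv g (B ∪ C) (η B)) ∧
      ∀ A ⊆ T, G.IsClique (A : Set V) → A.card = k → ∀ w, gd g η A w = γ A w := by
  intro N
  induction N with
  | zero =>
    intro T C hT hC hTC k hk γ hinv hco
    have hT0 : T = ∅ := card_eq_zero.1 (Nat.le_zero.1 hT)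
    refine ⟨fun _ _ => 0, fun B _ _ _ => ⟨AddSubgroup.zero_mem _, fun a _ w => rfl⟩,
      fun A hA _ hAk w => ?_⟩
    rw [hT0, subset_empty] at hA
    rw [hA, card_empty] at hAk
    omega
  | succ N ih =>
    intro T C hT hC hTC k hk γ hinv hco
    rcases Nat.lt_or_ge 1 k with hk2 | hk1
    · -- degree at least two
      rcases T.eq_empty_or_nonempty with hT0 | ⟨v, hv⟩
      · refine ⟨fun _ _ => 0, fun B _ _ _ => ⟨AddSubgroup.zero_mem _, fun a _ w => rfl⟩,
          fun A hA _ hAk w => ?_⟩
        rw [hT0, subset_empty] at hA
        rw [hA, card_empty] at hAk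
        omega
      have hTv : (T.erase v).card ≤ N := by
        have := card_erase_of_mem hv
        omega
      obtain ⟨η0, hη0, hd0⟩ := ih (T.erase v) C hTv hC
        (fun u hu => hTC u (mem_of_mem_erase hu)) k hk γ
        (fun A hA => hinv A (hA.trans (erase_subset _ _)))
        (fun A hA => hco A (hA.trans (erase_subset _ _)))
      -- the extension by zero
      obtain ⟨η0', hη0'⟩ : ∃ η0' : Finset V → W → M, ∀ B,
          η0' B = if v ∈ B then 0 else η0 B :=
        ⟨fun B => if v ∈ B then 0 else η0 B, fun _ => rfl⟩
      have hsub : ∀ B ⊆ T, v ∉ B → B ⊆ T.erase v := fun B hB hvB =>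
        subset_erase.2 ⟨hB, hvB⟩
      have hinv0 : ∀ B ⊆ T, G.IsClique (B : Set V) → B.card + 1 = k →
          η0' B ∈ O ∧ GInv g (B ∪ C) (η0' B) := by
        intro B hB hBc hBk
        rw [hη0']
        split_ifs with h
        · exact ⟨AddSubgroup.zero_mem _, fun a _ w => rfl⟩
        · exact hη0 B (hsub B hB h) hBc hBk
      obtain ⟨γ', hγ'⟩ : ∃ γ' : Finset V → W → M, ∀ A w, γ' A w = γ A w + gd g η0' A w :=
        ⟨fun A w => γ A w + gd g η0' A w, fun _ _ => rfl⟩
      have hadj : ∀ A ⊆ T, G.IsClique (A : Set V) → ∀ a ∈ A ∪ C, ∀ u ∈ A, u ≠ a → G.Adj u a := by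
        intro A hA hAc a ha u hu hua
        rcases mem_union.1 ha with h | h
        · exact hAc hu h hua
        · exact hTC u (hA hu) a h
      have hcl : ∀ A : Finset V, G.IsClique (A : Set V) → ∀ B ⊆ A, G.IsClique (B : Set V) :=
        fun A hA B hB => hA.subset (by exact_mod_cast hB)
      have hcardE : ∀ A : Finset V, A.card = k → ∀ u ∈ A, (A.erase u).card + 1 = k := by
        intro A hA u hu
        rw [card_erase_of_mem hu]
        omega
      have hinv' : ∀ A ⊆ T, G.IsClique (A : Set V) → A.card = k →
          γ' A ∈ O ∧ GInv g (A ∪ C) (γ' A) := by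
        intro A hA hAc hAk
        constructor
        · have h1 : γ' A = γ A + gd g η0' A := funext fun w => hγ' A w
          rw [h1]
          refine AddSubgroup.add_mem _ (hinv A hA hAc hAk).1 (gd_mem g O hO η0' A fun u hu => ?_)
          exact (hinv0 (A.erase u) ((erase_subset _ _).trans hA) (hcl A hAc _ (erase_subset _ _))
            (hcardE A hAk u hu)).1
        · intro a ha w
          rw [hγ', hγ', (hinv A hA hAc hAk).2 a ha]
          congr 1
          refine gd_inv G g hsq hcomm η0' (hadj A hA hAc a ha) (fun u hu hua w => ?_) w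
          refine (hinv0 (A.erase u) ((erase_subset _ _).trans hA)
            (hcl A hAc _ (erase_subset _ _)) (hcardE A hAk u hu)).2 a ?_ w
          rcases mem_union.1 ha with h | h
          · exact mem_union_left _ (mem_erase.2 ⟨fun h' => hua h'.symm, h⟩)
          · exact mem_union_right _ h
      have hco' : ∀ A ⊆ T, G.IsClique (A : Set V) → A.card = k + 1 → ∀ w, gd g γ' A w = 0 := by
        intro A hA hAc hAk w
        have h1 := gd_gd G g hcomm hM η0' hAc w
        have h2 := hco A hA hAc hAk w
        have h3 : gd g γ' A w = gd g γ A w + gd g (gd g η0') A w := by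
          unfold gd
          rw [← sum_add_distrib]
          refine sum_congr rfl fun u _ => ?_
          rw [hγ', hγ']
          unfold gd
          abel
        rw [h3, h1, h2, add_zero]
      have hz : ∀ A ⊆ T, v ∉ A → G.IsClique (A : Set V) → A.card = k → ∀ w, γ' A w = 0 := by
        intro A hA hvA hAc hAk w
        have h1 := hd0 A (hsub A hA hvA) hAc hAk w
        have h2 : gd g η0' A w = gd g η0 A w := by
          unfold gd
          refine sum_congr rfl fun u _ => ?_
          have h3 : v ∉ A.erase u := fun h => hvA (mem_of_mem_erase h)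
          rw [hη0', if_neg h3]
        rw [hγ', h2, h1, hM]
      -- the link of `v`
      obtain ⟨lk, hlk⟩ : ∃ lk : Finset V, ∀ u, u ∈ lk ↔ u ∈ T ∧ G.Adj v u := by
        classical
        exact ⟨T.filter fun u => G.Adj v u, fun u => mem_filter⟩
      have hlkT : lk ⊆ T.erase v := fun u hu =>
        mem_erase.2 ⟨((hlk u).1 hu).2.ne', ((hlk u).1 hu).1⟩
      have hins : ∀ B ⊆ lk, G.IsClique (B : Set V) →
          G.IsClique ((insert v B : Finset V) : Set V) := by
        intro B hB hBc
        rw [coe_insert]
        refine hBc.insert fun u hu _ => ((hlk u).1 (hB hu)).2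
      have hinsT : ∀ B ⊆ lk, insert v B ⊆ T := fun B hB =>
        insert_subset hv ((hB.trans hlkT).trans (erase_subset _ _))
      have hvlk : ∀ B ⊆ lk, v ∉ B := fun B hB h => (mem_erase.1 (hlkT (hB h))).1 rfl
      obtain ⟨j, rfl⟩ : ∃ j, k = j + 1 := ⟨k - 1, by omega⟩
      have hCv : G.IsClique ((insert v C : Finset V) : Set V) := by
        rw [coe_insert]
        exact hC.insert fun a ha _ => hTC v hv a ha
      obtain ⟨η1, hη1, hd1⟩ := ih lk (insert v C)
        ((card_le_card hlkT).trans hTv) hCv (fun u hu a ha => by
          rcases mem_insert.1 ha with h | h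
          · rw [h]; exact ((hlk u).1 hu).2.symm
          · exact hTC u ((hlk u).1 hu).1 a h) j (by omega) (fun B => γ' (insert v B))
        (fun B hB hBc hBj => by
          have h1 := hinv' (insert v B) (hinsT B hB) (hins B hB hBc)
            (by rw [card_insert_of_notMem (hvlk B hB), hBj])
          refine ⟨h1.1, fun a ha => h1.2 a ?_⟩
          rcases mem_union.1 ha with h | h
          · exact mem_union_left _ (mem_insert_of_mem h)
          · rcases mem_insert.1 h with h' | h'
            · exact mem_union_left _ (h' ▸ mem_insert_self _ _)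
            · exact mem_union_right _ h')
        (fun B hB hBc hBk w => by
          have hvB := hvlk B hB
          have h1 := hco' (insert v B) (hinsT B hB) (hins B hB hBc)
            (by rw [card_insert_of_notMem hvB, hBk]) w
          unfold gd at h1 ⊢
          rw [sum_insert hvB, erase_insert hvB,
            hz B (hB.trans (hlkT.trans (erase_subset _ _))) hvB hBc hBk,
            hz B (hB.trans (hlkT.trans (erase_subset _ _))) hvB hBc hBk, add_zero, zero_add] at h1
          rw [← h1]
          refine sum_congr rfl fun u hu => ?_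
          have huv : v ≠ u := fun h => hvB (h ▸ hu)
          rw [erase_insert_of_ne huv])
      obtain ⟨η, hη⟩ : ∃ η : Finset V → W → M, ∀ B,
          η B = (if v ∈ B then η1 (B.erase v) else 0) + η0' B :=
        ⟨fun B => (if v ∈ B then η1 (B.erase v) else 0) + η0' B, fun _ => rfl⟩
      have her : ∀ B ⊆ T, v ∈ B → G.IsClique (B : Set V) → B.erase v ⊆ lk := by
        intro B hB hvB hBc u hu
        obtain ⟨h1, h2⟩ := mem_erase.1 hu
        exact (hlk u).2 ⟨hB h2, hBc hvB h2 h1.symm⟩
      refine ⟨η, ?_, ?_⟩
      · intro B hB hBc hBk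
        have h0 := hinv0 B hB hBc hBk
        by_cases h : v ∈ B
        · have h1 := hη1 (B.erase v) (her B hB h hBc) (hcl B hBc _ (erase_subset _ _))
            (by rw [card_erase_of_mem h]; have := card_pos.2 ⟨v, h⟩; omega)
          rw [hη, if_pos h]
          refine ⟨AddSubgroup.add_mem _ h1.1 h0.1, fun a ha w => ?_⟩
          rw [Pi.add_apply, Pi.add_apply, h0.2 a ha]
          congr 1
          refine h1.2 a ?_ w
          rcases mem_union.1 ha with h' | h'
          · by_cases hav : a = v
            · exact mem_union_right _ (hav ▸ mem_insert_self _ _)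
            · exact mem_union_left _ (mem_erase.2 ⟨hav, h'⟩)
          · exact mem_union_right _ (mem_insert_of_mem h')
        · rw [hη, if_neg h, zero_add]
          exact h0
      · intro A hA hAc hAk w
        have h1 : gd g η A w = ∑ u ∈ A, ((if v ∈ A.erase u then η1 ((A.erase u).erase v) else 0) w +
            (if v ∈ A.erase u then η1 ((A.erase u).erase v) else 0) (w * g u)) +
            gd g η0' A w := by
          unfold gd
          rw [← sum_add_distrib]
          refine sum_congr rfl fun u _ => ?_
          rw [hη, Pi.add_apply, Pi.add_apply]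
          abel
        rw [h1]
        by_cases hvA : v ∈ A
        · have h2 := hd1 (A.erase v) (her A hA hvA hAc) (hcl A hAc _ (erase_subset _ _))
            (by rw [card_erase_of_mem hvA, hAk]; rfl) w
          unfold gd at h2
          rw [insert_erase hvA] at h2
          have h3 : ∑ u ∈ A, ((if v ∈ A.erase u then η1 ((A.erase u).erase v) else 0) w +
              (if v ∈ A.erase u then η1 ((A.erase u).erase v) else 0) (w * g u)) =
              γ' A w := by
            rw [← h2, ← add_sum_erase A _ hvA]
            have h4 : v ∉ A.erase v := notMem_erase v A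
            rw [if_neg h4, Pi.zero_apply, Pi.zero_apply, zero_add, zero_add]
            refine sum_congr rfl fun u hu => ?_
            have h5 : v ∈ A.erase u := mem_erase.2 ⟨(ne_of_mem_erase hu).symm, hvA⟩
            rw [if_pos h5, erase_right_comm]
          rw [h3, hγ', add_assoc, hM, add_zero]
        · have h2 := hz A hA hvA hAc hAk w
          rw [hγ'] at h2
          have h3 : ∑ u ∈ A, ((if v ∈ A.erase u then η1 ((A.erase u).erase v) else 0) w +
              (if v ∈ A.erase u then η1 ((A.erase u).erase v) else 0) (w * g u)) = 0 := by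
            refine sum_eq_zero fun u _ => ?_
            have h5 : v ∉ A.erase u := fun h => hvA (mem_of_mem_erase h)
            rw [if_neg h5, Pi.zero_apply, Pi.zero_apply, add_zero]
          rw [h3, zero_add]
          have h4 : γ A w + gd g η0' A w + gd g η0' A w = gd g η0' A w := by rw [h2, zero_add]
          rw [add_assoc, hM, add_zero] at h4
          exact h4.symm
    · -- degree one
      have hk0 : k = 1 := by omega
      subst hk0
      have hcl1 : ∀ u : V, G.IsClique (({u} : Finset V) : Set V) := fun u => by simp
      obtain ⟨f, hf0, hf1, hf2⟩ := H1 T C hC hTC (fun u => γ {u})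
        (fun u hu => (hinv {u} (by simpa using hu) (hcl1 u) (card_singleton u)).1)
        (fun u hu a ha w => by
          refine (hinv {u} (by simpa using hu) (hcl1 u) (card_singleton u)).2 a ?_ w
          rcases ha with h | h
          · exact mem_union_left _ (mem_singleton.2 h)
          · exact mem_union_right _ h)
        (fun u hu v hv huv w => by
          have hne : u ≠ v := huv.ne
          have h1 := hco {u, v} (by
            intro x hx
            rcases mem_insert.1 hx with h | h
            · rw [h]; exact hu
            · rw [mem_singleton.1 h]; exact hv) (by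
            rw [coe_insert, coe_singleton, SimpleGraph.isClique_pair]
            exact fun _ => huv) (card_pair hne) w
          unfold gd at h1
          rw [sum_pair hne] at h1
          have h2 : ({u, v} : Finset V).erase u = {v} := by
            rw [erase_insert (by simpa using hne)]
          have h3 : ({u, v} : Finset V).erase v = {u} := by
            rw [pair_comm, erase_insert (by simpa using hne.symm)]
          rw [h2, h3] at h1
          -- `γ v w + γ v (w u) + (γ u w + γ u (w v)) = 0`
          have h4 : γ {u} w + γ {v} (w * g u) = γ {u} w + γ {v} (w * g u) +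
              (γ {v} w + γ {v} (w * g u) + (γ {u} w + γ {u} (w * g v))) := by rw [h1, add_zero]
          have h5 : γ {u} w + γ {v} (w * g u) +
              (γ {v} w + γ {v} (w * g u) + (γ {u} w + γ {u} (w * g v))) =
              (γ {u} w + γ {u} w) + (γ {v} (w * g u) + γ {v} (w * g u)) +
                (γ {v} w + γ {u} (w * g v)) := by abel
          rw [h4, h5, hM, hM, zero_add, zero_add])
      refine ⟨fun B => if B = ∅ then f else 0, fun B _ _ hB1 => ?_, fun A hA _ hAk w => ?_⟩
      · have hB0 : B = ∅ := card_eq_zero.1 (by omega)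
        subst hB0
        show (if (∅ : Finset V) = ∅ then f else 0) ∈ O ∧
          GInv g (∅ ∪ C) (if (∅ : Finset V) = ∅ then f else 0)
        rw [if_pos rfl, empty_union]
        exact ⟨hf0, fun a ha w => hf1 a ha w⟩
      · obtain ⟨u, rfl⟩ := card_eq_one.1 hAk
        unfold gd
        rw [sum_singleton, erase_singleton]
        show (if (∅ : Finset V) = ∅ then f else 0) w +
          (if (∅ : Finset V) = ∅ then f else 0) (w * g u) = γ {u} w
        rw [if_pos rfl, hf2 u (by simpa using hA), ← add_assoc, hM, zero_add]

end Ind

end Pool.Agent.S9
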