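import Pool.Agent.S9.Defs

/-!
# Project S9: closure properties of triangular modules

`Stp Λ ρ A B`: `A ≤ B` are submodules, and modulo `A` every `g` is the multiplication with `lam g ∈ Λ` on `B`. The
module `ρ` is triangular if and only if `⊥` and `⊤` are joined by a chain of such steps (`tri_iff`).
-/

set_option autoImplicit false

namespace Pool.Agent.S9

open Submodule Relation

private theorem lft {α β : Type*} {r : α → α → Prop} {p : β → β → Prop} (f : α → β)
    (h : ∀ a b, r a b → p (f a) (f b)) {a b : α} (hab : ReflTransGen r a b) :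
    ReflTransGen p (f a) (f b) := by
  induction hab with
  | refl => exact ReflTransGen.refl
  | tail _ hbc ih => exact ih.tail (h _ _ hbc)

section Chain

variable {K : Type} [Field K] {Λ : Subgroup Kˣ} {H : Type} [Group H]
  {N : Type} [AddCommGroup N] [Module K N] {ρ : H →* Module.End K N}
  {N' : Type} [AddCommGroup N'] [Module K N'] {ρ' : H →* Module.End K N'}
  {N'' : Type} [AddCommGroup N''] [Module K N''] {ρ'' : H →* Module.End K N''}

/-- a step of a triangular filtration -/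
def Stp (Λ : Subgroup Kˣ) (ρ : H →* Module.End K N) (A B : Submodule K N) : Prop :=
  A ≤ B ∧ ∃ lam : H →* Kˣ, (∀ g, lam g ∈ Λ) ∧ ∀ g, ∀ y ∈ B, ρ g y - (lam g : K) • y ∈ A

theorem Stp.left {A B : Submodule K N} (h : Stp Λ ρ A B) : ∀ g, ∀ y ∈ A, ρ g y ∈ A := by
  intro g y hy
  obtain ⟨hle, lam, _, h1⟩ := h
  have h2 := add_mem (h1 g y (hle hy)) (A.smul_mem (lam g : K) hy)
  rwa [sub_add_cancel] at h2

theorem Stp.right {A B : Submodule K N} (h : Stp Λ ρ A B) : ∀ g, ∀ y ∈ B, ρ g y ∈ B := by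
  intro g y hy
  obtain ⟨hle, lam, _, h1⟩ := h
  have h2 := add_mem (hle (h1 g y hy)) (B.smul_mem (lam g : K) hy)
  rwa [sub_add_cancel] at h2

theorem tri_iff : Tri Λ ρ ↔ ReflTransGen (Stp Λ ρ) ⊥ ⊤ := by
  constructor
  · rintro ⟨n, F, hm, h0, hn, hq⟩
    have key : ∀ j, ReflTransGen (Stp Λ ρ) (F 0) (F j) := by
      intro j
      induction j with
      | zero => exact ReflTransGen.refl
      | succ j ih => exact ih.tail ⟨hm (Nat.le_succ j), hq j⟩
    rw [← h0, ← hn]
    exact key n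
  · intro h
    have key : ∀ A, ReflTransGen (Stp Λ ρ) ⊥ A → ∃ (n : ℕ) (F : ℕ → Submodule K N), Monotone F ∧
        F 0 = ⊥ ∧ (∀ j, n ≤ j → F j = A) ∧ ∀ j, ∃ lam : H →* Kˣ, (∀ g, lam g ∈ Λ) ∧
          ∀ g, ∀ y ∈ F (j + 1), ρ g y - (lam g : K) • y ∈ F j := by
      intro A hA
      induction hA with
      | refl =>
        refine ⟨0, fun _ => ⊥, fun _ _ _ => le_rfl, rfl, fun _ _ => rfl, fun _ => ⟨1,
          fun _ => one_mem _, fun g y hy => ?_⟩⟩
        rw [mem_bot] at hy ⊢
        rw [hy, map_zero, smul_zero, sub_zero]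
      | tail hab hbc ih =>
        rename_i B C
        obtain ⟨n, F, hm, h0, hn, hq⟩ := ih
        have hBC := hbc.1
        have hC := hbc.right
        obtain ⟨_, lam, hl, h1⟩ := hbc
        have hle : ∀ j, F j ≤ B := fun j => by
          rcases le_total n j with hj | hj
          · exact (hn j hj).le
          · exact (hm hj).trans (hn n le_rfl).le
        refine ⟨n + 1, fun j => if j ≤ n then F j else C, ?_, ?_, ?_, ?_⟩
        · intro i j hij
          change (if i ≤ n then F i else C) ≤ if j ≤ n then F j else C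
          by_cases hj : j ≤ n
          · rw [if_pos hj, if_pos (hij.trans hj)]
            exact hm hij
          · rw [if_neg hj]
            split_ifs
            · exact (hle i).trans hBC
            · exact le_rfl
        · change (if 0 ≤ n then F 0 else C) = ⊥
          rw [if_pos (Nat.zero_le n), h0]
        · intro j hj
          change (if j ≤ n then F j else C) = _
          rw [if_neg (by omega)]
        · intro j
          change ∃ lam : H →* Kˣ, (∀ g, lam g ∈ Λ) ∧ ∀ g,
            ∀ y ∈ (if j + 1 ≤ n then F (j + 1) else C),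
              ρ g y - (lam g : K) • y ∈ if j ≤ n then F j else C
          rcases lt_trichotomy j n with hj | hj | hj
          · rw [if_pos (Nat.succ_le_of_lt hj), if_pos hj.le]
            exact hq j
          · subst hj
            rw [if_neg (by omega), if_pos le_rfl, hn j le_rfl]
            exact ⟨lam, hl, h1⟩
          · rw [if_neg (by omega), if_neg (by omega)]
            refine ⟨1, fun _ => one_mem _, fun g y hy => ?_⟩
            exact sub_mem (hC g y hy) (smul_mem _ _ hy)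
    obtain ⟨n, F, hm, h0, hn, hq⟩ := key ⊤ h
    exact ⟨n, F, hm, h0, hn n le_rfl, hq⟩

theorem Tri.mono {Λ' : Subgroup Kˣ} (hΛ : Λ ≤ Λ') (h : Tri Λ ρ) : Tri Λ' ρ := by
  rw [tri_iff] at h ⊢
  exact lft id (fun A B ⟨hle, lam, hl, h1⟩ => ⟨hle, lam, fun g => hΛ (hl g), h1⟩) h

/-- restriction along a homomorphism -/
theorem Tri.comp {H' : Type} [Group H'] (φ : H' →* H) (h : Tri Λ ρ) : Tri Λ (ρ.comp φ) := by
  rw [tri_iff] at h ⊢
  exact lft id (fun A B ⟨hle, lam, hl, h1⟩ =>
    ⟨hle, lam.comp φ, fun g => hl (φ g), fun g => h1 (φ g)⟩) h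

/-- the trivial modules -/
theorem tri_one : Tri Λ (1 : H →* Module.End K N) := by
  rw [tri_iff]
  refine ReflTransGen.single ⟨bot_le, 1, fun _ => one_mem _, fun g y _ => ?_⟩
  rw [mem_bot, MonoidHom.one_apply, MonoidHom.one_apply, Units.val_one, one_smul,
    Module.End.one_apply, sub_self]

/-- modules, on which `g` is the multiplication with `lam g` -/
theorem tri_scal {lam : H →* Kˣ} (hl : ∀ g, lam g ∈ Λ) (h : ∀ g y, ρ g y = (lam g : K) • y) :
    Tri Λ ρ := by
  rw [tri_iff]
  refine ReflTransGen.single ⟨bot_le, lam, hl, fun g y _ => ?_⟩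
  rw [mem_bot, h, sub_self]

theorem tri_ch {χ : H →* Kˣ} (hl : ∀ g, χ g ∈ Λ) : Tri Λ (ch χ) := by
  refine tri_scal hl fun g y => ?_
  unfold ch tw
  simp

/-- the twist by a character with values in `Λ` -/
theorem Tri.tw {χ : H →* Kˣ} (hl : ∀ g, χ g ∈ Λ) (h : Tri Λ ρ) : Tri Λ (tw χ ρ) := by
  rw [tri_iff] at h ⊢
  refine lft id (fun A B ⟨hle, lam, hl', h1⟩ => ⟨hle, χ * lam, fun g =>
    mul_mem (hl g) (hl' g), fun g y hy => ?_⟩) h
  have e : Pool.Agent.S9.tw χ ρ g y - (((χ * lam) g : Kˣ) : K) • y =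
      (χ g : K) • (ρ g y - (lam g : K) • y) := by
    rw [MonoidHom.mul_apply, Units.val_mul, mul_smul, smul_sub]
    rfl
  rw [e]
  exact smul_mem _ _ (h1 g y hy)

/-- submodules -/
theorem Tri.of_inj (L : N' →ₗ[K] N) (hL : Function.Injective L)
    (hc : ∀ g y, L (ρ' g y) = ρ g (L y)) (h : Tri Λ ρ) : Tri Λ ρ' := by
  rw [tri_iff] at h ⊢
  have h1 : ReflTransGen (Stp Λ ρ') ((⊥ : Submodule K N).comap L) ((⊤ : Submodule K N).comap L) := by
    refine lft (Submodule.comap L) (fun A B ⟨hle, lam, hl, h1⟩ =>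
      ⟨comap_mono hle, lam, hl, fun g y hy => ?_⟩) h
    rw [mem_comap, map_sub, map_smul, hc]
    exact h1 g _ hy
  rwa [comap_top, comap_bot, LinearMap.ker_eq_bot.2 hL] at h1

/-- quotients -/
theorem Tri.of_surj (L : N →ₗ[K] N') (hL : Function.Surjective L)
    (hc : ∀ g y, L (ρ g y) = ρ' g (L y)) (h : Tri Λ ρ) : Tri Λ ρ' := by
  rw [tri_iff] at h ⊢
  have h1 : ReflTransGen (Stp Λ ρ') ((⊥ : Submodule K N).map L) ((⊤ : Submodule K N).map L) := by
    refine lft (Submodule.map L) (fun A B ⟨hle, lam, hl, h1⟩ =>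
      ⟨Submodule.map_mono hle, lam, hl, ?_⟩) h
    rintro g _ ⟨y, hy, rfl⟩
    rw [← hc, ← map_smul, ← map_sub]
    exact mem_map_of_mem (h1 g y hy)
  rwa [Submodule.map_bot, Submodule.map_top, LinearMap.range_eq_top.2 hL] at h1

/-- extensions -/
theorem Tri.of_exact (L : N' →ₗ[K] N) (M : N →ₗ[K] N'') (hex : ∀ y, M y = 0 → ∃ x, L x = y)
    (hL : ∀ g y, L (ρ' g y) = ρ g (L y)) (hM : ∀ g y, M (ρ g y) = ρ'' g (M y)) (h' : Tri Λ ρ')
    (h'' : Tri Λ ρ'') : Tri Λ ρ := by
  rw [tri_iff] at h' h'' ⊢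
  have hst : ∀ g, ∀ y ∈ LinearMap.range L, ρ g y ∈ LinearMap.range L := by
    rintro g _ ⟨x, rfl⟩
    exact ⟨ρ' g x, hL g x⟩
  have h1 : ReflTransGen (Stp Λ ρ) ((⊥ : Submodule K N').map L) ((⊤ : Submodule K N').map L) := by
    refine lft (Submodule.map L) (fun A B ⟨hle, lam, hl, h1⟩ =>
      ⟨Submodule.map_mono hle, lam, hl, ?_⟩) h'
    rintro g _ ⟨y, hy, rfl⟩
    rw [← hL, ← map_smul, ← map_sub]
    exact mem_map_of_mem (h1 g y hy)
  have h2 : ReflTransGen (Stp Λ ρ) (LinearMap.range L ⊔ (⊥ : Submodule K N'').comap M)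
      (LinearMap.range L ⊔ (⊤ : Submodule K N'').comap M) := by
    refine lft (fun A => LinearMap.range L ⊔ Submodule.comap M A)
      (fun A B ⟨hle, lam, hl, h1⟩ => ⟨sup_le_sup_left (comap_mono hle) _, lam, hl, ?_⟩) h''
    intro g y hy
    obtain ⟨a, ha, b, hb, rfl⟩ := mem_sup.1 hy
    have e : ρ g (a + b) - (lam g : K) • (a + b) =
        (ρ g a - (lam g : K) • a) + (ρ g b - (lam g : K) • b) := by
      rw [map_add, smul_add]
      abel
    rw [e]
    refine add_mem (mem_sup_left (sub_mem (hst g a ha) (smul_mem _ _ ha))) (mem_sup_right ?_)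
    rw [mem_comap, map_sub, map_smul, hM]
    exact h1 g _ hb
  have e1 : LinearMap.range L ⊔ (⊥ : Submodule K N'').comap M = (⊤ : Submodule K N').map L := by
    rw [Submodule.map_top, sup_eq_left]
    intro y hy
    obtain ⟨x, hx⟩ := hex y hy
    exact ⟨x, hx⟩
  rw [Submodule.map_bot] at h1
  rw [e1, comap_top, sup_top_eq] at h2
  exact h1.trans h2

/-- a module `ρ'` on the same space as the triangular module `ρ`, which agrees with `ρ` on the quotients of a filtration
`G` by submodules which are stable under `ρ`, is triangular -/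
theorem Tri.perturb {ρ₁ : H →* Module.End K N} (n : ℕ) (G : ℕ → Submodule K N) (hm : Monotone G)
    (h0 : G 0 = ⊥) (hn : G n = ⊤) (hst : ∀ j g, ∀ y ∈ G j, ρ g y ∈ G j)
    (hq : ∀ j, ∀ g, ∀ y ∈ G (j + 1), ρ₁ g y - ρ g y ∈ G j) (h : Tri Λ ρ) : Tri Λ ρ₁ := by
  rw [tri_iff] at h ⊢
  have hst' : ∀ j g, ∀ y ∈ G j, ρ₁ g y ∈ G j := by
    intro j g y hy
    cases j with
    | zero =>
      rw [h0, mem_bot] at hy ⊢
      rw [hy, map_zero]
    | succ j =>
      have h1 := add_mem (hm (Nat.le_succ j) (hq j g y hy)) (hst _ g y hy)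
      rwa [sub_add_cancel] at h1
  have key : ∀ j, ReflTransGen (Stp Λ ρ₁) ⊥ (G j) := by
    intro j
    induction j with
    | zero => rw [h0]
    | succ j ih =>
      refine ih.trans ?_
      have h2 : ReflTransGen (Stp Λ ρ₁) (G j ⊔ (G (j + 1) ⊓ ⊥)) (G j ⊔ (G (j + 1) ⊓ ⊤)) := by
        refine lft (fun A => G j ⊔ (G (j + 1) ⊓ A)) (fun A B ⟨hle, lam, hl, h1⟩ =>
          ⟨sup_le_sup_left (inf_le_inf_left _ hle) _, lam, hl, ?_⟩) h
        intro g y hy
        obtain ⟨a, ha, b, hb, rfl⟩ := mem_sup.1 hy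
        have e : ρ₁ g (a + b) - (lam g : K) • (a + b) =
            (ρ₁ g a - (lam g : K) • a) + (ρ₁ g b - ρ g b) + (ρ g b - (lam g : K) • b) := by
          rw [map_add, smul_add]
          abel
        rw [e]
        refine add_mem (add_mem (mem_sup_left (sub_mem (hst' j g a ha) (smul_mem _ _ ha)))
          (mem_sup_left (hq j g b hb.1))) (mem_sup_right ⟨?_, h1 g b hb.2⟩)
        exact sub_mem (hst _ g b hb.1) (smul_mem _ _ hb.1)
      rwa [inf_bot_eq, sup_bot_eq, inf_top_eq, sup_eq_right.2 (hm (Nat.le_succ j))] at h2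
  rw [← hn]
  exact key n

/-- **Bilinear maps**: an equivariant bilinear map whose values span the target -/
theorem Tri.of_bilin (β : N →ₗ[K] N' →ₗ[K] N'') (hβ : ∀ g x y, ρ'' g (β x y) = β (ρ g x) (ρ' g y))
    (hs : map₂ β ⊤ ⊤ = ⊤) (h : Tri Λ ρ) (h' : Tri Λ ρ') : Tri Λ ρ'' := by
  rw [tri_iff] at h h' ⊢
  have key : ∀ A B, Stp Λ ρ A B → ReflTransGen (Stp Λ ρ'') (map₂ β A ⊤) (map₂ β B ⊤) := by
    intro A B hAB
    have hA := hAB.left
    obtain ⟨hle, lam, hl, h1⟩ := hAB
    have h2 : ReflTransGen (Stp Λ ρ'') (map₂ β A ⊤ ⊔ map₂ β B ⊥) (map₂ β A ⊤ ⊔ map₂ β B ⊤) := by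
      refine lft (fun C => map₂ β A ⊤ ⊔ map₂ β B C) (fun C D ⟨hCD, mu, hmu, h3⟩ =>
        ⟨sup_le_sup_left (map₂_le_map₂_right hCD) _, lam * mu, fun g => mul_mem (hl g) (hmu g), ?_⟩) h'
      intro g
      have h4 : map₂ β A ⊤ ⊔ map₂ β B D ≤
          (map₂ β A ⊤ ⊔ map₂ β B C).comap (ρ'' g - (((lam * mu) g : Kˣ) : K) • LinearMap.id) := by
        refine sup_le ?_ ?_
        · rw [map₂_le]
          intro a ha y _
          rw [mem_comap, LinearMap.sub_apply, LinearMap.smul_apply, LinearMap.id_apply, hβ]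
          exact mem_sup_left (sub_mem (apply_mem_map₂ _ (hA g a ha) mem_top)
            (smul_mem _ _ (apply_mem_map₂ _ ha mem_top)))
        · rw [map₂_le]
          intro b hb y hy
          rw [mem_comap, LinearMap.sub_apply, LinearMap.smul_apply, LinearMap.id_apply, hβ]
          have e : β (ρ g b) (ρ' g y) - (((lam * mu) g : Kˣ) : K) • β b y =
              β (ρ g b - (lam g : K) • b) (ρ' g y) +
                β ((lam g : K) • b) (ρ' g y - (mu g : K) • y) := by
            rw [MonoidHom.mul_apply, Units.val_mul, mul_smul, map_sub, map_sub,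
              LinearMap.sub_apply, map_smul β, LinearMap.smul_apply, LinearMap.smul_apply, map_smul,
              sub_add_sub_cancel]
          rw [e]
          exact add_mem (mem_sup_left (apply_mem_map₂ _ (h1 g b hb) mem_top))
            (mem_sup_right (apply_mem_map₂ _ (smul_mem _ _ hb) (h3 g y hy)))
      intro y hy
      exact h4 hy
    rwa [map₂_bot_right, sup_bot_eq, sup_eq_right.2 (map₂_le_map₂_left hle)] at h2
  have h5 : ∀ B, ReflTransGen (Stp Λ ρ) ⊥ B → ReflTransGen (Stp Λ ρ'') ⊥ (map₂ β B ⊤) := by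
    intro B hB
    induction hB with
    | refl => rw [map₂_bot_left]
    | tail _ hbc ih => exact ih.trans (key _ _ hbc)
  rw [← hs]
  exact h5 ⊤ h

open TensorProduct in
/-- tensor products -/
theorem Tri.tprod (h : Tri Λ ρ) (h' : Tri Λ ρ') :
    Tri Λ (Representation.tprod (k := K) (G := H) ρ ρ' : H →* Module.End K (N ⊗[K] N')) := by
  refine Tri.of_bilin (TensorProduct.mk K N N') (fun g x y => ?_) ?_ h h'
  · rfl
  · rw [TensorProduct.map₂_mk_top_top_eq_top]

/-- spaces of linear maps, the general form -/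
theorem Tri.of_hom (L : N'' →ₗ[K] (N →ₗ[K] N')) (hi : Function.Injective L)
    (hL : ∀ g x y, L (ρ'' g x) (ρ g y) = ρ' g (L x y)) (h : Tri Λ ρ) (h' : Tri Λ ρ') : Tri Λ ρ'' := by
  rw [tri_iff] at h h' ⊢
  have hL' : ∀ g x y, L (ρ'' g x) y = ρ' g (L x (ρ g⁻¹ y)) := by
    intro g x y
    rw [← hL, ← Module.End.mul_apply, ← map_mul, mul_inv_cancel, map_one, Module.End.one_apply]
  -- the maps which are zero on `A` and map `B` to `C`
  let Z : Submodule K N → Submodule K N → Submodule K N' → Submodule K N'' := fun A B C =>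
    { carrier := {x | (∀ a ∈ A, L x a = 0) ∧ ∀ b ∈ B, L x b ∈ C}
      zero_mem' := ⟨fun a _ => by rw [map_zero, LinearMap.zero_apply],
        fun b _ => by rw [map_zero, LinearMap.zero_apply]; exact zero_mem _⟩
      add_mem' := fun {x y} hx hy => ⟨fun a ha => by
        rw [map_add, LinearMap.add_apply, hx.1 a ha, hy.1 a ha, add_zero], fun b hb => by
        rw [map_add, LinearMap.add_apply]
        exact add_mem (hx.2 b hb) (hy.2 b hb)⟩
      smul_mem' := fun c x hx => ⟨fun a ha => by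
        rw [map_smul, LinearMap.smul_apply, hx.1 a ha, smul_zero], fun b hb => by
        rw [map_smul, LinearMap.smul_apply]
        exact smul_mem _ _ (hx.2 b hb)⟩ }
  have key : ∀ A B, Stp Λ ρ A B → ReflTransGen (Stp Λ ρ'') (Z B B ⊥) (Z A A ⊥) := by
    intro A B hAB
    have hA := hAB.left
    have hB := hAB.right
    obtain ⟨hle, lam, hl, h1⟩ := hAB
    have h2 : ReflTransGen (Stp Λ ρ'') (Z A B ⊥) (Z A B ⊤) := by
      refine lft (fun C => Z A B C) (fun C D ⟨hCD, mu, hmu, h3⟩ =>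
        ⟨fun x hx => ⟨hx.1, fun b hb => hCD (hx.2 b hb)⟩, mu * lam⁻¹,
          fun g => mul_mem (hmu g) (inv_mem (hl g)), ?_⟩) h'
      intro g x hx
      refine ⟨fun a ha => ?_, fun b hb => ?_⟩
      · rw [map_sub, map_smul, LinearMap.sub_apply, LinearMap.smul_apply, hL', hx.1 a ha,
          hx.1 _ (hA _ a ha), map_zero, smul_zero, sub_zero]
      · have e : (L (ρ'' g x - (((mu * lam⁻¹) g : Kˣ) : K) • x)) b =
            ρ' g (L x (ρ g⁻¹ b - (lam g⁻¹ : K) • b)) +
              (lam g⁻¹ : K) • (ρ' g (L x b) - (mu g : K) • L x b) := by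
          rw [map_sub, map_smul, LinearMap.sub_apply, LinearMap.smul_apply, hL', map_sub, map_smul,
            map_sub, map_smul, smul_sub, smul_smul, MonoidHom.mul_apply, MonoidHom.inv_apply,
            Units.val_mul, ← map_inv lam, mul_comm (mu g : K), sub_add_sub_cancel]
        rw [e, hx.1 _ (h1 g⁻¹ b hb), map_zero, zero_add]
        exact smul_mem _ _ (h3 g _ (hx.2 b hb))
    have e1 : Z A B ⊥ = Z B B ⊥ := by
      refine le_antisymm (fun x hx => ⟨fun b hb => ?_, hx.2⟩) fun x hx => ⟨fun a ha => hx.1 a (hle ha),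
        hx.2⟩
      exact (mem_bot K).1 (hx.2 b hb)
    have e2 : Z A B ⊤ = Z A A ⊥ := by
      refine le_antisymm (fun x hx => ⟨hx.1, fun a ha => ?_⟩) fun x hx => ⟨hx.1, fun b _ => mem_top⟩
      rw [hx.1 a ha]
      exact zero_mem _
    rwa [e1, e2] at h2
  have h5 : ∀ B, ReflTransGen (Stp Λ ρ) ⊥ B → ReflTransGen (Stp Λ ρ'') (Z B B ⊥) (Z ⊥ ⊥ ⊥) := by
    intro B hB
    induction hB with
    | refl => exact ReflTransGen.refl
    | tail _ hbc ih => exact (key _ _ hbc).trans ih
  have e3 : Z ⊤ ⊤ ⊥ = ⊥ := by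
    rw [eq_bot_iff]
    intro x hx
    rw [mem_bot]
    refine hi ?_
    rw [map_zero]
    refine LinearMap.ext fun y => ?_
    rw [hx.1 y mem_top, LinearMap.zero_apply]
  have e4 : Z ⊥ ⊥ ⊥ = ⊤ := by
    rw [eq_top_iff]
    intro x _
    refine ⟨fun a ha => ?_, fun a ha => ?_⟩ <;> rw [mem_bot] at ha <;> rw [ha, map_zero]
    exact zero_mem _
  have h6 := h5 ⊤ h
  rwa [e3, e4] at h6

/-- spaces of linear maps -/
theorem Tri.linHom (h : Tri Λ ρ) (h' : Tri Λ ρ') :
    Tri Λ (Representation.linHom (k := K) (G := H) ρ ρ' : H →* Module.End K (N →ₗ[K] N')) := by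
  refine Tri.of_hom LinearMap.id (fun _ _ h => h) (fun g x y => ?_) h h'
  rw [LinearMap.id_apply, LinearMap.id_apply]
  change ρ' g (x (ρ g⁻¹ (ρ g y))) = ρ' g (x y)
  rw [← Module.End.mul_apply, ← map_mul, inv_mul_cancel, map_one, Module.End.one_apply]

/-- dual modules -/
theorem Tri.dual (h : Tri Λ ρ) :
    Tri Λ (Representation.dual (k := K) (G := H) ρ : H →* Module.End K (Module.Dual K N)) := by
  refine Tri.of_hom (ρ' := 1) (LinearMap.id (R := K) (M := N →ₗ[K] K)) (fun _ _ h => h)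
    (fun g x y => ?_) h tri_one
  rw [LinearMap.id_apply, LinearMap.id_apply]
  change x (ρ g⁻¹ (ρ g y)) = x y
  rw [← Module.End.mul_apply, ← map_mul, inv_mul_cancel, map_one, Module.End.one_apply]

/-- finite products -/
theorem Tri.pi {ι : Type} [Finite ι] {M : ι → Type} [∀ i, AddCommGroup (M i)] [∀ i, Module K (M i)]
    {σ : ∀ i, H →* Module.End K (M i)} {τ : H →* Module.End K (∀ i, M i)}
    (hτ : ∀ g y i, τ g y i = σ i g (y i)) (h : ∀ i, Tri Λ (σ i)) : Tri Λ τ := by
  classical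
  have := Fintype.ofFinite ι
  rw [tri_iff]
  let Z : Finset ι → Submodule K (∀ i, M i) := fun s =>
    { carrier := {y | ∀ i, i ∉ s → y i = 0}
      zero_mem' := fun i _ => rfl
      add_mem' := fun {x y} hx hy i hi => by rw [Pi.add_apply, hx i hi, hy i hi, add_zero]
      smul_mem' := fun c x hx i hi => by rw [Pi.smul_apply, hx i hi, smul_zero] }
  have key : ∀ s, ReflTransGen (Stp Λ τ) ⊥ (Z s) := by
    intro s
    induction s using Finset.induction_on with
    | empty =>
      have : Z ∅ = ⊥ := by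
        rw [eq_bot_iff]
        intro y hy
        rw [mem_bot]
        funext i
        exact hy i (Finset.notMem_empty i)
      rw [this]
    | insert a s has ih =>
      refine ih.trans ?_
      have h1 := tri_iff.1 (h a)
      have hst : ∀ g, ∀ y ∈ Z (insert a s), τ g y ∈ Z (insert a s) := by
        intro g y hy i hi
        rw [hτ, hy i hi, map_zero]
      have h2 : ReflTransGen (Stp Λ τ) (Z (insert a s) ⊓ (⊥ : Submodule K (M a)).comap (LinearMap.proj a))
          (Z (insert a s) ⊓ (⊤ : Submodule K (M a)).comap (LinearMap.proj a)) := by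
        refine lft (fun A => Z (insert a s) ⊓ Submodule.comap (LinearMap.proj a) A)
          (fun A B ⟨hle, lam, hl, h1⟩ => ⟨inf_le_inf_left _ (comap_mono hle), lam, hl, ?_⟩) h1
        intro g y hy
        refine ⟨sub_mem (hst g y hy.1) (smul_mem _ _ hy.1), ?_⟩
        change τ g y a - (lam g : K) • y a ∈ A
        rw [hτ]
        exact h1 g _ hy.2
      have e1 : Z (insert a s) ⊓ (⊥ : Submodule K (M a)).comap (LinearMap.proj a) = Z s := by
        refine le_antisymm (fun y hy i hi => ?_) fun y hy => ⟨fun i hi => hy i fun h =>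
          hi (Finset.mem_insert_of_mem h), ?_⟩
        · by_cases hia : i = a
          · subst hia
            exact (mem_bot K).1 hy.2
          · exact hy.1 i fun h => (Finset.mem_insert.1 h).elim hia hi
        · exact (mem_bot K).2 (hy a has)
      rwa [e1, comap_top, inf_top_eq] at h2
  have : Z Finset.univ = ⊤ := by
    rw [eq_top_iff]
    intro y _ i hi
    exact absurd (Finset.mem_univ i) hi
  rw [← this]
  exact key _

theorem Tri.pow {ι : Type} [Finite ι] {τ : H →* Module.End K (ι → N)}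
    (hτ : ∀ g y i, τ g y i = ρ g (y i)) (h : Tri Λ ρ) : Tri Λ τ :=
  Tri.pi (σ := fun _ => ρ) hτ fun _ => h

theorem Tri.prod {τ : H →* Module.End K (N × N')} (hτ : ∀ g y, τ g y = (ρ g y.1, ρ' g y.2))
    (h : Tri Λ ρ) (h' : Tri Λ ρ') : Tri Λ τ := by
  refine Tri.of_exact (LinearMap.inl K N N') (LinearMap.snd K N N') (fun y hy => ⟨y.1, ?_⟩)
    (fun g y => ?_) (fun g y => ?_) h h'
  · rw [LinearMap.inl_apply]
    exact Prod.ext rfl hy.symm
  · rw [hτ, LinearMap.inl_apply, LinearMap.inl_apply, map_zero]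
  · rw [hτ, LinearMap.snd_apply, LinearMap.snd_apply]

end Chain

end Pool.Agent.S9
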