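/-
S9 (MP_ea75ba_gt), T2: integrality of the homology of the Davis complex.  helper27.
-/
import Pool.Agent.S9.Defs
import Pool.Agent.S9.IntAct

set_option autoImplicit false
set_option linter.unusedSectionVars false

open Finset

namespace Pool.Agent.S9

open Module

section Gen

variable {V : Type} [DecidableEq V] [Fintype V] {G : SimpleGraph V} {W : Type} [Group W]
  (R : Rac G W) {Γ : Subgroup W} [Γ.Normal] {A : Type} [CommGroup A]
  (ab : Γ →* A) (hab : Function.Surjective ab)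
  (hconj : ∀ (w : W) (γ : Γ), ab γ = 1 → ab (MulAut.conjNormal w γ) = 1)
  {K : Type} [Field K] [Algebra (MonoidAlgebra (ZMod 2) A) K]
  [IsFractionRing (MonoidAlgebra (ZMod 2) A) K]
  (χ : Γ →* Kˣ) (hχ : ∀ γ, (χ γ : K) =
    algebraMap (MonoidAlgebra (ZMod 2) A) K (MonoidAlgebra.single (ab γ) 1))

include hχ

theorem Cc_ch_equiv {k : ℕ} {c : Finset V → W → K} (hc : c ∈ Cc R Γ (ch χ) k)
    (B : Finset V) (γ : Γ) (w : W) : c B (γ * w) =
      algebraMap (MonoidAlgebra (ZMod 2) A) K (MonoidAlgebra.single (ab γ) 1) * c B w := by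
  rw [hc.2.2 B γ w, ← hχ]
  rfl

theorem Lact_Cc {k : ℕ} {c : Finset V → W → K} (hc : c ∈ Cc R Γ (ch χ) k) (g : W) :
    Lact ab hab hconj K (Finset V) g c ∈ Cc R Γ (ch χ) k := by
  refine ⟨fun B hB => hc.1 B fun h0 => hB ?_, fun B v hv w => ?_, fun B γ w => ?_⟩
  · funext w
    rw [Lact_apply, h0]
    exact map_zero _
  · rw [Lact_apply, Lact_apply, ← mul_assoc, hc.2.1 B v hv]
  · rw [Lact_equiv ab hab hconj g c (Cc_ch_equiv R ab χ hχ hc) B γ w, ← hχ]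
    rfl

omit hχ in
theorem Lact_bd (c : Finset V → W → K) (g : W) :
    bd K (Lact ab hab hconj K (Finset V) g c) = Lact ab hab hconj K (Finset V) g (bd K c) := by
  funext B w
  rw [bd_apply, Lact_apply, bd_apply, map_sum]
  rfl

include hab hconj in
theorem dvd_Zc [UniqueProds A] {Γ₀ : Subgroup W} (hle : Γ ≤ Γ₀)
    (hfi : Γ.relIndex Γ₀ ≠ 0)
    (N : Subgroup Γ₀) [N.Normal] (hN : ∀ g : Γ₀, g ∈ N ↔ ∃ h : (g : W) ∈ Γ, ab ⟨g, h⟩ = 1)
    [UniqueProds (Γ₀ ⧸ N)] (k : ℕ) :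
    Γ.relIndex Γ₀ ∣ finrank K (Zc R Γ (ch χ) k) := by
  refine index_dvd_stable ab hab hconj Γ₀ hle hfi N hN _
    (fun c hc => Cc_ch_equiv R ab χ hχ hc.1) (fun g _ c hc => ?_)
  refine ⟨Lact_Cc R ab hab hconj χ hχ hc.1 g, ?_⟩
  have h : bd K c = 0 := hc.2
  change bd K (Lact ab hab hconj K (Finset V) g c) = 0
  rw [Lact_bd, h, map_zero]

include hab hconj in
theorem dvd_Bc [UniqueProds A] {Γ₀ : Subgroup W} (hle : Γ ≤ Γ₀)
    (hfi : Γ.relIndex Γ₀ ≠ 0)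
    (N : Subgroup Γ₀) [N.Normal] (hN : ∀ g : Γ₀, g ∈ N ↔ ∃ h : (g : W) ∈ Γ, ab ⟨g, h⟩ = 1)
    [UniqueProds (Γ₀ ⧸ N)] (k : ℕ) :
    Γ.relIndex Γ₀ ∣ finrank K (Bc R Γ (ch χ) k) := by
  refine index_dvd_stable ab hab hconj Γ₀ hle hfi N hN _ ?_ (fun g _ c hc => ?_)
  · rintro _ ⟨c, hc, rfl⟩ B γ w
    rw [bd_apply, bd_apply, mul_sum]
    exact sum_congr rfl fun v _ => Cc_ch_equiv R ab χ hχ hc (insert v B) γ w
  · obtain ⟨d, hd, rfl⟩ := hc
    exact ⟨_, Lact_Cc R ab hab hconj χ hχ hd g, Lact_bd ab hab hconj d g⟩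

include hab hconj in
theorem dvd_hh [UniqueProds A] {Γ₀ : Subgroup W} (hle : Γ ≤ Γ₀)
    (hfi : Γ.relIndex Γ₀ ≠ 0)
    (N : Subgroup Γ₀) [N.Normal] (hN : ∀ g : Γ₀, g ∈ N ↔ ∃ h : (g : W) ∈ Γ, ab ⟨g, h⟩ = 1)
    [UniqueProds (Γ₀ ⧸ N)] (k : ℕ) :
    ((Γ.relIndex Γ₀ : ℕ) : ℤ) ∣ hh R Γ (ch χ) k := by
  unfold hh
  exact dvd_sub (Int.natCast_dvd_natCast.mpr (dvd_Zc R ab hab hconj χ hχ hle hfi N hN k))
    (Int.natCast_dvd_natCast.mpr (dvd_Bc R ab hab hconj χ hχ hle hfi N hN k))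

end Gen

section Fin

variable {V : Type} [DecidableEq V] [Fintype V] {G : SimpleGraph V} {W : Type} [Group W]

/-- **T2, final form**: `Γ` normal in `W`, `ab : Γ → ℤ^r` onto, all homomorphisms to the integers factor through `ab`,
`F` the field of fractions of the Laurent polynomials, `χ γ = t ^ (ab γ)`: the index of `Γ` in `Γ₀` divides the
dimension of the homology, if `Γ₀ / ker ab` has unique products -/
theorem int_hh (R : Rac G W) {Γ Γ₀ : Subgroup W} [Γ.Normal] (hle : Γ ≤ Γ₀)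
    (hfi : Γ.relIndex Γ₀ ≠ 0) {r : ℕ} (ab : Γ →* Multiplicative (Fin r → ℤ))
    (hab : Function.Surjective ab)
    (h0 : ∀ f : Γ →* Multiplicative ℤ, ∀ g, ab g = 1 → f g = 1)
    (N : Subgroup Γ₀) [N.Normal] (hN : ∀ g : Γ₀, g ∈ N ↔ ∃ h : (g : W) ∈ Γ, ab ⟨g, h⟩ = 1)
    [UniqueProds (Γ₀ ⧸ N)]
    (χ : Γ →* (FractionRing (AddMonoidAlgebra (ZMod 2) (Fin r → ℤ)))ˣ)
    (hχ : ∀ γ, (χ γ : FractionRing (AddMonoidAlgebra (ZMod 2) (Fin r → ℤ))) =
      algebraMap _ _ (AddMonoidAlgebra.single (Multiplicative.toAdd (ab γ)) (1 : ZMod 2)))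
    (k : ℕ) : ((Γ.relIndex Γ₀ : ℕ) : ℤ) ∣ hh R Γ (ch χ) k := by
  -- the kernel of `ab` is stable under the conjugations
  have hconj : ∀ (w : W) (γ : Γ), ab γ = 1 → ab (MulAut.conjNormal w γ) = 1 := by
    intro w γ hγ
    have key : ∀ i : Fin r, Multiplicative.toAdd (ab (MulAut.conjNormal w γ)) i = 0 := by
      intro i
      let p : Multiplicative (Fin r → ℤ) →* Multiplicative ℤ :=
        AddMonoidHom.toMultiplicative (Pi.evalAddMonoidHom (fun _ : Fin r => ℤ) i)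
      have := h0 ((p.comp ab).comp (MulAut.conjNormal w : MulAut Γ).toMonoidHom) γ hγ
      exact this
    apply Multiplicative.toAdd.injective
    funext i
    exact key i
  -- the ring isomorphism
  let e := AddMonoidAlgebra.toMultiplicative (ZMod 2) (Fin r → ℤ)
  let F := FractionRing (AddMonoidAlgebra (ZMod 2) (Fin r → ℤ))
  letI : Algebra (MonoidAlgebra (ZMod 2) (Multiplicative (Fin r → ℤ))) F :=
    ((algebraMap (AddMonoidAlgebra (ZMod 2) (Fin r → ℤ)) F).comp e.symm.toRingHom).toAlgebra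
  haveI : IsFractionRing (MonoidAlgebra (ZMod 2) (Multiplicative (Fin r → ℤ))) F := by
    have h1 := IsLocalization.isLocalization_of_base_ringEquiv
      (nonZeroDivisors (AddMonoidAlgebra (ZMod 2) (Fin r → ℤ))) F e
    have h2 : (nonZeroDivisors (AddMonoidAlgebra (ZMod 2) (Fin r → ℤ))).map e =
      nonZeroDivisors (MonoidAlgebra (ZMod 2) (Multiplicative (Fin r → ℤ))) :=
      MulEquivClass.map_nonZeroDivisors e
    rw [IsFractionRing, ← h2]
    exact h1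
  refine dvd_hh (K := F) R ab hab hconj χ (fun γ => ?_) hle hfi N hN k
  rw [hχ γ]
  change _ = algebraMap (AddMonoidAlgebra (ZMod 2) (Fin r → ℤ)) F
    (e.symm (MonoidAlgebra.single (ab γ) 1))
  congr 1
  rw [RingEquiv.eq_symm_apply]
  exact AddMonoidAlgebra.toMultiplicative_single _ _

end Fin

end Pool.Agent.S9
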