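import Pool.Agent.S9.IntHH
import Pool.Agent.S9.IntT
import Pool.Agent.S9.TLev

/-!
# Project S9, integrality: the result for the tower
-/

set_option autoImplicit false
set_option linter.unusedSectionVars false

open Finset

namespace Pool.Agent.S9

variable {V : Type} [DecidableEq V] [Fintype V] {G : SimpleGraph V} {W : Type} [Group W]

/-- **Integrality.** The index of `T R m` in `T R 0` divides the dimension of the homology with coefficients in the
tautological character. -/
theorem int_main (R : Rac G W) (m : ℕ) {r : ℕ} (ab : T R m →* Multiplicative (Fin r → ℤ))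
    (hab : Function.Surjective ab)
    (h0 : ∀ f : T R m →* Multiplicative ℤ, ∀ g, ab g = 1 → f g = 1)
    (χ : T R m →* (FractionRing (AddMonoidAlgebra (ZMod 2) (Fin r → ℤ)))ˣ)
    (hχ : ∀ γ, (χ γ : FractionRing (AddMonoidAlgebra (ZMod 2) (Fin r → ℤ))) =
      algebraMap _ _ (AddMonoidAlgebra.single (Multiplicative.toAdd (ab γ)) (1 : ZMod 2)))
    (k : ℕ) : (((T R m).relIndex (T R 0) : ℕ) : ℤ) ∣ hh R (T R m) (ch χ) k := by
  have hL := T_lev R m
  have hn : (T R m).Normal := hL.normal
  have hf : (T R m).FiniteIndex := hL.fin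
  have hkz : (kr (T R m)).Normal := inferInstanceAs (kz (T R m)).Normal
  -- the kernel
  have hN : ∀ g : T R m, (g : W) ∈ kr (T R m) ↔ ab g = 1 := by
    intro g
    constructor
    · rintro ⟨_, h1⟩
      apply Multiplicative.toAdd.injective
      funext i
      let p : Multiplicative (Fin r → ℤ) →* Multiplicative ℤ :=
        AddMonoidHom.toMultiplicative (Pi.evalAddMonoidHom (fun _ : Fin r => ℤ) i)
      exact h1 (p.comp ab)
    · intro h1
      exact ⟨g.2, fun f => h0 f g h1⟩
  have hup := up_quot R ab hN le_rfl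
  have hno : ((kr (T R m)).subgroupOf (T R 0)).Normal := inferInstance
  refine int_hh R (T_anti R (Nat.zero_le m)) ?_ ab hab h0 ((kr (T R m)).subgroupOf (T R 0)) ?_ χ hχ k
  · exact (Subgroup.instFiniteIndex_subgroupOf (T R m) (T R 0)).index_ne_zero
  · intro g
    rw [Subgroup.mem_subgroupOf]
    constructor
    · intro h1
      obtain ⟨h2, h3⟩ := h1
      exact ⟨h2, (hN ⟨g, h2⟩).1 ⟨h2, h3⟩⟩
    · rintro ⟨h2, h3⟩
      exact (hN ⟨g, h2⟩).2 h3

end Pool.Agent.S9
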