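import Pool.Agent.S9.IntT
import Pool.Agent.S9.Tow

/-!
# Project S9 / S10, integrality: the quotients of the tower over an arbitrary start have unique products
-/

set_option autoImplicit false
set_option linter.unusedSectionVars false

namespace Pool.Agent.S9

variable {W : Type} [Group W]

/-- **the quotients of the tower have unique products** -/
theorem up_twr {Φ N : Subgroup W} [N.Normal] {m : ℕ} (hN : N ≤ kz (twr Φ m))
    (h : UniqueProds ((twr Φ m).map (QuotientGroup.mk' N))) {l : ℕ} (hl : l ≤ m) :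
    UniqueProds ((twr Φ l).map (QuotientGroup.mk' N)) := by
  induction hl using Nat.decreasingInduction with
  | self => exact h
  | of_succ k hk ih =>
    exact up_map (hN.trans (kz_mono (twr_anti Φ hk.le)) : N ≤ kr (twr Φ k)) ih

/-- **the quotient of the start by the kernel of the last term has unique products** -/
theorem up_quot_twr {Φ N : Subgroup W} [N.Normal] {m : ℕ} {A : Type} [Group A] [UniqueProds A]
    (ab : twr Φ m →* A) (hN : ∀ g : twr Φ m, (g : W) ∈ N ↔ ab g = 1) (hN' : N ≤ kz (twr Φ m)) :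
    UniqueProds (Φ ⧸ N.subgroupOf Φ) := by
  have h1 : UniqueProds (Φ.map (QuotientGroup.mk' N)) :=
    up_twr hN' (up_last ab hN) (Nat.zero_le m)
  let p : Φ →* Φ.map (QuotientGroup.mk' N) := (QuotientGroup.mk' N).subgroupMap Φ
  have hk : N.subgroupOf Φ ≤ p.ker := by
    intro g hg
    exact Subtype.ext ((QuotientGroup.eq_one_iff (g : W)).2 (Subgroup.mem_subgroupOf.1 hg))
  let q : Φ ⧸ N.subgroupOf Φ →* Φ.map (QuotientGroup.mk' N) :=
    QuotientGroup.lift (N.subgroupOf Φ) p fun g hg => p.mem_ker.1 (hk hg)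
  refine UniqueProds.of_injective_mulHom (q : _ →ₙ* _) ?_ h1
  intro x y hxy
  rw [← inv_mul_eq_one]
  have h2 : q (x⁻¹ * y) = 1 := by
    rw [map_mul, map_inv]
    have : q x = q y := hxy
    rw [this, inv_mul_cancel]
  obtain ⟨g, hg⟩ := QuotientGroup.mk_surjective (x⁻¹ * y)
  rw [← hg] at h2 ⊢
  have h3 : (QuotientGroup.mk' N) (g : W) = 1 := congrArg Subtype.val h2
  exact (QuotientGroup.eq_one_iff g).2
    (Subgroup.mem_subgroupOf.2 ((QuotientGroup.eq_one_iff (g : W)).1 h3))

/-- The kernel of the coordinates of the last term is a normal subgroup of the whole group. -/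
theorem kz_eq {Γ : Subgroup W} {r : ℕ} (ab : Γ →* Multiplicative (Fin r → ℤ))
    (h0 : ∀ f : Γ →* Multiplicative ℤ, ∀ g, ab g = 1 → f g = 1) (g : Γ) :
    (g : W) ∈ kz Γ ↔ ab g = 1 := by
  constructor
  · rintro ⟨_, h1⟩
    apply Multiplicative.toAdd.injective
    funext i
    let p : Multiplicative (Fin r → ℤ) →* Multiplicative ℤ :=
      AddMonoidHom.toMultiplicative (Pi.evalAddMonoidHom (fun _ : Fin r => ℤ) i)
    exact h1 (p.comp ab)
  · intro h1
    exact ⟨g.2, fun f => h0 f g h1⟩

/-- **the form used by the integrality** -/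
theorem up_quot_kz {Φ : Subgroup W} [Φ.Normal] {m r : ℕ}
    (ab : twr Φ m →* Multiplicative (Fin r → ℤ))
    (h0 : ∀ f : twr Φ m →* Multiplicative ℤ, ∀ g, ab g = 1 → f g = 1) :
    UniqueProds (Φ ⧸ (kz (twr Φ m)).subgroupOf Φ) :=
  up_quot_twr ab (kz_eq ab h0) le_rfl

end Pool.Agent.S9
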