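import Pool.Agent.S9.U.Claim

/-!
# Project S9, block M: the algebraic step, in the form for manifolds
-/

set_option autoImplicit false
set_option linter.unusedSectionVars false

namespace Pool.Agent.S9

open Pool.Agent.S9.U

/-- **The algebraic step**: a symmetric form `b` on `N` with values in the dual of `E` is the symmetrisation of a
form on a larger module, with values in the dual of `E'`. -/
theorem alg_step {K : Type} [Field K] [CharP K 2] {Γ : Type} [Group Γ]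
    (χ : Γ →* Kˣ) {E N E' : Type} [AddCommGroup E] [Module K E]
    [FiniteDimensional K E] [AddCommGroup N] [Module K N] [FiniteDimensional K N] [AddCommGroup E']
    [Module K E'] [FiniteDimensional K E'] {rE : Γ →* Module.End K E} {rN : Γ →* Module.End K N}
    {rE' : Γ →* Module.End K E'} (hN : Tri (sqr χ) rN) (hE' : Tri (sqr χ) rE') (ι : E →ₗ[K] E')
    (hι : Function.Injective ι) (hιg : ∀ g e, ι (rE g e) = rE' g (ι e))
    (b : N →ₗ[K] N →ₗ[K] (E →ₗ[K] K)) (hsym : ∀ n n' e, b n n' e = b n' n e)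
    (hb : ∀ g n n' e, (χ g : K) ^ 2 * b (rN g n) (rN g n') (rE g e) = b n n' e) :
    ∃ (N₁ : Type) (_ : AddCommGroup N₁) (_ : Module K N₁) (_ : FiniteDimensional K N₁)
      (r₁ : Γ →* Module.End K N₁) (p : N₁ →ₗ[K] N)
      (E₁ : Type) (_ : AddCommGroup E₁) (_ : Module K E₁) (_ : FiniteDimensional K E₁)
      (rE₁ : Γ →* Module.End K E₁) (q : E' →ₗ[K] E₁)
      (bt : N₁ →ₗ[K] N₁ →ₗ[K] (E' →ₗ[K] K)) (b₁ : N₁ →ₗ[K] N₁ →ₗ[K] (E₁ →ₗ[K] K)),
      Tri (sqr χ) r₁ ∧ Tri (sqr χ) rE₁ ∧ Function.Surjective p ∧ (∀ g s, p (r₁ g s) = rN g (p s)) ∧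
      (∀ g e, q (rE' g e) = rE₁ g (q e)) ∧ (∀ e, q (ι e) = 0) ∧
      (∀ s s' e, bt s s' (ι e) = b (p s) (p s') e) ∧
      (∀ s s' e, b₁ s s' (q e) = bt s s' e + bt s' s e) ∧
      (∀ g s s' e, (χ g : K) ^ 2 * bt (r₁ g s) (r₁ g s') (rE' g e) = bt s s' e) ∧
      (∀ g s s' e, (χ g : K) ^ 2 * b₁ (r₁ g s) (r₁ g s') (rE₁ g e) = b₁ s s' e) ∧
      (∀ s s' e, b₁ s s' e = b₁ s' s e) := by
  have hx : ∀ g, (χ g : K) ^ 2 * (im2 χ g : K) = 1 := by
    intro g
    rw [im2_apply, Units.val_inv_eq_inv_val, Units.val_pow_eq_pow_val]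
    exact mul_inv_cancel₀ (pow_ne_zero 2 (χ g).ne_zero)
  have hb' : ∀ g n n' e, b (rN g n) (rN g n') (rE g e) = (im2 χ g : K) * b n n' e := by
    intro g n n' e
    rw [← hb g n n' e, ← mul_assoc, mul_comm (im2 χ g : K), hx, one_mul]
  obtain ⟨N₁, _, _, _, r₁, p, bt, h1, h2, h3, h4, h5⟩ :=
    ext_step χ rE rE' rN ι b hι hιg hb' hE' hN
  obtain ⟨b₁, hb₁⟩ := quo_form ι bt fun n n' e => by rw [h4, h4, hsym]
  have hR : ∀ g, ∀ e ∈ LinearMap.range ι, rE' g e ∈ LinearMap.range ι := by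
    rintro g _ ⟨e, rfl⟩
    exact ⟨rE g e, hιg g e⟩
  have h5' : ∀ g s s' e, (χ g : K) ^ 2 * bt (r₁ g s) (r₁ g s') (rE' g e) = bt s s' e := by
    intro g s s' e
    rw [h5, ← mul_assoc, hx, one_mul]
  refine ⟨N₁, inferInstance, inferInstance, inferInstance, r₁, p, E' ⧸ LinearMap.range ι,
    inferInstance, inferInstance, inferInstance, quoR rE' (LinearMap.range ι) hR,
    (LinearMap.range ι).mkQ, bt, b₁, h1, Tri.quo hE' _ hR, h2, h3, fun _ _ => rfl, fun e => ?_,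
    h4, hb₁, h5', ?_, ?_⟩
  · exact (Submodule.Quotient.mk_eq_zero _).2 ⟨e, rfl⟩
  · intro g s s' e
    obtain ⟨e, rfl⟩ := (LinearMap.range ι).mkQ_surjective e
    rw [quoR_mkQ, hb₁, hb₁, mul_add, h5', h5']
  · intro s s' e
    obtain ⟨e, rfl⟩ := (LinearMap.range ι).mkQ_surjective e
    rw [hb₁, hb₁, add_comm]

end Pool.Agent.S9
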