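import Pool.Agent.S9.MStk
import Pool.Agent.S9.UAlg

/-!
# Project S9, block M: the unstable relation with modules on a manifold
-/

set_option autoImplicit false
set_option linter.unusedSectionVars false

open Finset Pointwise

namespace Pool.Agent.S9

open Pool.Agent.H37.TM

variable {U Γ : Type} [DecidableEq U] [Group Γ] [MulAction Γ U] {M B : Set (Finset U)} {n : ℕ}
  {ht : U → ℕ} {C : Type} [MulAction Γ C] {K : Type} [Field K]

/-- equivariant relative cocycles with coefficients in `χ ⊗ ρ`, finite modulo `Γ` -/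
structure Rcc (M B : Set (Finset U)) (χ : Γ →* Kˣ) {N : Type} [AddCommGroup N] [Module K N]
    (ρ : Γ →* Module.End K N) (a : Finset U → N) : Prop where
  smul : ∀ (γ : Γ) (τ : Finset U), a (γ • τ) = tw χ ρ γ (a τ)
  sup : SupC Γ M B a
  emp : a ∅ = 0
  coc : ∀ τ ∈ M, cobM a τ = 0

theorem Rcc.map {χ : Γ →* Kˣ} {N : Type} [AddCommGroup N] [Module K N]
    {ρ : Γ →* Module.End K N} {a : Finset U → N} (h : Rcc M B χ ρ a) {N' : Type} [AddCommGroup N']
    [Module K N'] {ρ' : Γ →* Module.End K N'} (p : N →ₗ[K] N') (hp : ∀ g s, p (ρ g s) = ρ' g (p s)) :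
    Rcc M B χ ρ' fun τ => p (a τ) where
  smul γ τ := by
    rw [h.smul]
    show p ((χ γ : K) • ρ γ (a τ)) = (χ γ : K) • ρ' γ (p (a τ))
    rw [map_smul, hp]
  sup := h.sup.of_ne fun τ hτ => ⟨τ, Subset.refl τ, fun h0 => hτ (by rw [h0, map_zero])⟩
  emp := by rw [h.emp, map_zero]
  coc τ hτ := by
    have h1 := cobM_hom p.toAddMonoidHom a τ
    rw [h.coc τ hτ, map_zero] at h1
    exact h1

theorem Rcc.coc' {χ : Γ →* Kˣ} {N : Type} [AddCommGroup N] [Module K N]
    {ρ : Γ →* Module.End K N} {a : Finset U → N} (h : Rcc M B χ ρ a) (hM : Psm M B n) {τ : Finset U}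
    (hτ : τ ∈ M) : ∀ t ⊆ τ, cobM a t = 0 := by
  intro t ht'
  rcases t.eq_empty_or_nonempty with rfl | hne
  · exact sum_empty
  · exact h.coc t (hM.down τ hτ t ht' hne)

/-- the product of two equivariant cocycles is equivariant with values in the dual -/
theorem Rcc.dEq {χ : Γ →* Kˣ} {N : Type} [AddCommGroup N] [Module K N]
    {ρ : Γ →* Module.End K N} {a : Finset U → N} (h : Rcc M B χ ρ a) (hA : MAct Γ M B n ht)
    {E : Type} [AddCommGroup E] [Module K E] {rE : Γ →* Module.End K E}
    {b : N →ₗ[K] N →ₗ[K] (E →ₗ[K] K)}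
    (hb : ∀ g n n' e, (χ g : K) ^ 2 * b (ρ g n) (ρ g n') (rE g e) = b n n' e) (m : ℕ) :
    DEq rE (cupB ht m b a a) := by
  intro γ τ e
  unfold cupB
  rw [sum_powersetCard_smul, LinearMap.sum_apply, LinearMap.sum_apply]
  refine sum_congr rfl fun D _ => ?_
  rw [face1_smul fun u => hA.ht_smul γ u, face2_smul fun u => hA.ht_smul γ u, h.smul, h.smul]
  show b ((χ γ : K) • ρ γ (a (face1 ht D τ))) ((χ γ : K) • ρ γ (a (face2 ht D τ))) (rE γ e) = _
  rw [map_smul, map_smul, LinearMap.smul_apply, LinearMap.smul_apply, LinearMap.smul_apply,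
    smul_eq_mul, smul_eq_mul, ← mul_assoc, ← pow_two]
  exact hb γ _ _ e

theorem ITM_congr {E : Type} [AddCommGroup E] [Module K E] {f : U → C} {k : ℕ} {x : List C → E}
    {w w' : Finset U → (E →ₗ[K] K)} (h : ∀ τ ∈ M, τ.card = n + 1 → ∀ t ⊆ τ, w t = w' t) :
    ITM Γ M n ht f k x w = ITM Γ M n ht f k x w' := by
  classical
  unfold ITM
  congr 1
  funext τ
  split_ifs with hτ
  · exact gP_congr k _ (h τ hτ.1 hτ.2)
  · rfl

theorem ITM_comp {E E' : Type} [AddCommGroup E] [Module K E] [AddCommGroup E'] [Module K E']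
    (F : E →ₗ[K] E') {f : U → C} {k : ℕ} {x : List C → E} {x' : List C → E'}
    (hx : ∀ L : List C, L.length = k + 1 → x' L = F (x L))
    (w : Finset U → (E' →ₗ[K] K)) :
    ITM Γ M n ht f k x' w = ITM Γ M n ht f k x fun t => (w t).comp F := by
  classical
  unfold ITM
  congr 1
  funext τ
  split_ifs with hτ
  · rw [← gP_comp F k]
    exact gP_congr_left k _ _ fun l hl => hx _ (by rw [List.length_map, hl])
  · rfl

/-- **The unstable relation**: `m - 1` is the order of the product, `i + j = n`, `j < i` -/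
theorem claim [CharP K 2] (hM : Psm M B n) (hA : MAct Γ M B n ht) {f : U → C} (hf : IsVMap Γ f)
    (χ : Γ →* Kˣ) (hEff : EffT K Γ C (sqr χ)) {c : ℕ}
    (m : ℕ) : ∀ (_ : c + m ≤ n) (N : Type) [AddCommGroup N] [Module K N] [FiniteDimensional K N]
      (rN : Γ →* Module.End K N) (_ : Tri (sqr χ) rN) (E : Type) [AddCommGroup E] [Module K E]
      [FiniteDimensional K E] (rE : Γ →* Module.End K E) (_ : Tri (sqr χ) rE)
      (b : N →ₗ[K] N →ₗ[K] (E →ₗ[K] K)) (_ : ∀ n n' e, b n n' e = b n' n e)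
      (_ : ∀ g n n' e, (χ g : K) ^ 2 * b (rN g n) (rN g n') (rE g e) = b n n' e)
      (x : List C → E) (_ : ∀ L, x L ≠ 0 → L.length = c + m + 1) (_ : TEq rE x)
      (_ : ∀ L, dT x L = 0),
      ∃ (N' : Type) (_ : AddCommGroup N') (_ : Module K N') (_ : FiniteDimensional K N')
        (r' : Γ →* Module.End K N') (p : N' →ₗ[K] N), Tri (sqr χ) r' ∧ Function.Surjective p ∧
        (∀ g s, p (r' g s) = rN g (p s)) ∧
        ∀ a : Finset U → N', Rcc M B χ r' a →
          ITM Γ M n ht f (c + m) x (cupB ht m b (fun t => p (a t)) fun t => p (a t)) = 0 := by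
  induction m with
  | zero =>
    intro _ N _ _ _ rN hN E _ _ _ rE hE b hsym hb x hx1 hx2 hx3
    refine ⟨N, inferInstance, inferInstance, inferInstance, rN, LinearMap.id, hN, fun y => ⟨y, rfl⟩,
      fun _ _ => rfl, fun a ha => ?_⟩
    have h1 : (cupB ht 0 b (fun t => LinearMap.id (R := K) (a t)) fun t => LinearMap.id (R := K) (a t)) =
        fun _ => 0 := by
      funext t
      exact cupB_zero b _ ha.emp t
    rw [h1]
    classical
    unfold ITM
    have h2 : (fun τ : Finset U => if τ ∈ M ∧ τ.card = n + 1 then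
        gP ht (c + 0) (fun L => x (L.map f)) (fun _ => (0 : E →ₗ[K] K)) τ else 0) = fun _ => 0 := by
      funext τ
      split_ifs
      · by_contra h
        obtain ⟨t, _, h3⟩ := gP_ne_zero _ h
        exact h3 rfl
      · rfl
    rw [h2]
    unfold osum
    exact finsum_zero
  | succ m ih =>
    intro hcm N _ _ _ rN hN E _ _ _ rE hE b hsym hb x hx1 hx2 hx3
    obtain ⟨E', _, _, _, rE', ι, y, hE', hι, hιg, hy1, hy2, hy3⟩ := hEff (c + m) E rE hE x hx1 hx2 hx3
    obtain ⟨N₁, _, _, _, r₁, p, E₁, _, _, _, rE₁, q, bt, b₁, h1, h2, h3, h4, h5, h6, h7, h8, h9, h10,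
      h11⟩ := alg_step χ hN hE' ι hι hιg b hsym hb
    obtain ⟨N', _, _, _, r', p', g1, g2, g3, g4⟩ := ih (by omega) N₁ r₁ h1 E₁ rE₁ h2 b₁ h11 h10
      (fun L => q (y L)) (fun L hL => hy1 L fun h0 => hL (by
        show q (y L) = 0
        rw [h0, map_zero])) (fun γ L => by
        show q (y (L.map (γ • ·))) = rE₁ γ (q (y L))
        rw [hy2, h5]) (fun L => by
        have h12 := dT_hom q.toAddMonoidHom L y
        by_cases hL : L.length = c + m + 2
        · rw [hy3 L hL] at h12
          refine h12.trans ?_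
          exact h6 _
        · rw [show (fun L => q (y L)) = fun L => q.toAddMonoidHom (y L) from rfl, h12]
          rw [show dT y L = 0 from ?_, map_zero]
          refine (dT_congr L (y := fun _ => 0) fun l hl => ?_).trans (dT_zero L)
          by_contra h0
          exact hL (by have := hy1 l h0; omega))
    refine ⟨N', inferInstance, inferInstance, inferInstance, r', p.comp p', g1, h3.comp g2,
      fun g s => ?_, fun a ha => ?_⟩
    · show p (p' (r' g s)) = rN g (p (p' s))
      rw [g3, h4]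
    · have ha₁ : Rcc M B χ r₁ fun τ => p' (a τ) := ha.map p' g3
      have e1 : ITM Γ M n ht f (c + (m + 1)) x (cupB ht (m + 1) b (fun t => p.comp p' (a t))
          fun t => p.comp p' (a t)) = ITM Γ M n ht f (c + m + 1) (dT y)
            (cupB ht (m + 1) bt (fun t => p' (a t)) fun t => p' (a t)) := by
        rw [ITM_comp (x := x) (x' := dT y) ι (fun L hL => hy3 L hL)]
        refine ITM_congr fun τ _ _ t _ => ?_
        refine LinearMap.ext fun e => ?_
        unfold cupB
        rw [LinearMap.comp_apply, LinearMap.sum_apply, LinearMap.sum_apply]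
        exact sum_congr rfl fun D _ => (h7 _ _ e).symm
      have hdt : DEq rE' (cupB ht (m + 1) bt (fun t => p' (a t)) fun t => p' (a t)) :=
        ha₁.dEq hA h9 (m + 1)
      have hsup : SupC Γ M B (cupB ht (m + 1) bt (fun t => p' (a t)) fun t => p' (a t)) :=
        ha₁.sup.of_ne fun τ h => cupB_ne_zero h
      rw [e1, ITM_stokes hM hA hf hy2 hdt hsup (by omega)]
      refine Eq.trans ?_ (g4 a ha)
      rw [ITM_comp (x := y) (x' := fun L => q (y L)) q (fun L _ => rfl)]
      refine ITM_congr fun τ hτ _ t ht' => ?_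
      rw [cob_cupB m bt _ _ t ((hA.ht_inj τ hτ).mono (by exact_mod_cast ht'))
        (fun t' h' => ha₁.coc' hM hτ t' (h'.trans ht')) (fun t' h' => ha₁.coc' hM hτ t' (h'.trans ht'))]
      refine LinearMap.ext fun e => ?_
      unfold cupB
      rw [LinearMap.comp_apply, LinearMap.add_apply, LinearMap.sum_apply, LinearMap.sum_apply,
        LinearMap.sum_apply, ← sum_add_distrib]
      exact sum_congr rfl fun D _ => (h8 _ _ e).symm

end Pool.Agent.S9
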