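import Pool.Agent.S9.MTopG

/-!
# Project S9, block M: the end for a manifold, in terms of the cells of the cover
-/

set_option autoImplicit false
set_option linter.unusedSectionVars false

open Finset Pointwise

namespace Pool.Agent.S9

open Pool.Agent.H19.Cub Pool.Agent.H77.SX Pool.Agent.H37.TM Pool.Agent.S9.U Pool.Agent.S9.M

variable {V X U Γ : Type} [DecidableEq V] [DecidableEq U] [Group Γ] [MulAction Γ U]
  {Q : CubeComplex V X} {x₀ : X} [MulAction Γ (Q.Cover x₀)] {bit : X → V → ZMod 2}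
  {M B : Set (Finset U)} {n : ℕ} {ht : U → ℕ} {K : Type} [Field K] [Algebra (ZMod 2) K]

/-- the cell form of the lifting property -/
def LiftsC [Fintype V] (Γ : Type) [Group Γ] (Q : CubeComplex V X) (x₀ : X)
    [MulAction Γ (Q.Cover x₀)] (χ : Γ →* Kˣ) (i : ℕ) (z₀ : Q.Cover x₀ × Finset V → K) : Prop :=
  ∀ (N : Type) [AddCommGroup N] [Module K N] [FiniteDimensional K N] [Module (ZMod 2) N]
    (ρ : Γ →* Module.End K N) (π : N →ₗ[K] K), Tri (sqr χ) ρ → Function.Surjective π →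
    (∀ g y, π (ρ g y) = π y) →
    ∃ z : Q.Cover x₀ × Finset V → N, CycN Q x₀ i z ∧ (∀ (γ : Γ) e, z (γ • e) = tw χ ρ γ (z e)) ∧
      ∀ e, π (z e) = z₀ e

/-- **The end, for a pseudomanifold with a chain map to the complex of pairs.** -/
theorem m_psi [Fintype V] [Fintype X] [CharP K 2] (hbit : IsBit Q bit) (hΓ : IsDeck Γ Q x₀)
    (hM : Psm M B n) (hA : MAct Γ M B n ht) (hU : ∀ u : U, {u} ∈ M)
    {Ψ : Q.Cover x₀ × Finset V → (Finset U × Finset U →₀ ZMod 2)}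
    (hΨ : IsPsi Γ Q x₀ bit M B n Ψ) (χ : Γ →* Kˣ) (hEff : EffT K Γ (Q.Cover x₀) (sqr χ))
    {i j : ℕ} (hij : i + j = n) (hji : j < i)
    {z₀ : Q.Cover x₀ × Finset V → K} (hz : CycN Q x₀ i z₀)
    (hzg : ∀ (γ : Γ) e, z₀ (γ • e) = (χ γ : K) * z₀ e) (hl : LiftsC Γ Q x₀ χ i z₀)
    {x : List (Q.Cover x₀) → K} (hx : ∀ L, x L ≠ 0 → L.length = i + 1)
    (hxg : TEq (ch (im2 χ)) x) (hxd : ∀ L, dT x L = 0) :
    osum Γ (fun e : Q.Cover x₀ × Finset V => open Classical in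
      if e ∈ Cell Q x₀ bit i then lin x (TT Q x₀ e) * z₀ e ^ 2 else 0) = 0 := by
  classical
  obtain ⟨f, hf⟩ := exists_vmap (Q := Q) (x₀ := x₀) hA.sact hU
  obtain ⟨c, hc⟩ : ∃ c, i = c + (j + 1) := ⟨i - (j + 1), by omega⟩
  have hx2 : ∀ g, (χ g : K) ^ 2 * (im2 χ g : K) = 1 := by
    intro g
    rw [im2_apply, Units.val_inv_eq_inv_val, Units.val_pow_eq_pow_val]
    exact mul_inv_cancel₀ (pow_ne_zero 2 (χ g).ne_zero)
  obtain ⟨N', _, _, _, r', p, h1, h2, h3, h4⟩ := claim hM hA hf χ hEff (c := c) (j + 1) (by omega)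
    K 1 tri_one K (ch (im2 χ)) (tri_ch (im2_mem χ)) (TK K)
    (fun a a' e => by rw [TK_apply, TK_apply, mul_comm a a'])
    (fun g a a' e => by
      show (χ g : K) ^ 2 * (a * a' * ((im2 χ g : K) * e)) = a * a' * e
      rw [mul_left_comm (a * a'), ← mul_assoc, hx2, one_mul])
    x (fun L hL => by rw [hx L hL, hc]) hxg hxd
  let _ : Module (ZMod 2) N' := AddCommGroup.zmodModule (n := 2) fun y => by
    rw [← Nat.cast_smul_eq_nsmul K, CharP.cast_eq_zero, zero_smul]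
  obtain ⟨z, hz1, hz2, hz3⟩ := hl N' r' p h1 h2 fun g y => h3 g y
  obtain ⟨d, rfl⟩ : ∃ d, i = d + 1 := ⟨i - 1, by omega⟩
  obtain ⟨S, hS⟩ := aN_fin hΓ hM hA hΨ (d + 1)
  have ha : Rcc M B χ r' (aN Q x₀ bit (d + 1) Ψ z) :=
    { smul := fun γ τ => aN_smul hΓ hM hA hΨ (tw χ r' γ : N' →ₗ[K] N').toAddMonoidHom (hz2 γ) τ
      sup := ⟨S, fun τ hτ => ⟨τ, Subset.refl τ, (aN_rel hΓ hM hA hΨ z τ hτ).1,
        (aN_rel hΓ hM hA hΨ z τ hτ).2.1, hS N' _ _ z τ hτ⟩⟩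
      emp := aN_empty _ _ _
      coc := fun τ hτ => aN_cob hΓ hM hA hΨ hbit hz1 hτ }
  have h5 := h4 _ ha
  have h6 : (fun t => p (aN Q x₀ bit (d + 1) Ψ z t)) = aN Q x₀ bit (d + 1) Ψ z₀ := by
    funext t
    have h7 := aN_map hΓ hM hA hΨ p.toAddMonoidHom z t (d := d + 1)
    refine h7.symm.trans ?_
    congr 1
    exact funext hz3
  rw [h6, ← hc] at h5
  have h8 := M_top hbit hΓ hM hA hf hΨ χ hxd hxg (i := d + 1) (by omega) (by omega) hz hzg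
  rw [h8, show n + 1 - (d + 1) = j + 1 by omega]
  exact h5

/-- the end in the degrees above the dimension -/
theorem m_psi_gt [Fintype V] [Fintype X] [CharP K 2] (hbit : IsBit Q bit) (hΓ : IsDeck Γ Q x₀)
    (hM : Psm M B n) (hA : MAct Γ M B n ht) (hU : ∀ u : U, {u} ∈ M)
    {Ψ : Q.Cover x₀ × Finset V → (Finset U × Finset U →₀ ZMod 2)}
    (hΨ : IsPsi Γ Q x₀ bit M B n Ψ) (χ : Γ →* Kˣ)
    {i : ℕ} (hi : n < i)
    {z₀ : Q.Cover x₀ × Finset V → K} (hz : CycN Q x₀ i z₀)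
    (hzg : ∀ (γ : Γ) e, z₀ (γ • e) = (χ γ : K) * z₀ e)
    {x : List (Q.Cover x₀) → K}
    (hxg : TEq (ch (im2 χ)) x) (hxd : ∀ L, dT x L = 0) :
    osum Γ (fun e : Q.Cover x₀ × Finset V => open Classical in
      if e ∈ Cell Q x₀ bit i then lin x (TT Q x₀ e) * z₀ e ^ 2 else 0) = 0 := by
  obtain ⟨f, hf⟩ := exists_vmap (Q := Q) (x₀ := x₀) hA.sact hU
  exact M_top_gt hbit hΓ hM hA hf hΨ χ hxd hxg hi hz hzg

/-- **The end, for a homology manifold.** -/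
theorem m_mfd [Fintype V] [Fintype X] [CharP K 2] (hbit : IsBit Q bit) (hΓ : IsDeck Γ Q x₀)
    (hM : Mfd M B n) (hK : Acyc M) (hA : SAct Γ M B) (χ : Γ →* Kˣ)
    (hEff : EffT K Γ (Q.Cover x₀) (sqr χ)) {i : ℕ} (hi : n < 2 * i)
    {z₀ : Q.Cover x₀ × Finset V → K} (hz : CycN Q x₀ i z₀)
    (hzg : ∀ (γ : Γ) e, z₀ (γ • e) = (χ γ : K) * z₀ e) (hl : LiftsC Γ Q x₀ χ i z₀)
    {x : List (Q.Cover x₀) → K} (hx : ∀ L, x L ≠ 0 → L.length = i + 1)
    (hxg : TEq (ch (im2 χ)) x) (hxd : ∀ L, dT x L = 0) :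
    osum Γ (fun e : Q.Cover x₀ × Finset V => open Classical in
      if e ∈ Cell Q x₀ bit i then lin x (TT Q x₀ e) * z₀ e ^ 2 else 0) = 0 := by
  classical
  let iact : MulAction Γ (Sx M) :=
    { smul := fun g a => ⟨g • a.1, hA.K_mem g a.1 a.2⟩
      one_smul := fun a => Subtype.ext (one_smul Γ a.1)
      mul_smul := fun g h a => Subtype.ext (mul_smul g h a.1) }
  have hact : ∀ (g : Γ) (a : Sx M), (g • a).1 = g • a.1 := fun _ _ => rfl
  obtain ⟨Ψ, hΨ⟩ := exists_psi (Γ := Γ) (x₀ := x₀) (bit := bit) hbit hΓ (d := Fintype.card V)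
    (fun _ σ _ _ => card_le_univ σ) hM (hK.lt _) hA
  obtain ⟨φ, hφ, hφg⟩ := exists_phi hM.psm hact hA.free
  by_cases hin : n < i
  · exact m_psi_gt hbit hΓ (sd_psm hM.psm) (sd_mact hM.psm hact hA.B_mem hA.free) sd_singleton
      (sd_psi hM.psm hφ hact hφg hΨ) χ hin hz hzg hxg hxd
  exact m_psi hbit hΓ (sd_psm hM.psm) (sd_mact hM.psm hact hA.B_mem hA.free) sd_singleton
    (sd_psi hM.psm hφ hact hφg hΨ) χ hEff (i := i) (j := n - i) (by omega) (by omega) hz hzg hl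
    hx hxg hxd

end Pool.Agent.S9
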