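import Pool.Agent.S9.MG5
import Pool.Agent.H73.GC.Good
import Pool.Agent.H85.OK.Iso

/-!
# Project S9, block M: the `ℓ²`-homology
-/

set_option autoImplicit false
set_option linter.unusedSectionVars false

open Finset

namespace Pool.Agent.S9

open Pool.Agent.H73.GC Pool.Agent.H65.RM Pool.Agent.H77.SX Pool.Agent.H37.TM
open Pool.Agent.H4.Singer (RGrp)

/-- the vanishing of the growth gives the vanishing of the `ℓ²`-homology -/
theorem l2_of_gz {V : Type} [DecidableEq V] [Fintype V] {L : SimpleGraph V} {i : ℕ}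
    (h1 : GZ L univ i) : Pool.Agent.H4.Singer.L2HomologyZero L i := by
  have h2 := gz_racg h1
  let φ : L ≃g L.comap (Subtype.val : {w // w ∈ (univ : Finset V)} → V) :=
    { toFun := fun v => ⟨v, mem_univ v⟩
      invFun := fun w => w.1
      left_inv := fun _ => rfl
      right_inv := fun _ => rfl
      map_rel_iff' := Iff.rfl }
  exact Pool.Agent.H85.OK.l2_iso φ h2

/-- **All degrees above the middle, for all right-angled Coxeter groups which act properly on an acyclic homology
manifold.** -/
theorem l2_act {V : Type} [DecidableEq V] [Fintype V] {G : SimpleGraph V} {U : Type} [DecidableEq U]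
    [MulAction (RGrp G) U] {M B : Set (Finset U)} {n : ℕ} (hM : Mfd M B n) (hK : Acyc M)
    (hA : PAct (RGrp G) M B) {i : ℕ} (hi : n < 2 * i) :
    Pool.Agent.H4.Singer.L2HomologyZero G i := by
  obtain ⟨Γ, K, _, _, χ, hΓ, h1, h2⟩ := E_main (racR G) i
  exact l2_of_gz (h2 fun z₀ hz => M_main hM hK hA hi hΓ χ (G_main (racR G) hΓ K _) hz (h1 z₀ hz))

end Pool.Agent.S9
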