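import Pool.Agent.S9.MG1

/-!
# Project S9, block M: cochains of the cubes and cochains of the tuples

`zb A w` is the vertex of the coset `w W_A` whose bits vanish on the clique `A`; `Tst D k x` is the restriction of a
cochain `x` of the tuples to the cubes (along the monotone paths); `prE` is the pairing of a cubical cochain with the
chains of the augmented Davis complex.
-/

set_option autoImplicit false
set_option linter.unusedSectionVars false

open Finset

namespace Pool.Agent.S9

open Pool.Agent.H19.Cub Pool.Agent.H77.SX Pool.Agent.H77.SW Pool.Agent.H37.TM Pool.Agent.H37.MA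
open Pool.Agent.H4.Singer (RGrp gen exists_lift gen_mul_gen gen_inv gen_comm racg)

variable {V : Type} [DecidableEq V] [Fintype V] {G : SimpleGraph V}

/-! ### the vertex with the bits zero -/

private noncomputable def gW (G : SimpleGraph V) (C : Finset V) : RGrp G :=
  (C.toList.map (gen G)).prod

private theorem gW_empty : gW G ∅ = 1 := by
  simp [gW]

private theorem cl_comm {C : Finset V} (hC : G.IsClique (C : Set V)) {u v : V} (hu : u ∈ C)
    (hv : v ∈ C) : Commute (gen G u) (gen G v) := by
  by_cases h : u = v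
  · rw [h]
  · exact gen_comm G u v (hC (mem_coe.2 hu) (mem_coe.2 hv) h)

private theorem gW_insert {C : Finset V} {v : V} (hv : v ∉ C)
    (hC : G.IsClique ((insert v C : Finset V) : Set V)) : gW G (insert v C) = gen G v * gW G C := by
  unfold gW
  have h1 : ((insert v C).toList.map (gen G)).Perm ((v :: C.toList).map (gen G)) :=
    (Finset.toList_insert hv).map _
  rw [h1.prod_eq' ?_, List.map_cons, List.prod_cons]
  refine List.Pairwise.map _ (R := fun u w => Commute (gen G u) (gen G w)) (fun _ _ h => h) ?_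
  refine List.pairwise_of_forall_mem_list fun a ha b hb => ?_
  rw [Finset.mem_toList] at ha hb
  exact cl_comm hC ha hb

private theorem clique_sub {A B : Finset V} (h : G.IsClique (A : Set V)) (hB : B ⊆ A) :
    G.IsClique (B : Set V) := h.subset (by exact_mod_cast hB)

private theorem gW_erase {C : Finset V} {v : V} (hv : v ∈ C) (hC : G.IsClique (C : Set V)) :
    gW G C = gen G v * gW G (C.erase v) := by
  conv_lhs => rw [← insert_erase hv]
  exact gW_insert (notMem_erase v C) (by rwa [insert_erase hv])

theorem b_gen (w : RGrp G) (u v : V) :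
    (racR G).b (w * gen G u) v = (racR G).b w v + if u = v then 1 else 0 := by
  rw [(racR G).b_mul]
  congr 1
  exact (racR G).b_s u v

private theorem b_gW {C : Finset V} (hC : G.IsClique (C : Set V)) (w : RGrp G) (v : V) :
    (racR G).b (w * gW G C) v = (racR G).b w v + if v ∈ C then 1 else 0 := by
  induction C using Finset.induction_on generalizing w with
  | empty => simp [gW_empty]
  | insert a C ha ih =>
    rw [gW_insert ha hC, ← mul_assoc, ih (clique_sub hC (subset_insert _ _)), b_gen]
    by_cases h : a = v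
    · subst h
      rw [if_pos rfl, if_neg ha, if_pos (mem_insert_self _ _), add_zero]
    · rw [if_neg h, add_zero]
      congr 1
      by_cases h2 : v ∈ C
      · rw [if_pos h2, if_pos (mem_insert_of_mem h2)]
      · rw [if_neg h2, if_neg]
        intro h3
        rcases mem_insert.1 h3 with h4 | h4
        · exact h h4.symm
        · exact h2 h4

open Classical in
/-- the vertex of the coset `w W_A` with the bits zero on `A` -/
noncomputable def zb (A : Finset V) (w : RGrp G) : RGrp G :=
  w * gW G (A.filter fun v => (racR G).b w v ≠ 0)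

private theorem z2 {a : ZMod 2} (h : a ≠ 0) : a + 1 = 0 := by
  revert h
  revert a
  decide

theorem zb_bit {A : Finset V} (hA : G.IsClique (A : Set V)) (w : RGrp G) {v : V} (hv : v ∈ A) :
    (racR G).b (zb A w) v = 0 := by
  classical
  unfold zb
  rw [b_gW (clique_sub hA (filter_subset _ _))]
  by_cases h : (racR G).b w v = 0
  · have h1 : v ∉ A.filter fun v => (racR G).b w v ≠ 0 := fun h' => (mem_filter.1 h').2 h
    rw [if_neg h1, h, add_zero]
  · rw [if_pos (mem_filter.2 ⟨hv, h⟩)]
    exact z2 h

theorem zb_s {A : Finset V} (hA : G.IsClique (A : Set V)) {v : V} (hv : v ∈ A) (w : RGrp G) :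
    zb A (w * gen G v) = zb A w := by
  classical
  unfold zb
  by_cases h : (racR G).b w v = 0
  · have h1 : A.filter (fun u => (racR G).b (w * gen G v) u ≠ 0) =
        insert v (A.filter fun u => (racR G).b w u ≠ 0) := by
      ext u
      rw [mem_filter, mem_insert, mem_filter, b_gen]
      by_cases h2 : v = u
      · subst h2
        rw [if_pos rfl, h, zero_add]
        simp [hv]
      · rw [if_neg h2, add_zero]
        constructor
        · exact Or.inr
        · rintro (h3 | h3)
          · exact absurd h3.symm h2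
          · exact h3
    have h2 : v ∉ A.filter fun v => (racR G).b w v ≠ 0 := fun h' => (mem_filter.1 h').2 h
    rw [h1, gW_insert h2
      (clique_sub hA (insert_subset hv (filter_subset _ _))), mul_assoc, ← mul_assoc (gen G v),
      gen_mul_gen, one_mul]
  · have h1 : A.filter (fun u => (racR G).b (w * gen G v) u ≠ 0) =
        (A.filter fun u => (racR G).b w u ≠ 0).erase v := by
      ext u
      rw [mem_filter, mem_erase, mem_filter, b_gen]
      by_cases h2 : v = u
      · subst h2
        rw [if_pos rfl, z2 h]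
        simp
      · rw [if_neg h2, add_zero]
        constructor
        · exact fun h3 => ⟨Ne.symm h2, h3⟩
        · exact fun h3 => h3.2
    rw [h1, mul_assoc, ← gW_erase (mem_filter.2 ⟨hv, h⟩) (clique_sub hA (filter_subset _ _))]

theorem zb_mul {g : RGrp G} (hg : ∀ v, (racR G).b g v = 0) (A : Finset V) (w : RGrp G) :
    zb A (g * w) = g * zb A w := by
  classical
  unfold zb
  have h1 : (A.filter fun u => (racR G).b (g * w) u ≠ 0) = A.filter fun u => (racR G).b w u ≠ 0 := by
    refine filter_congr fun u _ => ?_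
    rw [(racR G).b_mul, hg, zero_add]
  rw [h1, mul_assoc]

theorem zb_of {A : Finset V} {w : RGrp G} (h : ∀ v ∈ A, (racR G).b w v = 0) : zb A w = w := by
  classical
  unfold zb
  have h1 : (A.filter fun u => (racR G).b w u ≠ 0) = ∅ := by
    rw [filter_eq_empty_iff]
    intro v hv h2
    exact h2 (h v hv)
  rw [h1, gW_empty, mul_one]

theorem zb_inv {X : Type} {A : Finset V} (hA : G.IsClique (A : Set V)) {f : RGrp G → X}
    (hf : ∀ v ∈ A, ∀ w, f (w * gen G v) = f w) (w : RGrp G) : f (zb A w) = f w := by
  classical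
  have h1 : ∀ B : Finset V, B ⊆ A → ∀ w, f (w * gW G B) = f w := by
    intro B
    induction B using Finset.induction_on with
    | empty =>
      intro _ w
      rw [gW_empty, mul_one]
    | insert a B ha ih =>
      intro hB w
      rw [gW_insert ha (clique_sub hA hB), ← mul_assoc, ih ((subset_insert _ _).trans hB)]
      exact hf a (hB (mem_insert_self _ _)) w
  exact h1 _ (filter_subset _ _) w

/-! ### the cells -/

variable {P : Type} [Group P] (D : PG G P)

theorem b_piP (w : RGrp G) (v : V) : D.b (piP D w) v = (racR G).b w v := by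
  have h1 : ∀ w : RGrp G, D.b (piP D w) v = (racR G).b w v → ∀ u,
      D.b (piP D (w * gen G u)) v = (racR G).b (w * gen G u) v := by
    intro w h u
    rw [map_mul, piP_gen, D.b_mul, D.b_g, b_gen, h]
  have h0 : D.b (1 : P) v = 0 := by
    have h2 := D.b_mul 1 1 v
    rw [mul_one] at h2
    exact left_eq_add.1 h2
  obtain ⟨ω, rfl⟩ := (racg G).toCoxeterSystem.wordProd_surjective w
  induction ω using List.reverseRecOn with
  | nil =>
    show D.b (piP D 1) v = (racR G).b 1 v
    rw [map_one, h0, (racR G).b_one]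
  | append_singleton ω u ih =>
    rw [(racg G).toCoxeterSystem.wordProd_append, (racg G).toCoxeterSystem.wordProd_singleton]
    exact h1 _ ih u

theorem b_ker (g : (piP D).ker) (v : V) : (racR G).b (g : RGrp G) v = 0 := by
  rw [← b_piP D, g.2, ← piP D |>.map_one, b_piP D, (racR G).b_one]

theorem cell_iff {k : ℕ} {e : (QP D).Cover 1 × Finset V} : e ∈ Cell (QP D) 1 D.b k ↔
    G.IsClique (e.2 : Set V) ∧ e.2.card = k ∧ ∀ v ∈ e.2, (racR G).b (cw D e.1) v = 0 := by
  constructor
  · rintro ⟨-, h1, h2, h3⟩
    refine ⟨h1, h2, fun v hv => ?_⟩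
    rw [← b_piP D, ← proj_cw]
    exact h3 v hv
  · rintro ⟨h1, h2, h3⟩
    refine ⟨subset_univ _, h1, h2, fun v hv => ?_⟩
    rw [proj_cw, b_piP]
    exact h3 v hv

theorem cel_mem {A : Finset V} (hA : G.IsClique (A : Set V)) (w : RGrp G) :
    ((cw D).symm (zb A w), A) ∈ Cell (QP D) 1 D.b A.card := by
  refine (cell_iff D).2 ⟨hA, rfl, fun v hv => ?_⟩
  rw [Equiv.apply_symm_apply]
  exact zb_bit hA w hv

theorem symm_mul (g : (piP D).ker) (w : RGrp G) :
    (cw D).symm ((g : RGrp G) * w) = g • (cw D).symm w := by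
  apply (cw D).injective
  rw [cw_smul', Equiv.apply_symm_apply, Equiv.apply_symm_apply]

theorem symm_gen (v : V) (w : RGrp G) :
    (cw D).symm (w * gen G v) = (QP D).nbc 1 v ((cw D).symm w) := by
  apply (cw D).injective
  rw [cw_nbc, Equiv.apply_symm_apply, Equiv.apply_symm_apply]

/-! ### the restriction of the cochains of the tuples -/

section Tst

variable {K : Type} [Field K] {E : Type} [AddCommGroup E] [Module K E] [Module (ZMod 2) E]

/-- a linear map over `K` is linear over `ZMod 2` -/
def zl {E' : Type} [AddCommGroup E'] [Module K E'] [Module (ZMod 2) E'] (u : E →ₗ[K] E') :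
    E →ₗ[ZMod 2] E' := u.toAddMonoidHom.toZModLinearMap 2

theorem zl_apply {E' : Type} [AddCommGroup E'] [Module K E'] [Module (ZMod 2) E']
    (u : E →ₗ[K] E') (y : E) : zl u y = u y := rfl

open Classical in
/-- the restriction of a cochain of the tuples to the cubes of dimension `k` -/
noncomputable def Tst (k : ℕ) (x : List ((QP D).Cover 1) → E) : Finset V → RGrp G → E :=
  fun A w => if G.IsClique (A : Set V) ∧ A.card = k then
    lin x (TT (QP D) 1 ((cw D).symm (zb A w), A)) else 0

theorem Tst_pos {k : ℕ} (x : List ((QP D).Cover 1) → E) {A : Finset V} (hA : G.IsClique (A : Set V))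
    (hk : A.card = k) (w : RGrp G) :
    Tst D k x A w = lin x (TT (QP D) 1 ((cw D).symm (zb A w), A)) := if_pos ⟨hA, hk⟩

theorem Tst_cell {k : ℕ} (x : List ((QP D).Cover 1) → E) {e : (QP D).Cover 1 × Finset V}
    (he : e ∈ Cell (QP D) 1 D.b k) : Tst D k x e.2 (cw D e.1) = lin x (TT (QP D) 1 e) := by
  obtain ⟨h1, h2, h3⟩ := (cell_iff D).1 he
  rw [Tst_pos D x h1 h2, zb_of h3, Equiv.symm_apply_apply]

theorem Tst_mem {k : ℕ} {x : List ((QP D).Cover 1) → E} {ρ : (piP D).ker →* Module.End K E}
    (hx : ∀ (g : (piP D).ker) L, x (L.map (g • ·)) = ρ g (x L)) :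
    Tst D k x ∈ Cc (racR G) (piP D).ker ρ k := by
  classical
  refine (mem_Cc _).2 ⟨fun A h => ?_, fun A v hv w => ?_, fun A g w => ?_⟩
  · by_contra h1
    apply h
    funext w
    exact if_neg h1
  · by_cases h : G.IsClique (A : Set V) ∧ A.card = k
    · rw [Tst_pos D x h.1 h.2, Tst_pos D x h.1 h.2]
      have h1 : zb A (w * (racR G).s v) = zb A w := zb_s h.1 hv w
      rw [h1]
    · exact (if_neg h).trans (if_neg h).symm
  · by_cases h : G.IsClique (A : Set V) ∧ A.card = k
    · rw [Tst_pos D x h.1 h.2, Tst_pos D x h.1 h.2, zb_mul (b_ker D g), symm_mul,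
        TT_smul (e := ((cw D).symm (zb A w), A)) (qp_deck D) (cel_mem D h.1 w) g, lin_map]
      have h1 : (fun L => x (List.map (g • ·) L)) = fun L => zl (ρ g) (x L) := funext fun L => hx g L
      rw [h1, ← map_lin]
      rfl
    · have h1 : Tst D k x A w = 0 := if_neg h
      rw [h1, map_zero]
      exact if_neg h

theorem cb_inv {N : Type} [AddCommGroup N] {c : Finset V → RGrp G → N}
    (hc : ∀ A, ∀ v ∈ A, ∀ w, c A (w * gen G v) = c A w) {A : Finset V} {v : V} (hv : v ∈ A)
    (w : RGrp G) : cb (racR G) c A (w * gen G v) = cb (racR G) c A w := by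
  classical
  unfold cb
  by_cases hA : G.IsClique (A : Set V)
  · rw [if_pos hA, if_pos hA]
    refine sum_congr rfl fun u hu => ?_
    show c (A.erase u) (w * gen G v) + c (A.erase u) (w * gen G v * gen G u) =
      c (A.erase u) w + c (A.erase u) (w * gen G u)
    by_cases h : v = u
    · subst h
      rw [mul_assoc, gen_mul_gen, mul_one, add_comm]
    · have h1 : v ∈ A.erase u := mem_erase.2 ⟨h, hv⟩
      rw [hc _ v h1, mul_assoc, gen_comm G v u (hA (mem_coe.2 hv) (mem_coe.2 hu) h), ← mul_assoc,
        hc _ v h1]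
  · rw [if_neg hA, if_neg hA]

theorem lin_bdD' {N : Type} [AddCommGroup N] [Module (ZMod 2) N]
    (F : (QP D).Cover 1 × Finset V → N) (e : (QP D).Cover 1 × Finset V) :
    lin F (bdD (QP D) 1 e) =
      ∑ v ∈ e.2, (F (e.1, e.2.erase v) + F ((QP D).nbc 1 v e.1, e.2.erase v)) := by
  rw [bdD, map_sum]
  exact sum_congr rfl fun v _ => by rw [map_add, lin_single, lin_single]

/-- the restriction commutes with the coboundaries -/
theorem cb_Tst (k : ℕ) (x : List ((QP D).Cover 1) → E) :
    cb (racR G) (Tst D k x) = Tst D (k + 1) (dT x) := by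
  classical
  have hc : ∀ A, ∀ v ∈ A, ∀ w, Tst D k x A (w * gen G v) = Tst D k x A w := by
    intro A v hv w
    by_cases h : G.IsClique (A : Set V) ∧ A.card = k
    · rw [Tst_pos D x h.1 h.2, Tst_pos D x h.1 h.2, zb_s h.1 hv]
    · exact (if_neg h).trans (if_neg h).symm
  funext A w
  by_cases hA : G.IsClique (A : Set V)
  · by_cases hk : A.card = k + 1
    · rw [Tst_pos D _ hA hk]
      rw [← zb_inv hA (f := fun w => cb (racR G) (Tst D k x) A w) (fun v hv w => cb_inv hc hv w) w]
      show cb (racR G) (Tst D k x) A (zb A w) = _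
      have he := cel_mem D hA w
      rw [hk] at he
      have h1 : (fun L => dT x L) = fun L => lin x (bdl L) := funext fun L => dT_eq x L
      have h2 : dT x = fun L => lin x (bdl L) := h1
      have h3 : lin (fun L => lin x (bdl L)) (TT (QP D) 1 ((cw D).symm (zb A w), A)) =
          lin x (BL (TT (QP D) 1 ((cw D).symm (zb A w), A))) := lin_lin
      rw [h2, h3, BL_TT he, if_neg (Nat.succ_ne_zero k), ← lin_lin, lin_bdD']
      unfold cb
      rw [if_pos hA]
      refine sum_congr rfl fun v hv => ?_
      have h4 : G.IsClique ((A.erase v : Finset V) : Set V) := clique_sub hA (erase_subset _ _)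
      have h5 : (A.erase v).card = k := by rw [card_erase_of_mem hv, hk]; rfl
      have h6 : zb (A.erase v) (zb A w) = zb A w := zb_of fun u hu =>
        zb_bit hA w (mem_of_mem_erase hu)
      have h7 : zb (A.erase v) (zb A w * (racR G).s v) = zb A w * gen G v := zb_of fun u hu => by
        obtain ⟨h8, h9⟩ := mem_erase.1 hu
        rw [racR_s, b_gen, zb_bit hA w h9, if_neg (Ne.symm h8), add_zero]
      rw [Tst_pos D x h4 h5, Tst_pos D x h4 h5, h6, h7, symm_gen]
    · have h1 : Tst D (k + 1) (dT x) A w = 0 := if_neg fun h => hk h.2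
      rw [h1]
      unfold cb
      rw [if_pos hA]
      refine sum_eq_zero fun v hv => ?_
      have h2 : ¬ (G.IsClique ((A.erase v : Finset V) : Set V) ∧ (A.erase v).card = k) := by
        rintro ⟨-, h3⟩
        apply hk
        rw [card_erase_of_mem hv] at h3
        have := card_pos.2 ⟨v, hv⟩
        omega
      have h3 : ∀ w, Tst D k x (A.erase v) w = 0 := fun w => if_neg h2
      rw [h3, h3, add_zero]
  · have h1 : Tst D (k + 1) (dT x) A w = 0 := if_neg fun h => hA h.1
    rw [h1]
    exact if_neg hA

end Tst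

/-! ### the pairing of a cubical cochain with the chains -/

section Pr

variable {K : Type} [Field K] {E : Type} [AddCommGroup E] [Module K E] [Module (ZMod 2) E]

open Classical in
/-- the value of a cubical cochain on a cell -/
noncomputable def prv (m : ℕ) (c : Finset V → RGrp G → E) :
    Option ((QP D).Cover 1 × Finset V) → E
  | none => 0
  | some e => if e ∈ Cell (QP D) 1 D.b m then c e.2 (cw D e.1) else 0

/-- the pairing of a cubical cochain with the chains -/
noncomputable def prE (m : ℕ) (c : Finset V → RGrp G → E) : NA D →ₗ[ZMod 2] E := lin (prv D m c)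

private theorem prv_some {m : ℕ} (c : Finset V → RGrp G → E) {e : (QP D).Cover 1 × Finset V}
    (he : e ∈ Cell (QP D) 1 D.b m) : prv D m c (some e) = c e.2 (cw D e.1) := if_pos he

theorem prE_single {m : ℕ} (c : Finset V → RGrp G → E) {e : (QP D).Cover 1 × Finset V}
    (he : e ∈ Cell (QP D) 1 D.b m) : prE D m c (Finsupp.single (some e) 1) = c e.2 (cw D e.1) := by
  unfold prE
  rw [lin_single, prv_some D c he]

theorem cell_smulK {m : ℕ} (g : (piP D).ker) {e : (QP D).Cover 1 × Finset V} :
    (g • e.1, e.2) ∈ Cell (QP D) 1 D.b m ↔ e ∈ Cell (QP D) 1 D.b m := by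
  rw [cell_iff, cell_iff]
  refine and_congr Iff.rfl (and_congr Iff.rfl (forall₂_congr fun v _ => ?_))
  show (racR G).b (cw D (g • e.1)) v = 0 ↔ _
  rw [cw_smul', (racR G).b_mul, b_ker, zero_add]

theorem prE_rho {m : ℕ} {c : Finset V → RGrp G → E} {ρ : (piP D).ker →* Module.End K E}
    (hc : ∀ A, ∀ g : (piP D).ker, ∀ w, c A (g * w) = ρ g (c A w)) (g : (piP D).ker) (y : NA D) :
    prE D m c (rhoA D g y) = ρ g (prE D m c y) := by
  classical
  unfold prE
  have h1 : rhoA D g y = y.mapDomain (Option.map fun e => (g • e.1, e.2)) := rfl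
  rw [h1, lin_map]
  have h2 : (fun a => prv D m c (Option.map (fun e => (g • e.1, e.2)) a)) =
      fun a => zl (ρ g) (prv D m c a) := by
    funext a
    cases a with
    | none => exact (map_zero _).symm
    | some e =>
      show (if (g • e.1, e.2) ∈ Cell (QP D) 1 D.b m then c e.2 (cw D (g • e.1)) else 0) =
        ρ g (if e ∈ Cell (QP D) 1 D.b m then c e.2 (cw D e.1) else 0)
      by_cases h : e ∈ Cell (QP D) 1 D.b m
      · rw [if_pos h, if_pos ((cell_smulK D g).2 h), cw_smul']
        exact hc _ _ _
      · rw [if_neg h, if_neg (fun h' => h ((cell_smulK D g).1 h')), map_zero]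
  rw [h2, ← map_lin]
  rfl

theorem face1 {m : ℕ} {e : (QP D).Cover 1 × Finset V}
    (he : e ∈ Cell (QP D) 1 D.b (m + 1)) {v : V} (hv : v ∈ e.2) :
    (e.1, e.2.erase v) ∈ Cell (QP D) 1 D.b m := by
  obtain ⟨h2, h3, h4⟩ := (cell_iff D).1 he
  refine (cell_iff D).2 ⟨clique_sub h2 (erase_subset _ _), ?_,
    fun u hu => h4 u (mem_of_mem_erase hu)⟩
  show (e.2.erase v).card = m
  rw [card_erase_of_mem hv, h3]
  rfl

theorem face2 {m : ℕ} {e : (QP D).Cover 1 × Finset V}
    (he : e ∈ Cell (QP D) 1 D.b (m + 1)) {v : V} (hv : v ∈ e.2) :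
    ((QP D).nbc 1 v e.1, e.2.erase v) ∈ Cell (QP D) 1 D.b m := by
  obtain ⟨h2, h3, h4⟩ := (cell_iff D).1 he
  refine (cell_iff D).2 ⟨clique_sub h2 (erase_subset _ _), ?_, fun u hu => ?_⟩
  · show (e.2.erase v).card = m
    rw [card_erase_of_mem hv, h3]
    rfl
  · obtain ⟨h5, h6⟩ := mem_erase.1 hu
    show (racR G).b (cw D ((QP D).nbc 1 v e.1)) u = 0
    rw [cw_nbc, b_gen, h4 u h6, if_neg (Ne.symm h5), add_zero]

/-- the pairing and the boundary -/
theorem prE_dA (m : ℕ) (c : Finset V → RGrp G → E) {y : NA D} (hy : y ∈ MA D (m + 2)) :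
    prE D m c (dA D y) = prE D (m + 1) (cb (racR G) c) y := by
  classical
  have h1 : prE D m c (dA D y) = lin (fun a => prE D m c (dA1 D a)) y :=
    map_lin (prE D m c) (f := dA1 D) (x := y)
  rw [h1]
  refine lin_congr fun a ha => ?_
  obtain ⟨e, he, rfl⟩ := (Finsupp.mem_supported _ _).1 hy (Finsupp.mem_support_iff.2 ha)
  have h3 : e.2 ≠ ∅ := by
    intro h
    have h4 := he.2.2.1
    rw [h, card_empty] at h4
    omega
  have h4 : dA1 D (some e) = (bdD (QP D) 1 e).mapDomain some := if_neg h3
  rw [h4]
  unfold prE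
  rw [lin_map, lin_bdD', prv_some D _ he]
  unfold cb
  rw [if_pos ((cell_iff D).1 he).1]
  refine sum_congr rfl fun v hv => ?_
  rw [prv_some D c (face1 D he hv), prv_some D c (face2 D he hv)]
  show c (e.2.erase v) (cw D e.1) + c (e.2.erase v) (cw D ((QP D).nbc 1 v e.1)) = _
  rw [cw_nbc]
  rfl

end Pr

end Pool.Agent.S9
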