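import Pool.Agent.S9.MG3
import Pool.Agent.S9.MEnd
import Pool.Agent.S9.M.Rel
import Pool.Agent.S9.F.Uc
import Pool.Agent.S9.E.Main
import Pool.Agent.S9.G.Fin
import Pool.Agent.H8.SM.Link
import Pool.Agent.H37.TM.TF

/-!
# Project S9, block M: the theorem for all actions on acyclic homology manifolds
-/

set_option autoImplicit false
set_option linter.unusedSectionVars false

open Finset

namespace Pool.Agent.S9

open Pool.Agent.H19.Cub Pool.Agent.H77.SX Pool.Agent.H77.SW Pool.Agent.H37.TM Pool.Agent.H37.MA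
open Pool.Agent.S9.M Pool.Agent.S9.U Pool.Agent.H65.RM Pool.Agent.H73.GC
open Pool.Agent.H4.Singer (RGrp gen exists_lift gen_mul_gen gen_inv gen_comm racg)

variable {V : Type} [DecidableEq V] [Fintype V] {G : SimpleGraph V}

/-- the coboundaries are orthogonal to the cycles -/
theorem pair_cb {W : Type} [Group W] (R : Rac G W) {Γ : Subgroup W} {F : Finset W} (hF : IsTr Γ F)
    (hb : ∀ g ∈ Γ, ∀ v, R.b g v = 0) {K : Type} [Field K] {β q : Finset V → W → K}
    (hg : ∀ A B, ∀ g ∈ Γ, ∀ w, β A (g * w) * q B (g * w) = β A w * q B w)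
    (hq : ∀ A, ∀ v ∈ A, ∀ w, q A (w * R.s v) = q A w)
    (hc : ∀ A, q A ≠ 0 → G.IsClique (A : Set V))
    (hz : ∀ κ w, ∑ v ∈ κᶜ, q (insert v κ) w = 0) :
    PAIR G R F (fun A w => cb R β A w * q A w) = 0 := by
  classical
  have h1 : PAIR G R F (fun A w => cb R β A w * q A w) =
      ∑ A : Finset V, ∑ v ∈ A, ∑ p ∈ bs R F (A.erase v), β (A.erase v) p * q A p := by
    unfold PAIR
    rw [sum_filter]
    refine sum_congr rfl fun A _ => ?_
    by_cases hA : G.IsClique (A : Set V)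
    · rw [if_pos hA]
      have h2 : ∀ p, cb R β A p * q A p =
          ∑ v ∈ A, (β (A.erase v) p * q A p + β (A.erase v) (p * R.s v) * q A (p * R.s v)) := by
        intro p
        unfold cb
        rw [if_pos hA, sum_mul]
        refine sum_congr rfl fun v hv => ?_
        rw [hq A v hv, add_mul]
      simp only [h2]
      rw [sum_comm]
      refine sum_congr rfl fun v hv => ?_
      rw [sum_bs R hF hb (f := fun p => β (A.erase v) p * q A p) (fun g hg' w => hg _ _ g hg' w)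
        (notMem_erase v A), insert_erase hv]
    · rw [if_neg hA]
      refine (sum_eq_zero fun v _ => sum_eq_zero fun p _ => ?_).symm
      have h2 : q A = 0 := by
        by_contra h3
        exact hA (hc A h3)
      rw [h2, Pi.zero_apply, mul_zero]
  rw [h1, sum_sigma']
  have h2 : (∑ x ∈ (univ : Finset (Finset V)).sigma (fun A : Finset V => A),
        (∑ p ∈ bs R F (x.1.erase x.2), β (x.1.erase x.2) p * q x.1 p : K)) =
      ∑ B : Finset V, ∑ v ∈ Bᶜ, ∑ p ∈ bs R F B, β B p * q (insert v B) p := by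
    conv_rhs => rw [sum_sigma']
    refine sum_bij' (fun x _ => ⟨x.1.erase x.2, x.2⟩) (fun x _ => ⟨insert x.2 x.1, x.2⟩)
      ?_ ?_ ?_ ?_ ?_
    · rintro ⟨A, v⟩ h
      simp only [mem_sigma, mem_univ, true_and, mem_compl] at h ⊢
      exact notMem_erase _ _
    · rintro ⟨A, v⟩ h
      simp only [mem_sigma, mem_univ, true_and, mem_compl] at h ⊢
      exact mem_insert_self _ _
    · rintro ⟨A, v⟩ h
      simp only [mem_sigma, mem_univ, true_and] at h
      simp only [insert_erase h]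
    · rintro ⟨A, v⟩ h
      simp only [mem_sigma, mem_univ, true_and, mem_compl] at h
      simp only [erase_insert h]
    · rintro ⟨A, v⟩ h
      simp only [mem_sigma, mem_univ, true_and] at h
      simp only [insert_erase h]
  rw [h2]
  refine sum_eq_zero fun B _ => ?_
  rw [sum_comm]
  refine sum_eq_zero fun p _ => ?_
  rw [← mul_sum, hz, mul_zero]

/-! ### the chains as functions on the cells of the cover -/

section Chains

variable {P : Type} [Group P] (D : PG G P) {K : Type} [Field K]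

/-- a chain as a function on the cells of the cover -/
noncomputable def toC {N : Type} (z : Finset V → RGrp G → N) (e : (QP D).Cover 1 × Finset V) : N :=
  z e.2 (cw D e.1)

theorem cycN_toC {N : Type} [AddCommGroup N] [Module K N] [Module (ZMod 2) N]
    {ρ : (piP D).ker →* Module.End K N} {i : ℕ} {z : Finset V → RGrp G → N}
    (hz : z ∈ Zc (racR G) (piP D).ker ρ i) : CycN (QP D) 1 i (toC D z) := by
  obtain ⟨h1, h2⟩ := Submodule.mem_inf.1 hz
  obtain ⟨h3, h4, h5⟩ := (mem_Cc _).1 h1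
  refine ⟨fun e h => ?_, fun c σ _ v hv => ?_, fun c κ => ?_⟩
  · have h6 := h3 e.2 fun h0 => h (by
      show z e.2 (cw D e.1) = 0
      rw [h0]
      rfl)
    exact ⟨subset_univ _, h6.1, h6.2⟩
  · show z σ (cw D ((QP D).nbc 1 v c)) = z σ (cw D c)
    rw [cw_nbc]
    exact h4 σ v hv _
  · have h6 := congrFun (congrFun (LinearMap.mem_ker.1 h2) κ) (cw D c)
    exact h6

theorem toC_smul {N : Type} [AddCommGroup N] [Module K N]
    {ρ : (piP D).ker →* Module.End K N} {i : ℕ} {z : Finset V → RGrp G → N}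
    (hz : z ∈ Cc (racR G) (piP D).ker ρ i) (γ : (piP D).ker) (e : (QP D).Cover 1 × Finset V) :
    toC D z (γ • e) = ρ γ (toC D z e) := by
  show z e.2 (cw D (γ • e.1)) = _
  rw [cw_smul']
  exact ((mem_Cc _).1 hz).2.2 _ _ _

theorem liftsC_of_lifts [Algebra (ZMod 2) K] {χ : (piP D).ker →* Kˣ} {i : ℕ}
    {z₀ : Finset V → RGrp G → K} (hl : Lifts (racR G) (piP D).ker χ i z₀) :
    LiftsC (piP D).ker (QP D) 1 χ i (toC D z₀) := by
  intro N _ _ _ _ ρ π h1 h2 h3
  obtain ⟨z, hz, hz'⟩ := hl N ρ π h1 h2 h3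
  exact ⟨toC D z, cycN_toC D hz, fun γ e => toC_smul D (Submodule.mem_inf.1 hz).1 γ e,
    fun e => hz' _ _⟩

end Chains

/-- **The theorem for the cycles.** -/
theorem M_main {U : Type} [DecidableEq U] [MulAction (RGrp G) U] {M B : Set (Finset U)} {n : ℕ}
    (hM : Mfd M B n) (hK : Acyc M) (hA : PAct (RGrp G) M B) {i : ℕ} (hi : n < 2 * i)
    {Γ : Subgroup (RGrp G)} (hΓ : Lev (racR G) Γ) {K : Type} [Field K] [CharP K 2] (χ : Γ →* Kˣ)
    (hE : Eff (racR G) K Γ (sqr χ)) {z₀ : Finset V → RGrp G → K}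
    (hz : z₀ ∈ Zc (racR G) Γ (ch χ) i) (hl : Lifts (racR G) Γ χ i z₀) :
    z₀ ∈ Bc (racR G) Γ (ch χ) i := by
  classical
  let _ : Algebra (ZMod 2) K := ZMod.algebra K 2
  have hΓ' := hΓ
  obtain ⟨P, _, _, _, D, rfl, hg, -⟩ := exists_PG hΓ
  obtain ⟨cl, hcl⟩ := (qp_surj D hg).hasRightInverse
  have hpw : ∀ p, piP D (cw D (cl p)) = p := fun p => by rw [← proj_cw]; exact hcl p
  have hF : IsTr (piP D).ker (univ.image fun p => cw D (cl p)) := by
    intro w
    refine ⟨cw D (cl (piP D w)), ⟨mem_image_of_mem _ (mem_univ _), ?_⟩, ?_⟩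
    · rw [MonoidHom.mem_ker, map_mul, map_inv, hpw, mul_inv_cancel]
    · rintro p ⟨hp, hp'⟩
      obtain ⟨q, _, rfl⟩ := mem_image.1 hp
      rw [MonoidHom.mem_ker, map_mul, map_inv, hpw, mul_inv_eq_one] at hp'
      rw [hp']
  obtain ⟨hzc, hzk⟩ := Submodule.mem_inf.1 hz
  obtain ⟨hz1, hz2, hz3⟩ := (mem_Cc _).1 hzc
  have hz3' : ∀ A, ∀ g : (piP D).ker, ∀ w, z₀ A (g * w) = (χ g : K) * z₀ A w := hz3
  refine uc (racR G) hΓ' hF χ hz fun x hx hd => ?_
  obtain ⟨xt, β, h1, h2, h3, h4, h5, h6, h7⟩ := exists_extE D hx hd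
  have hSA : SAct (piP D).ker M B := sact_of_proper (qp_bit D) (qp_deck D)
    (PAct.sub hA (piP D).ker) hM.ne hM.down
  have hchi : ∀ (g : (piP D).ker) (y : K), ch (χ⁻¹ ^ 2) g y = ((χ g : K) ^ 2)⁻¹ * y := by
    intro g y
    show ((χ⁻¹ ^ 2) g : K) * y = _
    have h8 : (((χ⁻¹ ^ 2) g : Kˣ) : K) = ((χ g : K) ^ 2)⁻¹ := by
      rw [MonoidHom.pow_apply, MonoidHom.inv_apply, Units.val_pow_eq_pow_val,
        Units.val_inv_eq_inv_val, inv_pow]
    rw [h8]
  have hxg : TEq (ch (im2 χ)) xt := by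
    intro g L
    rw [h2, hchi]
    show _ = ((im2 χ g : Kˣ) : K) * xt L
    rw [im2_apply, Units.val_inv_eq_inv_val, Units.val_pow_eq_pow_val]
  have h8 := m_mfd (qp_bit D) (qp_deck D) hM hK hSA χ (effT_of_eff D hE) hi
    (cycN_toC D hz) (fun γ e => toC_smul D hzc γ e) (liftsC_of_lifts D hl) h1 hxg h3
  have hinv : ∀ (γ : (piP D).ker) (e : (QP D).Cover 1 × Finset V),
      lin xt (TT (QP D) 1 (γ • e)) * toC D z₀ (γ • e) ^ 2 =
        lin xt (TT (QP D) 1 e) * toC D z₀ e ^ 2 := by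
    intro γ e
    have h9 : toC D z₀ (γ • e) = (χ γ : K) * toC D z₀ e := toC_smul D hzc γ e
    by_cases h0 : toC D z₀ e = 0
    · rw [h9, h0]
      ring
    · have h10 : e ∈ Cell (QP D) 1 (fun _ _ => 0) e.2.card := by
        refine ⟨subset_univ _, ?_, rfl, fun _ _ => rfl⟩
        exact (hz1 e.2 fun h11 => h0 (by
          show z₀ e.2 (cw D e.1) = 0
          rw [h11]
          rfl)).1
      have h11 : lin xt (TT (QP D) 1 (γ • e)) = ((χ γ : K) ^ 2)⁻¹ * lin xt (TT (QP D) 1 e) := by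
        rw [cu_smul, TT_smul (qp_deck D) h10, lin_map]
        have h12 : (fun L => xt (List.map (γ • ·) L)) =
            fun L => zl (ch (χ⁻¹ ^ 2) γ) (xt L) := funext fun L => h2 γ L
        rw [h12, ← map_lin]
        exact hchi γ _
      rw [h11, h9]
      have h12 : (χ γ : K) ≠ 0 := (χ γ).ne_zero
      field_simp
  rw [osum_cells (qp_deck D) (cl := cl) hcl (G := fun e => lin xt (TT (QP D) 1 e) * toC D z₀ e ^ 2)
    hinv (fun e he => by
      have h9 : z₀ e.2 ≠ 0 := by
        intro h10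
        apply he
        show _ * (z₀ e.2 (cw D e.1)) ^ 2 = 0
        rw [h10]
        simp
      exact ⟨subset_univ _, (hz1 _ h9).1, (hz1 _ h9).2⟩)] at h8
  -- the pairing with the coboundary
  have h9 := pair_cb (racR G) hF hΓ'.bits (β := β) (q := fun A w => z₀ A w ^ 2)
    (fun A B g hg w => by
      have h10 := h6 A ⟨g, hg⟩ w
      have h11 := hz3' B ⟨g, hg⟩ w
      have h12 : β A (g * w) = ((χ ⟨g, hg⟩ : K) ^ 2)⁻¹ * β A w := h10.trans (hchi _ _)
      have h13 : z₀ B (g * w) = (χ ⟨g, hg⟩ : K) * z₀ B w := h11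
      have h14 : (χ ⟨g, hg⟩ : K) ≠ 0 := (χ ⟨g, hg⟩).ne_zero
      show β A (g * w) * z₀ B (g * w) ^ 2 = β A w * z₀ B w ^ 2
      rw [h12, h13]
      field_simp)
    (fun A v hv w => by
      show z₀ A (w * (racR G).s v) ^ 2 = z₀ A w ^ 2
      rw [hz2 A v hv])
    (fun A h => (hz1 A fun h10 => h (by
      funext w
      show z₀ A w ^ 2 = 0
      rw [h10]
      simp)).1)
    (fun κ w => by
      show ∑ v ∈ κᶜ, z₀ (insert v κ) w ^ 2 = 0
      have h10 : ∑ v ∈ κᶜ, z₀ (insert v κ) w = 0 := congrFun (congrFun (LinearMap.mem_ker.1 hzk) κ) w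
      rw [← sum_pow_char, h10]
      simp)
  have h10 : PAIR G (racR G) (univ.image fun p => cw D (cl p)) (fun A w => x A w * z₀ A w ^ 2) +
      PAIR G (racR G) (univ.image fun p => cw D (cl p))
        (fun A w => cb (racR G) β A w * z₀ A w ^ 2) =
      ∑ A : Finset V, ∑ p ∈ univ.filter (fun p => ∀ v ∈ A, D.b p v = 0),
        lin xt (TT (QP D) 1 (cl p, A)) * toC D z₀ (cl p, A) ^ 2 := by
    unfold PAIR
    rw [← sum_add_distrib, sum_filter]
    refine sum_congr rfl fun A _ => ?_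
    by_cases hz0 : z₀ A = 0
    · have h11 : ∀ w, z₀ A w = 0 := fun w => by rw [hz0]; rfl
      have h12 : ∀ p, toC D z₀ (cl p, A) = 0 := fun p => h11 _
      simp only [h11, h12]
      simp
    · obtain ⟨hA, hk⟩ := hz1 A hz0
      rw [if_pos hA, ← sum_add_distrib]
      have h11 : bs (racR G) (univ.image fun p => cw D (cl p)) A =
          (univ.filter (fun p => ∀ v ∈ A, D.b p v = 0)).image fun p => cw D (cl p) := by
        ext w
        rw [mem_bs, mem_image, mem_image]
        constructor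
        · rintro ⟨⟨p, -, rfl⟩, h12⟩
          refine ⟨p, mem_filter.2 ⟨mem_univ _, fun v hv => ?_⟩, rfl⟩
          have h13 := h12 v hv
          rwa [← b_piP D, hpw] at h13
        · rintro ⟨p, hp, rfl⟩
          refine ⟨⟨p, mem_univ _, rfl⟩, fun v hv => ?_⟩
          rw [← b_piP D, hpw]
          exact (mem_filter.1 hp).2 v hv
      rw [h11, sum_image (fun p _ q _ h => by
        have h12 := congrArg (piP D) h
        rwa [hpw, hpw] at h12)]
      refine sum_congr rfl fun p hp => ?_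
      have h12 : (cl p, A) ∈ Cell (QP D) 1 D.b i := by
        refine (cell_iff D).2 ⟨hA, hk, fun v hv => ?_⟩
        show (racR G).b (cw D (cl p)) v = 0
        rw [← b_piP D, hpw]
        exact (mem_filter.1 hp).2 v hv
      rw [h7 _ h12, ← add_mul]
      rfl
  rw [h8, h9, add_zero] at h10
  exact h10

/-- **All degrees above the middle, for all right-angled Coxeter groups which act properly on an acyclic homology
manifold.** -/
theorem S9_inC {n : ℕ} (h : Pool.Agent.H8.SM.InC G n) {i : ℕ} (hi : n < 2 * i) : GZ G univ i := by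
  obtain ⟨U, _, _, M, B, hM, hK, hA, -⟩ := h
  obtain ⟨Γ, K, _, _, χ, hΓ, h1, h2⟩ := E_main (racR G) i
  exact h2 fun z₀ hz => M_main hM hK hA hi hΓ χ (G_main (racR G) hΓ K _) hz (h1 z₀ hz)

end Pool.Agent.S9
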