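import Pool.Agent.H37.MA.Gc
import Pool.Agent.S9.MG1

/-!
# Project S9, block M: relative cochains of a manifold with values in modules

`gP` = product of a function of tuples with values in `E` and a cochain on
ordered simplices with values in the dual of `E`; `cupB` = cup products with respect to a bilinear map; `WC` =
equivariant relative cochains which are finite modulo `Γ`; `ITM` = integral over the top simplices modulo `Γ`.
-/

set_option autoImplicit false
set_option linter.unusedSectionVars false

open Finset Pointwise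

namespace Pool.Agent.S9

open Pool.Agent.H37.TM

/-! ### functions of tuples -/

section Tup

variable {C : Type} {E : Type} [AddCommGroup E]

theorem dT_nil (x : List C → E) : dT x [] = 0 := rfl

theorem dT_cons (x : List C → E) (v : C) (l : List C) :
    dT x (v :: l) = x l + dT (fun m => x (v :: m)) l := rfl

theorem dT_add (l : List C) : ∀ x y : List C → E, dT (fun m => x m + y m) l = dT x l + dT y l := by
  induction l with
  | nil =>
    intro x y
    rw [dT_nil, dT_nil, dT_nil, add_zero]
  | cons v l ih =>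
    intro x y
    rw [dT_cons, dT_cons, dT_cons, ih]
    abel

theorem dT_zero (l : List C) : dT (fun _ => (0 : E)) l = 0 := by
  induction l with
  | nil => rfl
  | cons v l ih => rw [dT_cons, ih, add_zero]

theorem dT_hom {E' : Type} [AddCommGroup E'] (F : E →+ E') (l : List C) :
    ∀ x : List C → E, dT (fun m => F (x m)) l = F (dT x l) := by
  induction l with
  | nil =>
    intro x
    rw [dT_nil, dT_nil, map_zero]
  | cons v l ih =>
    intro x
    rw [dT_cons, dT_cons, map_add, ih]

theorem dT_map {D : Type} (f : D → C) (l : List D) :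
    ∀ x : List C → E, dT (fun m => x (m.map f)) l = dT x (l.map f) := by
  induction l with
  | nil => intro x; rfl
  | cons v l ih =>
    intro x
    rw [List.map_cons, dT_cons, dT_cons]
    congr 1
    exact ih fun m => x (f v :: m)

theorem dT_congr (l : List C) : ∀ {x y : List C → E}, (∀ m : List C, m.length + 1 = l.length → x m = y m) →
    dT x l = dT y l := by
  induction l with
  | nil => intro x y _; rfl
  | cons v l ih =>
    intro x y h
    rw [dT_cons, dT_cons, h l (by rw [List.length_cons]), ih fun m hm => h (v :: m) (by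
      rw [List.length_cons, List.length_cons, hm])]

theorem dT_dT (h2 : ∀ e : E, e + e = 0) (l : List C) : ∀ x : List C → E, dT (dT x) l = 0 := by
  induction l with
  | nil => intro x; rfl
  | cons v l ih =>
    intro x
    rw [dT_cons]
    have h1 : (fun m => dT x (v :: m)) = fun m => x m + dT (fun m' => x (v :: m')) m := by
      funext m
      rw [dT_cons]
    rw [h1, dT_add, ih, add_zero, h2]

end Tup

/-! ### cochains with values in modules -/

section Coch

variable {U : Type} [DecidableEq U] {ht : U → ℕ}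

/-- the coboundary -/
def cobM {A : Type} [AddCommGroup A] (x : Finset U → A) (s : Finset U) : A := ∑ v ∈ s, x (s.erase v)

theorem cobM_add {A : Type} [AddCommGroup A] (x y : Finset U → A) (s : Finset U) :
    cobM (fun t => x t + y t) s = cobM x s + cobM y s := by
  unfold cobM
  exact sum_add_distrib

theorem cobM_hom {A A' : Type} [AddCommGroup A] [AddCommGroup A'] (F : A →+ A') (x : Finset U → A)
    (s : Finset U) : cobM (fun t => F (x t)) s = F (cobM x s) := by
  unfold cobM
  rw [map_sum]

theorem cobM_congr {A : Type} [AddCommGroup A] {x y : Finset U → A} {s : Finset U}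
    (h : ∀ t ⊆ s, x t = y t) : cobM x s = cobM y s :=
  sum_congr rfl fun v _ => h _ (erase_subset v s)

theorem cobM_eq {R : Type} [CommRing R] (x : Finset U → R) (s : Finset U) : cobM x s = cob x s := rfl

variable {K : Type} [Field K] {E : Type} [AddCommGroup E] [Module K E]

/-- the product of the function `x` of the tuples of `m + 1` elements (at the lowest vertices) and of `w` -/
def gP (ht : U → ℕ) : ℕ → (List U → E) → (Finset U → (E →ₗ[K] K)) → Finset U → K
  | 0, x, w, s => w s (∑ v ∈ lows ht s, x [v])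
  | m + 1, x, w, s => ∑ v ∈ lows ht s, gP ht m (fun l => x (v :: l)) w (s.erase v)

theorem gP_zero (x : List U → E) (w : Finset U → (E →ₗ[K] K)) (s : Finset U) :
    gP ht 0 x w s = w s (∑ v ∈ lows ht s, x [v]) := rfl

theorem gP_succ (m : ℕ) (x : List U → E) (w : Finset U → (E →ₗ[K] K)) (s : Finset U) :
    gP ht (m + 1) x w s = ∑ v ∈ lows ht s, gP ht m (fun l => x (v :: l)) w (s.erase v) := rfl

theorem gP_add_left (m : ℕ) : ∀ (x y : List U → E) (w : Finset U → (E →ₗ[K] K)) (s : Finset U),
    gP ht m (fun l => x l + y l) w s = gP ht m x w s + gP ht m y w s := by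
  induction m with
  | zero =>
    intro x y w s
    rw [gP_zero, gP_zero, gP_zero, sum_add_distrib, map_add]
  | succ m ih =>
    intro x y w s
    rw [gP_succ, gP_succ, gP_succ, ← sum_add_distrib]
    exact sum_congr rfl fun v _ => ih _ _ _ _

theorem gP_add_right (m : ℕ) : ∀ (x : List U → E) (w w' : Finset U → (E →ₗ[K] K)) (s : Finset U),
    gP ht m x (fun t => w t + w' t) s = gP ht m x w s + gP ht m x w' s := by
  induction m with
  | zero =>
    intro x w w' s
    rw [gP_zero, gP_zero, gP_zero, LinearMap.add_apply]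
  | succ m ih =>
    intro x w w' s
    rw [gP_succ, gP_succ, gP_succ, ← sum_add_distrib]
    exact sum_congr rfl fun v _ => ih _ _ _ _

theorem gP_congr (m : ℕ) : ∀ (x : List U → E) {w w' : Finset U → (E →ₗ[K] K)} {s : Finset U},
    (∀ t ⊆ s, w t = w' t) → gP ht m x w s = gP ht m x w' s := by
  induction m with
  | zero =>
    intro x w w' s h
    rw [gP_zero, gP_zero, h s (Subset.refl s)]
  | succ m ih =>
    intro x w w' s h
    rw [gP_succ, gP_succ]
    exact sum_congr rfl fun v _ => ih _ fun t ht => h t (ht.trans (erase_subset v s))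

theorem gP_congr_left (m : ℕ) : ∀ {x y : List U → E} (w : Finset U → (E →ₗ[K] K)) (s : Finset U),
    (∀ l, l.length = m + 1 → x l = y l) → gP ht m x w s = gP ht m y w s := by
  induction m with
  | zero =>
    intro x y w s h
    rw [gP_zero, gP_zero, sum_congr rfl fun v _ => h [v] rfl]
  | succ m ih =>
    intro x y w s h
    rw [gP_succ, gP_succ]
    exact sum_congr rfl fun v _ => ih _ _ fun l hl => h (v :: l) (by rw [List.length_cons, hl])

theorem gP_ne_zero (m : ℕ) : ∀ {x : List U → E} {w : Finset U → (E →ₗ[K] K)} {s : Finset U},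
    gP ht m x w s ≠ 0 → ∃ t ⊆ s, w t ≠ 0 := by
  induction m with
  | zero =>
    intro x w s h
    refine ⟨s, Subset.refl s, fun h0 => h ?_⟩
    rw [gP_zero, h0, LinearMap.zero_apply]
  | succ m ih =>
    intro x w s h
    obtain ⟨v, _, hv⟩ := exists_ne_zero_of_sum_ne_zero h
    obtain ⟨t, h1, h2⟩ := ih hv
    exact ⟨t, h1.trans (erase_subset v s), h2⟩

/-- change of the coefficients -/
theorem gP_comp {E' : Type} [AddCommGroup E'] [Module K E'] (F : E →ₗ[K] E') (m : ℕ) :
    ∀ (x : List U → E) (w : Finset U → (E' →ₗ[K] K)) (s : Finset U),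
    gP ht m (fun l => F (x l)) w s = gP ht m x (fun t => (w t).comp F) s := by
  induction m with
  | zero =>
    intro x w s
    rw [gP_zero, gP_zero, LinearMap.comp_apply, map_sum F]
  | succ m ih =>
    intro x w s
    rw [gP_succ, gP_succ]
    exact sum_congr rfl fun v _ => ih _ _ _

/-- invariance -/
theorem gP_smul {Γ : Type} [Group Γ] [MulAction Γ U] {g : Γ} (hg : ∀ u, ht (g • u) = ht u)
    (T : E →ₗ[K] E) (m : ℕ) : ∀ {x x' : List U → E} {w w' : Finset U → (E →ₗ[K] K)} {s : Finset U},
    (∀ l, x (l.map (g • ·)) = T (x' l)) → (∀ t ⊆ s, ∀ e, w (g • t) (T e) = w' t e) →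
    gP ht m x w (g • s) = gP ht m x' w' s := by
  induction m with
  | zero =>
    intro x x' w w' s h1 h2
    rw [gP_zero, gP_zero, lows_smul hg, Pool.Agent.H37.TM.sum_smul, ← h2 s (Subset.refl s),
      map_sum T]
    exact congrArg _ (sum_congr rfl fun v _ => h1 [v])
  | succ m ih =>
    intro x x' w w' s h1 h2
    rw [gP_succ, gP_succ, lows_smul hg, Pool.Agent.H37.TM.sum_smul]
    refine sum_congr rfl fun v _ => ?_
    rw [erase_smul]
    exact ih (fun l => h1 (v :: l)) fun t ht => h2 t (ht.trans (erase_subset v s))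

/-- **The Leibniz rule.** -/
theorem cob_gP [CharP K 2] (m : ℕ) : ∀ (x : List U → E) (w : Finset U → (E →ₗ[K] K)) {s : Finset U},
    Set.InjOn ht (s : Set U) → m + 2 ≤ s.card →
    cob (gP ht m x w) s = gP ht (m + 1) (dT x) w s + gP ht m x (cobM w) s := by
  induction m with
  | zero =>
    intro x w s hs hc
    have hne : s.Nonempty := card_pos.1 (by omega)
    obtain ⟨v, hv, hm⟩ := exists_low ht hne
    have h1 := lows_eq hs hv hm
    have hne' : (s.erase v).Nonempty := card_pos.1 (by rw [card_erase_of_mem hv]; omega)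
    have hs' : Set.InjOn ht ((s.erase v : Finset U) : Set U) :=
      hs.mono (by exact_mod_cast erase_subset v s)
    obtain ⟨v', hv', hm'⟩ := exists_low ht hne'
    have h1' := lows_eq hs' hv' hm'
    have h2 : ∀ u ∈ s.erase v, lows ht (s.erase u) = {v} := by
      intro u hu
      refine lows_eq (hs.mono ?_) (mem_erase.2 ⟨(ne_of_mem_erase hu).symm, hv⟩)
        fun u' hu' => hm u' (mem_of_mem_erase hu')
      exact_mod_cast erase_subset u s
    unfold cob
    rw [← add_sum_erase s _ hv]
    have h3 : ∑ u ∈ s.erase v, gP ht 0 x w (s.erase u) = ∑ u ∈ s.erase v, w (s.erase u) (x [v]) := by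
      refine sum_congr rfl fun u hu => ?_
      rw [gP_zero, h2 u hu, sum_singleton]
    have h4 : gP ht 0 x w (s.erase v) = w (s.erase v) (x [v']) := by
      rw [gP_zero, h1', sum_singleton]
    have h5 : gP ht 1 (dT x) w s = w (s.erase v) (x [v'] + x [v]) := by
      rw [gP_succ, h1, sum_singleton, gP_zero, h1', sum_singleton]
      congr 1
      rw [dT_cons, dT_cons, dT_nil, add_zero]
    have h6 : gP ht 0 x (cobM w) s = w (s.erase v) (x [v]) + ∑ u ∈ s.erase v, w (s.erase u) (x [v]) := by
      rw [gP_zero, h1, sum_singleton]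
      unfold cobM
      rw [← add_sum_erase s _ hv, LinearMap.add_apply, LinearMap.sum_apply]
    rw [h3, h4, h5, h6, map_add]
    have h7 := CharTwo.add_self_eq_zero (w (s.erase v) (x [v]))
    linear_combination -h7
  | succ m ih =>
    intro x w s hs hc
    have hne : s.Nonempty := card_pos.1 (by omega)
    obtain ⟨v, hv, hm⟩ := exists_low ht hne
    have h1 := lows_eq hs hv hm
    have hs' : Set.InjOn ht ((s.erase v : Finset U) : Set U) :=
      hs.mono (by exact_mod_cast erase_subset v s)
    have h2 : ∀ u ∈ s.erase v, lows ht (s.erase u) = {v} := by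
      intro u hu
      refine lows_eq (hs.mono ?_) (mem_erase.2 ⟨(ne_of_mem_erase hu).symm, hv⟩)
        fun u' hu' => hm u' (mem_of_mem_erase hu')
      exact_mod_cast erase_subset u s
    have h3 : cob (gP ht (m + 1) x w) s =
        gP ht (m + 1) x w (s.erase v) + cob (gP ht m (fun l => x (v :: l)) w) (s.erase v) := by
      unfold cob
      rw [← add_sum_erase s _ hv]
      congr 1
      refine sum_congr rfl fun u hu => ?_
      rw [gP_succ, h2 u hu, sum_singleton, erase_right_comm]
    rw [h3, ih _ _ hs' (by rw [card_erase_of_mem hv]; omega), gP_succ (m + 1), h1, sum_singleton,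
      gP_succ m x (cobM w), h1, sum_singleton, ← add_assoc]
    congr 1
    have h4 : (fun l => dT x (v :: l)) = fun l => x l + dT (fun m => x (v :: m)) l :=
      funext fun l => dT_cons x v l
    rw [h4, gP_add_left]

/-! ### cup products with bilinear maps -/

variable {A A' Y : Type} [AddCommGroup A] [Module K A] [AddCommGroup A'] [Module K A']
  [AddCommGroup Y] [Module K Y]

/-- the cup product of order `m - 1` with respect to the bilinear map `b` -/
def cupB (ht : U → ℕ) (m : ℕ) (b : A →ₗ[K] A' →ₗ[K] Y) (x : Finset U → A) (y : Finset U → A')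
    (s : Finset U) : Y :=
  ∑ B ∈ s.powersetCard m, b (x (face1 ht B s)) (y (face2 ht B s))

theorem cupB_add (m : ℕ) (b b' : A →ₗ[K] A' →ₗ[K] Y) (x : Finset U → A) (y : Finset U → A')
    (s : Finset U) : cupB ht m (b + b') x y s = cupB ht m b x y s + cupB ht m b' x y s := by
  unfold cupB
  rw [← sum_add_distrib]
  rfl

theorem cupB_ne_zero {m : ℕ} {b : A →ₗ[K] A' →ₗ[K] Y} {x : Finset U → A} {y : Finset U → A'}
    {s : Finset U} (h : cupB ht m b x y s ≠ 0) : ∃ t ⊆ s, x t ≠ 0 := by
  obtain ⟨B, _, hB⟩ := exists_ne_zero_of_sum_ne_zero h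
  refine ⟨face1 ht B s, face1_subset ht B s, fun h0 => hB ?_⟩
  rw [h0, map_zero, LinearMap.zero_apply]

/-- the product of order `-1` -/
theorem cupB_zero (b : A →ₗ[K] A' →ₗ[K] Y) (x : Finset U → A) {y : Finset U → A'} (hy : y ∅ = 0)
    (s : Finset U) : cupB ht 0 b x y s = 0 := by
  unfold cupB
  rw [powersetCard_zero, sum_singleton]
  have h : face2 ht ∅ s = ∅ := by
    unfold face2
    refine filter_false_of_mem fun v _ => ?_
    unfold below
    simp
  rw [h, hy, map_zero]

theorem cupB_smul {Γ : Type} [Group Γ] [MulAction Γ U] {g : Γ} (hg : ∀ u, ht (g • u) = ht u)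
    {m : ℕ} {b : A →ₗ[K] A' →ₗ[K] Y} {x : Finset U → A} {y : Finset U → A'} {S : A →ₗ[K] A}
    {S' : A' →ₗ[K] A'} {T : Y →ₗ[K] Y} (hx : ∀ t, x (g • t) = S (x t)) (hy : ∀ t, y (g • t) = S' (y t))
    (hb : ∀ a a', b (S a) (S' a') = T (b a a')) (s : Finset U) :
    cupB ht m b x y (g • s) = T (cupB ht m b x y s) := by
  unfold cupB
  rw [sum_powersetCard_smul, map_sum]
  refine sum_congr rfl fun B _ => ?_
  rw [face1_smul hg, face2_smul hg, hx, hy, hb]

theorem cupB_comp {Y' : Type} [AddCommGroup Y'] [Module K Y'] (F : Y →ₗ[K] Y')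
    (m : ℕ) (b : A →ₗ[K] A' →ₗ[K] Y) (x : Finset U → A) (y : Finset U → A') (s : Finset U) :
    cupB ht m (b.compr₂ F) x y s = F (cupB ht m b x y s) := by
  unfold cupB
  rw [map_sum]
  rfl

/-- change of the coefficients -/
theorem cupB_comp₁₂ {A₁ A₂ : Type} [AddCommGroup A₁] [Module K A₁] [AddCommGroup A₂] [Module K A₂]
    (F : A₁ →ₗ[K] A) (F' : A₂ →ₗ[K] A') (m : ℕ) (b : A →ₗ[K] A' →ₗ[K] Y) (x : Finset U → A₁)
    (y : Finset U → A₂) (s : Finset U) :
    cupB ht m (b.compl₁₂ F F') x y s = cupB ht m b (fun t => F (x t)) (fun t => F' (y t)) s := rfl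

/-- **The coboundary of the cup products of cocycles.** -/
theorem cob_cupB [CharP K 2] [FiniteDimensional K A] [FiniteDimensional K A'] (m : ℕ)
    (b : A →ₗ[K] A' →ₗ[K] Y) (x : Finset U → A) (y : Finset U → A') (s : Finset U)
    (hs : Set.InjOn ht (s : Set U)) (hx : ∀ t ⊆ s, cobM x t = 0) (hy : ∀ t ⊆ s, cobM y t = 0) :
    cobM (cupB ht (m + 1) b x y) s = cupB ht m b x y s + cupB ht m b.flip y x s := by
  classical
  let e := Module.finBasis K A
  let e' := Module.finBasis K A'
  have hb : ∀ (a : A) (a' : A'), b a a' = ∑ i, ∑ j, (e.repr a i * e'.repr a' j) • b (e i) (e' j) := by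
    intro a a'
    have h1 : b a a' = b (∑ i, e.repr a i • e i) (∑ j, e'.repr a' j • e' j) := by
      rw [e.sum_repr a, e'.sum_repr a']
    rw [h1, map_sum b, LinearMap.sum_apply]
    refine sum_congr rfl fun i _ => ?_
    rw [map_sum]
    refine sum_congr rfl fun j _ => ?_
    rw [map_smul, map_smul, LinearMap.smul_apply, smul_smul, mul_comm]
  have hrep : ∀ (m : ℕ) (s : Finset U),
      cupB ht m b x y s = ∑ i, ∑ j, cup ht m (fun t => e.repr (x t) i) (fun t => e'.repr (y t) j) s •
        b (e i) (e' j) := by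
    intro m s
    unfold cupB cup
    rw [sum_congr rfl fun B _ => hb (x (face1 ht B s)) (y (face2 ht B s)), sum_comm]
    refine sum_congr rfl fun i _ => ?_
    rw [sum_comm]
    exact sum_congr rfl fun j _ => (Finset.sum_smul).symm
  have hrep' : ∀ (m : ℕ) (s : Finset U),
      cupB ht m b.flip y x s = ∑ i, ∑ j, cup ht m (fun t => e'.repr (y t) j) (fun t => e.repr (x t) i) s •
        b (e i) (e' j) := by
    intro m s
    unfold cupB cup
    rw [sum_congr rfl fun B _ => (LinearMap.flip_apply b _ _).trans
      (hb (x (face2 ht B s)) (y (face1 ht B s))), sum_comm]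
    refine sum_congr rfl fun i _ => ?_
    rw [sum_comm]
    refine sum_congr rfl fun j _ => ?_
    rw [Finset.sum_smul]
    exact sum_congr rfl fun B _ => by rw [mul_comm]
  have hx' : ∀ i, ∀ t ⊆ s, cob (fun t => e.repr (x t) i) t = 0 := by
    intro i t ht'
    have h1 := cobM_hom ((Finsupp.applyAddHom i).comp e.repr.toLinearMap.toAddMonoidHom) x t
    rw [hx t ht', map_zero] at h1
    exact h1
  have hy' : ∀ i, ∀ t ⊆ s, cob (fun t => e'.repr (y t) i) t = 0 := by
    intro i t ht'
    have h1 := cobM_hom ((Finsupp.applyAddHom i).comp e'.repr.toLinearMap.toAddMonoidHom) y t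
    rw [hy t ht', map_zero] at h1
    exact h1
  have hL : cobM (cupB ht (m + 1) b x y) s = ∑ i, ∑ j,
      cob (cup ht (m + 1) (fun t => e.repr (x t) i) (fun t => e'.repr (y t) j)) s • b (e i) (e' j) := by
    unfold cobM cob
    rw [sum_congr rfl fun v _ => hrep (m + 1) (s.erase v), sum_comm]
    refine sum_congr rfl fun i _ => ?_
    rw [sum_comm]
    exact sum_congr rfl fun j _ => (Finset.sum_smul).symm
  rw [hL, hrep, hrep', ← sum_add_distrib]
  refine sum_congr rfl fun i _ => ?_
  rw [← sum_add_distrib]
  refine sum_congr rfl fun j _ => ?_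
  rw [← add_smul, cob_cup' hs (hx' i) (hy' j)]

end Coch

end Pool.Agent.S9
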