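import Pool.Agent.H37.MA.Zer
import Pool.Agent.S9.MInt

/-!
# Project S9, block M: integration over the top simplices modulo the group, Stokes
-/

set_option autoImplicit false
set_option linter.unusedSectionVars false

open Finset Pointwise

namespace Pool.Agent.S9

open Pool.Agent.H37.TM

variable {U Γ : Type} [DecidableEq U] [Group Γ] [MulAction Γ U] {M B : Set (Finset U)} {n : ℕ}
  {ht : U → ℕ}

/-- the support is relative to the boundary and finite modulo the group -/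
def SupC (Γ : Type) [Group Γ] [MulAction Γ U] (M B : Set (Finset U)) {A : Type} [Zero A]
    (w : Finset U → A) : Prop :=
  ∃ S : Finset (Finset U), ∀ τ, w τ ≠ 0 → ∃ τ' ⊆ τ, τ' ∈ M ∧ τ' ∉ B ∧ ∃ γ : Γ, γ • τ' ∈ S

theorem SupC.of_ne {A A' : Type} [Zero A] [Zero A'] {w : Finset U → A} (h : SupC Γ M B w)
    {w' : Finset U → A'} (h' : ∀ τ, w' τ ≠ 0 → ∃ t ⊆ τ, w t ≠ 0) : SupC Γ M B w' := by
  obtain ⟨S, hS⟩ := h
  refine ⟨S, fun τ hτ => ?_⟩
  obtain ⟨t, ht1, ht2⟩ := h' τ hτ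
  obtain ⟨τ', h1, h2⟩ := hS t ht2
  exact ⟨τ', h1.trans ht1, h2⟩

/-- the top simplices with nonzero value form finitely many orbits -/
theorem SupC.fin_top {A : Type} [Zero A] {w : Finset U → A} (hM : Psm M B n)
    (hA : MAct Γ M B n ht) (h : SupC Γ M B w) :
    ∃ F : Finset (Finset U), ∀ τ ∈ M, w τ ≠ 0 → ∃ γ : Γ, γ • τ ∈ F := by
  classical
  obtain ⟨S, hS⟩ := h
  have hloc : ∀ r : Finset U, {τ | τ ∈ M ∧ r ⊆ τ ∧ r ∈ M}.Finite := by
    intro r
    by_cases hr : r ∈ M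
    · exact (hM.locfin r hr).subset fun τ h => ⟨h.1, h.2.1⟩
    · exact Set.finite_empty.subset fun τ h => absurd h.2.2 hr
  refine ⟨S.biUnion fun r => (hloc r).toFinset, fun τ hτ hw => ?_⟩
  obtain ⟨τ', h1, h2, -, γ, hγ⟩ := hS τ hw
  refine ⟨γ, mem_biUnion.2 ⟨γ • τ', hγ, ?_⟩⟩
  rw [Set.Finite.mem_toFinset]
  exact ⟨hA.K_mem γ τ hτ, Finset.smul_finset_subset_smul_finset_iff.2 h1, hA.K_mem γ τ' h2⟩

/-- **Stokes.** -/
theorem stokesR {Y : Type} [AddCommGroup Y] (h2 : ∀ y : Y, y + y = 0) (hM : Psm M B n)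
    (hA : MAct Γ M B n ht) {R : Finset U → Y}
    (hR : ∀ (γ : Γ) (r : Finset U), Set.InjOn ht (r : Set U) → R (γ • r) = R r)
    (hS : SupC Γ M B R) :
    osum Γ (fun τ : Finset U => open Classical in
      if τ ∈ M ∧ τ.card = n + 1 then ∑ v ∈ τ, R (τ.erase v) else 0) = 0 := by
  classical
  let _ : Module (ZMod 2) Y := AddCommGroup.zmodModule (n := 2) fun y => by
    rw [two_nsmul]
    exact h2 y
  have hMg : ∀ (γ : Γ) (τ : Finset U), γ • τ ∈ M ↔ τ ∈ M := by
    intro γ τ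
    refine ⟨fun h => ?_, hA.K_mem γ τ⟩
    have h1 := hA.K_mem γ⁻¹ _ h
    rwa [inv_smul_smul] at h1
  have hk : ∀ τ r : Finset U, (if τ ∈ M ∧ τ.card = n + 1 ∧ r ⊆ τ ∧ r.card = n then R r else 0) ≠
      0 → (τ ∈ M ∧ τ.card = n + 1 ∧ r ⊆ τ ∧ r.card = n) ∧ R r ≠ 0 := by
    intro τ r h
    by_cases hc : τ ∈ M ∧ τ.card = n + 1 ∧ r ⊆ τ ∧ r.card = n
    · rw [if_pos hc] at h
      exact ⟨hc, h⟩
    · rw [if_neg hc] at h
      exact absurd rfl h
  -- double counting
  have h4 : osum Γ (fun τ : Finset U => ∑ᶠ r : Finset U,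
      if τ ∈ M ∧ τ.card = n + 1 ∧ r ⊆ τ ∧ r.card = n then R r else 0) =
      osum Γ (fun r : Finset U => ∑ᶠ τ : Finset U,
      if τ ∈ M ∧ τ.card = n + 1 ∧ r ⊆ τ ∧ r.card = n then R r else 0) := by
    refine osum_comm (Γ := Γ) (fun τ r : Finset U =>
      if τ ∈ M ∧ τ.card = n + 1 ∧ r ⊆ τ ∧ r.card = n then R r else 0) ?_ ?_ ?_ ?_ ?_
    · intro γ τ r
      show (if γ • τ ∈ M ∧ (γ • τ).card = n + 1 ∧ γ • r ⊆ γ • τ ∧ (γ • r).card = n
        then R (γ • r) else 0) = _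
      have hiff : (γ • τ ∈ M ∧ (γ • τ).card = n + 1 ∧ γ • r ⊆ γ • τ ∧ (γ • r).card = n) ↔
          (τ ∈ M ∧ τ.card = n + 1 ∧ r ⊆ τ ∧ r.card = n) := by
        rw [hMg, Finset.card_smul_finset, Finset.card_smul_finset,
          Finset.smul_finset_subset_smul_finset_iff]
      by_cases hc : τ ∈ M ∧ τ.card = n + 1 ∧ r ⊆ τ ∧ r.card = n
      · rw [if_pos hc, if_pos (hiff.2 hc)]
        exact hR γ r ((hA.ht_inj τ hc.1).mono (by exact_mod_cast hc.2.2.1))
      · rw [if_neg hc, if_neg (fun h => hc (hiff.1 h))]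
    · intro τ r h γ hγ
      exact hA.free γ τ (hk τ r h).1.1 hγ
    · intro τ r h γ hγ
      obtain ⟨⟨h5, h6, h7, h8⟩, h9⟩ := hk τ r h
      obtain ⟨S, hS'⟩ := hS
      obtain ⟨τ', h10, h11, -⟩ := hS' r h9
      exact hA.free γ r (hM.down τ h5 r h7 ((hM.ne τ' h11).mono h10)) hγ
    · intro τ
      refine (τ.powerset.finite_toSet).subset fun r h => ?_
      exact mem_coe.2 (mem_powerset.2 (hk τ r h).1.2.2.1)
    · have hS2 : SupC Γ M B (fun τ : Finset U => ∑ r ∈ τ.powerset, if R r ≠ 0 then (1 : ℕ) else 0) := by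
        refine hS.of_ne fun τ hτ => ?_
        obtain ⟨r, hr, h5⟩ := exists_ne_zero_of_sum_ne_zero hτ
        refine ⟨r, mem_powerset.1 hr, fun h0 => h5 (if_neg (not_not.2 h0))⟩
      obtain ⟨F, hF⟩ := hS2.fin_top hM hA
      refine ⟨F, fun τ r h => hF τ (hk τ r h).1.1 fun h0 => ?_⟩
      have h5 := (sum_eq_zero_iff.1 h0) r (mem_powerset.2 (hk τ r h).1.2.2.1)
      rw [if_pos (hk τ r h).2] at h5
      exact one_ne_zero h5
  -- the left side
  have h5 : (fun τ : Finset U =>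
      if τ ∈ M ∧ τ.card = n + 1 then ∑ v ∈ τ, R (τ.erase v) else 0) =
      fun τ : Finset U => ∑ᶠ r : Finset U,
      if τ ∈ M ∧ τ.card = n + 1 ∧ r ⊆ τ ∧ r.card = n then R r else 0 := by
    funext τ
    by_cases hτ : τ ∈ M ∧ τ.card = n + 1
    · rw [if_pos hτ]
      have h6 : ∀ r : Finset U, (if τ ∈ M ∧ τ.card = n + 1 ∧ r ⊆ τ ∧ r.card = n then R r else 0) =
          if r ∈ τ.powersetCard n then R r else 0 := by
        intro r
        have h7 : (τ ∈ M ∧ τ.card = n + 1 ∧ r ⊆ τ ∧ r.card = n) ↔ r ∈ τ.powersetCard n := by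
          rw [mem_powersetCard]
          exact ⟨fun h => h.2.2, fun h => ⟨hτ.1, hτ.2, h⟩⟩
        simp only [h7]
      rw [finsum_congr h6, finsum_eq_sum_of_support_subset (s := τ.powersetCard n) _ (by
        intro r hr
        rw [Function.mem_support] at hr
        by_contra h8
        exact hr (if_neg h8)), sum_congr rfl fun r hr => if_pos hr]
      rw [powersetCard_image_erase hτ.2, sum_image (Finset.erase_injOn τ)]
    · rw [if_neg hτ]
      exact (finsum_eq_zero_of_forall_eq_zero fun r => if_neg fun h => hτ ⟨h.1, h.2.1⟩).symm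
  -- the right side
  have h6 : (fun r : Finset U => ∑ᶠ τ : Finset U,
      if τ ∈ M ∧ τ.card = n + 1 ∧ r ⊆ τ ∧ r.card = n then R r else 0) = fun _ => 0 := by
    funext r
    by_cases hr : R r = 0
    · refine finsum_eq_zero_of_forall_eq_zero fun τ => ?_
      rw [hr, ite_self]
    · obtain ⟨S, hS'⟩ := hS
      obtain ⟨r', h10, h12, h13, -⟩ := hS' r hr
      by_cases hrM : r ∈ M ∧ r.card = n
      · have hB : r ∉ B := fun h => h13 (hM.bd_down r h r' h10 (hM.ne r' h12))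
        have h14 : ∀ τ : Finset U,
            (if τ ∈ M ∧ τ.card = n + 1 ∧ r ⊆ τ ∧ r.card = n then R r else 0) =
            if τ ∈ cofs M r (n + 1) then R r else 0 := by
          intro τ
          have h15 : (τ ∈ M ∧ τ.card = n + 1 ∧ r ⊆ τ ∧ r.card = n) ↔ τ ∈ cofs M r (n + 1) := by
            rw [mem_cofsP hM hrM.1]
            exact ⟨fun h => ⟨h.1, h.2.2.1, h.2.1⟩, fun h => ⟨h.1, h.2.2, h.2.1, hrM.2⟩⟩
          simp only [h15]
        rw [finsum_congr h14, finsum_eq_sum_of_support_subset (s := cofs M r (n + 1)) _ (by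
          intro τ hτ
          rw [Function.mem_support] at hτ
          by_contra h8
          exact hτ (if_neg h8)), sum_congr rfl fun τ hτ => if_pos hτ, sum_const,
          ← Nat.cast_smul_eq_nsmul (ZMod 2), even_cofs hM hrM.1 hB hrM.2, zero_smul]
      · refine finsum_eq_zero_of_forall_eq_zero fun τ => if_neg fun h => hrM ⟨?_, h.2.2.2⟩
        exact hM.down τ h.1 r h.2.2.1 (hM.ne r' h12 |>.mono h10)
  have h7 : (fun τ : Finset U => open Classical in
      if τ ∈ M ∧ τ.card = n + 1 then ∑ v ∈ τ, R (τ.erase v) else 0) =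
      fun τ : Finset U => ∑ᶠ r : Finset U,
      if τ ∈ M ∧ τ.card = n + 1 ∧ r ⊆ τ ∧ r.card = n then R r else 0 := by
    rw [← h5]
  rw [h7, h4, h6]
  unfold osum
  exact finsum_zero

/-! ### the integral -/

variable {C : Type} [MulAction Γ C] {K : Type} [Field K] {E : Type} [AddCommGroup E] [Module K E]

/-- equivariant functions of tuples -/
def TEq (ρ : Γ →* Module.End K E) (x : List C → E) : Prop :=
  ∀ (γ : Γ) (L : List C), x (L.map (γ • ·)) = ρ γ (x L)

open Classical in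
/-- the integral of the product of the function `x` of the tuples of `k + 1` elements and the cochain `w` -/
noncomputable def ITM (Γ : Type) [Group Γ] [MulAction Γ U] (M : Set (Finset U)) (n : ℕ) (ht : U → ℕ)
    (f : U → C) (k : ℕ) (x : List C → E) (w : Finset U → (E →ₗ[K] K)) : K :=
  osum Γ fun τ : Finset U =>
    if τ ∈ M ∧ τ.card = n + 1 then gP ht k (fun L => x (L.map f)) w τ else 0

/-- equivariant functions with values in the dual of `ρ` -/
def DEq (ρ : Γ →* Module.End K E) (w : Finset U → (E →ₗ[K] K)) : Prop :=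
  ∀ (γ : Γ) (τ : Finset U) (e : E), w (γ • τ) (ρ γ e) = w τ e

theorem gP_inv {ρ : Γ →* Module.End K E} (hA : MAct Γ M B n ht) {f : U → C} (hf : IsVMap Γ f)
    {x : List C → E} (hx : TEq ρ x) {w : Finset U → (E →ₗ[K] K)} (hw : DEq ρ w) (k : ℕ) (γ : Γ)
    (τ : Finset U) : gP ht k (fun L => x (L.map f)) w (γ • τ) = gP ht k (fun L => x (L.map f)) w τ := by
  refine gP_smul (fun u => hA.ht_smul γ u) (ρ γ) k (fun l => ?_) fun t _ e => hw γ t e
  rw [← hx γ, List.map_map, List.map_map]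
  exact congrArg x (List.map_congr_left fun u _ => hf γ u)

theorem gP_sup {w : Finset U → (E →ₗ[K] K)} (hS : SupC Γ M B w) (k : ℕ) (x : List U → E) :
    SupC Γ M B (gP ht k x w) := hS.of_ne fun _ h => gP_ne_zero k h

theorem ITM_add_right (hM : Psm M B n) (hA : MAct Γ M B n ht) (f : U → C) (k : ℕ) (x : List C → E)
    {w w' : Finset U → (E →ₗ[K] K)} (hS : SupC Γ M B w) (hS' : SupC Γ M B w') :
    ITM Γ M n ht f k x (fun t => w t + w' t) = ITM Γ M n ht f k x w + ITM Γ M n ht f k x w' := by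
  classical
  obtain ⟨F, hF⟩ := (gP_sup (ht := ht) hS k fun L => x (L.map f)).fin_top hM hA
  obtain ⟨F', hF'⟩ := (gP_sup (ht := ht) hS' k fun L => x (L.map f)).fin_top hM hA
  have hne : ∀ {w : Finset U → (E →ₗ[K] K)} {τ : Finset U}, (if τ ∈ M ∧ τ.card = n + 1 then
      gP ht k (fun L => x (L.map f)) w τ else 0) ≠ 0 → τ ∈ M ∧
        gP ht k (fun L => x (L.map f)) w τ ≠ 0 := by
    intro w τ h
    by_cases hc : τ ∈ M ∧ τ.card = n + 1
    · rw [if_pos hc] at h
      exact ⟨hc.1, h⟩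
    · rw [if_neg hc] at h
      exact absurd rfl h
  unfold ITM
  rw [← osum_add _ _ ⟨F, fun τ h => hF τ (hne h).1 (hne h).2⟩ ⟨F', fun τ h => hF' τ (hne h).1 (hne h).2⟩]
  congr 1
  funext τ
  split_ifs
  · exact gP_add_right k _ _ _ τ
  · rw [add_zero]

/-- **Stokes for the integral.** -/
theorem ITM_stokes [CharP K 2] (hM : Psm M B n) (hA : MAct Γ M B n ht) {f : U → C}
    (hf : IsVMap Γ f) {ρ : Γ →* Module.End K E} {y : List C → E} (hy : TEq ρ y)
    {w : Finset U → (E →ₗ[K] K)} (hw : DEq ρ w) (hS : SupC Γ M B w) {k : ℕ} (hk : k + 1 ≤ n) :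
    ITM Γ M n ht f (k + 1) (dT y) w = ITM Γ M n ht f k y (cobM w) := by
  classical
  have h1 := stokesR (Γ := Γ) CharTwo.add_self_eq_zero hM hA
    (R := gP ht k (fun L => y (L.map f)) w)
    (fun γ r _ => gP_inv hA hf hy hw k γ r) (gP_sup hS k _)
  have hdT : ∀ L : List U, dT (fun L => y (L.map f)) L = dT y (L.map f) := fun L => dT_map f L y
  have hS' : SupC Γ M B (cobM w) := hS.of_ne fun τ h => by
    obtain ⟨v, _, hv⟩ := exists_ne_zero_of_sum_ne_zero h
    exact ⟨_, erase_subset v τ, hv⟩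
  have h2 : osum Γ (fun τ : Finset U => if τ ∈ M ∧ τ.card = n + 1 then
      ∑ v ∈ τ, gP ht k (fun L => y (L.map f)) w (τ.erase v) else 0) =
      osum Γ (fun τ : Finset U => (if τ ∈ M ∧ τ.card = n + 1 then
        gP ht (k + 1) (fun L => dT y (L.map f)) w τ else 0) +
        if τ ∈ M ∧ τ.card = n + 1 then gP ht k (fun L => y (L.map f)) (cobM w) τ else 0) := by
    congr 1
    funext τ
    split_ifs with hτ
    · have h3 := cob_gP (ht := ht) k (fun L => y (L.map f)) w (hA.ht_inj τ hτ.1) (by omega)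
      rw [show (fun L => dT y (L.map f)) = dT (fun L => y (L.map f)) from
        funext fun L => (hdT L).symm]
      exact h3
    · rw [add_zero]
  obtain ⟨F, hF⟩ := (gP_sup (ht := ht) hS (k + 1) fun L => dT y (L.map f)).fin_top hM hA
  obtain ⟨F', hF'⟩ := (gP_sup (ht := ht) hS' k fun L => y (L.map f)).fin_top hM hA
  have hne : ∀ {k : ℕ} {x : List C → E} {w : Finset U → (E →ₗ[K] K)} {τ : Finset U},
      (if τ ∈ M ∧ τ.card = n + 1 then
      gP ht k (fun L => x (L.map f)) w τ else 0) ≠ 0 → τ ∈ M ∧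
        gP ht k (fun L => x (L.map f)) w τ ≠ 0 := by
    intro k x w τ h
    by_cases hc : τ ∈ M ∧ τ.card = n + 1
    · rw [if_pos hc] at h
      exact ⟨hc.1, h⟩
    · rw [if_neg hc] at h
      exact absurd rfl h
  have h4 : osum Γ (fun τ : Finset U => if τ ∈ M ∧ τ.card = n + 1 then
      ∑ v ∈ τ, gP ht k (fun L => y (L.map f)) w (τ.erase v) else 0) = 0 := by
    refine Eq.trans ?_ h1
    congr! 1
  rw [h4, osum_add _ _ ⟨F, fun τ h => hF τ (hne h).1 (hne h).2⟩
    ⟨F', fun τ h => hF' τ (hne h).1 (hne h).2⟩] at h2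
  have h5 := CharTwo.add_self_eq_zero (ITM Γ M n ht f (k + 1) (dT y) w)
  have h6 : ITM Γ M n ht f (k + 1) (dT y) w + ITM Γ M n ht f k y (cobM w) = 0 := h2.symm
  exact add_left_cancel (h5.trans h6.symm)

end Pool.Agent.S9
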