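import Pool.Agent.S9.MCl
import Pool.Agent.S9.M.Cmp
import Pool.Agent.S9.M.AabN

/-!
# Project S9, block M: the sum over the cubes is the integral over the top simplices

`M_top`: for a scalar cocycle `x` on the tuples and a cycle `z` of the cover, the sum of `x (TT e) (z e) ^ 2` over the
cubes `e` modulo `Γ` is the integral of `a cup_(n - i) a` against `x`, where `a` is the dual cochain of `z`.
-/

set_option autoImplicit false
set_option linter.unusedSectionVars false

open Finset Pointwise

namespace Pool.Agent.S9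

open Pool.Agent.H19.Cub Pool.Agent.H77.SX Pool.Agent.H37.TM Pool.Agent.S9.M Pool.Agent.S9.U

section Top

variable {U : Type} [DecidableEq U] {ht : U → ℕ} {K : Type} [Field K]

theorem face1_full (s : Finset U) : face1 ht s s = s := by
  unfold face1
  exact filter_true_of_mem fun v hv => Or.inl hv

theorem face2_full (s : Finset U) : face2 ht s s = s := by
  unfold face2
  exact filter_true_of_mem fun v hv => Or.inl hv

/-- the cup product at a simplex of minimal dimension -/
theorem cupB_full {A A' Y : Type} [AddCommGroup A] [Module K A] [AddCommGroup A'] [Module K A']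
    [AddCommGroup Y] [Module K Y] {m : ℕ} (b : A →ₗ[K] A' →ₗ[K] Y) (x : Finset U → A)
    (y : Finset U → A') {s : Finset U} (hs : s.card = m) : cupB ht m b x y s = b (x s) (y s) := by
  unfold cupB
  rw [← hs, powersetCard_self, sum_singleton, face1_full, face2_full]

/-- the product with a tuple function at a top simplex -/
theorem gP_top {E : Type} [AddCommGroup E] [Module K E] {t : Finset U} {n : ℕ}
    (hinj : Set.InjOn ht (t : Set U)) (hle : ∀ u ∈ t, ht u ≤ n) (hcard : t.card = n + 1)
    {m : ℕ} (hm : m ≤ n) (x : List U → E) (w : Finset U → (E →ₗ[K] K)) :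
    gP ht m x w t = w (t.filter fun u => m ≤ ht u) (x (frontL ht t m)) ∧
      (t.filter fun u => m ≤ ht u).card = n + 1 - m := by
  classical
  have himg : t.image ht = range (n + 1) := by
    refine eq_of_subset_of_card_le (fun i hi => ?_) ?_
    · obtain ⟨u, hu, rfl⟩ := mem_image.1 hi
      exact mem_range.2 (by have := hle u hu; omega)
    · rw [card_image_of_injOn hinj, hcard, card_range]
  have hv : ∀ i, i ≤ n → ∃ u ∈ t, ht u = i := fun i hi => by
    have h1 : i ∈ t.image ht := by
      rw [himg]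
      exact mem_range.2 (by omega)
    obtain ⟨u, hu, h⟩ := mem_image.1 h1
    exact ⟨u, hu, h⟩
  have hne : t.Nonempty := card_pos.1 (by omega)
  obtain ⟨u0, _⟩ := hne
  have hv' : ∀ i, ∃ u, i ≤ n → u ∈ t ∧ ht u = i := fun i => by
    by_cases hi : i ≤ n
    · obtain ⟨u, hu⟩ := hv i hi
      exact ⟨u, fun _ => hu⟩
    · exact ⟨u0, fun h => absurd h hi⟩
  choose v hv using hv'
  have hlow : ∀ k, k ≤ n → lows ht (t.filter fun u => k ≤ ht u) = {v k} := fun k hk => by
    refine lows_eq (hinj.mono ?_) ?_ ?_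
    · exact_mod_cast filter_subset _ t
    · rw [mem_filter]
      exact ⟨(hv k hk).1, (hv k hk).2.ge⟩
    · intro u hu
      rw [(hv k hk).2]
      exact (mem_filter.1 hu).2
  have herase : ∀ k, k ≤ n → (t.filter fun u => k ≤ ht u).erase (v k) =
      t.filter fun u => k + 1 ≤ ht u := fun k hk => by
    ext u
    rw [mem_erase, mem_filter, mem_filter]
    constructor
    · rintro ⟨h1, h2, h3⟩
      refine ⟨h2, lt_of_le_of_ne h3 fun h4 => h1 ?_⟩
      exact hinj h2 (hv k hk).1 (by rw [(hv k hk).2, ← h4])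
    · rintro ⟨h2, h3⟩
      refine ⟨?_, h2, by omega⟩
      rintro rfl
      rw [(hv k hk).2] at h3
      omega
  have hcardk : ∀ k, k ≤ n + 1 → (t.filter fun u => k ≤ ht u).card = n + 1 - k := fun k => by
    induction k with
    | zero =>
      intro _
      rw [filter_true_of_mem (fun u _ => Nat.zero_le _), hcard, Nat.sub_zero]
    | succ k ih =>
      intro hk
      rw [← herase k (by omega), card_erase_of_mem, ih (by omega)]
      · omega
      · rw [mem_filter]
        exact ⟨(hv k (by omega)).1, (hv k (by omega)).2.ge⟩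
  have key2 : ∀ (m k : ℕ) (x : List U → E), k + m ≤ n →
      gP ht m x w (t.filter fun u => k ≤ ht u) =
        w (t.filter fun u => k + m ≤ ht u) (x ((List.range' k (m + 1)).map v)) := by
    intro m
    induction m with
    | zero =>
      intro k x hk
      rw [gP_zero, hlow k (by omega), sum_singleton]
      rfl
    | succ m ih =>
      intro k x hk
      rw [gP_succ, hlow k (by omega), sum_singleton, herase k (by omega), ih (k + 1) _ (by omega)]
      have h2 : List.range' k (m + 1 + 1) = k :: List.range' (k + 1) (m + 1) := by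
        rw [List.range'_succ]
      rw [h2, List.map_cons]
      have h4 : (fun u => k + 1 + m ≤ ht u) = fun u => k + (m + 1) ≤ ht u := by
        funext u
        rw [show k + 1 + m = k + (m + 1) by omega]
      simp only [h4]
  refine ⟨?_, hcardk m (by omega)⟩
  have h5 := key2 m 0 x (by omega)
  rw [filter_true_of_mem (fun u _ => Nat.zero_le _)] at h5
  simp only [zero_add] at h5
  rw [h5]
  have h6 : frontL ht t m = (List.range' 0 (m + 1)).map v := by
    unfold frontL
    rw [List.range_eq_range', List.map_eq_flatMap]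
    refine List.flatMap_congr fun i hi => ?_
    have hi' : i ≤ n := by
      rw [List.mem_range'] at hi
      obtain ⟨j, hj, rfl⟩ := hi
      omega
    have h6 : (t.filter fun u => ht u = i) = {v i} := by
      ext u
      rw [mem_filter, mem_singleton]
      constructor
      · rintro ⟨h7, h8⟩
        exact hinj h7 (hv i hi').1 (h8.trans (hv i hi').2.symm)
      · rintro rfl
        exact ⟨(hv i hi').1, (hv i hi').2⟩
    rw [h6, toList_singleton]
  rw [h6]

end Top

variable {V X U Γ K : Type} [DecidableEq V] [DecidableEq U] [Group Γ] [MulAction Γ U]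
  {Q : CubeComplex V X} {x₀ : X} [MulAction Γ (Q.Cover x₀)] {bit : X → V → ZMod 2}
  [Field K] [Algebra (ZMod 2) K] {M B : Set (Finset U)} {n : ℕ} {ht : U → ℕ}

/-- the form `T n n' e = n n' e` on the field -/
def TK (K : Type) [Field K] : K →ₗ[K] K →ₗ[K] K →ₗ[K] K :=
  LinearMap.mk₂ K (fun a b => (a * b) • LinearMap.id) (fun a a' b => by rw [add_mul, add_smul])
    (fun c a b => by rw [smul_eq_mul, mul_assoc, mul_smul])
    (fun a b b' => by rw [mul_add, add_smul])
    (fun c a b => by rw [smul_eq_mul, mul_left_comm, mul_smul])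

theorem TK_apply (a b e : K) : TK K a b e = a * b * e := rfl

/-- a cocycle on the tuples vanishes on the boundaries -/
theorem lin_BL {C : Type} {x : List C → K} (hx : ∀ L, dT x L = 0) (y : List C →₀ ZMod 2) :
    lin x (BL y) = 0 := by
  classical
  induction y using Finsupp.induction_linear with
  | zero => rw [map_zero, map_zero]
  | add f g hf hg => rw [map_add, map_add, hf, hg, add_zero]
  | single L a =>
    rcases (by decide : ∀ a : ZMod 2, a = 0 ∨ a = 1) a with rfl | rfl
    · rw [Finsupp.single_zero, map_zero, map_zero]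
    · rw [BL_single, ← dT_eq, hx]

/-- **The sum over the cubes is the integral over the top simplices.** -/
theorem M_top [Fintype V] [Fintype X] [CharP K 2] (hbit : IsBit Q bit)
    (hΓ : IsDeck Γ Q x₀) (hM : Psm M B n)
    (hA : MAct Γ M B n ht) {f : U → Q.Cover x₀} (hf : IsVMap Γ f)
    {Ψ : Q.Cover x₀ × Finset V → (Finset U × Finset U →₀ ZMod 2)}
    (hΨ : IsPsi Γ Q x₀ bit M B n Ψ) (χ : Γ →* Kˣ) {x : List (Q.Cover x₀) → K}
    (hx : ∀ L, dT x L = 0) (hxe : TEq (ch (im2 χ)) x)
    {i : ℕ} (hi : 1 ≤ i) (hin : i ≤ n) {z : Q.Cover x₀ × Finset V → K} (hz : CycN Q x₀ i z)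
    (hze : ∀ (γ : Γ) (e : Q.Cover x₀ × Finset V), z (γ • e) = (χ γ : K) * z e) :
    osum Γ (fun e : Q.Cover x₀ × Finset V => open Classical in
      if e ∈ Cell Q x₀ bit i then lin x (TT Q x₀ e) * z e ^ 2 else 0) =
    ITM Γ M n ht f i x (cupB ht (n + 1 - i) (TK K) (aN Q x₀ bit i Ψ z) (aN Q x₀ bit i Ψ z)) := by
  classical
  obtain ⟨d, rfl⟩ : ∃ d', i = d' + 1 := ⟨i - 1, by omega⟩
  have hW : Wt Γ Q x₀ (fun γ => (χ γ : K)) x z := by
    refine ⟨lin_BL hx, fun γ L => ?_, hze⟩
    rw [hxe]
    show ((im2 χ γ : Kˣ) : K) * x L * (χ γ : K) ^ 2 = x L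
    have h1 : ((im2 χ γ : Kˣ) : K) * (χ γ : K) ^ 2 = 1 := by
      rw [im2_apply, ← Units.val_pow_eq_pow_val, Units.inv_mul]
    rw [mul_right_comm, h1, one_mul]
  rw [topb hbit hΓ hM hA hf hΨ ⟨hz.valid, hz.nb, hz.bd⟩ hW (by omega)]
  unfold ITM
  congr 1
  funext τ
  by_cases hτ : τ ∈ M ∧ τ.card = n + 1
  · rw [if_pos hτ, if_pos hτ]
    obtain ⟨h1, h2⟩ := gP_top (hA.ht_inj τ hτ.1) (hA.ht_le τ hτ.1) hτ.2 hin
      (fun L => x (L.map f)) (cupB ht (n + 1 - (d + 1)) (TK K) (aN Q x₀ bit (d + 1) Ψ z)
        (aN Q x₀ bit (d + 1) Ψ z))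
    rw [h1, cupB_full _ _ _ h2, TK_apply, aN_eq_aab]
    ring
  · rw [if_neg hτ, if_neg hτ]

end Pool.Agent.S9
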