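import Pool.Agent.S9.MTop

/-!
# Project S9, block M: cubes of dimension greater than the dimension of the manifold
-/

set_option autoImplicit false
set_option linter.unusedSectionVars false

open Finset Pointwise

namespace Pool.Agent.S9

open Pool.Agent.H19.Cub Pool.Agent.H77.SX Pool.Agent.H37.TM Pool.Agent.S9.M Pool.Agent.S9.U

variable {V X U Γ K : Type} [DecidableEq V] [DecidableEq U] [Group Γ] [MulAction Γ U]
  {Q : CubeComplex V X} {x₀ : X} [MulAction Γ (Q.Cover x₀)] {bit : X → V → ZMod 2}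
  [Field K] [Algebra (ZMod 2) K] {M B : Set (Finset U)} {n : ℕ} {ht : U → ℕ}

/-- **The sum over the cubes is zero in the degrees above the dimension.** -/
theorem M_top_gt [Fintype V] [Fintype X] [CharP K 2] (hbit : IsBit Q bit)
    (hΓ : IsDeck Γ Q x₀) (hM : Psm M B n)
    (hA : MAct Γ M B n ht) {f : U → Q.Cover x₀} (hf : IsVMap Γ f)
    {Ψ : Q.Cover x₀ × Finset V → (Finset U × Finset U →₀ ZMod 2)}
    (hΨ : IsPsi Γ Q x₀ bit M B n Ψ) (χ : Γ →* Kˣ) {x : List (Q.Cover x₀) → K}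
    (hx : ∀ L, dT x L = 0) (hxe : TEq (ch (im2 χ)) x)
    {i : ℕ} (hin : n < i) {z : Q.Cover x₀ × Finset V → K} (hz : CycN Q x₀ i z)
    (hze : ∀ (γ : Γ) (e : Q.Cover x₀ × Finset V), z (γ • e) = (χ γ : K) * z e) :
    osum Γ (fun e : Q.Cover x₀ × Finset V => open Classical in
      if e ∈ Cell Q x₀ bit i then lin x (TT Q x₀ e) * z e ^ 2 else 0) = 0 := by
  classical
  obtain ⟨d, rfl⟩ : ∃ d', i = d' + 1 := ⟨i - 1, by omega⟩
  have hW : Wt Γ Q x₀ (fun γ => (χ γ : K)) x z := by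
    refine ⟨lin_BL hx, fun γ L => ?_, hze⟩
    rw [hxe]
    show ((im2 χ γ : Kˣ) : K) * x L * (χ γ : K) ^ 2 = x L
    have h1 : ((im2 χ γ : Kˣ) : K) * (χ γ : K) ^ 2 = 1 := by
      rw [im2_apply, ← Units.val_pow_eq_pow_val, Units.inv_mul]
    rw [mul_right_comm, h1, one_mul]
  obtain ⟨H, hH1, hH2⟩ := exists_homotopy hbit hΓ hM hA hΨ hf
  have h1 := cmpb hbit hΓ (d := d) ⟨hz.valid, hz.nb, hz.bd⟩ hW
    (F := fun e => TT Q x₀ e + Phi M n ht f (Ψ e)) hH1 hH2
  refine Eq.trans ?_ h1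
  congr 1
  funext e
  by_cases he : e ∈ Cell Q x₀ bit (d + 1)
  · rw [if_pos he, if_pos he]
    have h2 : Ψ e = 0 := by
      ext ⟨σ, τ⟩
      by_contra h3
      have h4 := (Finsupp.mem_supported _ _).1 (hΨ.mem _ e he) (Finsupp.mem_support_iff.2 h3)
      obtain ⟨h5, h6, h7, h8, h9⟩ := h4
      have h10 := hM.card_le _ h7
      have h11 := card_le_card h6
      dsimp only at h9 h10 h11
      omega
    have h3 : Phi M n ht f (Ψ e) = 0 := by
      rw [h2]
      unfold Phi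
      rw [map_zero, Finsupp.mapDomain_zero]
    rw [h3, add_zero]
  · rw [if_neg he, if_neg he]

end Pool.Agent.S9
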