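import Pool.Agent.S9.E.Main
import Pool.Agent.S9.G.Fin
import Pool.Agent.S9.F.Main
import Pool.Agent.S9.TLev

/-!
# Project S9: the closed case
-/

set_option autoImplicit false
set_option linter.unusedSectionVars false

open Finset

namespace Pool.Agent.S9

open Pool.Agent.H73.GC Pool.Agent.H19.SR

variable {V : Type} [DecidableEq V] [Fintype V]

/-- **S9, closed case**: the mod 2 homology growth of the right-angled Coxeter group of a flag homology sphere vanishes
above the middle -/
theorem S9_closed {G : SimpleGraph V} {n i : ℕ} (hS : IsSph G n) (hi : n < 2 * i) : GZ G univ i := by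
  obtain ⟨W, _, ⟨R⟩⟩ := rac_ex G
  obtain ⟨Γ, K, _, _, χ, hΓ, h1, h2⟩ := E_main R i
  exact h2 fun z₀ hz => F_main R hS hi hΓ χ (G_main R hΓ K _) z₀ hz (h1 z₀ hz)

end Pool.Agent.S9
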