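import Pool.Agent.S9.GDefs

/-!
# Project S9, block G: inverses of representative functions, points and dual functions

`rp_inv`: `x ↦ f x⁻¹` is representative; `exists_pts`: points and dual functions of a finite-dimensional space of
functions; the closure properties of the functions on `W` which are representative with respect to `Γ`.
-/

set_option autoImplicit false
set_option linter.unusedSectionVars false

open Finset

namespace Pool.Agent.S9

namespace RI

section

variable {K : Type} [Field K] {H : Type} [Group H] {Λ : Subgroup Kˣ}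

/-- the span of the first `n` members -/
def SP (n : ℕ) (F : ℕ → H → K) : Submodule K (H → K) := Submodule.span K (Set.range fun j : Fin n => F j)

theorem mem_SP {n : ℕ} {F : ℕ → H → K} {f : H → K} :
    f ∈ SP n F ↔ ∃ c : ℕ → K, ∀ x, f x = ∑ j ∈ range n, c j * F j x := by
  unfold SP
  rw [Submodule.mem_span_range_iff_exists_fun]
  constructor
  · rintro ⟨c, rfl⟩
    refine ⟨fun j => if h : j < n then c ⟨j, h⟩ else 0, fun x => ?_⟩
    rw [Finset.sum_apply, ← Fin.sum_univ_eq_sum_range
      (fun j => (if h : j < n then c ⟨j, h⟩ else 0) * F j x) n]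
    refine sum_congr rfl fun j _ => ?_
    rw [dif_pos j.2]
    rfl
  · rintro ⟨c, hc⟩
    refine ⟨fun j => c j, ?_⟩
    funext x
    rw [hc, Finset.sum_apply, ← Fin.sum_univ_eq_sum_range (fun j => c j * F j x) n]
    rfl

theorem SP_mem {n i : ℕ} (F : ℕ → H → K) (h : i < n) : F i ∈ SP n F :=
  Submodule.subset_span ⟨⟨i, h⟩, rfl⟩

theorem SP_le {n : ℕ} {F : ℕ → H → K} {M : Submodule K (H → K)} (h : ∀ i < n, F i ∈ M) : SP n F ≤ M := by
  refine Submodule.span_le.2 ?_
  rintro _ ⟨j, rfl⟩
  exact h j j.2

theorem SP_mono {n m : ℕ} (F : ℕ → H → K) (h : n ≤ m) : SP n F ≤ SP m F :=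
  SP_le fun _ hi => SP_mem F (hi.trans_le h)

theorem SP_congr {n : ℕ} {F G : ℕ → H → K} (h : ∀ i < n, F i = G i) : SP n F = SP n G :=
  le_antisymm (SP_le fun i hi => h i hi ▸ SP_mem G hi) (SP_le fun i hi => (h i hi).symm ▸ SP_mem F hi)

theorem ts_iff {n : ℕ} {F : ℕ → H → K} : TS Λ n F ↔ ∀ i < n, ∃ lam : H →* Kˣ, (∀ g, lam g ∈ Λ) ∧
    ∀ g, (fun x => F i (x * g) - lam g * F i x) ∈ SP i F := by
  constructor
  · intro h i hi
    obtain ⟨lam, a, hl, ha⟩ := h i hi
    exact ⟨lam, hl, fun g => mem_SP.2 ⟨a g, fun x => by rw [ha]; ring⟩⟩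
  · intro h i hi
    obtain ⟨lam, hl, ha⟩ := h i hi
    choose a ha using fun g => mem_SP.1 (ha g)
    exact ⟨lam, a, hl, fun x g => by linear_combination ha g x⟩

theorem ts_mono {n m : ℕ} {F : ℕ → H → K} (h : TS Λ n F) (hm : m ≤ n) : TS Λ m F :=
  fun i hi => h i (hi.trans_le hm)

/-- the span is stable under right translations -/
theorem SP_rt {n m : ℕ} {F : ℕ → H → K} (h : TS Λ n F) (hm : m ≤ n) {f : H → K} (hf : f ∈ SP m F) (g : H) :
    (fun x => f (x * g)) ∈ SP m F := by
  have h1 : SP m F ≤ (SP m F).comap (LinearMap.funLeft K K fun x : H => x * g) := by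
    refine SP_le fun i hi => ?_
    obtain ⟨lam, hl, ha⟩ := ts_iff.1 h i (hi.trans_le hm)
    have h2 : (LinearMap.funLeft K K fun x : H => x * g) (F i) =
        (fun x => F i (x * g) - lam g * F i x) + (lam g : K) • F i := by
      funext x
      simp only [LinearMap.funLeft_apply, Pi.add_apply, Pi.smul_apply, smul_eq_mul]
      ring
    rw [Submodule.mem_comap, h2]
    exact add_mem (SP_mono F hi.le (ha g)) (Submodule.smul_mem _ _ (SP_mem F hi))
  exact h1 hf

/-- an element of the span of a triangular sequence is representative -/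
theorem rp_of_span {n : ℕ} {F : ℕ → H → K} (hF : TS Λ n F) {f : H → K} (hf : f ∈ SP n F) : Rp Λ f := by
  refine ⟨n + 1, fun j => if j < n then F j else f, ts_iff.2 fun i hi => ?_, n, Nat.lt_succ_self n, by simp⟩
  have h0 : SP i (fun j => if j < n then F j else f) = SP i F :=
    SP_congr fun j hj => by rw [if_pos (by omega)]
  rw [h0]
  by_cases h : i < n
  · simp only [if_pos h]
    exact ts_iff.1 hF i h
  · have hin : i = n := by omega
    subst hin
    simp only [if_neg h]
    refine ⟨1, fun g => Λ.one_mem, fun g => ?_⟩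
    have h1 : (fun x => f (x * g) - ((1 : H →* Kˣ) g : K) * f x) = (fun x => f (x * g)) - f := by
      funext x
      simp
    rw [h1]
    exact sub_mem (SP_rt hF le_rfl hf g) hf

theorem rp_mem {f : H → K} (h : Rp Λ f) : ∃ (n : ℕ) (F : ℕ → H → K), TS Λ n F ∧ f ∈ SP n F := by
  obtain ⟨n, F, hF, i, hi, rfl⟩ := h
  exact ⟨n, F, hF, SP_mem F hi⟩

/-- concatenation of triangular sequences -/
theorem ts_app {n m : ℕ} {F G : ℕ → H → K} (hF : TS Λ n F) (hG : TS Λ m G) :
    ∃ E : ℕ → H → K, TS Λ (n + m) E ∧ SP n F ≤ SP (n + m) E ∧ SP m G ≤ SP (n + m) E := by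
  have e1 : ∀ j, j < n → (fun j => if j < n then F j else G (j - n)) j = F j := fun j hj => if_pos hj
  have e2 : ∀ j, (fun j => if j < n then F j else G (j - n)) (n + j) = G j := fun j => by
    show (if n + j < n then F (n + j) else G (n + j - n)) = G j
    rw [if_neg (by omega), Nat.add_sub_cancel_left]
  generalize (fun j => if j < n then F j else G (j - n)) = E at e1 e2
  have h2 : ∀ j, SP j G ≤ SP (n + j) E := fun j => SP_le fun i hi => e2 i ▸ SP_mem E (by omega)
  refine ⟨E, ts_iff.2 fun i hi => ?_, SP_le fun i hi => e1 i hi ▸ SP_mem E (by omega), h2 m⟩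
  by_cases h : i < n
  · obtain ⟨lam, hl, ha⟩ := ts_iff.1 hF i h
    refine ⟨lam, hl, fun g => ?_⟩
    rw [e1 i h, SP_congr fun j hj => e1 j (hj.trans h)]
    exact ha g
  · obtain ⟨j, rfl⟩ := Nat.exists_eq_add_of_le (not_lt.1 h)
    obtain ⟨lam, hl, ha⟩ := ts_iff.1 hG j (by omega)
    refine ⟨lam, hl, fun g => ?_⟩
    rw [e2 j]
    exact h2 j (ha g)

/-- sums of representative functions -/
theorem rp_add {f g : H → K} (hf : Rp Λ f) (hg : Rp Λ g) : Rp Λ (f + g) := by
  obtain ⟨n, F, hF, hf⟩ := rp_mem hf
  obtain ⟨m, G, hG, hg⟩ := rp_mem hg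
  obtain ⟨E, hE, h1, h2⟩ := ts_app hF hG
  exact rp_of_span hE (add_mem (h1 hf) (h2 hg))

theorem rp_smul {f : H → K} (a : K) (hf : Rp Λ f) : Rp Λ (a • f) := by
  obtain ⟨n, F, hF, hf⟩ := rp_mem hf
  exact rp_of_span hF (Submodule.smul_mem _ a hf)

theorem rp_zero : Rp Λ (0 : H → K) :=
  rp_of_span (n := 0) (F := fun _ => 0) (fun i hi => absurd hi (Nat.not_lt_zero i)) (Submodule.zero_mem _)

/-- the space of the representative functions -/
def Orep (Λ : Subgroup Kˣ) (H : Type) [Group H] : Submodule K (H → K) where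
  carrier := {f | Rp Λ f}
  zero_mem' := rp_zero
  add_mem' := fun hf hg => rp_add hf hg
  smul_mem' := fun a _ hf => rp_smul a hf

/-- a triangular sequence can be made linearly independent -/
theorem ts_indep {n : ℕ} {F : ℕ → H → K} (h : TS Λ n F) :
    ∃ (m : ℕ) (e : ℕ → H → K), TS Λ m e ∧ LinearIndependent K (fun i : Fin m => e i) ∧ SP n F ≤ SP m e := by
  induction n with
  | zero =>
    exact ⟨0, F, fun i hi => absurd hi (Nat.not_lt_zero i), linearIndependent_empty_type, le_rfl⟩
  | succ n ih =>
    obtain ⟨m, e, he, hli, hle⟩ := ih (ts_mono h (Nat.le_succ n))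
    by_cases hm : F n ∈ SP m e
    · refine ⟨m, e, he, hli, SP_le fun i hi => ?_⟩
      by_cases h' : i < n
      · exact hle (SP_mem F h')
      · have : i = n := by omega
        exact this ▸ hm
    · have e1 : ∀ j, j < m → (fun j => if j < m then e j else F n) j = e j := fun j hj => if_pos hj
      have e2 : (fun j => if j < m then e j else F n) m = F n := if_neg (lt_irrefl m)
      have e3 : (fun i : Fin (m + 1) => (fun j => if j < m then e j else F n) i) =
          (Fin.snoc (fun i : Fin m => e i) (F n) : Fin (m + 1) → (H → K)) := by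
        funext i
        refine Fin.lastCases ?_ (fun j => ?_) i
        · rw [Fin.snoc_last]
          simp
        · rw [Fin.snoc_castSucc]
          simp
      generalize (fun j => if j < m then e j else F n) = E at e1 e2 e3
      refine ⟨m + 1, E, ts_iff.2 fun i hi => ?_, ?_, SP_le fun i hi => ?_⟩
      · by_cases h' : i < m
        · rw [e1 i h', SP_congr fun j hj => e1 j (hj.trans h')]
          exact ts_iff.1 he i h'
        · have : i = m := by omega
          subst this
          rw [e2, SP_congr e1]
          obtain ⟨lam, hl, ha⟩ := ts_iff.1 h n (Nat.lt_succ_self n)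
          exact ⟨lam, hl, fun g => hle (ha g)⟩
      · rw [e3]
        exact linearIndependent_finSnoc.2 ⟨hli, hm⟩
      · by_cases h' : i < n
        · have h2 : SP m e ≤ SP (m + 1) E := SP_le fun j hj => e1 j hj ▸ SP_mem E (by omega)
          exact h2 (hle (SP_mem F h'))
        · have : i = n := by omega
          rw [this, ← e2]
          exact SP_mem E (Nat.lt_succ_self m)

/-- the members of an independent triangular sequence -/
theorem inv_mem {m : ℕ} {e : ℕ → H → K} (h : TS Λ m e) (hli : LinearIndependent K (fun i : Fin m => e i))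
    {i : ℕ} (hi : i < m) : Rp Λ fun x => e i x⁻¹ := by
  -- the matrix
  choose! lam a hl ha using h
  set A : H → ℕ → ℕ → K := fun g i j => if i = j then (lam i g : K) else if j < i then a i g j else 0 with hA
  have hA1 : ∀ g i, A g i i = lam i g := fun g i => if_pos rfl
  have hA2 : ∀ g i j, i < j → A g i j = 0 := fun g i j hij => by
    rw [hA]
    simp only
    rw [if_neg hij.ne, if_neg (by omega)]
  have hA3 : ∀ i < m, ∀ x g, e i (x * g) = ∑ j ∈ range m, A g i j * e j x := fun i hi x g => by
    rw [ha i hi x g]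
    have h1 : range m = insert i (range m \ {i}) := by
      ext j
      simp only [mem_range, mem_insert, mem_sdiff, mem_singleton]
      omega
    have h2 : ∑ j ∈ range m \ {i}, A g i j * e j x = ∑ j ∈ range i, a i g j * e j x := by
      have h3 : ∑ j ∈ range i, a i g j * e j x = ∑ j ∈ range i, A g i j * e j x := by
        refine sum_congr rfl fun j hj => ?_
        have hj' := mem_range.1 hj
        rw [hA]
        simp only
        rw [if_neg (by omega : ¬ i = j), if_pos hj']
      rw [h3]
      symm
      refine sum_subset (fun j hj => ?_) fun j hj hj' => ?_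
      · have hj' := mem_range.1 hj
        simp only [mem_sdiff, mem_range, mem_singleton]
        omega
      · have h4 : i < j := by
          simp only [mem_sdiff, mem_range, mem_singleton] at hj hj'
          omega
        rw [hA2 g i j h4, zero_mul]
    rw [h1, sum_insert (by simp), h2, hA1]
  have hli' : ∀ c : ℕ → K, (∀ x, ∑ j ∈ range m, c j * e j x = 0) → ∀ j < m, c j = 0 := by
    intro c hc j hj
    refine Fintype.linearIndependent_iff.1 hli (fun j => c j) ?_ ⟨j, hj⟩
    funext x
    rw [Finset.sum_apply, Pi.zero_apply, ← hc x, ← Fin.sum_univ_eq_sum_range (fun j => c j * e j x) m]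
    rfl
  have hmul : ∀ g h, ∀ i < m, ∀ k < m, A (g * h) i k = ∑ j ∈ range m, A h i j * A g j k := by
    intro g h i hi k hk
    have := hli' (fun k => A (g * h) i k - ∑ j ∈ range m, A h i j * A g j k) (fun x => ?_) k hk
    · exact sub_eq_zero.1 this
    · have h1 : ∑ k ∈ range m, (∑ j ∈ range m, A h i j * A g j k) * e k x = e i (x * (g * h)) := by
        simp only [sum_mul]
        rw [sum_comm, ← mul_assoc, hA3 i hi]
        refine sum_congr rfl fun j hj => ?_
        rw [hA3 j (mem_range.1 hj), mul_sum]
        exact sum_congr rfl fun k _ => by ring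
      simp only [sub_mul, sum_sub_distrib]
      rw [h1, ← hA3 i hi, sub_self]
  -- the sequence of the row `i`
  have hts : TS Λ (i + 1) (fun t x => A x⁻¹ i (i - t)) := by
    refine ts_iff.2 fun t ht => ⟨(lam (i - t))⁻¹, fun g => ?_, fun g => ?_⟩
    · rw [MonoidHom.inv_apply]
      exact Λ.inv_mem (hl _ (by omega) g)
    · have h1 : (fun x => A (x * g)⁻¹ i (i - t) - ((lam (i - t))⁻¹ g : Kˣ) * A x⁻¹ i (i - t)) =
          ∑ k ∈ (range m).erase (i - t), fun x => A g⁻¹ k (i - t) * A x⁻¹ i k := by
        funext x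
        have h2 : (((lam (i - t))⁻¹ g : Kˣ) : K) = A g⁻¹ (i - t) (i - t) := by
          rw [hA1, MonoidHom.inv_apply, map_inv]
        rw [Finset.sum_apply, h2, mul_inv_rev, hmul g⁻¹ x⁻¹ i hi (i - t) (by omega),
          ← Finset.add_sum_erase _ _ (mem_range.2 (by omega : i - t < m))]
        rw [mul_comm (A x⁻¹ i (i - t)), add_sub_cancel_left]
        exact sum_congr rfl fun k _ => mul_comm _ _
      have h3 : (fun x => (fun t (x : H) => A x⁻¹ i (i - t)) t (x * g) -
          ((lam (i - t))⁻¹ g : Kˣ) * (fun t (x : H) => A x⁻¹ i (i - t)) t x) =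
          ∑ k ∈ (range m).erase (i - t), fun x => A g⁻¹ k (i - t) * A x⁻¹ i k := h1
      rw [h3]
      refine Submodule.sum_mem _ fun k hk => ?_
      rw [mem_erase, mem_range] at hk
      by_cases h4 : i < k
      · have h5 : (fun x : H => A g⁻¹ k (i - t) * A x⁻¹ i k) = 0 := by
          funext x
          rw [hA2 x⁻¹ i k h4, mul_zero]
          rfl
        rw [h5]
        exact Submodule.zero_mem _
      · by_cases h6 : k < i - t
        · have h5 : (fun x : H => A g⁻¹ k (i - t) * A x⁻¹ i k) = 0 := by
            funext x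
            rw [hA2 g⁻¹ k (i - t) h6, zero_mul]
            rfl
          rw [h5]
          exact Submodule.zero_mem _
        · have h7 : (fun x : H => A g⁻¹ k (i - t) * A x⁻¹ i k) =
              A g⁻¹ k (i - t) • (fun t (x : H) => A x⁻¹ i (i - t)) (i - k) := by
            funext x
            simp only [Pi.smul_apply, smul_eq_mul]
            rw [show i - (i - k) = k by omega]
          rw [h7]
          exact Submodule.smul_mem _ _ (SP_mem _ (by omega))
  refine rp_of_span hts (mem_SP.2 ⟨fun t => e (i - t) 1, fun x => ?_⟩)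
  have h1 := hA3 i hi 1 x⁻¹
  rw [one_mul] at h1
  have h2 : ∑ j ∈ range m, A x⁻¹ i j * e j 1 = ∑ j ∈ range (i + 1), A x⁻¹ i j * e j 1 := by
    symm
    refine sum_subset (fun j hj => ?_) fun j _ hj' => ?_
    · rw [mem_range] at hj ⊢
      omega
    · rw [mem_range] at hj'
      rw [hA2 x⁻¹ i j (by omega), zero_mul]
  rw [h1, h2, ← sum_range_reflect]
  refine sum_congr rfl fun j hj => ?_
  have hj' := mem_range.1 hj
  rw [show i + 1 - 1 - j = i - j by omega, mul_comm]

end

end RI

section

variable {K : Type} [Field K] {H : Type} [Group H] {Λ : Subgroup Kˣ}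

/-- **inverses** of representative functions -/
theorem rp_inv {f : H → K} (hf : Rp Λ f) : Rp Λ fun x => f x⁻¹ := by
  obtain ⟨n, F, hF, hf⟩ := RI.rp_mem hf
  obtain ⟨m, e, he, hli, hle⟩ := RI.ts_indep hF
  have h1 : RI.SP m e ≤ (RI.Orep Λ H).comap (LinearMap.funLeft K K fun x : H => x⁻¹) :=
    RI.SP_le fun i hi => RI.inv_mem he hli hi
  exact h1 (hle hf)

/-- **points and dual functions** of a finite-dimensional space of functions -/
theorem exists_pts {X : Type} (M : Submodule K (X → K)) [FiniteDimensional K M] :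
    ∃ (n : ℕ) (p : Fin n → X) (t : Fin n → X → K), (∀ i, t i ∈ M) ∧
      (∀ i j, t i (p j) = if i = j then 1 else 0) ∧ ∀ f ∈ M, f = ∑ k, f (p k) • t k := by
  have key : ∀ (d : ℕ) (M : Submodule K (X → K)), FiniteDimensional K M → Module.finrank K M ≤ d →
      ∃ (n : ℕ) (p : Fin n → X) (t : Fin n → X → K), (∀ i, t i ∈ M) ∧
      (∀ i j, t i (p j) = if i = j then 1 else 0) ∧ ∀ f ∈ M, f = ∑ k, f (p k) • t k := by
    intro d
    induction d with
    | zero =>
      intro M hM hd
      have h0 : M = ⊥ := Submodule.finrank_eq_zero.1 (Nat.le_zero.1 hd)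
      refine ⟨0, Fin.elim0, Fin.elim0, fun i => i.elim0, fun i => i.elim0, fun f hf => ?_⟩
      rw [h0, Submodule.mem_bot] at hf
      subst hf
      simp
    | succ d ih =>
      intro M hM hd
      by_cases h0 : M = ⊥
      · refine ⟨0, Fin.elim0, Fin.elim0, fun i => i.elim0, fun i => i.elim0, fun f hf => ?_⟩
        rw [h0, Submodule.mem_bot] at hf
        subst hf
        simp
      · obtain ⟨f, hf, hf0⟩ := Submodule.exists_mem_ne_zero_of_ne_bot h0
        obtain ⟨q, hq⟩ := Function.ne_iff.1 hf0
        rw [Pi.zero_apply] at hq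
        have hlt : M ⊓ LinearMap.ker (LinearMap.proj q : (X → K) →ₗ[K] K) < M := by
          refine lt_of_le_of_ne inf_le_left fun h => hq ?_
          have h1 : f ∈ M ⊓ LinearMap.ker (LinearMap.proj q : (X → K) →ₗ[K] K) := h.symm ▸ hf
          exact (Submodule.mem_inf.1 h1).2
        have hfd : FiniteDimensional K ↥(M ⊓ LinearMap.ker (LinearMap.proj q : (X → K) →ₗ[K] K)) :=
          Submodule.finiteDimensional_of_le inf_le_left
        obtain ⟨n, p, t, h1, h2, h3⟩ := ih _ hfd
          (by have := Submodule.finrank_lt_finrank_of_lt hlt; omega)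
        have ht0 : ∀ i, t i q = 0 := fun i => (Submodule.mem_inf.1 (h1 i)).2
        obtain ⟨t0, h4, h5, h6⟩ : ∃ t0 ∈ M, t0 q = 1 ∧ ∀ j, t0 (p j) = 0 := by
          refine ⟨(f q)⁻¹ • (f - ∑ k, f (p k) • t k), Submodule.smul_mem _ _ (sub_mem hf
            (Submodule.sum_mem _ fun k _ => Submodule.smul_mem _ _ (h1 k).1)), ?_, fun j => ?_⟩
          · simp only [Pi.smul_apply, Pi.sub_apply, Finset.sum_apply, smul_eq_mul, ht0, mul_zero,
              sum_const_zero, sub_zero]
            exact inv_mul_cancel₀ hq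
          · simp only [Pi.smul_apply, Pi.sub_apply, Finset.sum_apply, smul_eq_mul, h2, mul_ite, mul_one,
              mul_zero, sum_ite_eq', mem_univ, if_true, sub_self]
        refine ⟨n + 1, Fin.cons q p, Fin.cons t0 t, fun i => ?_, fun i j => ?_, fun g hg => ?_⟩
        · refine Fin.cases ?_ (fun i => ?_) i
          · rw [Fin.cons_zero]
            exact h4
          · rw [Fin.cons_succ]
            exact (h1 i).1
        · refine Fin.cases ?_ (fun i => ?_) i
          · refine Fin.cases ?_ (fun j => ?_) j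
            · rw [Fin.cons_zero, Fin.cons_zero, if_pos rfl, h5]
            · rw [Fin.cons_zero, Fin.cons_succ, if_neg (Fin.succ_ne_zero j).symm, h6]
          · refine Fin.cases ?_ (fun j => ?_) j
            · rw [Fin.cons_zero, Fin.cons_succ, if_neg (Fin.succ_ne_zero i), ht0]
            · rw [Fin.cons_succ, Fin.cons_succ, h2]
              simp only [Fin.succ_inj]
        · rw [Fin.sum_univ_succ]
          simp only [Fin.cons_zero, Fin.cons_succ]
          have h7 : g - g q • t0 ∈ M ⊓ LinearMap.ker (LinearMap.proj q : (X → K) →ₗ[K] K) := by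
            refine Submodule.mem_inf.2 ⟨sub_mem hg (Submodule.smul_mem _ _ h4), ?_⟩
            rw [LinearMap.mem_ker]
            show g q - g q * t0 q = 0
            rw [h5, mul_one, sub_self]
          have h8 := h3 _ h7
          simp only [Pi.sub_apply, Pi.smul_apply, smul_eq_mul, h6, mul_zero, sub_zero] at h8
          rw [← h8]
          abel
  exact key _ M inferInstance le_rfl

end

end Pool.Agent.S9
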