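import Pool.Agent.S9.TEc
import Pool.Agent.S9.Cnt
import Pool.Agent.S9.BdBd
import Pool.Agent.S9.E.BaseA
import Pool.Agent.S9.IntHH
import Pool.Agent.S9.IntT

/-!
# Project S9: the interface between the tower and block E
-/

set_option autoImplicit false
set_option linter.unusedSectionVars false

open Finset

namespace Pool.Agent.S9

open Pool.Agent.H77.SW Pool.Agent.H19.SR Pool.Agent.H73.GC

variable {V : Type} [DecidableEq V] [Fintype V] {G : SimpleGraph V} {W : Type} [Group W]

theorem KI_charP (I : Type) : CharP (KI I) 2 := by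
  haveI h1 : CharP (RI I) 2 := by
    refine CharP.of_ringHom_of_ne_zero (AddMonoidAlgebra.singleZeroRingHom (R := ZMod 2) (M := I → ℤ)) 2 (by decide)
  exact charP_of_injective_algebraMap (IsFractionRing.injective (RI I) (KI I)) 2

/-- the dimension of the homology of a level with coefficients in the tautological character -/
theorem hh_hchi (R : Rac G W) {Γ : Subgroup W} [Γ.Normal] [Fintype (W ⧸ Γ)] (hΓ : Lev R Γ) {I : Type}
    (ab : Γ →* Multiplicative (I → ℤ)) (χ : Γ →* (KI I)ˣ) (hχ : ∀ g, (χ g : KI I) = tt (ab g).toAdd)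
    (i : ℕ) : hh R Γ (ch χ) i = hchi (qD R hΓ) (eab R ab) i := by
  rw [hh_eq_sub R hΓ, finrank_Zc_chi R hΓ ab χ hχ, finrank_Zc_chi R hΓ ab χ hχ,
    (dictC R hΓ (ch χ) (i + 1)).finrank_eq, finrank_Cz, Module.finrank_self, mul_one]
  · rfl
  · intro v p
    rw [← Module.End.mul_eq_comp, ← map_mul, gam_inv R hΓ, map_one]
    rfl
  · intro u v h p
    rw [← Module.End.mul_eq_comp, ← Module.End.mul_eq_comp, ← map_mul, ← map_mul, gam_comm R hΓ h]

/-- **integrality** -/
theorem T_int (R : Rac G W) (m : ℕ) {r : ℕ} (ab : T R m →* Multiplicative (Fin r → ℤ))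
    (hab : Function.Surjective ab) (h0 : ∀ f : T R m →* Multiplicative ℤ, ∀ g, ab g = 1 → f g = 1)
    (χ : T R m →* (KI (Fin r))ˣ) (hχ : ∀ g, (χ g : KI (Fin r)) = tt (ab g).toAdd) (k : ℕ) :
    (((T R m).relIndex (T R 0) : ℕ) : ℤ) ∣ hh R (T R m) (ch χ) k := by
  have hle : T R m ≤ T R 0 := T_anti R (Nat.zero_le m)
  have hk : ∀ g : W, g ∈ kz (T R m) ↔ ∃ h : g ∈ T R m, ab ⟨g, h⟩ = 1 := by
    intro g
    constructor
    · rintro ⟨h, h1⟩
      refine ⟨h, ?_⟩
      have h2 : Multiplicative.toAdd (ab ⟨g, h⟩) = 0 := by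
        funext i
        have h3 := h1 ((AddMonoidHom.toMultiplicative (Pi.evalAddMonoidHom (fun _ : Fin r => ℤ) i)).comp ab)
        exact h3
      exact h2
    · rintro ⟨h, h1⟩
      exact ⟨h, fun f => h0 f _ h1⟩
  haveI : UniqueProds (T R 0 ⧸ (kz (T R m)).subgroupOf (T R 0)) :=
    up_quot R (N := kz (T R m)) (m := m) ab (fun g => by
      rw [hk]
      exact ⟨fun ⟨_, h⟩ => h, fun h => ⟨g.2, h⟩⟩) (fun g hg => hg)
  exact int_hh R hle (by
    have h1 := Subgroup.relIndex_mul_index hle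
    intro h2
    rw [h2, zero_mul] at h1
    exact (T_lev R m).fin.index_ne_zero h1.symm) ab hab h0 ((kz (T R m)).subgroupOf (T R 0))
    (fun g => by
      rw [Subgroup.mem_subgroupOf]
      exact hk g) χ hχ k

/-- **the interface between the tower and block E**: there is a level at which the growth of the character is at most
the growth of all finite quotients -/
theorem TE (R : Rac G W) (i : ℕ) :
    ∃ (m r : ℕ) (ab : T R m →* Multiplicative (Fin r → ℤ)), Function.Surjective ab ∧
      (∀ f : T R m →* Multiplicative ℤ, ∀ g, ab g = 1 → f g = 1) ∧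
      MinAt (qD R (T_lev R m)) (eab R ab) i := by
  refine te_core R i (fun P _ _ D r e _ => spec D e i) fun m r ab h1 h2 => ?_
  have h3 := T_int R m ab h1 h2 (chiab ab) (chiab_coe ab) i
  have h4 := hh_hchi R (T_lev R m) ab (chiab ab) (chiab_coe ab) i
  haveI := KI_charP (Fin r)
  have h5 := hh_nonneg R (T_lev R m) (ch (chiab ab)) i
  rw [h4] at h3 h5
  obtain ⟨b, hb⟩ := h3
  have hle : T R m ≤ T R 0 := T_anti R (Nat.zero_le m)
  have h6 : (Fintype.card (W ⧸ T R m) : ℤ) =
      ((T R m).relIndex (T R 0) : ℕ) * (Fintype.card (W ⧸ T R 0) : ℤ) := by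
    have h7 := Subgroup.relIndex_mul_index hle
    rw [← Nat.card_eq_fintype_card, ← Nat.card_eq_fintype_card]
    show (((T R m).index : ℕ) : ℤ) = _ * (((T R 0).index : ℕ) : ℤ)
    rw [← h7]
    push_cast
    ring
  have h8 : (0 : ℤ) < ((T R m).relIndex (T R 0) : ℕ) := by
    have h9 : (T R m).relIndex (T R 0) ≠ 0 := by
      intro h9
      have h7 := Subgroup.relIndex_mul_index hle
      rw [h9, zero_mul] at h7
      exact (T_lev R m).fin.index_ne_zero h7.symm
    exact_mod_cast Nat.pos_of_ne_zero h9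
  have h10 : 0 ≤ b := by
    rw [hb] at h5
    exact nonneg_of_mul_nonneg_right h5 h8
  refine ⟨b.toNat, ?_⟩
  rw [Int.toNat_of_nonneg h10, h6]
  have h11 : hchi (qD R (T_lev R m)) (fun v p => Multiplicative.toAdd (ab (gam R v p))) i =
      ((T R m).relIndex (T R 0) : ℕ) * b := hb
  rw [h11]
  ring

end Pool.Agent.S9
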