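import Pool.Agent.S9.CofT
import Pool.Agent.S9.Dict
import Pool.Agent.S9.E.Count

/-!
# Project S9: the minimal level of the tower

`te_core`: if the growth of the character of every level is an integral multiple of `1 / |W ⧸ T 0|` (integrality) and
at most the mod 2 growth (specialisation), then it is at most the growth of all finite quotients at some level.
-/

set_option autoImplicit false
set_option linter.unusedSectionVars false

open Finset

namespace Pool.Agent.S9

open Pool.Agent.H77.SW Pool.Agent.H19.SR Pool.Agent.H73.GC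

variable {V : Type} [DecidableEq V] [Fintype V] {G : SimpleGraph V} {W : Type} [Group W]

instance T_normal (R : Rac G W) (m : ℕ) : (T R m).Normal := (T_lev R m).normal

instance T_finiteIndex (R : Rac G W) (m : ℕ) : (T R m).FiniteIndex := (T_lev R m).fin

noncomputable instance T_fintype (R : Rac G W) (m : ℕ) : Fintype (W ⧸ T R m) := Fintype.ofFinite _

/-- the coordinates of the characters of the level `m` -/
theorem T_coord (R : Rac G W) (m : ℕ) : ∃ (r : ℕ) (ab : T R m →* Multiplicative (Fin r → ℤ)),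
    Function.Surjective ab ∧ ∀ f : T R m →* Multiplicative ℤ, ∀ g, ab g = 1 → f g = 1 := by
  haveI := R.fg
  haveI : Group.FG (T R m) := Subgroup.fg_of_index_ne_zero (T R m)
  obtain ⟨r, c, hc, hf⟩ := exists_coord (T R m)
  refine ⟨r, c, hc, fun f g hg => ?_⟩
  obtain ⟨y, hy⟩ := hf f
  have h1 := hy g
  rw [hg] at h1
  have h2 : Multiplicative.toAdd (f g) = 0 := by
    rw [h1]
    exact sum_eq_zero fun i _ => mul_zero _
  exact h2

/-- **the minimal level** -/
theorem te_core (R : Rac G W) (i : ℕ)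
    (hspec : ∀ (P : Type) [Group P] [Fintype P] (D : PG G P) (r : ℕ) (e : V → P → Fin r → ℤ),
      IsEv D e → hchi D e i ≤ hX (Cq G univ) (regP D.g) i)
    (hint : ∀ (m r : ℕ) (ab : T R m →* Multiplicative (Fin r → ℤ)), Function.Surjective ab →
      (∀ f : T R m →* Multiplicative ℤ, ∀ g, ab g = 1 → f g = 1) →
      ∃ b : ℕ, hchi (qD R (T_lev R m)) (fun v p => Multiplicative.toAdd (ab (gam R v p))) i *
        Fintype.card (W ⧸ T R 0) = b * Fintype.card (W ⧸ T R m)) :
    ∃ (m r : ℕ) (ab : T R m →* Multiplicative (Fin r → ℤ)), Function.Surjective ab ∧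
      (∀ f : T R m →* Multiplicative ℤ, ∀ g, ab g = 1 → f g = 1) ∧
      MinAt (qD R (T_lev R m)) (fun v p => Multiplicative.toAdd (ab (gam R v p))) i := by
  classical
  -- the possible integers
  let S : Set ℕ := {b | ∃ (m r : ℕ) (ab : T R m →* Multiplicative (Fin r → ℤ)), Function.Surjective ab ∧
    (∀ f : T R m →* Multiplicative ℤ, ∀ g, ab g = 1 → f g = 1) ∧
    hchi (qD R (T_lev R m)) (fun v p => Multiplicative.toAdd (ab (gam R v p))) i *
        Fintype.card (W ⧸ T R 0) = b * Fintype.card (W ⧸ T R m)}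
  have hS : S.Nonempty := by
    obtain ⟨r, ab, h1, h2⟩ := T_coord R 0
    obtain ⟨b, hb⟩ := hint 0 r ab h1 h2
    exact ⟨b, 0, r, ab, h1, h2, hb⟩
  obtain ⟨m, r, ab, h1, h2, h3⟩ := Nat.sInf_mem hS
  refine ⟨m, r, ab, h1, h2, ?_⟩
  intro P' _ _ D'
  -- a level which maps to `P'`
  obtain ⟨f, hf⟩ := R.lift P' D'.g D'.sq D'.comm
  obtain ⟨m', hm'⟩ := T_hom R D'.two f
  obtain ⟨r', ab', h1', h2'⟩ := T_coord R m'
  obtain ⟨b', hb'⟩ := hint m' r' ab' h1' h2'
  have hle : sInf S ≤ b' := Nat.sInf_le ⟨m', r', ab', h1', h2', hb'⟩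
  have hev : IsEv (qD R (T_lev R m')) (fun v p => Multiplicative.toAdd (ab' (gam R v p))) := by
    refine ⟨fun v p => ?_, fun u v huv p => ?_⟩
    · rw [← toAdd_mul, ← map_mul, gam_inv, map_one]
      rfl
    · rw [← toAdd_mul, ← toAdd_mul, ← map_mul, ← map_mul, gam_comm R (T_lev R m') huv]
  have hs := hspec (W ⧸ T R m') (qD R (T_lev R m')) r' _ hev
  have hm := mono_reg D' (qD R (T_lev R m')) (QuotientGroup.lift (T R m') f fun x hx => hm' x hx)
    (fun v => by
      rw [qD_g, QuotientGroup.lift_mk]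
      exact hf v) i
  have hc0 : (0 : ℤ) < Fintype.card (W ⧸ T R 0) := by exact_mod_cast Fintype.card_pos
  have hcm : (0 : ℤ) < Fintype.card (W ⧸ T R m) := by exact_mod_cast Fintype.card_pos
  have hcm' : (0 : ℤ) < Fintype.card (W ⧸ T R m') := by exact_mod_cast Fintype.card_pos
  have hcP : (0 : ℤ) < Fintype.card P' := by exact_mod_cast Fintype.card_pos
  have hle' : ((sInf S : ℕ) : ℤ) ≤ b' := by exact_mod_cast hle
  set x := hchi (qD R (T_lev R m)) (fun v p => Multiplicative.toAdd (ab (gam R v p))) i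
  set x' := hchi (qD R (T_lev R m')) (fun v p => Multiplicative.toAdd (ab' (gam R v p))) i
  set y' := hX (Cq G univ) (regP (qD R (T_lev R m')).g) i
  set y := hX (Cq G univ) (regP D'.g) i
  set c0 : ℤ := ((Fintype.card (W ⧸ T R 0) : ℕ) : ℤ)
  set cm : ℤ := ((Fintype.card (W ⧸ T R m) : ℕ) : ℤ)
  set cm' : ℤ := ((Fintype.card (W ⧸ T R m') : ℕ) : ℤ)
  set cP' : ℤ := ((Fintype.card P' : ℕ) : ℤ)
  -- `x * cm' ≤ x' * cm`
  have e1 : x * cm' ≤ x' * cm := by
    have e2 : x * cm' * c0 ≤ x' * cm * c0 := by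
      have e3 : x * cm' * c0 = (sInf S : ℕ) * cm * cm' := by rw [← h3]; ring
      have e4 : x' * cm * c0 = b' * cm' * cm := by rw [← hb']; ring
      rw [e3, e4]
      have e5 : (0 : ℤ) < cm * cm' := mul_pos hcm hcm'
      nlinarith
    exact le_of_mul_le_mul_right e2 hc0
  have e6 : cP' * x * cm' ≤ cm * y * cm' := by
    calc cP' * x * cm' = cP' * (x * cm') := by ring
      _ ≤ cP' * (x' * cm) := mul_le_mul_of_nonneg_left e1 hcP.le
      _ = cm * (cP' * x') := by ring
      _ ≤ cm * (cP' * y') := mul_le_mul_of_nonneg_left (mul_le_mul_of_nonneg_left hs hcP.le) hcm.le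
      _ ≤ cm * (cm' * y) := mul_le_mul_of_nonneg_left hm hcm.le
      _ = cm * y * cm' := by ring
  exact le_of_mul_le_mul_right e6 hcm'

end Pool.Agent.S9
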